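import Mathlib

/-!
# Newform Dedekind sums: basic definitions (MP_b72257_nt)
-/

open Complex
open scoped MatrixGroups ComplexConjugate Real

namespace NDS

/-- The sawtooth function `B₁`: `{x} - 1/2` off the integers, `0` on the integers. -/
noncomputable def B1 (x : ℝ) : ℝ := if Int.fract x = 0 then 0 else Int.fract x - 1 / 2

/-- The newform Dedekind sum `S_{χ₁,χ₂}(γ)`, as a function of the left column `(a, c)` of
`γ = (a b; c d)` (it is only used for `1 ≤ c`). -/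
noncomputable def S {q₁ q₂ : ℕ} (χ₁ : DirichletCharacter ℂ q₁) (χ₂ : DirichletCharacter ℂ q₂)
    (a c : ℤ) : ℂ :=
  ∑ k ∈ Finset.range q₁, ∑ m ∈ Finset.range c.toNat,
    conj (χ₁ (k : ZMod q₁)) * conj (χ₂ (m : ZMod q₂)) *
      ((B1 ((a : ℝ) * m / c + k / q₁) : ℝ) : ℂ) * ((B1 ((m : ℝ) / c) : ℝ) : ℂ)

/-- The additive group `L` generated by the values of `S_{χ₁,χ₂}` on the matrices of `Γ₁(q₁q₂)`
with lower left entry `≥ 1`. -/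
noncomputable def L {q₁ q₂ : ℕ} (χ₁ : DirichletCharacter ℂ q₁) (χ₂ : DirichletCharacter ℂ q₂) :
    AddSubgroup ℂ :=
  AddSubgroup.closure
    {s : ℂ | ∃ γ ∈ CongruenceSubgroup.Gamma1 (q₁ * q₂), 1 ≤ γ 1 0 ∧ s = S χ₁ χ₂ (γ 0 0) (γ 1 0)}

/-- The ring `O = ℤ[χ₁, χ₂]`. -/
noncomputable def O {q₁ q₂ : ℕ} (χ₁ : DirichletCharacter ℂ q₁) (χ₂ : DirichletCharacter ℂ q₂) :
    Subalgebra ℤ ℂ :=
  Algebra.adjoin ℤ (Set.range χ₁ ∪ Set.range χ₂)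

/-- The field `F = ℚ(χ₁, χ₂)`. -/
noncomputable def F {q₁ q₂ : ℕ} (χ₁ : DirichletCharacter ℂ q₁) (χ₂ : DirichletCharacter ℂ q₂) :
    IntermediateField ℚ ℂ :=
  IntermediateField.adjoin ℚ (Set.range χ₁ ∪ Set.range χ₂)

/-- `e(z) = exp(2πiz)`. -/
noncomputable def e (z : ℂ) : ℂ := Complex.exp (2 * π * I * z)

/-- The holomorphic logarithm `f(z) = ∑_{A,n ≥ 1} χ₁(A) χ̄₂(n)/A · e(nAz)`. -/
noncomputable def f {q₁ q₂ : ℕ} (χ₁ : DirichletCharacter ℂ q₁) (χ₂ : DirichletCharacter ℂ q₂)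
    (z : ℂ) : ℂ :=
  ∑' p : ℕ+ × ℕ+, χ₁ ((p.1 : ℕ) : ZMod q₁) * conj (χ₂ ((p.2 : ℕ) : ZMod q₂)) / ((p.1 : ℕ) : ℂ) *
    e (((p.1 : ℕ) : ℂ) * ((p.2 : ℕ) : ℂ) * z)

/-- The Gauss sum `∑_k χ(k) e(k/q)`. -/
noncomputable def G {q : ℕ} (χ : DirichletCharacter ℂ q) : ℂ :=
  ∑ k ∈ Finset.range q, χ (k : ZMod q) * e ((k : ℂ) / q)

end NDS
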