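import Pool.Agent.H7.NDS.Eval2

/-!
# The weight two Eisenstein series via the Weierstrass function
-/

open Complex Filter PeriodPair
open scoped MatrixGroups ComplexConjugate Real Topology

namespace NDS

set_option linter.unusedSectionVars false

lemma wp_smul (L L' : PeriodPair) {D : ℂ} (hD : D ≠ 0)
    (h : ∀ x, x ∈ L'.lattice ↔ D * x ∈ L.lattice) (w : ℂ) : ℘[L'] (w / D) = D ^ 2 * ℘[L] w := by
  let eq : L'.lattice ≃ L.lattice :=
    { toFun := fun l => ⟨D * l.1, (h _).mp l.2⟩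
      invFun := fun l => ⟨l.1 / D, (h _).mpr (by rw [mul_div_cancel₀ _ hD]; exact l.2)⟩
      left_inv := fun l => by
        apply Subtype.ext
        show D * l.1 / D = l.1
        field_simp
      right_inv := fun l => by
        apply Subtype.ext
        show D * (l.1 / D) = l.1
        field_simp }
  unfold weierstrassP
  rw [← eq.tsum_eq, ← tsum_mul_left]
  refine tsum_congr fun l => ?_
  show 1 / (w / D - (l : ℂ)) ^ 2 - 1 / (l : ℂ) ^ 2 =
    D ^ 2 * (1 / (w - D * l.1) ^ 2 - 1 / (D * l.1) ^ 2)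
  have e1 : w / D - (l : ℂ) = (w - D * l.1) / D := by field_simp
  rw [e1, div_pow, mul_pow, mul_sub]
  congr 1
  · rw [one_div_div]; ring
  · rcases eq_or_ne (l.1 : ℂ) 0 with h0 | h0
    · rw [h0]; simp
    · field_simp

variable (q₁ q₂ : ℕ) [NeZero q₁] [NeZero q₂]

lemma indep {τ : ℂ} (h : 0 < τ.im) :
    LinearIndependent ℝ ![(q₁ : ℂ) * τ, (q₂ : ℂ)] := by
  rw [LinearIndependent.pair_iff]
  intro s t hst
  have h1 := congr_arg Complex.im hst
  have h2 := congr_arg Complex.re hst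
  have hq₁ : (q₁ : ℝ) ≠ 0 := by exact_mod_cast NeZero.ne q₁
  have hq₂ : (q₂ : ℝ) ≠ 0 := by exact_mod_cast NeZero.ne q₂
  simp only [Complex.add_im, Complex.real_smul, Complex.mul_im, Complex.ofReal_re,
    Complex.ofReal_im, Complex.natCast_re, Complex.natCast_im, Complex.zero_im, Complex.mul_re,
    zero_mul, mul_zero, add_zero] at h1
  have hs : s = 0 := by
    rcases mul_eq_zero.mp h1 with h | h'
    · exact h
    · rcases mul_eq_zero.mp h' with h'' | h''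
      · exact absurd h'' hq₁
      · linarith
  subst hs
  simp only [zero_smul, zero_add, Complex.real_smul, Complex.mul_re, Complex.ofReal_re,
    Complex.natCast_re, Complex.ofReal_im, Complex.natCast_im, mul_zero, sub_zero,
    Complex.zero_re] at h2
  exact ⟨rfl, (mul_eq_zero.mp h2).resolve_right hq₂⟩

/-- The lattice `ℤ q₁ τ + ℤ q₂`. -/
noncomputable def Lat (τ : ℂ) (h : 0 < τ.im) : PeriodPair := ⟨q₁ * τ, q₂, indep q₁ q₂ h⟩

lemma mem_Lat {τ : ℂ} (h : 0 < τ.im) {x : ℂ} :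
    x ∈ (Lat q₁ q₂ τ h).lattice ↔ ∃ m n : ℤ, (m : ℂ) * (q₁ * τ) + n * q₂ = x :=
  PeriodPair.mem_lattice

variable {q₁ q₂}
variable (χ₁ : DirichletCharacter ℂ q₁) (χ₂ : DirichletCharacter ℂ q₂)

/-- The Eisenstein series. -/
noncomputable def Eis (τ : ℂ) (h : 0 < τ.im) : ℂ :=
  ∑ x ∈ Finset.range q₁, ∑ y ∈ Finset.range q₂,
    χ₁ (x : ZMod q₁) * χ₂ (y : ZMod q₂) * ℘[Lat q₁ q₂ τ h] (x * τ + y)

/-- Transformation of `Eis` : `γ' = (a, q₂ b; q₁ c, d)` with `a d - q₁ q₂ b c = 1`,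
`a ≡ d ≡ 1 mod q₁q₂`. -/
theorem Eis_transf {a b c d a₁ d₁ : ℤ} (hdet : a * d - q₁ * q₂ * b * c = 1)
    (ha : a = 1 + q₁ * q₂ * a₁) (hd : d = 1 + q₁ * q₂ * d₁) {τ : ℂ} (h : 0 < τ.im)
    (h' : 0 < (((a : ℂ) * τ + q₂ * b) / (q₁ * c * τ + d)).im)
    (hD : ((q₁ : ℂ) * c * τ + d) ≠ 0) :
    Eis χ₁ χ₂ (((a : ℂ) * τ + q₂ * b) / (q₁ * c * τ + d)) h' =
      (q₁ * c * τ + d) ^ 2 * Eis χ₁ χ₂ τ h := by
  set D := ((q₁ : ℂ) * c * τ + d) with hDdef
  set τ' := (((a : ℂ) * τ + q₂ * b) / D) with hτ'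
  have hdetC : (a : ℂ) * d - q₁ * q₂ * b * c = 1 := by exact_mod_cast hdet
  have hlat : ∀ x, x ∈ (Lat q₁ q₂ τ' h').lattice ↔ D * x ∈ (Lat q₁ q₂ τ h).lattice := by
    intro x
    rw [mem_Lat, mem_Lat]
    constructor
    · rintro ⟨m, n, rfl⟩
      refine ⟨m * a + n * q₂ * c, m * q₁ * b + n * d, ?_⟩
      push_cast
      rw [hτ']
      field_simp
      rw [hDdef]
      ring
    · rintro ⟨m, n, hmn⟩
      refine ⟨m * d - n * q₂ * c, -m * q₁ * b + n * a, ?_⟩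
      apply mul_left_cancel₀ hD
      rw [← hmn]
      push_cast
      rw [hτ']
      field_simp
      rw [hDdef]
      linear_combination ((m : ℂ) * q₁ * τ + n * q₂) * hdetC
  unfold Eis
  rw [Finset.mul_sum]
  refine Finset.sum_congr rfl fun x _ => ?_
  rw [Finset.mul_sum]
  refine Finset.sum_congr rfl fun y _ => ?_
  have e1 : (x : ℂ) * τ' + y = ((x : ℂ) * τ + y +
      (((x * q₂ * a₁ + y * c : ℤ) : ℂ) * (q₁ * τ) + ((x * b + y * q₁ * d₁ : ℤ) : ℂ) * q₂)) / D := by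
    rw [hτ']
    field_simp
    have haC : (a : ℂ) = 1 + q₁ * q₂ * a₁ := by exact_mod_cast ha
    have hdC : (d : ℂ) = 1 + q₁ * q₂ * d₁ := by exact_mod_cast hd
    rw [hDdef, hdC, haC]
    push_cast
    ring
  rw [e1, wp_smul (Lat q₁ q₂ τ h) (Lat q₁ q₂ τ' h') hD hlat]
  have e2 : ((((x * q₂ * a₁ + y * c : ℤ) : ℂ) * (q₁ * τ) + ((x * b + y * q₁ * d₁ : ℤ) : ℂ) * q₂)) ∈
      (Lat q₁ q₂ τ h).lattice := (mem_Lat q₁ q₂ h).mpr ⟨_, _, rfl⟩
  have e3 := (Lat q₁ q₂ τ h).weierstrassP_add_coe ((x : ℂ) * τ + y) ⟨_, e2⟩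
  rw [e3]
  ring

end NDS
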