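import Pool.Agent.H7.NDS.Eis1

/-!
# The `q`-expansion of the Eisenstein series
-/

open Complex Filter PeriodPair
open scoped MatrixGroups ComplexConjugate Real Topology

namespace NDS

set_option linter.unusedSectionVars false

/-- `∑_n 1/(z - n q)²` -/
noncomputable def H (q : ℕ) (z : ℂ) : ℂ := ∑' n : ℤ, 1 / (z - n * q) ^ 2

lemma summable_H (q : ℕ) [NeZero q] (z : ℂ) : Summable (fun n : ℤ => 1 / (z - n * q) ^ 2) := by
  have h1 := EisensteinSeries.linear_right_summable (z / q) 1 (k := 2) le_rfl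
  have h2 := ((Equiv.neg ℤ).summable_iff.mpr h1).mul_left (1 / (q : ℂ) ^ 2)
  refine h2.congr fun n => ?_
  have hq : (q : ℂ) ≠ 0 := by exact_mod_cast NeZero.ne q
  simp only [Function.comp, Equiv.neg_apply]
  push_cast
  rw [one_mul, one_div, one_div, ← mul_inv]
  congr 1
  have : z - n * q = q * (z / q + -n) := by field_simp; ring
  rw [this, mul_pow]
  norm_cast

lemma hasSum_H (q : ℕ) [NeZero q] (z : ℂ) : HasSum (fun n : ℤ => 1 / (z - n * q) ^ 2) (H q z) :=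
  (summable_H q z).hasSum

lemma H_neg (q : ℕ) (z : ℂ) : H q (-z) = H q z := by
  unfold H
  rw [← (Equiv.neg ℤ).tsum_eq]
  refine tsum_congr fun n => ?_
  simp only [Equiv.neg_apply]
  push_cast
  congr 1
  ring

lemma H_add (q : ℕ) (z : ℂ) (m : ℤ) : H q (z + m * q) = H q z := by
  unfold H
  rw [← (Equiv.addRight m).tsum_eq]
  refine tsum_congr fun n => ?_
  simp only [Equiv.coe_addRight]
  push_cast
  congr 1
  ring

lemma H_value (q : ℕ) [NeZero q] {z : ℂ} (hz : 0 < z.im) :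
    H q z = (-4 * π ^ 2 / (q : ℂ) ^ 2) * ∑' A : ℕ+, ((A : ℕ) : ℂ) * e (((A : ℕ) : ℂ) * (z / q)) := by
  have hq : (q : ℂ) ≠ 0 := by exact_mod_cast NeZero.ne q
  have hq' : (0 : ℝ) < q := by exact_mod_cast Nat.pos_of_ne_zero (NeZero.ne q)
  have hz' : 0 < (z / q).im := by
    rw [Complex.div_natCast_im]; positivity
  have h1 := EisensteinSeries.qExpansion_identity_pnat (k := 1) le_rfl ⟨z / q, hz'⟩
  have h2 : H q z = (1 / (q : ℂ) ^ 2) * ∑' n : ℤ, 1 / ((z / q : ℂ) + n) ^ (1 + 1) := by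
    unfold H
    rw [← (Equiv.neg ℤ).tsum_eq, ← tsum_mul_left]
    refine tsum_congr fun n => ?_
    simp only [Equiv.neg_apply]
    push_cast
    have : z - -(n : ℂ) * q = q * (z / q + n) := by field_simp; ring
    rw [this, mul_pow, one_div, one_div, one_div, mul_inv]
  rw [h2]
  have h3 : ∑' n : ℤ, 1 / ((z / q : ℂ) + n) ^ (1 + 1) =
    ((-2 * π * I) ^ (1 + 1) / (Nat.factorial 1 : ℂ)) *
    ∑' n : ℕ+, ((n : ℕ) : ℂ) ^ 1 * cexp (2 * π * I * (z / q)) ^ (n : ℕ) := h1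
  rw [h3]
  have h4 : (-2 * π * I : ℂ) ^ (1 + 1) / (Nat.factorial 1 : ℂ) = -4 * π ^ 2 := by
    simp only [Nat.factorial_one, Nat.cast_one, div_one]
    linear_combination (4 * (π : ℂ) ^ 2) * Complex.I_sq
  rw [h4, ← mul_assoc]
  congr 1
  · ring
  · refine tsum_congr fun A => ?_
    rw [pow_one, e_nat_mul, e]

lemma summable_pe {z : ℂ} (hz : 0 < z.im) :
    Summable (fun A : ℕ+ => ((A : ℕ) : ℂ) * e (((A : ℕ) : ℂ) * z)) := by
  have h1 : ‖e z‖ < 1 := by rw [norm_e]; exact exp_lt_one_of_im_pos hz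
  have h2 := (summable_pow_mul_geometric_of_norm_lt_one 1 h1).comp_injective PNat.coe_injective
  refine h2.congr fun A => ?_
  simp [e_nat_mul]

variable {q₁ q₂ : ℕ} [NeZero q₁] [NeZero q₂] (χ₁ : DirichletCharacter ℂ q₁)
  (χ₂ : DirichletCharacter ℂ q₂)

/-- `∑_s χ₂(s)/(z+s)²` -/
noncomputable def Psi (z : ℂ) : ℂ := ∑ y ∈ Finset.range q₂, χ₂ (y : ZMod q₂) * H q₂ (z + y)

lemma Psi_neg (z : ℂ) : Psi χ₂ (-z) = χ₂ (-1) * Psi χ₂ z := by
  unfold Psi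
  have hper : Per q₂ (fun y : ℤ => χ₂ (y : ZMod q₂) * H q₂ (z - y)) := by
    intro y
    simp only
    rw [char_cast_eq χ₂ (a := y + q₂) (b := y) ⟨1, by ring⟩]
    congr 1
    have := H_add q₂ (z - (y : ℂ)) (-1)
    rw [← this]
    congr 1
    push_cast
    ring
  have h1 := hper.sum_neg
  calc ∑ y ∈ Finset.range q₂, χ₂ (y : ZMod q₂) * H q₂ (-z + y)
      = ∑ y ∈ Finset.range q₂, χ₂ (((y : ℤ)) : ZMod q₂) * H q₂ (z - ((y : ℤ) : ℂ)) := by
        refine Finset.sum_congr rfl fun y _ => ?_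
        rw [← H_neg q₂ (-z + y)]
        push_cast
        congr 2
        ring
    _ = ∑ y ∈ Finset.range q₂, χ₂ (((-(y : ℤ) : ℤ)) : ZMod q₂) * H q₂ (z - ((-(y : ℤ) : ℤ) : ℂ)) := h1.symm
    _ = _ := by
        rw [Finset.mul_sum]
        refine Finset.sum_congr rfl fun y _ => ?_
        rw [show χ₂ (((-(y : ℤ) : ℤ)) : ZMod q₂) = χ₂ (-1) * χ₂ (y : ZMod q₂) by
          rw [← map_mul]; congr 1; push_cast; ring]
        push_cast
        rw [sub_neg_eq_add]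
        ring

/-- The constant `K₀`. -/
noncomputable def K0 : ℂ := -4 * π ^ 2 / (q₂ : ℂ) ^ 2 * G χ₂

lemma hasSum_Psi (h₂ : χ₂.IsPrimitive) {z : ℂ} (hz : 0 < z.im) :
    HasSum (fun A : ℕ+ => K0 χ₂ * (((A : ℕ) : ℂ) * conj (χ₂ ((A : ℕ) : ZMod q₂)) *
      e (((A : ℕ) : ℂ) * (z / q₂)))) (Psi χ₂ z) := by
  have hq : (q₂ : ℂ) ≠ 0 := by exact_mod_cast NeZero.ne q₂
  have hq' : (0 : ℝ) < q₂ := by exact_mod_cast Nat.pos_of_ne_zero (NeZero.ne q₂)
  have h1 : ∀ y ∈ Finset.range q₂, HasSum (fun A : ℕ+ => χ₂ (y : ZMod q₂) *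
      ((-4 * π ^ 2 / (q₂ : ℂ) ^ 2) * (((A : ℕ) : ℂ) * e (((A : ℕ) : ℂ) * ((z + y) / q₂)))))
      (χ₂ (y : ZMod q₂) * H q₂ (z + y)) := by
    intro y _
    have him : 0 < (z + (y : ℂ)).im := by simpa using hz
    rw [H_value q₂ him]
    apply HasSum.mul_left
    apply HasSum.mul_left
    apply Summable.hasSum
    apply summable_pe
    rw [Complex.div_natCast_im]; positivity
  have h2 := hasSum_sum h1
  have h3 : (fun A : ℕ+ => K0 χ₂ * (((A : ℕ) : ℂ) * conj (χ₂ ((A : ℕ) : ZMod q₂)) *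
      e (((A : ℕ) : ℂ) * (z / q₂)))) = fun A : ℕ+ => ∑ y ∈ Finset.range q₂, χ₂ (y : ZMod q₂) *
      ((-4 * π ^ 2 / (q₂ : ℂ) ^ 2) * (((A : ℕ) : ℂ) * e (((A : ℕ) : ℂ) * ((z + y) / q₂)))) := by
    funext A
    have hg := gauss_shift χ₂ h₂ ((A : ℕ) : ℤ)
    push_cast at hg
    have e1 : ∀ y ∈ Finset.range q₂, χ₂ (y : ZMod q₂) *
      ((-4 * π ^ 2 / (q₂ : ℂ) ^ 2) * (((A : ℕ) : ℂ) * e (((A : ℕ) : ℂ) * ((z + y) / q₂)))) =
      ((-4 * π ^ 2 / (q₂ : ℂ) ^ 2) * ((A : ℕ) : ℂ) * e (((A : ℕ) : ℂ) * (z / q₂))) *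
        (χ₂ (y : ZMod q₂) * e ((y : ℂ) * (A : ℕ) / q₂)) := by
      intro y _
      have e2 : ((A : ℕ) : ℂ) * ((z + y) / q₂) = ((A : ℕ) : ℂ) * (z / q₂) + (y : ℂ) * (A : ℕ) / q₂ := by
        field_simp
      rw [e2, e_add]
      ring
    rw [Finset.sum_congr rfl e1, ← Finset.mul_sum, hg, K0, conj_char]
    ring
  rw [h3]
  exact h2

end NDS
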