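import Pool.Agent.H7.NDS.Eis2

/-!
# The Eisenstein series is a multiple of `f'`
-/

open Complex Filter PeriodPair
open scoped MatrixGroups ComplexConjugate Real Topology

namespace NDS

set_option linter.unusedSectionVars false

variable {q₁ q₂ : ℕ} [NeZero q₁] [NeZero q₂] (χ₁ : DirichletCharacter ℂ q₁)
  (χ₂ : DirichletCharacter ℂ q₂)

lemma hasSum_wp {τ : ℂ} (h : 0 < τ.im) (w : ℂ) :
    HasSum (fun p : ℤ × ℤ => 1 / (w - ((p.1 : ℂ) * (q₁ * τ) + p.2 * q₂)) ^ 2 -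
      1 / ((p.1 : ℂ) * (q₁ * τ) + p.2 * q₂) ^ 2) (℘[Lat q₁ q₂ τ h] w) := by
  have h1 := (Lat q₁ q₂ τ h).hasSum_weierstrassP w
  have h2 := ((Lat q₁ q₂ τ h).latticeEquivProd.symm.toEquiv.hasSum_iff
    (f := fun l : (Lat q₁ q₂ τ h).lattice => (1 / (w - l) ^ 2 - 1 / (l : ℂ) ^ 2))
    (a := ℘[Lat q₁ q₂ τ h] w)).mpr h1
  have h3 : ((fun l : (Lat q₁ q₂ τ h).lattice => (1 / (w - l) ^ 2 - 1 / (l : ℂ) ^ 2)) ∘
      (Lat q₁ q₂ τ h).latticeEquivProd.symm.toEquiv) =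
      (fun p : ℤ × ℤ => 1 / (w - ((p.1 : ℂ) * (q₁ * τ) + p.2 * q₂)) ^ 2 -
      1 / ((p.1 : ℂ) * (q₁ * τ) + p.2 * q₂) ^ 2) := by
    funext p
    have := (Lat q₁ q₂ τ h).latticeEquiv_symm_apply p
    simp only [Function.comp]
    have e1 : (((Lat q₁ q₂ τ h).latticeEquivProd.symm.toEquiv p : (Lat q₁ q₂ τ h).lattice) : ℂ) =
        (p.1 : ℂ) * (q₁ * τ) + p.2 * q₂ := this
    rw [e1]
  rw [h3] at h2
  exact h2

lemma sum_char_zero' {q : ℕ} [NeZero q] {χ : DirichletCharacter ℂ q} (h : χ ≠ 1) :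
    ∑ k ∈ Finset.range q, χ (k : ZMod q) = 0 := by
  rw [sum_range_zmod q (fun z => χ z), MulChar.sum_eq_zero_of_ne_one h]

/-- total summand -/
noncomputable def tsm (τ : ℂ) (p : ℤ × ℤ) : ℂ := ∑ x ∈ Finset.range q₁, χ₁ (x : ZMod q₁) *
      ∑ y ∈ Finset.range q₂, χ₂ (y : ZMod q₂) *
        (1 / ((((x : ℂ) - p.1 * q₁) * τ + y) - p.2 * q₂) ^ 2)

lemma tsm_eq (n₁ : χ₁ ≠ 1) (τ : ℂ) (p : ℤ × ℤ) : ∑ x ∈ Finset.range q₁, ∑ y ∈ Finset.range q₂,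
      χ₁ (x : ZMod q₁) * χ₂ (y : ZMod q₂) *
        (1 / ((x * τ + y) - ((p.1 : ℂ) * (q₁ * τ) + p.2 * q₂)) ^ 2 -
      1 / ((p.1 : ℂ) * (q₁ * τ) + p.2 * q₂) ^ 2) = tsm χ₁ χ₂ τ p := by
  have e0 : ∑ x ∈ Finset.range q₁, ∑ y ∈ Finset.range q₂,
      χ₁ (x : ZMod q₁) * χ₂ (y : ZMod q₂) * (1 / ((p.1 : ℂ) * (q₁ * τ) + p.2 * q₂) ^ 2) = 0 := by
    rw [Finset.sum_comm]
    simp_rw [← Finset.sum_mul]
    rw [sum_char_zero' n₁]
    simp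
  unfold tsm
  simp_rw [mul_sub, Finset.sum_sub_distrib]
  rw [e0, sub_zero]
  refine Finset.sum_congr rfl fun x _ => ?_
  rw [Finset.mul_sum]
  refine Finset.sum_congr rfl fun y _ => ?_
  rw [mul_assoc]
  congr 3
  ring

lemma hasSum_tsm (n₁ : χ₁ ≠ 1) {τ : ℂ} (h : 0 < τ.im) :
    HasSum (tsm χ₁ χ₂ τ) (Eis χ₁ χ₂ τ h) := by
  have h1 : HasSum (fun p : ℤ × ℤ => ∑ x ∈ Finset.range q₁, ∑ y ∈ Finset.range q₂,
      χ₁ (x : ZMod q₁) * χ₂ (y : ZMod q₂) *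
        (1 / ((x * τ + y) - ((p.1 : ℂ) * (q₁ * τ) + p.2 * q₂)) ^ 2 -
      1 / ((p.1 : ℂ) * (q₁ * τ) + p.2 * q₂) ^ 2)) (Eis χ₁ χ₂ τ h) :=
    hasSum_sum fun x _ => hasSum_sum fun y _ => (hasSum_wp h _).mul_left _
  have h2 := funext (tsm_eq χ₁ χ₂ n₁ τ)
  rw [h2] at h1
  exact h1

lemma hasSum_tsm_inner (τ : ℂ) (m : ℤ) :
    HasSum (fun n : ℤ => tsm χ₁ χ₂ τ (m, n)) (∑ x ∈ Finset.range q₁, χ₁ (x : ZMod q₁) *
      Psi χ₂ (((x : ℂ) - m * q₁) * τ)) := by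
  have h1 : ∀ x ∈ Finset.range q₁, HasSum (fun n : ℤ => χ₁ (x : ZMod q₁) *
      ∑ y ∈ Finset.range q₂, χ₂ (y : ZMod q₂) *
        (1 / ((((x : ℂ) - m * q₁) * τ + y) - n * q₂) ^ 2))
      (χ₁ (x : ZMod q₁) * Psi χ₂ (((x : ℂ) - m * q₁) * τ)) := by
    intro x _
    apply HasSum.mul_left
    unfold Psi
    refine hasSum_sum fun y _ => ?_
    apply HasSum.mul_left
    exact hasSum_H q₂ (((x : ℂ) - m * q₁) * τ + y)
  exact hasSum_sum h1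

lemma hasSum_Eis (n₁ : χ₁ ≠ 1) {τ : ℂ} (h : 0 < τ.im) :
    HasSum (fun m : ℤ => ∑ x ∈ Finset.range q₁, χ₁ (x : ZMod q₁) *
      Psi χ₂ (((x : ℂ) - m * q₁) * τ)) (Eis χ₁ χ₂ τ h) :=
  (hasSum_tsm χ₁ χ₂ n₁ h).prod_fiberwise (hasSum_tsm_inner χ₁ χ₂ τ)

/-- The sum over positive `r`. -/
lemma hasSum_pos (h₂ : χ₂.IsPrimitive) {τ : ℂ} (h : 0 < τ.im) :
    HasSum (fun r : ℕ+ => χ₁ ((r : ℕ) : ZMod q₁) * Psi χ₂ (((r : ℕ) : ℂ) * τ))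
      (K0 χ₂ / (2 * π * I) * deriv (f χ₁ χ₂) (τ / q₂)) := by
  have hq' : (0 : ℝ) < q₂ := by exact_mod_cast Nat.pos_of_ne_zero (NeZero.ne q₂)
  have hτ' : 0 < (τ / q₂).im := by rw [Complex.div_natCast_im]; positivity
  have h1 := ((hasSum_deriv_f χ₁ χ₂ hτ').1).mul_left (K0 χ₂ / (2 * π * I))
  refine h1.prod_fiberwise fun r => ?_
  have hr : 0 < (((r : ℕ) : ℂ) * τ).im := by
    have : (0 : ℝ) < (r : ℕ) := by exact_mod_cast r.pos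
    rw [Complex.mul_im, Complex.natCast_re, Complex.natCast_im, zero_mul, add_zero]
    positivity
  have h2 := (hasSum_Psi χ₂ h₂ hr).mul_left (χ₁ ((r : ℕ) : ZMod q₁))
  have hpi : (2 * π * I : ℂ) ≠ 0 := Complex.two_pi_I_ne_zero
  have hfun : (fun c : ℕ+ => K0 χ₂ / (2 * π * I) * (2 * π * I * (χ₁ ((r : ℕ) : ZMod q₁) *
      (((c : ℕ) : ℂ) * conj (χ₂ ((c : ℕ) : ZMod q₂))) *
      e (((r : ℕ) : ℂ) * ((c : ℕ) : ℂ) * (τ / q₂))))) = fun A : ℕ+ => χ₁ ((r : ℕ) : ZMod q₁) *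
      (K0 χ₂ * (((A : ℕ) : ℂ) * conj (χ₂ ((A : ℕ) : ZMod q₂)) *
      e (((A : ℕ) : ℂ) * ((((r : ℕ) : ℂ) * τ) / q₂)))) := by
    funext A
    have e1 : ((r : ℕ) : ℂ) * ((A : ℕ) : ℂ) * (τ / q₂) = ((A : ℕ) : ℂ) * ((((r : ℕ) : ℂ) * τ) / q₂) := by
      ring
    rw [e1]
    field_simp
  exact hfun ▸ h2

theorem Eis_eq (h₂ : χ₂.IsPrimitive) (n₁ : χ₁ ≠ 1) (par : χ₁ (-1) * χ₂ (-1) = 1) {τ : ℂ}
    (h : 0 < τ.im) :
    Eis χ₁ χ₂ τ h = 2 * (K0 χ₂ / (2 * π * I) * deriv (f χ₁ χ₂) (τ / q₂)) := by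
  set T := (K0 χ₂ / (2 * π * I) * deriv (f χ₁ χ₂) (τ / q₂)) with hT
  set g : ℤ → ℂ := fun r => χ₁ (r : ZMod q₁) * Psi χ₂ ((r : ℂ) * τ) with hg
  have hg0 : g 0 = 0 := by simp [hg, char_zero n₁]
  have hgneg : ∀ r, g (-r) = g r := by
    intro r
    simp only [hg]
    rw [show χ₁ (((-r : ℤ)) : ZMod q₁) = χ₁ (-1) * χ₁ (r : ZMod q₁) by
          rw [← map_mul]; congr 1; push_cast; ring]
    have : ((-r : ℤ) : ℂ) * τ = -((r : ℂ) * τ) := by push_cast; ring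
    rw [this, Psi_neg]
    linear_combination (χ₁ (r : ZMod q₁) * Psi χ₂ ((r : ℂ) * τ)) * par
  have hpos := hasSum_pos χ₁ χ₂ h₂ h
  have hnat : HasSum (fun n : ℕ => g n) T := by
    have h2 := (PNat.coe_injective.hasSum_iff (f := fun n : ℕ => g n) (a := T) ?_).mp
    · apply h2
      have e1 : ((fun n : ℕ => g n) ∘ PNat.val) = fun r : ℕ+ => χ₁ ((r : ℕ) : ZMod q₁) *
          Psi χ₂ (((r : ℕ) : ℂ) * τ) := by
        funext r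
        simp [hg]
      rw [e1]
      exact hpos
    · intro n hn
      have : n = 0 := by
        by_contra h0
        exact hn ⟨⟨n, Nat.pos_of_ne_zero h0⟩, rfl⟩
      subst this
      exact hg0
  have hnat' : HasSum (fun n : ℕ => g (-((n : ℤ) + 1))) T := by
    have h2 := (hasSum_nat_add_iff' (f := fun n : ℕ => g n) 1).mpr hnat
    simp only [Finset.range_one, Finset.sum_singleton, Nat.cast_zero] at h2
    rw [hg0, sub_zero] at h2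
    have h3 : (fun n : ℕ => g (-((n : ℤ) + 1))) = fun n : ℕ => g ((n + 1 : ℕ) : ℤ) := by
      funext n; rw [hgneg]; push_cast; rfl
    rw [h3]; exact h2
  have hint : HasSum g (T + T) := HasSum.of_nat_of_neg_add_one hnat hnat'
  have hprod := ((Int.divModEquiv q₁).symm.hasSum_iff (f := g) (a := T + T)).mpr hint
  have hfib : HasSum (fun m : ℤ => ∑ x : Fin q₁, (g ∘ (Int.divModEquiv q₁).symm) (m, x)) (T + T) :=
    hprod.prod_fiberwise fun m => hasSum_fintype _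
  have hE := hasSum_Eis χ₁ χ₂ n₁ h
  have hE' := ((Equiv.neg ℤ).hasSum_iff (f := fun m : ℤ => ∑ x ∈ Finset.range q₁,
      χ₁ (x : ZMod q₁) * Psi χ₂ (((x : ℂ) - m * q₁) * τ)) (a := Eis χ₁ χ₂ τ h)).mpr hE
  have heq : (fun m : ℤ => ∑ x : Fin q₁, (g ∘ (Int.divModEquiv q₁).symm) (m, x)) =
      (fun m : ℤ => ∑ x ∈ Finset.range q₁,
      χ₁ (x : ZMod q₁) * Psi χ₂ (((x : ℂ) - m * q₁) * τ)) ∘ (Equiv.neg ℤ) := by
    funext m
    simp only [Function.comp, Equiv.neg_apply]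
    rw [Finset.sum_range]
    refine Finset.sum_congr rfl fun x _ => ?_
    have e1 : (Int.divModEquiv q₁).symm (m, x) = m * q₁ + (x : ℕ) := rfl
    rw [e1]
    simp only [hg]
    congr 1
    · congr 1; push_cast; simp
    · congr 1; push_cast; ring
  rw [heq] at hfib
  have := hE'.unique hfib
  rw [this]
  ring

end NDS
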