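import Pool.Agent.H7.NDS.Lim4

/-!
# Evaluation of the limit: the Dedekind sum
-/

open Complex Filter
open scoped MatrixGroups ComplexConjugate Real Topology

namespace NDS

set_option linter.unusedSectionVars false

variable {q₁ q₂ : ℕ} [NeZero q₁] [NeZero q₂] (χ₁ : DirichletCharacter ℂ q₁)
  (χ₂ : DirichletCharacter ℂ q₂)

variable {c : ℕ} [NeZero c] {a : ℤ}

lemma B1_neg (x : ℝ) : B1 (-x) = -B1 x := by
  unfold B1
  by_cases h : Int.fract x = 0
  · have : Int.fract (-x) = 0 := Int.fract_neg_eq_zero.mpr h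
    simp [h, this]
  · have h' : Int.fract (-x) ≠ 0 := fun h0 => h (Int.fract_neg_eq_zero.mp h0)
    rw [if_neg h, if_neg h', Int.fract_neg h]
    ring

lemma B1_add_int (x : ℝ) (n : ℤ) : B1 (x + n) = B1 x := by
  unfold B1; rw [Int.fract_add_intCast]

/-- `log |1 - e(θ)|` -/
noncomputable def rho (θ : ℝ) : ℝ := Real.log (2 * Real.sin (π * Int.fract θ))

lemma rho_neg (θ : ℝ) : rho (-θ) = rho θ := by
  unfold rho
  by_cases h : Int.fract θ = 0
  · rw [h, Int.fract_neg_eq_zero.mpr h]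
  · rw [Int.fract_neg h]
    congr 2
    rw [show π * (1 - Int.fract θ) = π - π * Int.fract θ by ring, Real.sin_pi_sub]

lemma rho_add_int (x : ℝ) (n : ℤ) : rho (x + n) = rho x := by
  unfold rho; rw [Int.fract_add_intCast]

lemma log_one_sub_e {θ : ℝ} (h : Int.fract θ ≠ 0) :
    Complex.log (1 - e θ) = ((rho θ : ℝ) : ℂ) + π * I * ((B1 θ : ℝ) : ℂ) := by
  set t := Int.fract θ with ht
  have ht0 : 0 < t := lt_of_le_of_ne (Int.fract_nonneg θ) (Ne.symm h)
  have ht1 : t < 1 := Int.fract_lt_one θ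
  have hpi := Real.pi_pos
  have e1 : e θ = e t := by
    have : ((θ : ℝ) : ℂ) = (t : ℂ) + ((⌊θ⌋ : ℤ) : ℂ) := by
      have h7 : θ = t + (⌊θ⌋ : ℝ) := (Int.fract_add_floor θ).symm
      conv_lhs => rw [h7]
      push_cast
      rfl
    rw [this, e_add_int]
  have hsin : 0 < 2 * Real.sin (π * t) := by
    have := Real.sin_pos_of_pos_of_lt_pi (x := π * t) (by positivity) (by nlinarith)
    positivity
  have e2 : 1 - e θ = ((2 * Real.sin (π * t) : ℝ) : ℂ) * Complex.exp (((π * (t - 1 / 2) : ℝ) : ℂ) * I) := by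
    rw [e1, e]
    have e3 : Complex.exp (2 * π * I * t) = Complex.exp (π * t * I) * Complex.exp (π * t * I) := by
      rw [← Complex.exp_add]; congr 1; ring
    have e4 : Complex.exp (((π * (t - 1 / 2) : ℝ) : ℂ) * I) = Complex.exp (π * t * I) * (-I) := by
      have : ((π * (t - 1 / 2) : ℝ) : ℂ) * I = π * t * I + (-(π / 2 * I)) := by push_cast; ring
      rw [this, Complex.exp_add, Complex.exp_neg, Complex.exp_pi_div_two_mul_I, Complex.inv_I]
    have e5 : Complex.exp (π * t * I) * Complex.exp (-(π * t * I)) = 1 := by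
      rw [← Complex.exp_add]; simp
    rw [e3, e4]
    push_cast
    rw [Complex.sin]
    have e6 : Complex.exp (-(π * t : ℂ) * I) = Complex.exp (-(π * t * I)) := by congr 1; ring
    rw [e6]
    linear_combination (I ^ 2) * e5 + (1 - Complex.exp (π * t * I) * Complex.exp (π * t * I)) * Complex.I_sq
  rw [e2, Complex.log_ofReal_mul hsin (Complex.exp_ne_zero _), Complex.log_exp]
  · rw [rho, ← ht, B1, if_neg h, ← ht]
    push_cast
    ring
  · simp only [Complex.mul_im, Complex.ofReal_re, Complex.I_im, mul_one, Complex.ofReal_im,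
      Complex.I_re, mul_zero, add_zero]
    nlinarith
  · simp only [Complex.mul_im, Complex.ofReal_re, Complex.I_im, mul_one, Complex.ofReal_im,
      Complex.I_re, mul_zero, add_zero]
    nlinarith

lemma w_eq (k n : ℤ) : w q₁ c a k n = e (((k : ℝ) / q₁ + (n : ℝ) * a / c : ℝ) : ℂ) := by
  rw [w]; push_cast; rfl

lemma fract_ne (n₂ : χ₂ ≠ 1) (hc : q₁ * q₂ ∣ c) (ha : ((q₁ * q₂ : ℕ) : ℤ) ∣ a - 1) {k n : ℤ}
    (hn : χ₂ (n : ZMod q₂) ≠ 0) : Int.fract ((k : ℝ) / q₁ + (n : ℝ) * a / c) ≠ 0 := by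
  intro h
  apply w_ne_one χ₂ n₂ hc ha (k := k) hn
  rw [w_eq]
  rw [Int.fract_eq_zero_iff] at h
  obtain ⟨m, hm⟩ := h
  rw [← hm]
  push_cast
  exact e_int m

end NDS
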