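import Pool.Agent.H7.NDS.Eval

/-!
# Evaluation of the limit: the Dedekind sum, part 2
-/

open Complex Filter
open scoped MatrixGroups ComplexConjugate Real Topology

namespace NDS

set_option linter.unusedSectionVars false

variable {q₁ q₂ : ℕ} [NeZero q₁] [NeZero q₂] (χ₁ : DirichletCharacter ℂ q₁)
  (χ₂ : DirichletCharacter ℂ q₂)

variable {c : ℕ} [NeZero c] {a : ℤ}

lemma char_neg {q : ℕ} (χ : DirichletCharacter ℂ q) (k : ℤ) :
    χ (((-k : ℤ)) : ZMod q) = χ (-1) * χ (k : ZMod q) := by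
  rw [← map_mul]; congr 1; push_cast; ring

/-- The terms with real weights cancel. -/
lemma real_part_zero (par : χ₁ (-1) * χ₂ (-1) = 1) (hc : q₁ * q₂ ∣ c) :
    ∑ r ∈ Finset.range c, ∑ k ∈ Finset.range q₁,
      conj (χ₂ ((r : ℤ) : ZMod q₂)) * conj (χ₁ ((k : ℤ) : ZMod q₁)) *
        (((B1 (((r : ℤ) : ℝ) / c) : ℝ) : ℂ) *
          ((rho (((k : ℤ) : ℝ) / q₁ + ((r : ℤ) : ℝ) * a / c) : ℝ) : ℂ)) = 0 := by
  set Fr : ℤ → ℤ → ℂ := fun r k => conj (χ₂ (r : ZMod q₂)) * conj (χ₁ (k : ZMod q₁)) *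
        (((B1 ((r : ℝ) / c) : ℝ) : ℂ) * ((rho ((k : ℝ) / q₁ + (r : ℝ) * a / c) : ℝ) : ℂ)) with hFr
  have hcne : (c : ℝ) ≠ 0 := by exact_mod_cast NeZero.ne c
  have hq₁ : (q₁ : ℝ) ≠ 0 := by exact_mod_cast NeZero.ne q₁
  have hq₂c : (q₂ : ℤ) ∣ (c : ℤ) := by
    exact_mod_cast (dvd_mul_left q₂ q₁).trans hc
  have hperk : ∀ r, Per q₁ (fun k => Fr r k) := by
    intro r k
    simp only [hFr]
    rw [char_cast_eq χ₁ (a := k + q₁) (b := k) ⟨1, by ring⟩]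
    have : ((k + (q₁ : ℤ) : ℤ) : ℝ) / q₁ + (r : ℝ) * a / c =
        ((k : ℝ) / q₁ + (r : ℝ) * a / c) + ((1 : ℤ) : ℝ) := by
      push_cast; field_simp; ring
    rw [this, rho_add_int]
  have hperr : ∀ k, Per c (fun r => Fr r k) := by
    intro k r
    simp only [hFr]
    rw [char_cast_eq χ₂ (a := r + c) (b := r) (by simpa using hq₂c)]
    have e1 : (k : ℝ) / q₁ + ((r + (c : ℤ) : ℤ) : ℝ) * a / c =
        ((k : ℝ) / q₁ + (r : ℝ) * a / c) + ((a : ℤ) : ℝ) := by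
      push_cast; field_simp; ring
    have e2 : ((r + (c : ℤ) : ℤ) : ℝ) / c = (r : ℝ) / c + ((1 : ℤ) : ℝ) := by
      push_cast; field_simp
    rw [e1, e2, rho_add_int, B1_add_int]
  have hneg : ∀ r k, Fr (-r) (-k) = -Fr r k := by
    intro r k
    simp only [hFr]
    rw [char_neg χ₂ r, char_neg χ₁ k]
    have e1 : ((-k : ℤ) : ℝ) / q₁ + ((-r : ℤ) : ℝ) * a / c = -((k : ℝ) / q₁ + (r : ℝ) * a / c) := by
      push_cast; ring
    have e2 : ((-r : ℤ) : ℝ) / c = -((r : ℝ) / c) := by push_cast; ring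
    rw [e1, e2, rho_neg, B1_neg]
    have hp : conj (χ₁ (-1)) * conj (χ₂ (-1)) = 1 := by rw [← map_mul, par, map_one]
    rw [map_mul, map_mul]
    push_cast
    linear_combination (-(conj (χ₂ (r : ZMod q₂)) * conj (χ₁ (k : ZMod q₁)) *
        (((B1 ((r : ℝ) / c) : ℝ) : ℂ) * ((rho ((k : ℝ) / q₁ + (r : ℝ) * a / c) : ℝ) : ℂ)))) * hp
  have h1 : ∑ r ∈ Finset.range c, ∑ k ∈ Finset.range q₁, Fr r k =
      ∑ r ∈ Finset.range c, ∑ k ∈ Finset.range q₁, Fr (-r) (-k) := by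
    calc ∑ r ∈ Finset.range c, ∑ k ∈ Finset.range q₁, Fr r k
        = ∑ r ∈ Finset.range c, ∑ k ∈ Finset.range q₁, Fr r (-k) := by
          refine Finset.sum_congr rfl fun r _ => ?_
          exact ((hperk r).sum_neg).symm
      _ = ∑ k ∈ Finset.range q₁, ∑ r ∈ Finset.range c, Fr r (-k) := Finset.sum_comm
      _ = ∑ k ∈ Finset.range q₁, ∑ r ∈ Finset.range c, Fr (-r) (-k) := by
          refine Finset.sum_congr rfl fun k _ => ?_
          exact ((hperr (-k)).sum_neg).symm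
      _ = _ := Finset.sum_comm
  have h2 : ∑ r ∈ Finset.range c, ∑ k ∈ Finset.range q₁, Fr (-r) (-k) =
      -∑ r ∈ Finset.range c, ∑ k ∈ Finset.range q₁, Fr r k := by
    simp_rw [hneg, Finset.sum_neg_distrib]
  have h3 : ∑ r ∈ Finset.range c, ∑ k ∈ Finset.range q₁, Fr r k = 0 := by
    rw [h2] at h1
    exact self_eq_neg.mp h1
  exact h3

theorem eval_limit (n₁ : χ₁ ≠ 1) (n₂ : χ₂ ≠ 1) (par : χ₁ (-1) * χ₂ (-1) = 1)
    (hc : q₁ * q₂ ∣ c) (ha : ((q₁ * q₂ : ℕ) : ℤ) ∣ a - 1) :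
    (∑ r ∈ Finset.range c, conj (χ₂ ((r : ℤ) : ZMod q₂)) * ∑ k ∈ Finset.range q₁,
        conj (χ₁ ((k : ℤ) : ZMod q₁)) * (-((((r : ℝ) / c : ℝ) : ℂ) * lg (w q₁ c a k r) 0))) =
      π * I * S χ₁ χ₂ a c := by
  have hcne : (c : ℝ) ≠ 0 := by exact_mod_cast NeZero.ne c
  have hlg : ∀ ω, lg ω 0 = -Complex.log (1 - ω) := by intro ω; simp [lg]
  have hm := mean_zero χ₁ χ₂ n₁ hc ha (fun ω => Complex.log (1 - ω))
  have hr := real_part_zero χ₁ χ₂ (a := a) par hc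
  have hS : π * I * S χ₁ χ₂ a c = ∑ r ∈ Finset.range c, ∑ k ∈ Finset.range q₁,
      conj (χ₂ ((r : ℤ) : ZMod q₂)) * conj (χ₁ ((k : ℤ) : ZMod q₁)) *
        (((B1 (((r : ℤ) : ℝ) / c) : ℝ) : ℂ) *
          (π * I * ((B1 (((k : ℤ) : ℝ) / q₁ + ((r : ℤ) : ℝ) * a / c) : ℝ) : ℂ))) := by
    rw [S, Finset.sum_comm, Finset.mul_sum]
    have : (c : ℤ).toNat = c := Int.toNat_natCast c
    rw [this]
    refine Finset.sum_congr rfl fun r _ => ?_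
    rw [Finset.mul_sum]
    refine Finset.sum_congr rfl fun k _ => ?_
    have e1 : (a : ℝ) * r / ((c : ℤ) : ℝ) + k / q₁ = ((k : ℤ) : ℝ) / q₁ + ((r : ℤ) : ℝ) * a / c := by
      push_cast; ring
    have e2 : (r : ℝ) / ((c : ℤ) : ℝ) = ((r : ℤ) : ℝ) / c := by push_cast; ring
    rw [e1, e2]
    push_cast
    ring
  rw [hS]
  have hterm : ∀ r ∈ Finset.range c, ∀ k ∈ Finset.range q₁,
      conj (χ₂ ((r : ℤ) : ZMod q₂)) * (conj (χ₁ ((k : ℤ) : ZMod q₁)) *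
        (-((((r : ℝ) / c : ℝ) : ℂ) * lg (w q₁ c a k r) 0))) =
      conj (χ₂ ((r : ℤ) : ZMod q₂)) * (conj (χ₁ ((k : ℤ) : ZMod q₁)) *
        Complex.log (1 - w q₁ c a k r)) * (1 / 2) +
      conj (χ₂ ((r : ℤ) : ZMod q₂)) * conj (χ₁ ((k : ℤ) : ZMod q₁)) *
        (((B1 (((r : ℤ) : ℝ) / c) : ℝ) : ℂ) *
          ((rho (((k : ℤ) : ℝ) / q₁ + ((r : ℤ) : ℝ) * a / c) : ℝ) : ℂ)) +
      conj (χ₂ ((r : ℤ) : ZMod q₂)) * conj (χ₁ ((k : ℤ) : ZMod q₁)) *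
        (((B1 (((r : ℤ) : ℝ) / c) : ℝ) : ℂ) *
          (π * I * ((B1 (((k : ℤ) : ℝ) / q₁ + ((r : ℤ) : ℝ) * a / c) : ℝ) : ℂ))) := by
    intro r hr' k _
    by_cases h0 : χ₂ ((r : ℤ) : ZMod q₂) = 0
    · rw [h0]; simp
    have hfr := fract_ne χ₂ n₂ hc ha (k := (k : ℤ)) h0
    have hlog := log_one_sub_e hfr
    rw [← w_eq] at hlog
    rw [hlg, hlog]
    have hr0 : (r : ℤ) ≠ 0 := by
      intro h
      apply h0
      rw [h]
      simpa using char_zero n₂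
    have hrpos : 0 < r := by
      rcases Nat.eq_zero_or_pos r with h | h
      · exact absurd (by exact_mod_cast h) hr0
      · exact h
    have hrc : r < c := Finset.mem_range.mp hr'
    have hcpos : (0 : ℝ) < c := by exact_mod_cast (hrpos.trans hrc)
    have hfrr : Int.fract (((r : ℤ) : ℝ) / c) = (r : ℝ) / c := by
      rw [Int.cast_natCast, Int.fract_eq_self]
      constructor
      · positivity
      · rw [div_lt_one hcpos]; exact_mod_cast hrc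
    have hB : B1 (((r : ℤ) : ℝ) / c) = (r : ℝ) / c - 1 / 2 := by
      rw [B1, hfrr, if_neg]
      have : (0 : ℝ) < (r : ℝ) / c := by positivity
      exact this.ne'
    rw [hB]
    push_cast
    ring
  simp_rw [Finset.mul_sum] at hm ⊢
  rw [Finset.sum_congr rfl fun r hr' => Finset.sum_congr rfl fun k hk => hterm r hr' k hk]
  simp_rw [Finset.sum_add_distrib]
  rw [hr, add_zero]
  have : ∑ r ∈ Finset.range c, ∑ k ∈ Finset.range q₁, conj (χ₂ ((r : ℤ) : ZMod q₂)) *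
      (conj (χ₁ ((k : ℤ) : ZMod q₁)) * Complex.log (1 - w q₁ c a k r)) * (1 / 2) = 0 := by
    simp_rw [← Finset.sum_mul]
    rw [hm, zero_mul]
  rw [this, zero_add]

theorem tendsto_f' (h₁ : χ₁.IsPrimitive) (n₁ : χ₁ ≠ 1) (n₂ : χ₂ ≠ 1)
    (par : χ₁ (-1) * χ₂ (-1) = 1) (hc : q₁ * q₂ ∣ c)
    (ha : ((q₁ * q₂ : ℕ) : ℤ) ∣ a - 1) :
    Tendsto (fun y : ℝ => G χ₁⁻¹ * f χ₁ χ₂ ((a : ℂ) / c + y * I)) (𝓝[>] 0)
      (𝓝 (π * I * S χ₁ χ₂ a c)) := by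
  have := tendsto_f χ₁ χ₂ h₁ n₁ n₂ hc ha
  rwa [eval_limit χ₁ χ₂ n₁ n₂ par hc ha] at this

end NDS
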