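import Pool.Agent.H7.NDS.Per

/-!
# The series `f(z) = ∑ χ₁(A) χ̄₂(n)/A e(nAz)`
-/

open Complex
open scoped MatrixGroups ComplexConjugate Real

namespace NDS

lemma norm_e (z : ℂ) : ‖e z‖ = Real.exp (-2 * π * z.im) := by
  rw [e, Complex.norm_exp]; congr 1; simp

lemma e_add (z w : ℂ) : e (z + w) = e z * e w := by
  rw [e, e, e, ← Complex.exp_add]; congr 1; ring

lemma e_nat_mul (n : ℕ) (z : ℂ) : e ((n : ℂ) * z) = e z ^ n := by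
  rw [e, e, ← Complex.exp_nat_mul]; congr 1; ring

lemma e_int (n : ℤ) : e (n : ℂ) = 1 := by
  rw [e, show (2 * π * I * (n : ℂ)) = n * (2 * π * I) by ring]
  exact Complex.exp_int_mul_two_pi_mul_I n

lemma e_add_int (z : ℂ) (n : ℤ) : e (z + n) = e z := by rw [e_add, e_int, mul_one]

lemma e_neg (z : ℂ) : e (-z) = (e z)⁻¹ := by
  rw [e, e, ← Complex.exp_neg]; congr 1; ring

lemma hasDerivAt_e_mul (c z : ℂ) : HasDerivAt (fun w => e (c * w)) (2 * π * I * c * e (c * z)) z := by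
  have h : HasDerivAt (fun w : ℂ => 2 * π * I * (c * w)) (2 * π * I * (c * 1)) z :=
    ((hasDerivAt_id z).const_mul c).const_mul _
  have h2 := h.cexp
  have h3 : cexp (2 * π * I * (c * z)) * (2 * π * I * (c * 1)) = 2 * π * I * c * e (c * z) := by
    rw [e]; ring
  rw [h3] at h2
  exact h2

lemma norm_char_le {q : ℕ} (χ : DirichletCharacter ℂ q) (x : ZMod q) : ‖χ x‖ ≤ 1 :=
  DirichletCharacter.norm_le_one χ x

/-- The basic majorant. -/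
lemma summable_geo {r : ℝ} (h0 : 0 ≤ r) (h1 : r < 1) :
    Summable (fun p : ℕ+ × ℕ+ => r ^ ((p.1 : ℕ) * (p.2 : ℕ))) := by
  rcases eq_or_lt_of_le h0 with h | h0'
  · subst_vars
    refine summable_of_ne_finset_zero (s := ∅) ?_
    intro p _
    exact zero_pow (by positivity)
  have hg : Summable (fun n : ℕ+ => r ^ (n : ℕ)) :=
    (summable_geometric_of_lt_one h0 h1).comp_injective PNat.coe_injective
  have := (hg.mul_of_nonneg hg (fun n => by positivity) (fun n => by positivity)).mul_left (1 / r)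
  refine Summable.of_nonneg_of_le (fun p => by positivity) (fun p => ?_) this
  have hA := p.1.pos
  have hn := p.2.pos
  rw [← pow_add, one_div, ← div_eq_inv_mul, le_div_iff₀ h0', ← pow_succ]
  apply pow_le_pow_of_le_one h0 h1.le
  obtain ⟨a, ha⟩ : ∃ a, (p.1 : ℕ) = a + 1 := ⟨p.1 - 1, by omega⟩
  obtain ⟨b, hb⟩ : ∃ b, (p.2 : ℕ) = b + 1 := ⟨p.2 - 1, by omega⟩
  rw [ha, hb]
  nlinarith

variable {q₁ q₂ : ℕ} (χ₁ : DirichletCharacter ℂ q₁) (χ₂ : DirichletCharacter ℂ q₂)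

/-- The general term of `f`. -/
noncomputable def ft (p : ℕ+ × ℕ+) (z : ℂ) : ℂ :=
  χ₁ ((p.1 : ℕ) : ZMod q₁) * conj (χ₂ ((p.2 : ℕ) : ZMod q₂)) / ((p.1 : ℕ) : ℂ) *
    e (((p.1 : ℕ) : ℂ) * ((p.2 : ℕ) : ℂ) * z)

lemma norm_e_mul (p : ℕ+ × ℕ+) (z : ℂ) : ‖e (((p.1 : ℕ) : ℂ) * ((p.2 : ℕ) : ℂ) * z)‖ =
    Real.exp (-2 * π * z.im) ^ ((p.1 : ℕ) * (p.2 : ℕ)) := by
  rw [← Nat.cast_mul, e_nat_mul, norm_pow, norm_e]

lemma norm_ft_le (p : ℕ+ × ℕ+) (z : ℂ) :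
    ‖ft χ₁ χ₂ p z‖ ≤ Real.exp (-2 * π * z.im) ^ ((p.1 : ℕ) * (p.2 : ℕ)) / (p.1 : ℕ) := by
  rw [ft, norm_mul, norm_div, norm_mul, norm_e_mul, RCLike.norm_conj, Complex.norm_natCast]
  have h1 := norm_char_le χ₁ ((p.1 : ℕ) : ZMod q₁)
  have h2 := norm_char_le χ₂ ((p.2 : ℕ) : ZMod q₂)
  have h3 : ‖χ₁ ((p.1 : ℕ) : ZMod q₁)‖ * ‖χ₂ ((p.2 : ℕ) : ZMod q₂)‖ ≤ 1 := by
    have := mul_le_mul h1 h2 (norm_nonneg _) zero_le_one
    simpa using this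
  have hp : (0 : ℝ) < (p.1 : ℕ) := by exact_mod_cast p.1.pos
  have he : 0 ≤ Real.exp (-2 * π * z.im) ^ ((p.1 : ℕ) * (p.2 : ℕ)) := by positivity
  rw [div_mul_eq_mul_div]
  gcongr
  calc _ ≤ 1 * Real.exp (-2 * π * z.im) ^ ((p.1 : ℕ) * (p.2 : ℕ)) := by gcongr
    _ = _ := one_mul _

lemma norm_ft_le' (p : ℕ+ × ℕ+) (z : ℂ) :
    ‖ft χ₁ χ₂ p z‖ ≤ Real.exp (-2 * π * z.im) ^ ((p.1 : ℕ) * (p.2 : ℕ)) := by
  refine (norm_ft_le χ₁ χ₂ p z).trans ?_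
  apply div_le_self (by positivity)
  exact_mod_cast p.1.pos

lemma exp_lt_one_of_im_pos {z : ℂ} (hz : 0 < z.im) : Real.exp (-2 * π * z.im) < 1 := by
  apply Real.exp_lt_one_iff.mpr
  have := Real.pi_pos
  nlinarith

lemma summable_ft {z : ℂ} (hz : 0 < z.im) : Summable (fun p => ft χ₁ χ₂ p z) :=
  Summable.of_norm_bounded (summable_geo (Real.exp_pos _).le (exp_lt_one_of_im_pos hz))
    (fun p => norm_ft_le' χ₁ χ₂ p z)

lemma hasSum_f {z : ℂ} (hz : 0 < z.im) : HasSum (fun p => ft χ₁ χ₂ p z) (f χ₁ χ₂ z) :=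
  (summable_ft χ₁ χ₂ hz).hasSum

lemma f_add_int (z : ℂ) (j : ℤ) : f χ₁ χ₂ (z + j) = f χ₁ χ₂ z := by
  unfold f
  refine tsum_congr fun p => ?_
  congr 1
  rw [← e_add_int (((p.1 : ℕ) : ℂ) * ((p.2 : ℕ) : ℂ) * z) ((p.1 : ℕ) * (p.2 : ℕ) * j)]
  congr 1
  push_cast
  ring

/-- Differentiation term by term. -/
lemma hasSum_deriv_f {z : ℂ} (hz : 0 < z.im) :
    HasSum (fun p : ℕ+ × ℕ+ => 2 * π * I * (χ₁ ((p.1 : ℕ) : ZMod q₁) *
      (((p.2 : ℕ) : ℂ) * conj (χ₂ ((p.2 : ℕ) : ZMod q₂))) *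
      e (((p.1 : ℕ) : ℂ) * ((p.2 : ℕ) : ℂ) * z))) (deriv (f χ₁ χ₂) z) ∧
    DifferentiableAt ℂ (f χ₁ χ₂) z := by
  set y₀ := z.im / 2 with hy₀
  have hy₀pos : 0 < y₀ := by positivity
  set U : Set ℂ := {w : ℂ | y₀ < w.im} with hU
  have hUo : IsOpen U := isOpen_lt continuous_const Complex.continuous_im
  have hzU : z ∈ U := by show y₀ < z.im; rw [hy₀]; linarith
  set r := Real.exp (-2 * π * y₀) with hr
  have hr1 : r < 1 := by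
    apply Real.exp_lt_one_iff.mpr
    have := Real.pi_pos
    nlinarith
  have hbound : ∀ (p : ℕ+ × ℕ+) (w : ℂ), w ∈ U → ‖ft χ₁ χ₂ p w‖ ≤ r ^ ((p.1 : ℕ) * (p.2 : ℕ)) := by
    intro p w hw
    refine (norm_ft_le' χ₁ χ₂ p w).trans ?_
    apply pow_le_pow_left₀ (Real.exp_pos _).le
    apply Real.exp_le_exp.mpr
    have h1 : y₀ < w.im := hw
    have := Real.pi_pos
    nlinarith
  have hdiff : ∀ p : ℕ+ × ℕ+, DifferentiableOn ℂ (fun w => ft χ₁ χ₂ p w) U := by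
    intro p w _
    exact (((hasDerivAt_e_mul _ w).differentiableAt).const_mul _).differentiableWithinAt
  have hs := summable_geo (Real.exp_pos (-2 * π * y₀)).le hr1
  have key := hasSum_deriv_of_summable_norm hs hdiff hUo hbound hzU
  have key2 := differentiableOn_tsum_of_summable_norm hs hdiff hUo hbound
  have hft : (fun w => ∑' p, ft χ₁ χ₂ p w) = f χ₁ χ₂ := rfl
  rw [hft] at key key2
  refine ⟨?_, (key2 z hzU).differentiableAt (hUo.mem_nhds hzU)⟩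
  have hfun : (fun p : ℕ+ × ℕ+ => 2 * π * I * (χ₁ ((p.1 : ℕ) : ZMod q₁) *
      (((p.2 : ℕ) : ℂ) * conj (χ₂ ((p.2 : ℕ) : ZMod q₂))) *
      e (((p.1 : ℕ) : ℂ) * ((p.2 : ℕ) : ℂ) * z))) = fun p => deriv (fun w => ft χ₁ χ₂ p w) z := ?_
  · rw [hfun]; exact key
  funext p
  have hp : ((p.1 : ℕ) : ℂ) ≠ 0 := by exact_mod_cast p.1.pos.ne'
  have := ((hasDerivAt_e_mul (((p.1 : ℕ) : ℂ) * ((p.2 : ℕ) : ℂ)) z).const_mul
    (χ₁ ((p.1 : ℕ) : ZMod q₁) * conj (χ₂ ((p.2 : ℕ) : ZMod q₂)) / ((p.1 : ℕ) : ℂ))).deriv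
  unfold ft
  rw [this]
  field_simp

end NDS
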