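import Mathlib

/-!
# Module C5: the `q`-expansion of `Δ` has integer coefficients
-/

open Complex UpperHalfPlane Filter Topology
open scoped MatrixGroups Real Manifold ModularForm

namespace NDS

namespace C5

/-- `f` is analytic at `0` with integer Taylor coefficients. -/
def IntT (f : ℂ → ℂ) : Prop :=
  AnalyticAt ℂ f 0 ∧ ∀ m : ℕ, ∃ z : ℤ, iteratedDeriv m f 0 = (m.factorial : ℂ) * z

lemma IntT.mul {f g : ℂ → ℂ} (hf : IntT f) (hg : IntT g) : IntT (f * g) := by
  refine ⟨hf.1.mul hg.1, fun m => ?_⟩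
  choose a ha using hf.2
  choose b hb using hg.2
  refine ⟨∑ i ∈ Finset.range (m + 1), a i * b (m - i), ?_⟩
  rw [iteratedDeriv_mul hf.1.contDiffAt hg.1.contDiffAt]
  push_cast
  rw [Finset.mul_sum]
  apply Finset.sum_congr rfl
  intro i hi
  have hi' : i ≤ m := Nat.lt_succ_iff.1 (Finset.mem_range.1 hi)
  rw [ha, hb]
  have h1 : ((m.choose i : ℕ) : ℂ) * (i.factorial : ℂ) * ((m - i).factorial : ℂ) =
      (m.factorial : ℂ) := by
    exact_mod_cast Nat.choose_mul_factorial_mul_factorial hi'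
  linear_combination ((a i : ℂ) * (b (m - i) : ℂ)) * h1

lemma IntT.sub {f g : ℂ → ℂ} (hf : IntT f) (hg : IntT g) : IntT (f - g) := by
  refine ⟨hf.1.sub hg.1, fun m => ?_⟩
  obtain ⟨a, ha⟩ := hf.2 m
  obtain ⟨b, hb⟩ := hg.2 m
  refine ⟨a - b, ?_⟩
  rw [iteratedDeriv_sub hf.1.contDiffAt hg.1.contDiffAt, ha, hb]
  push_cast
  ring

lemma IntT.one : IntT (1 : ℂ → ℂ) := by
  refine ⟨analyticAt_const, fun m => ?_⟩
  rcases Nat.eq_zero_or_pos m with rfl | hm
  · exact ⟨1, by simp⟩
  · refine ⟨0, ?_⟩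
    have h1 : (1 : ℂ → ℂ) = fun _ => (1 : ℂ) := rfl
    rw [h1, iteratedDeriv_const, if_neg hm.ne']
    simp

lemma IntT.id : IntT (fun q : ℂ => q) := by
  refine ⟨analyticAt_id, fun m => ?_⟩
  rcases m with _ | _ | m
  · exact ⟨0, by simp⟩
  · refine ⟨1, ?_⟩
    rw [iteratedDeriv_one]
    simp
  · refine ⟨0, ?_⟩
    rw [iteratedDeriv_succ', iteratedDeriv_succ']
    simp

lemma IntT.pow {f : ℂ → ℂ} (hf : IntT f) (k : ℕ) : IntT (f ^ k) := by
  induction k with
  | zero => rw [pow_zero]; exact IntT.one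
  | succ k ih => rw [pow_succ]; exact ih.mul hf

lemma IntT.prod {ι : Type*} (s : Finset ι) (f : ι → ℂ → ℂ) (hf : ∀ i ∈ s, IntT (f i)) :
    IntT (∏ i ∈ s, f i) := by
  classical
  induction s using Finset.induction_on with
  | empty => rw [Finset.prod_empty]; exact IntT.one
  | insert i s hi ih =>
    rw [Finset.prod_insert hi]
    exact (hf i (Finset.mem_insert_self _ _)).mul
      (ih fun j hj => hf j (Finset.mem_insert_of_mem hj))

lemma IntT.congr {f g : ℂ → ℂ} (hf : IntT f) (h : f =ᶠ[𝓝 0] g) : IntT g := by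
  refine ⟨hf.1.congr h, fun m => ?_⟩
  obtain ⟨a, ha⟩ := hf.2 m
  exact ⟨a, by rw [← ha]; exact (h.iteratedDeriv_eq m).symm⟩

/-- iterated derivatives converge under locally uniform convergence. -/
lemma tendsto_iteratedDeriv {ι : Type*} {φ : Filter ι} [φ.NeBot] {U : Set ℂ} (hU : IsOpen U) (m : ℕ) :
    ∀ {F : ι → ℂ → ℂ} {f : ℂ → ℂ}, TendstoLocallyUniformlyOn F f φ U →
      (∀ᶠ i in φ, DifferentiableOn ℂ (F i) U) →
      TendstoLocallyUniformlyOn (fun i => iteratedDeriv m (F i)) (iteratedDeriv m f) φ U := by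
  induction m with
  | zero =>
    intro F f hF _
    simpa only [iteratedDeriv_zero] using hF
  | succ m ih =>
    intro F f hF hd
    simp only [iteratedDeriv_succ']
    apply ih (hF.deriv hd hU)
    filter_upwards [hd] with i hi
    exact hi.deriv hU

/-- Limits of functions with integer Taylor coefficients. -/
lemma IntT.limit {ι : Type*} {φ : Filter ι} [φ.NeBot] {U : Set ℂ} (hU : IsOpen U)
    (h0 : (0 : ℂ) ∈ U) {F : ι → ℂ → ℂ} {f : ℂ → ℂ} (hF : TendstoLocallyUniformlyOn F f φ U)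
    (hd : ∀ i, DifferentiableOn ℂ (F i) U) (hI : ∀ i, IntT (F i)) : IntT f := by
  have hfd : DifferentiableOn ℂ f U := hF.differentiableOn (Eventually.of_forall hd) hU
  refine ⟨hfd.analyticAt (hU.mem_nhds h0), fun m => ?_⟩
  have h1 := (tendsto_iteratedDeriv hU m hF (Eventually.of_forall hd)).tendsto_at h0
  have hfac : (m.factorial : ℂ) ≠ 0 := by exact_mod_cast Nat.factorial_ne_zero m
  have h2 : Tendsto (fun i => iteratedDeriv m (F i) 0 / (m.factorial : ℂ)) φ
      (𝓝 (iteratedDeriv m f 0 / (m.factorial : ℂ))) := h1.div_const _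
  have h3 : iteratedDeriv m f 0 / (m.factorial : ℂ) ∈ Set.range (fun z : ℤ => (z : ℂ)) := by
    have hclosed : IsClosed (Set.range (fun z : ℤ => (z : ℂ))) := by
      have h4 := (Complex.isometry_ofReal.isClosedEmbedding.comp
        Int.isClosedEmbedding_coe_real).isClosed_range
      have h5 : (Complex.ofReal ∘ ((↑) : ℤ → ℝ)) = fun z : ℤ => (z : ℂ) := by
        ext z
        simp
      rwa [h5] at h4
    apply hclosed.mem_of_tendsto h2
    filter_upwards with i
    obtain ⟨z, hz⟩ := (hI i).2 m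
    exact ⟨z, by rw [hz]; field_simp⟩
  obtain ⟨z, hz⟩ := h3
  refine ⟨z, ?_⟩
  simp only at hz
  rw [hz]
  field_simp

end C5

open C5

theorem Delta_integral : ∃ D : ℕ → ℤ, D 0 = 0 ∧ D 1 = 1 ∧
    ∀ n, (qExpansion 1 ModularForm.discriminant).coeff n = (D n : ℂ) := by
  have hball : Metric.ball (0 : ℂ) 1 ∈ 𝓝 (0 : ℂ) := Metric.ball_mem_nhds 0 one_pos
  -- the Euler product
  have hP : IntT (fun q : ℂ => ∏' n : ℕ, (1 - q ^ (n + 1))) := by
    have h1 := ModularForm.multipliableLocallyUniformlyOn_one_sub_pow.hasProdLocallyUniformlyOn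
    have h2 : TendstoLocallyUniformlyOn
        (fun (s : Finset ℕ) (q : ℂ) => ∏ n ∈ s, (1 - q ^ (n + 1)))
        (fun q : ℂ => ∏' n : ℕ, (1 - q ^ (n + 1))) atTop (Metric.ball (0 : ℂ) 1) := h1
    refine IntT.limit Metric.isOpen_ball (Metric.mem_ball_self one_pos) h2 ?_ ?_
    · intro s
      fun_prop
    · intro s
      have h3 : (fun q : ℂ => ∏ n ∈ s, (1 - q ^ (n + 1))) =
          ∏ n ∈ s, ((1 : ℂ → ℂ) - (fun q : ℂ => q) ^ (n + 1)) := by
        ext q
        simp [Finset.prod_apply]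
      rw [h3]
      exact IntT.prod _ _ fun n _ => IntT.one.sub (IntT.id.pow _)
  have hD : IntT (cuspFunction 1 ModularForm.discriminant) := by
    have h1 : IntT ((fun q : ℂ => q) * (fun q : ℂ => ∏' n : ℕ, (1 - q ^ (n + 1))) ^ 24) :=
      IntT.id.mul (hP.pow 24)
    apply h1.congr
    filter_upwards [hball] with q hq
    rw [ModularForm.discriminant_cuspFunction_eqOn hq]
    have h2 := (ModularForm.multipliable_one_sub_pow (q := q) (by simpa using hq)).tprod_pow 24
    simp only [Pi.mul_apply, Pi.pow_apply]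
    rw [h2]
  have hc : ∀ n, ∃ z : ℤ, (qExpansion 1 ModularForm.discriminant).coeff n = (z : ℂ) := by
    intro n
    obtain ⟨z, hz⟩ := hD.2 n
    refine ⟨z, ?_⟩
    have hfac : (n.factorial : ℂ) ≠ 0 := by exact_mod_cast Nat.factorial_ne_zero n
    rw [qExpansion_coeff, hz]
    field_simp
  choose D hD' using hc
  refine ⟨D, ?_, ?_, hD'⟩
  · have h1 := hD' 0
    have h2 : (qExpansion 1 ModularForm.discriminant).coeff 0 = 0 := by
      rw [qExpansion_coeff]
      simp only [iteratedDeriv_zero]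
      rw [ModularForm.discriminant_cuspFunction_eqOn (Metric.mem_ball_self one_pos)]
      simp
    rw [h2] at h1
    exact_mod_cast h1.symm
  · have h1 := hD' 1
    rw [ModularForm.discriminant_qExpansion_coeff_one] at h1
    exact_mod_cast h1.symm

end NDS
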