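import Pool.Agent.H7.NDS.Defs

/-!
# Module E1: structure of the values for a quadratic field, functionals, lifting characters
-/

open Complex
open scoped MatrixGroups ComplexConjugate Real

namespace NDS

namespace E1

/-- If `φ(d) ∣ 2` then `d ∣ 4` or `d ∣ 6`. -/
lemma dvd_of_totient (d : ℕ) (hd : 0 < d) (h : d.totient ∣ 2) : d ∣ 4 ∨ d ∣ 6 := by
  have hle : d.totient ≤ 2 := Nat.le_of_dvd (by norm_num) h
  have hpos : 0 < d.totient := Nat.totient_pos.2 hd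
  have hsub : ∀ a : ℕ, a ∣ d → a.totient ≤ 2 := fun a ha =>
    (Nat.le_of_dvd hpos (Nat.totient_dvd_of_dvd ha)).trans hle
  have h12 : d ∣ 12 := by
    rw [Nat.dvd_iff_prime_pow_dvd_dvd]
    intro p k hp hk
    rcases Nat.eq_zero_or_pos k with rfl | hkpos
    · simp
    · have h1 := hsub _ hk
      rw [Nat.totient_prime_pow hp hkpos] at h1
      have h2 : p - 1 ≤ p ^ (k - 1) * (p - 1) :=
        Nat.le_mul_of_pos_left _ (pow_pos hp.pos _)
      have h3 : p ≤ 3 := by omega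
      have h4 := hp.two_le
      interval_cases p
      · have h5 : k ≤ 2 := by
          by_contra h6
          push Not at h6
          have h7 : 2 ^ 2 ≤ 2 ^ (k - 1) := Nat.pow_le_pow_right (by norm_num) (by omega)
          omega
        exact dvd_trans (pow_dvd_pow 2 h5) (by norm_num)
      · have h5 : k ≤ 1 := by
          by_contra h6
          push Not at h6
          have h7 : 3 ^ 1 ≤ 3 ^ (k - 1) := Nat.pow_le_pow_right (by norm_num) (by omega)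
          omega
        exact dvd_trans (pow_dvd_pow 3 h5) (by norm_num)
  have hmem : d ∈ Nat.divisors 12 := Nat.mem_divisors.2 ⟨h12, by norm_num⟩
  have hdiv : Nat.divisors 12 = {1, 2, 3, 4, 6, 12} := by decide
  rw [hdiv] at hmem
  simp only [Finset.mem_insert, Finset.mem_singleton] at hmem
  rcases hmem with rfl | rfl | rfl | rfl | rfl | rfl
  · left; norm_num
  · left; norm_num
  · right; norm_num
  · left; norm_num
  · right; norm_num
  · exfalso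
    have : Nat.totient 12 = 4 := by decide
    omega

lemma order_facts (K : IntermediateField ℚ ℂ) (hK : Module.finrank ℚ K = 2) {w : ℂ}
    (hw : w ∈ K) {k : ℕ} (hk : 0 < k) (hwk : w ^ k = 1) : w ^ 4 = 1 ∨ w ^ 6 = 1 := by
  have hfin : IsOfFinOrder w := isOfFinOrder_iff_pow_eq_one.2 ⟨k, hk, hwk⟩
  have hdpos : 0 < orderOf w := hfin.orderOf_pos
  have hprim : IsPrimitiveRoot w (orderOf w) := IsPrimitiveRoot.orderOf w
  have hint : IsIntegral ℚ w := (hprim.isIntegral hdpos).tower_top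
  have h1 : Module.finrank ℚ (IntermediateField.adjoin ℚ {w}) = (orderOf w).totient := by
    rw [IntermediateField.adjoin.finrank hint,
      ← Polynomial.cyclotomic_eq_minpoly_rat hprim hdpos, Polynomial.natDegree_cyclotomic]
  have h2 : IntermediateField.adjoin ℚ {w} ≤ K := by
    rw [IntermediateField.adjoin_simple_le_iff]
    exact hw
  have h3 := IntermediateField.finrank_dvd_of_le_right h2
  rw [h1, hK] at h3
  rcases dvd_of_totient _ hdpos h3 with h4 | h4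
  · left
    exact orderOf_dvd_iff_pow_eq_one.1 h4
  · right
    exact orderOf_dvd_iff_pow_eq_one.1 h4

lemma unit_pow {q : ℕ} [NeZero q] (χ : DirichletCharacter ℂ q) (t : (ZMod q)ˣ) :
    ∃ k : ℕ, 0 < k ∧ (χ t) ^ k = 1 := by
  refine ⟨Fintype.card (ZMod q)ˣ, Fintype.card_pos, ?_⟩
  rw [← map_pow, ← Units.val_pow_eq_pow_val, pow_card_eq_one, Units.val_one, map_one]

lemma sq_root_four {w : ℂ} (h4 : w ^ 4 = 1) (h2 : w ^ 2 ≠ 1) : w ^ 2 = -1 := by
  have h : (w ^ 2 - 1) * (w ^ 2 + 1) = 0 := by linear_combination h4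
  rcases mul_eq_zero.1 h with h1 | h1
  · exact absurd (sub_eq_zero.1 h1) h2
  · exact eq_neg_of_add_eq_zero_left h1

lemma root_three {w : ℂ} (h3 : w ^ 3 = 1) (h1 : w ≠ 1) : w ^ 2 + w + 1 = 0 := by
  have h : (w - 1) * (w ^ 2 + w + 1) = 0 := by linear_combination h3
  exact (mul_eq_zero.1 h).resolve_left (sub_ne_zero.2 h1)

lemma neg_one_ne_one : (-1 : ℂ) ≠ 1 := by norm_num

end E1

open E1

/-- E1a. -/
theorem struct_quad {q₁ q₂ : ℕ} [NeZero q₁] [NeZero q₂] (χ₁ : DirichletCharacter ℂ q₁)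
    (χ₂ : DirichletCharacter ℂ q₂) (hF : Module.finrank ℚ (F χ₁ χ₂) = 2) :
    ∃ (θ : ℂ) (n : ℕ), ((n = 4 ∧ θ ^ 2 = -1) ∨ (n = 6 ∧ θ ^ 2 + θ + 1 = 0)) ∧
      ((∃ t : (ZMod q₁)ˣ, χ₁ t = θ) ∨ (∃ t : (ZMod q₂)ˣ, χ₂ t = θ)) ∧
      (∀ t : (ZMod q₁)ˣ, χ₁ t ^ n = 1) ∧ (∀ t : (ZMod q₂)ˣ, χ₂ t ^ n = 1) := by
  -- the set of unit values
  set V : Set ℂ := {w | (∃ t : (ZMod q₁)ˣ, χ₁ t = w) ∨ (∃ t : (ZMod q₂)ˣ, χ₂ t = w)} with hV
  have hVF : ∀ w ∈ V, w ∈ F χ₁ χ₂ := by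
    rintro w (⟨t, rfl⟩ | ⟨t, rfl⟩)
    · exact IntermediateField.subset_adjoin _ _ (Or.inl ⟨_, rfl⟩)
    · exact IntermediateField.subset_adjoin _ _ (Or.inr ⟨_, rfl⟩)
  have hVsq : ∀ w ∈ V, w ^ 2 ∈ V := by
    rintro w (⟨t, rfl⟩ | ⟨t, rfl⟩)
    · exact Or.inl ⟨t ^ 2, by rw [Units.val_pow_eq_pow_val, map_pow]⟩
    · exact Or.inr ⟨t ^ 2, by rw [Units.val_pow_eq_pow_val, map_pow]⟩
  have hVroot : ∀ w ∈ V, w ^ 4 = 1 ∨ w ^ 6 = 1 := by
    intro w hw
    obtain ⟨k, hk, hk1⟩ : ∃ k : ℕ, 0 < k ∧ w ^ k = 1 := by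
      rcases hw with ⟨t, rfl⟩ | ⟨t, rfl⟩
      · exact unit_pow χ₁ t
      · exact unit_pow χ₂ t
    exact order_facts _ hF (hVF w hw) hk hk1
  -- products
  have hprod : ∀ x ∈ F χ₁ χ₂, x ^ 12 = 1 → x ^ 4 = 1 ∨ x ^ 6 = 1 := fun x hx h12 =>
    order_facts _ hF hx (by norm_num) h12
  -- a value with square ≠ 1
  obtain ⟨w, hw, hw2⟩ : ∃ w ∈ V, w ^ 2 ≠ 1 := by
    by_contra hno
    push Not at hno
    have hbot : F χ₁ χ₂ = ⊥ := by
      unfold F
      rw [IntermediateField.adjoin_eq_bot_iff]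
      have key : ∀ w ∈ V, w ∈ (⊥ : IntermediateField ℚ ℂ) := by
        intro w hw
        have h1 : (w - 1) * (w + 1) = 0 := by linear_combination hno w hw
        rcases mul_eq_zero.1 h1 with h2 | h2
        · rw [sub_eq_zero.1 h2]
          exact one_mem _
        · rw [eq_neg_of_add_eq_zero_left h2]
          exact neg_mem (one_mem _)
      rintro x (⟨y, rfl⟩ | ⟨y, rfl⟩)
      · by_cases hy : IsUnit y
        · obtain ⟨u, rfl⟩ := hy
          exact key _ (Or.inl ⟨u, rfl⟩)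
        · rw [MulChar.map_nonunit _ hy]
          exact zero_mem _
      · by_cases hy : IsUnit y
        · obtain ⟨u, rfl⟩ := hy
          exact key _ (Or.inr ⟨u, rfl⟩)
        · rw [MulChar.map_nonunit _ hy]
          exact zero_mem _
    rw [hbot, IntermediateField.finrank_bot] at hF
    norm_num at hF
  rcases hVroot w hw with h4 | h6
  · -- order four
    have hθ := sq_root_four h4 hw2
    have hall : ∀ x ∈ V, x ^ 4 = 1 := by
      intro x hx
      rcases hVroot x hx with h1 | h1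
      · exact h1
      · by_contra h2
        have hx2 : x ^ 2 ≠ 1 := by
          intro h3
          apply h2
          calc x ^ 4 = (x ^ 2) ^ 2 := by ring
            _ = 1 := by rw [h3, one_pow]
        have hy : w * x ^ 2 ∈ F χ₁ χ₂ := mul_mem (hVF w hw) (pow_mem (hVF x hx) 2)
        have h12 : (w * x ^ 2) ^ 12 = 1 := by
          calc (w * x ^ 2) ^ 12 = (w ^ 4) ^ 3 * (x ^ 6) ^ 4 := by ring
            _ = 1 := by rw [h4, h1]; norm_num
        rcases hprod _ hy h12 with h3 | h3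
        · apply hx2
          calc x ^ 2 = w ^ 4 * (x ^ 6 * x ^ 2) := by rw [h4, h1]; ring
            _ = (w * x ^ 2) ^ 4 := by ring
            _ = 1 := h3
        · apply neg_one_ne_one
          calc (-1 : ℂ) = (w ^ 2) ^ 3 * (x ^ 6) ^ 2 := by rw [hθ, h1]; norm_num
            _ = (w * x ^ 2) ^ 6 := by ring
            _ = 1 := h3
    exact ⟨w, 4, Or.inl ⟨rfl, hθ⟩, hw, fun t => hall _ (Or.inl ⟨t, rfl⟩),
      fun t => hall _ (Or.inr ⟨t, rfl⟩)⟩
  · -- order three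
    have hθ3 : (w ^ 2) ^ 3 = 1 := by rw [← pow_mul]; exact h6
    have hθ := root_three hθ3 hw2
    have hall : ∀ x ∈ V, x ^ 6 = 1 := by
      intro x hx
      rcases hVroot x hx with h1 | h1
      · by_contra h2
        have hx2 : x ^ 2 ≠ 1 := by
          intro h3
          apply h2
          calc x ^ 6 = (x ^ 2) ^ 3 := by ring
            _ = 1 := by rw [h3, one_pow]
        have hx2' := sq_root_four h1 hx2
        have hy : w ^ 2 * x ∈ F χ₁ χ₂ := mul_mem (pow_mem (hVF w hw) 2) (hVF x hx)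
        have h12 : (w ^ 2 * x) ^ 12 = 1 := by
          calc (w ^ 2 * x) ^ 12 = ((w ^ 2) ^ 3) ^ 4 * (x ^ 4) ^ 3 := by ring
            _ = 1 := by rw [hθ3, h1]; norm_num
        rcases hprod _ hy h12 with h3 | h3
        · apply hw2
          calc w ^ 2 = (w ^ 2) ^ 3 * w ^ 2 * x ^ 4 := by rw [hθ3, h1]; ring
            _ = (w ^ 2 * x) ^ 4 := by ring
            _ = 1 := h3
        · apply neg_one_ne_one
          calc (-1 : ℂ) = ((w ^ 2) ^ 3) ^ 2 * (x ^ 2) ^ 3 := by rw [hθ3, hx2']; norm_num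
            _ = (w ^ 2 * x) ^ 6 := by ring
            _ = 1 := h3
      · exact h1
    exact ⟨w ^ 2, 6, Or.inr ⟨rfl, hθ⟩, hVsq w hw, fun t => hall _ (Or.inl ⟨t, rfl⟩),
      fun t => hall _ (Or.inr ⟨t, rfl⟩)⟩

/-- E1b. -/
theorem exists_functional (Λ : AddSubgroup (ℤ × ℤ)) (h : Λ ≠ ⊤) :
    ∃ (ℓ : ℕ) (α β : ℤ), ℓ.Prime ∧ (¬ (ℓ : ℤ) ∣ α ∨ ¬ (ℓ : ℤ) ∣ β) ∧
      ∀ p ∈ Λ, (ℓ : ℤ) ∣ α * p.1 + β * p.2 := by
  set M₀ : Submodule ℤ (ℤ × ℤ) := AddSubgroup.toIntSubmodule Λ with hM₀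
  have hM₀top : M₀ ≠ ⊤ := by
    intro h1
    apply h
    rw [eq_top_iff]
    intro x _
    have : x ∈ M₀ := by rw [h1]; exact Submodule.mem_top
    exact this
  obtain ⟨M, hM, hle⟩ := (eq_top_or_exists_le_coatom M₀).resolve_left hM₀top
  have hsimple : IsSimpleModule ℤ ((ℤ × ℤ) ⧸ M) := isSimpleModule_iff_isCoatom.2 hM
  obtain ⟨I, hI, ⟨e⟩⟩ := isSimpleModule_iff_quot_maximal.1 hsimple
  set f : (ℤ × ℤ) →ₗ[ℤ] (ℤ ⧸ I) := e.toLinearMap.comp M.mkQ with hf
  have hfsurj : Function.Surjective f := e.surjective.comp (Submodule.mkQ_surjective M)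
  have hfker : ∀ x ∈ M, f x = 0 := by
    intro x hx
    have h1 : M.mkQ x = 0 := by
      rw [Submodule.mkQ_apply, Submodule.Quotient.mk_eq_zero]
      exact hx
    rw [hf, LinearMap.comp_apply, h1, map_zero]
  -- the ideal
  have hIbot : I ≠ ⊥ := Ring.ne_bot_of_isMaximal_of_not_isField hI Int.not_isField
  have hIprime : I.IsPrime := hI.isPrime
  have hgen : Prime (Submodule.IsPrincipal.generator I) :=
    Submodule.IsPrincipal.prime_generator_of_isPrime I hIbot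
  set g : ℤ := Submodule.IsPrincipal.generator I with hg
  have hmem : ∀ x : ℤ, x ∈ I ↔ ((g.natAbs : ℕ) : ℤ) ∣ x := by
    intro x
    rw [Int.natAbs_dvd]
    exact Submodule.IsPrincipal.mem_iff_generator_dvd I
  obtain ⟨α, hα⟩ := Ideal.Quotient.mk_surjective (f (1, 0))
  obtain ⟨β, hβ⟩ := Ideal.Quotient.mk_surjective (f (0, 1))
  have hfval : ∀ p : ℤ × ℤ, f p = Ideal.Quotient.mk I (α * p.1 + β * p.2) := by
    intro p
    have h1 : p = p.1 • ((1, 0) : ℤ × ℤ) + p.2 • ((0, 1) : ℤ × ℤ) := by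
      ext <;> simp
    conv_lhs => rw [h1]
    rw [map_add, map_smul, map_smul, ← hα, ← hβ, map_add, map_mul, map_mul]
    simp only [zsmul_eq_mul]
    rw [mul_comm (Ideal.Quotient.mk I α), mul_comm (Ideal.Quotient.mk I β)]
    simp
  refine ⟨g.natAbs, α, β, Int.prime_iff_natAbs_prime.1 hgen, ?_, ?_⟩
  · by_contra hno
    push Not at hno
    obtain ⟨h1, h2⟩ := hno
    obtain ⟨p, hp⟩ := hfsurj (Ideal.Quotient.mk I 1)
    rw [hfval] at hp
    have h3 : α * p.1 + β * p.2 ∈ I := by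
      rw [hmem]
      exact dvd_add (Dvd.dvd.mul_right h1 _) (Dvd.dvd.mul_right h2 _)
    rw [Ideal.Quotient.eq_zero_iff_mem.2 h3] at hp
    have h4 : (1 : ℤ) ∈ I := Ideal.Quotient.eq_zero_iff_mem.1 hp.symm
    exact hI.ne_top ((Ideal.eq_top_iff_one I).2 h4)
  · intro p hp
    rw [← hmem, ← Ideal.Quotient.eq_zero_iff_mem, ← hfval]
    exact hfker p (hle hp)

section lift

variable {q : ℕ}

/-- E1c: a character with values in a subring. -/
noncomputable def liftChar (χ : DirichletCharacter ℂ q) (R : Subalgebra ℤ ℂ)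
    (h : ∀ x, χ x ∈ R) : DirichletCharacter R q where
  toFun x := ⟨χ x, h x⟩
  map_one' := Subtype.ext (map_one χ)
  map_mul' x y := Subtype.ext (map_mul χ x y)
  map_nonunit' x hx := Subtype.ext (MulChar.map_nonunit χ hx)

theorem liftChar_coe (χ : DirichletCharacter ℂ q) (R : Subalgebra ℤ ℂ)
    (h : ∀ x, χ x ∈ R) (x : ZMod q) : ((liftChar χ R h x : R) : ℂ) = χ x := rfl

theorem liftChar_isPrimitive [NeZero q] (χ : DirichletCharacter ℂ q) (R : Subalgebra ℤ ℂ)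
    (h : ∀ x, χ x ∈ R) (hχ : χ.IsPrimitive) : (liftChar χ R h).IsPrimitive := by
  rw [DirichletCharacter.isPrimitive_def] at hχ ⊢
  have key : ∀ d : ℕ, DirichletCharacter.FactorsThrough (liftChar χ R h) d →
      DirichletCharacter.FactorsThrough χ d := by
    intro d hd
    have hdq := hd.dvd
    rw [DirichletCharacter.factorsThrough_iff_ker_unitsMap hdq] at hd ⊢
    intro u hu
    have h1 := hd hu
    rw [MonoidHom.mem_ker] at h1 ⊢
    have h2 : (liftChar χ R h) (u : ZMod q) = 1 := by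
      have := congrArg (Units.val) h1
      rwa [MulChar.coe_toUnitHom] at this
    apply Units.ext
    rw [MulChar.coe_toUnitHom, Units.val_one, ← liftChar_coe χ R h, h2]
    rfl
  have h1 : χ.conductor ≤ (liftChar χ R h).conductor :=
    Nat.sInf_le (key _ (DirichletCharacter.factorsThrough_conductor _))
  have h2 : (liftChar χ R h).conductor ∣ q := DirichletCharacter.conductor_dvd_level _
  rw [hχ] at h1
  exact le_antisymm (Nat.le_of_dvd (Nat.pos_of_ne_zero (NeZero.ne q)) h2) h1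

end lift

/-- Roots of unity of order dividing `n`. -/
lemma pow_n_cases {θ : ℂ} {n : ℕ}
    (hθ : (n = 4 ∧ θ ^ 2 = -1) ∨ (n = 6 ∧ θ ^ 2 + θ + 1 = 0)) {u : ℂ} (hu : u ^ n = 1) :
    u = 1 ∨ u = -1 ∨ u = θ ∨ u = -θ ∨ u = θ ^ 2 ∨ u = -θ ^ 2 := by
  rcases hθ with ⟨rfl, hθ⟩ | ⟨rfl, hθ⟩
  · have h1 : (u - 1) * ((u + 1) * ((u - θ) * (u + θ))) = 0 := by
      linear_combination hu - (u ^ 2 - 1) * hθ
    rcases mul_eq_zero.1 h1 with h | h
    · left; exact sub_eq_zero.1 h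
    · rcases mul_eq_zero.1 h with h | h
      · right; left; exact eq_neg_of_add_eq_zero_left h
      · rcases mul_eq_zero.1 h with h | h
        · right; right; left; exact sub_eq_zero.1 h
        · right; right; right; left; exact eq_neg_of_add_eq_zero_left h
  · have h1 : (u - 1) * ((u + 1) * ((u - θ) * ((u + θ) * ((u - θ ^ 2) * (u + θ ^ 2))))) = 0 := by
      have e2 : θ ^ 2 = -θ - 1 := by linear_combination hθ
      have e4 : θ ^ 4 = θ := by
        calc θ ^ 4 = (θ ^ 2) ^ 2 := by ring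
          _ = (-θ - 1) ^ 2 := by rw [e2]
          _ = θ ^ 2 + 2 * θ + 1 := by ring
          _ = θ := by rw [e2]; ring
      calc (u - 1) * ((u + 1) * ((u - θ) * ((u + θ) * ((u - θ ^ 2) * (u + θ ^ 2)))))
          = (u ^ 2 - 1) * (u ^ 2 - θ ^ 2) * (u ^ 2 - θ ^ 4) := by ring
        _ = (u ^ 2 - 1) * (u ^ 2 - (-θ - 1)) * (u ^ 2 - θ) := by rw [e4, e2]
        _ = (u ^ 2 - 1) * (u ^ 4 + u ^ 2 - (θ ^ 2 + θ)) := by ring
        _ = (u ^ 2 - 1) * (u ^ 4 + u ^ 2 - (-θ - 1 + θ)) := by rw [e2]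
        _ = u ^ 6 - 1 := by ring
        _ = 0 := by rw [hu, sub_self]
    rcases mul_eq_zero.1 h1 with h | h
    · left; exact sub_eq_zero.1 h
    · rcases mul_eq_zero.1 h with h | h
      · right; left; exact eq_neg_of_add_eq_zero_left h
      · rcases mul_eq_zero.1 h with h | h
        · right; right; left; exact sub_eq_zero.1 h
        · rcases mul_eq_zero.1 h with h | h
          · right; right; right; left; exact eq_neg_of_add_eq_zero_left h
          · rcases mul_eq_zero.1 h with h | h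
            · right; right; right; right; left; exact sub_eq_zero.1 h
            · right; right; right; right; right; exact eq_neg_of_add_eq_zero_left h

/-- `θ² = a + bθ`. -/
lemma theta_sq {θ : ℂ} {n : ℕ}
    (hθ : (n = 4 ∧ θ ^ 2 = -1) ∨ (n = 6 ∧ θ ^ 2 + θ + 1 = 0)) :
    ∃ a b : ℤ, θ ^ 2 = (a : ℂ) + b * θ := by
  rcases hθ with ⟨-, hθ⟩ | ⟨-, hθ⟩
  · exact ⟨-1, 0, by rw [hθ]; push_cast; ring⟩
  · exact ⟨-1, -1, by push_cast; linear_combination hθ⟩

/-- The ring `ℤ + ℤθ`. -/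
noncomputable def thetaRing {θ : ℂ} {n : ℕ}
    (hθ : (n = 4 ∧ θ ^ 2 = -1) ∨ (n = 6 ∧ θ ^ 2 + θ + 1 = 0)) : Subalgebra ℤ ℂ where
  carrier := {x | ∃ a b : ℤ, x = (a : ℂ) + b * θ}
  mul_mem' := by
    rintro x y ⟨a, b, rfl⟩ ⟨c, d, rfl⟩
    obtain ⟨s, t, hst⟩ := theta_sq hθ
    refine ⟨a * c + b * d * s, a * d + b * c + b * d * t, ?_⟩
    push_cast
    linear_combination ((b : ℂ) * d) * hst
  add_mem' := by
    rintro x y ⟨a, b, rfl⟩ ⟨c, d, rfl⟩
    exact ⟨a + c, b + d, by push_cast; ring⟩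
  algebraMap_mem' r := ⟨r, 0, by simp⟩

lemma mem_thetaRing {θ : ℂ} {n : ℕ}
    (hθ : (n = 4 ∧ θ ^ 2 = -1) ∨ (n = 6 ∧ θ ^ 2 + θ + 1 = 0)) {x : ℂ} :
    x ∈ thetaRing hθ ↔ ∃ a b : ℤ, x = (a : ℂ) + b * θ := Iff.rfl

/-- E1d: `O = ℤ + ℤθ`. -/
theorem O_eq_span {q₁ q₂ : ℕ} (χ₁ : DirichletCharacter ℂ q₁)
    (χ₂ : DirichletCharacter ℂ q₂) (θ : ℂ) (n : ℕ)
    (hθ : (n = 4 ∧ θ ^ 2 = -1) ∨ (n = 6 ∧ θ ^ 2 + θ + 1 = 0))
    (hv : (∃ t : (ZMod q₁)ˣ, χ₁ t = θ) ∨ (∃ t : (ZMod q₂)ˣ, χ₂ t = θ))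
    (h₁ : ∀ t : (ZMod q₁)ˣ, χ₁ t ^ n = 1) (h₂ : ∀ t : (ZMod q₂)ˣ, χ₂ t ^ n = 1) (x : ℂ) :
    x ∈ O χ₁ χ₂ ↔ ∃ a b : ℤ, x = (a : ℂ) + b * θ := by
  rw [← mem_thetaRing hθ]
  constructor
  · intro hx
    have hle : O χ₁ χ₂ ≤ thetaRing hθ := by
      unfold O
      apply Algebra.adjoin_le
      have hθmem : θ ∈ thetaRing hθ := ⟨0, 1, by simp⟩
      have key : ∀ u : ℂ, u ^ n = 1 → u ∈ thetaRing hθ := by
        intro u hu
        rcases pow_n_cases hθ hu with h | h | h | h | h | h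
        · rw [h]; exact one_mem _
        · rw [h]; exact neg_mem (one_mem _)
        · rw [h]; exact hθmem
        · rw [h]; exact neg_mem hθmem
        · rw [h]; exact pow_mem hθmem 2
        · rw [h]; exact neg_mem (pow_mem hθmem 2)
      rintro y (⟨z, rfl⟩ | ⟨z, rfl⟩)
      · by_cases hz : IsUnit z
        · obtain ⟨u, rfl⟩ := hz
          exact key _ (h₁ u)
        · rw [MulChar.map_nonunit _ hz]
          exact zero_mem _
      · by_cases hz : IsUnit z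
        · obtain ⟨u, rfl⟩ := hz
          exact key _ (h₂ u)
        · rw [MulChar.map_nonunit _ hz]
          exact zero_mem _
    exact hle hx
  · rintro ⟨a, b, rfl⟩
    have hθO : θ ∈ O χ₁ χ₂ := by
      rcases hv with ⟨t, rfl⟩ | ⟨t, rfl⟩
      · exact Algebra.subset_adjoin (Or.inl ⟨_, rfl⟩)
      · exact Algebra.subset_adjoin (Or.inr ⟨_, rfl⟩)
    exact (O χ₁ χ₂).add_mem ((O χ₁ χ₂).intCast_mem a)
      ((O χ₁ χ₂).mul_mem ((O χ₁ χ₂).intCast_mem b) hθO)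

/-- E1d: every `n`-th root of unity is `± χ₁(r)`. -/
theorem val_pm {q₁ : ℕ} (χ₁ : DirichletCharacter ℂ q₁) (θ : ℂ) (n : ℕ)
    (hθ : (n = 4 ∧ θ ^ 2 = -1) ∨ (n = 6 ∧ θ ^ 2 + θ + 1 = 0))
    (t₀ : (ZMod q₁)ˣ) (ht₀ : χ₁ t₀ = θ) (u : ℂ) (hu : u ^ n = 1) :
    ∃ r : (ZMod q₁)ˣ, u = χ₁ r ∨ u = -χ₁ r := by
  rcases pow_n_cases hθ hu with h | h | h | h | h | h
  · exact ⟨1, Or.inl (by rw [h, Units.val_one, map_one])⟩
  · exact ⟨1, Or.inr (by rw [h, Units.val_one, map_one])⟩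
  · exact ⟨t₀, Or.inl (by rw [h, ht₀])⟩
  · exact ⟨t₀, Or.inr (by rw [h, ht₀])⟩
  · exact ⟨t₀ ^ 2, Or.inl (by rw [h, Units.val_pow_eq_pow_val, map_pow, ht₀])⟩
  · exact ⟨t₀ ^ 2, Or.inr (by rw [h, Units.val_pow_eq_pow_val, map_pow, ht₀])⟩

/-- The product of a value of `χ₁` and a conjugate value of `χ₂` is an `n`-th root of unity. -/
theorem val_mul_conj_pow {q₁ q₂ : ℕ} (χ₁ : DirichletCharacter ℂ q₁)
    (χ₂ : DirichletCharacter ℂ q₂) (n : ℕ)
    (h₁ : ∀ t : (ZMod q₁)ˣ, χ₁ t ^ n = 1) (h₂ : ∀ t : (ZMod q₂)ˣ, χ₂ t ^ n = 1)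
    (s : (ZMod q₁)ˣ) (t : (ZMod q₂)ˣ) : (χ₁ s * conj (χ₂ t)) ^ n = 1 := by
  rw [mul_pow, ← map_pow (starRingEnd ℂ), h₁, h₂, map_one, mul_one]

end NDS
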