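import Pool.Agent.H7.NDS.ModE3b

/-!
# The modular forms `v Δ^m` and their `q`-expansions
-/

open Complex Filter
open UpperHalfPlane hiding I
open scoped MatrixGroups ComplexConjugate Real Topology Manifold ModularForm CongruenceSubgroup

namespace NDS

set_option linter.unusedSectionVars false

variable {q₁ q₂ : ℕ} [NeZero q₁] [NeZero q₂] (χ₁ : DirichletCharacter ℂ q₁)
  (χ₂ : DirichletCharacter ℂ q₂)

lemma qParam_eq_e (z : ℂ) : Function.Periodic.qParam 1 z = e z := by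
  rw [Function.Periodic.qParam, e]
  simp

lemma vv_periodic (δ : ℂ) (ℓ : ℕ) : Function.Periodic (vv χ₁ χ₂ δ ℓ ∘ ofComplex) 1 := by
  intro w
  by_cases hw : 0 < im w
  · have h1 : 0 < im (w + 1) := by simp [hw]
    simp only [Function.comp_apply, ofComplex_apply_of_im_pos h1, ofComplex_apply_of_im_pos hw, vv]
    have := Lam_add_int χ₁ χ₂ δ w 1
    push_cast at this
    rw [this]
  · have hw' : im w ≤ 0 := not_lt.mp hw
    have : im (w + 1) ≤ 0 := by simpa using hw'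
    simp [ofComplex_apply_of_im_nonpos this, ofComplex_apply_of_im_nonpos hw']

lemma disc_analytic : AnalyticAt ℂ (cuspFunction 1 ModularForm.discriminant) 0 := by
  have := ModularFormClass.analyticAt_cuspFunction_zero (h := 1) CuspForm.discriminant one_pos
    one_mem_strictPeriods_SL
  rwa [CuspForm.coe_discriminant] at this

lemma disc_pow (m : ℕ) : AnalyticAt ℂ (cuspFunction 1 (ModularForm.discriminant ^ m)) 0 ∧
    qExpansion 1 (ModularForm.discriminant ^ m) = (qExpansion 1 ModularForm.discriminant) ^ m := by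
  induction m with
  | zero =>
    rw [pow_zero, pow_zero]
    refine ⟨?_, qExpansion_one 1⟩
    have h1 : cuspFunction 1 (1 : ℍ → ℂ) = 1 := by
      ext q
      rcases eq_or_ne q 0 with rfl | hq
      · simpa [cuspFunction, Function.Periodic.cuspFunction] using! tendsto_const_nhds.limUnder_eq
      · simp [cuspFunction, Function.Periodic.cuspFunction_eq_of_nonzero 1 _ hq]
    rw [h1]
    exact analyticAt_const
  | succ m ih =>
    rw [pow_succ, pow_succ]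
    refine ⟨?_, ?_⟩
    · rw [cuspFunction_mul ih.1.continuousAt disc_analytic.continuousAt]
      exact ih.1.mul disc_analytic
    · rw [qExpansion_mul ih.1 disc_analytic, ih.2]

theorem exists_F (h₁ : χ₁.IsPrimitive) (h₂ : χ₂.IsPrimitive) (n₁ : χ₁ ≠ 1) (n₂ : χ₂ ≠ 1)
    (par : χ₁ (-1) * χ₂ (-1) = 1) (δ : ℂ) (ℓ : ℕ) (hℓ : 0 < ℓ)
    (hS : ∀ γ ∈ CongruenceSubgroup.Gamma1 (q₁ * q₂), 1 ≤ γ 1 0 → ∃ j : ℤ,
      δ * S χ₁ χ₂ (γ 0 0) (γ 1 0) + conj (δ * S χ₁ χ₂ (γ 0 0) (γ 1 0)) = 2 * ℓ * j) :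
    ∃ V : ℕ → ℂ, V 0 = 1 ∧
      (∀ n : ℕ, 1 ≤ n → (n : ℂ) * V n =
        ∑ N ∈ Finset.Icc 1 n, (N : ℂ) * (cc χ₁ χ₂ δ N / ℓ) * V (n - N)) ∧
      ∃ m₀ : ℕ, ∀ m : ℕ, m₀ ≤ m →
        ∃ F : ModularForm (CongruenceSubgroup.Gamma1 (q₁ * q₂)) (12 * (m : ℤ)),
          qExpansion 1 F = PowerSeries.mk V * (qExpansion 1 ModularForm.discriminant) ^ m := by
  have hℓ' : (ℓ : ℂ) ≠ 0 := by exact_mod_cast hℓ.ne'
  obtain ⟨V, V0, hV, hVs⟩ := exp_series (fun N => cc χ₁ χ₂ δ N / ℓ) (by simp [cc_zero])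
    (fun q => ∑' N, cc χ₁ χ₂ δ N / ℓ * q ^ N) (fun q hq => by
      refine Summable.hasSum ?_
      refine ((summable_cc χ₁ χ₂ δ hq).div_const (ℓ : ℂ)).congr fun N => ?_
      ring)
  refine ⟨V, V0, hV, ?_⟩
  have : NeZero (q₁ * q₂) := ⟨Nat.mul_ne_zero (NeZero.ne q₁) (NeZero.ne q₂)⟩
  -- the expansion of `v`
  have hvs : ∀ τ : ℍ, HasSum (fun n : ℕ => V n • Function.Periodic.qParam 1 τ ^ n)
      (vv χ₁ χ₂ δ ℓ τ) := by
    intro τ
    have hτ : 0 < (τ : ℂ).im := τ.im_pos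
    have hq : ‖e (τ : ℂ)‖ < 1 := by
      rw [norm_e]; exact exp_lt_one_of_im_pos hτ
    have h1 := hVs _ hq
    have h2 : (∑' N, cc χ₁ χ₂ δ N / ℓ * e (τ : ℂ) ^ N) = Lam χ₁ χ₂ δ τ / ℓ := by
      have h3 := (hasSum_cc χ₁ χ₂ δ hτ).div_const (ℓ : ℂ)
      rw [← h3.tsum_eq]
      refine tsum_congr fun N => ?_
      ring
    rw [h2] at h1
    simp only [smul_eq_mul, qParam_eq_e]
    exact h1
  have hper := vv_periodic χ₁ χ₂ δ ℓ
  have hper' : Function.Periodic (vv χ₁ χ₂ δ ℓ ∘ ofComplex) ((1 : ℝ) : ℂ) := by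
    simpa using hper
  have hbdd := isBoundedAtImInfty_of_hasSum_qExpansion (h := 1) one_pos hvs
  have han := UpperHalfPlane.analyticAt_cuspFunction_zero (h := 1) one_pos hper'
    (vv_mdiff χ₁ χ₂ δ ℓ) hbdd
  have hqe : qExpansion 1 (vv χ₁ χ₂ δ ℓ) = PowerSeries.mk V := by
    ext n
    rw [PowerSeries.coeff_mk]
    have e1 := (hasFPowerSeriesOnBall_cuspFunction (h := 1) one_pos han hvs).hasFPowerSeriesAt
    have e2 := han.hasFPowerSeriesAt
    have e3 := congr_arg (FormalMultilinearSeries.coeff · n) (e2.eq_formalMultilinearSeries e1)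
    simp only [FormalMultilinearSeries.coeff_ofScalars] at e3
    rw [← e3, qExpansion_coeff]
    ring
  obtain ⟨C, hC⟩ := vv_bound χ₁ χ₂ δ ℓ hℓ
  obtain ⟨m₀, hm₀⟩ := exists_form (q₁ * q₂) (vv χ₁ χ₂ δ ℓ) (vv_mdiff χ₁ χ₂ δ ℓ)
    (vv_inv χ₁ χ₂ h₁ h₂ n₁ n₂ par δ ℓ hℓ hS) C hC
  refine ⟨m₀, fun m hm => ?_⟩
  obtain ⟨F, hF⟩ := hm₀ m hm
  refine ⟨F, ?_⟩
  have hF' : (F : ℍ → ℂ) = vv χ₁ χ₂ δ ℓ * ModularForm.discriminant ^ m := by
    funext τ
    rw [hF τ]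
    rfl
  rw [hF', qExpansion_mul han (disc_pow m).1, hqe, (disc_pow m).2]

end NDS
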