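import Pool.Agent.H7.NDS.ModD3

/-!
# Module E4: the algebraic contradiction
-/

open Polynomial

namespace NDS

/-- coefficients -/
noncomputable def cN {q₁ q₂ : ℕ} [NeZero q₁] {R Ω : Type*} [CommRing R] [Field Ω]
    (lam : R →+ ℤ) (χ : DirichletCharacter R q₁) (ψ : DirichletCharacter R q₂) (ζ : Ω) (N : ℕ) : Ω :=
  -∑ p ∈ N.divisorsAntidiagonal,
    (p.1 : Ω)⁻¹ * X lam χ ζ (χ (p.1 : ZMod q₁) * ψ⁻¹ (p.2 : ZMod q₂))

namespace E4

lemma map_X {q : ℕ} [NeZero q] {R A B : Type*} [CommRing R] [Field A] [Field B] (f : A →+* B)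
    (lam : R →+ ℤ) (χ : DirichletCharacter R q) (ζ : A) (b : R) :
    f (X lam χ ζ b) = X lam χ (f ζ) b := by
  unfold X
  rw [map_sum]
  apply Finset.sum_congr rfl
  intro k _
  rw [map_mul, map_pow, map_intCast]

lemma map_cN {q₁ q₂ : ℕ} [NeZero q₁] {R A B : Type*} [CommRing R] [Field A] [Field B]
    (f : A →+* B) (lam : R →+ ℤ) (χ : DirichletCharacter R q₁) (ψ : DirichletCharacter R q₂)
    (ζ : A) (N : ℕ) : f (cN lam χ ψ ζ N) = cN lam χ ψ (f ζ) N := by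
  unfold cN
  rw [map_neg, map_sum]
  congr 1
  apply Finset.sum_congr rfl
  intro p _
  rw [map_mul, map_inv₀, map_natCast, map_X]

/-- A linear recurrence gives an exponential bound. -/
lemma bound_of_rec {Ω : Type*} [NormedField Ω] (b c : ℕ → Ω) (r : ℕ)
    (hc : ∃ j ≤ r, c j ≠ 0)
    (h : ∀ s, ∑ j ∈ Finset.range (r + 1), c j * b (s + j) = 0) :
    ∃ C E : ℝ, ∀ s, ‖b s‖ ≤ C * E ^ s := by
  classical
  -- the top index
  have hex : ∃ j₁, j₁ ≤ r ∧ c j₁ ≠ 0 ∧ ∀ j, j₁ < j → j ≤ r → c j = 0 := by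
    set S := (Finset.range (r + 1)).filter (fun j => c j ≠ 0) with hS
    have hne : S.Nonempty := by
      obtain ⟨j, hj, hcj⟩ := hc
      exact ⟨j, by rw [hS, Finset.mem_filter]; exact ⟨Finset.mem_range.2 (by omega), hcj⟩⟩
    obtain ⟨hm1, hm2⟩ := Finset.mem_filter.1 (S.max'_mem hne)
    refine ⟨S.max' hne, ?_, hm2, ?_⟩
    · rw [Finset.mem_range] at hm1
      omega
    · intro j hj hjr
      by_contra hcj
      have hmem : j ∈ S := by
        rw [hS, Finset.mem_filter]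
        exact ⟨Finset.mem_range.2 (by omega), hcj⟩
      have := S.le_max' j hmem
      omega
  obtain ⟨j₁, hj₁, hcj₁, htop⟩ := hex
  set E : ℝ := 1 + ∑ j ∈ Finset.range j₁, ‖c j / c j₁‖ with hE
  set C : ℝ := ∑ i ∈ Finset.range j₁, ‖b i‖ with hC
  have hC0 : 0 ≤ C := Finset.sum_nonneg fun _ _ => norm_nonneg _
  have hE1 : 1 ≤ E := by
    rw [hE]
    have : 0 ≤ ∑ j ∈ Finset.range j₁, ‖c j / c j₁‖ := Finset.sum_nonneg fun _ _ => norm_nonneg _
    linarith
  refine ⟨C, E, ?_⟩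
  intro n
  induction n using Nat.strong_induction_on with
  | _ n ih =>
  rcases lt_or_ge n j₁ with hn | hn
  · calc ‖b n‖ ≤ C := by
          rw [hC]
          exact Finset.single_le_sum (f := fun i => ‖b i‖) (fun _ _ => norm_nonneg _)
            (Finset.mem_range.2 hn)
      _ = C * 1 := (mul_one C).symm
      _ ≤ C * E ^ n := mul_le_mul_of_nonneg_left (one_le_pow₀ hE1) hC0
  · obtain ⟨s, rfl⟩ : ∃ s, n = s + j₁ := ⟨n - j₁, by omega⟩
    have h1 := h s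
    have h2 : ∑ j ∈ Finset.range (r + 1), c j * b (s + j) =
        ∑ j ∈ Finset.range (j₁ + 1), c j * b (s + j) := by
      symm
      apply Finset.sum_subset
      · intro j hj
        rw [Finset.mem_range] at hj ⊢
        omega
      · intro j hj hj'
        rw [Finset.mem_range] at hj hj'
        rw [htop j (by omega) (by omega), zero_mul]
    rw [h2, Finset.sum_range_succ] at h1
    have h3 : b (s + j₁) = -∑ j ∈ Finset.range j₁, (c j / c j₁) * b (s + j) := by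
      have h4 : c j₁ * (b (s + j₁) + ∑ j ∈ Finset.range j₁, (c j / c j₁) * b (s + j)) = 0 := by
        rw [mul_add, Finset.mul_sum]
        have h5 : ∑ j ∈ Finset.range j₁, c j₁ * (c j / c j₁ * b (s + j)) =
            ∑ j ∈ Finset.range j₁, c j * b (s + j) := by
          apply Finset.sum_congr rfl
          intro j _
          field_simp
        rw [h5, add_comm]
        exact h1
      have h6 := (mul_eq_zero.1 h4).resolve_left hcj₁
      exact eq_neg_of_add_eq_zero_left h6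
    rcases Nat.eq_zero_or_pos j₁ with hj0 | hj0
    · rw [h3, hj0, Finset.range_zero, Finset.sum_empty, neg_zero, norm_zero]
      positivity
    · rw [h3, norm_neg]
      have hEpos : 0 < E := by linarith
      calc ‖∑ j ∈ Finset.range j₁, (c j / c j₁) * b (s + j)‖
          ≤ ∑ j ∈ Finset.range j₁, ‖(c j / c j₁) * b (s + j)‖ := norm_sum_le _ _
        _ ≤ ∑ j ∈ Finset.range j₁, ‖c j / c j₁‖ * (C * E ^ (s + j₁ - 1)) := by
            apply Finset.sum_le_sum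
            intro j hj
            rw [norm_mul]
            apply mul_le_mul_of_nonneg_left _ (norm_nonneg _)
            have hj' := Finset.mem_range.1 hj
            refine (ih (s + j) (by omega)).trans ?_
            exact mul_le_mul_of_nonneg_left (pow_le_pow_right₀ hE1 (by omega)) hC0
        _ = (∑ j ∈ Finset.range j₁, ‖c j / c j₁‖) * (C * E ^ (s + j₁ - 1)) :=
            (Finset.sum_mul _ _ _).symm
        _ ≤ E * (C * E ^ (s + j₁ - 1)) := by
            apply mul_le_mul_of_nonneg_right _ (by positivity)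
            rw [hE]
            linarith
        _ = C * E ^ (s + j₁) := by
            have h7 : E ^ (s + j₁) = E ^ (s + j₁ - 1) * E := by
              rw [← pow_succ]
              congr 1
              omega
            rw [h7]
            ring

/-- powers of a power series `q + …`. -/
lemma coeff_pow_facts (D : ℕ → ℤ) (D0 : D 0 = 0) (D1 : D 1 = 1) (m : ℕ) :
    (∀ i < m, ((PowerSeries.mk D) ^ m).coeff i = 0) ∧ ((PowerSeries.mk D) ^ m).coeff m = 1 := by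
  have h1 : PowerSeries.mk D = PowerSeries.X * PowerSeries.mk (fun n => D (n + 1)) := by
    ext n
    rcases n with _ | n
    · simp [D0]
    · rw [PowerSeries.coeff_succ_X_mul]
      simp
  rw [h1, mul_pow]
  constructor
  · intro i hi
    rw [PowerSeries.coeff_X_pow_mul', if_neg (by omega)]
  · rw [PowerSeries.coeff_X_pow_mul', if_pos le_rfl, Nat.sub_self]
    rw [PowerSeries.coeff_zero_eq_constantCoeff, map_pow]
    have h2 : PowerSeries.constantCoeff (PowerSeries.mk fun n => D (n + 1)) = 1 := by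
      rw [← PowerSeries.coeff_zero_eq_constantCoeff]
      simp [D1]
    rw [h2, one_pow]

lemma mk_cast_eq_map {A : Type*} [CommRing A] (D : ℕ → ℤ) (m : ℕ) :
    (PowerSeries.mk (fun n => (D n : A))) ^ m =
      PowerSeries.map (Int.castRingHom A) ((PowerSeries.mk D) ^ m) := by
  rw [map_pow]
  congr 1

section setup

variable {q₁ q₂ : ℕ} [NeZero q₁] [NeZero q₂] {R : Type*} [CommRing R]

lemma X_zero {q : ℕ} [NeZero q] {Ω : Type*} [Field Ω] (lam : R →+ ℤ)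
    (χ : DirichletCharacter R q) (ζ : Ω) : X lam χ ζ 0 = 0 := by
  unfold X
  apply Finset.sum_eq_zero
  intro k _
  rw [zero_mul, map_zero, Int.cast_zero, zero_mul]

lemma X_neg {q : ℕ} [NeZero q] {Ω : Type*} [Field Ω] (lam : R →+ ℤ)
    (χ : DirichletCharacter R q) (ζ : Ω) (b : R) : X lam χ ζ (-b) = -X lam χ ζ b := by
  unfold X
  rw [← Finset.sum_neg_distrib]
  apply Finset.sum_congr rfl
  intro k _
  rw [neg_mul, map_neg, Int.cast_neg, neg_mul]

/-- every term of `c_N` is bounded by `M`. -/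
lemma X_le {Ω : Type*} [NormedField Ω] (χ : DirichletCharacter R q₁) (ψ : DirichletCharacter R q₂)
    (hpm : ∀ (s : (ZMod q₁)ˣ) (t : (ZMod q₂)ˣ), ∃ r : (ZMod q₁)ˣ,
      χ s * ψ⁻¹ t = χ r ∨ χ s * ψ⁻¹ t = -χ r) (lam : R →+ ℤ) (ζ : Ω)
    (hmax : ∀ t : (ZMod q₁)ˣ, ‖X lam χ ζ (χ t)‖ ≤ ‖X lam χ ζ 1‖) (a : ZMod q₁) (b : ZMod q₂) :
    ‖X lam χ ζ (χ a * ψ⁻¹ b)‖ ≤ ‖X lam χ ζ 1‖ := by
  by_cases ha : IsUnit a
  · by_cases hb : IsUnit b
    · obtain ⟨s, rfl⟩ := ha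
      obtain ⟨t, rfl⟩ := hb
      obtain ⟨r, hr | hr⟩ := hpm s t
      · rw [hr]; exact hmax r
      · rw [hr, X_neg, norm_neg]; exact hmax r
    · rw [MulChar.map_nonunit _ hb, mul_zero, X_zero, norm_zero]
      exact norm_nonneg _
  · rw [MulChar.map_nonunit _ ha, zero_mul, X_zero, norm_zero]
    exact norm_nonneg _

lemma cN_one {Ω : Type*} [Field Ω] (lam : R →+ ℤ) (χ : DirichletCharacter R q₁)
    (ψ : DirichletCharacter R q₂) (ζ : Ω) : cN lam χ ψ ζ 1 = -X lam χ ζ 1 := by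
  unfold cN
  rw [Nat.divisorsAntidiagonal_one, Finset.sum_singleton]
  simp

end setup

lemma coeff_map_prod {A B : Type*} [CommRing A] [CommRing B] (f : A →+* B) (v : ℕ → A)
    (D : ℕ → ℤ) (m n : ℕ) :
    f ((PowerSeries.mk v * (PowerSeries.mk (fun n => (D n : A))) ^ m).coeff n) =
      (PowerSeries.mk (fun n => f (v n)) * (PowerSeries.mk (fun n => (D n : B))) ^ m).coeff n := by
  have h1 : PowerSeries.map f (PowerSeries.mk v) = PowerSeries.mk (fun n => f (v n)) := by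
    ext n
    simp
  have h2 : PowerSeries.map f (PowerSeries.mk (fun n => (D n : A))) =
      PowerSeries.mk (fun n => (D n : B)) := by
    ext n
    simp
  rw [← h1, ← h2, ← RingHom.map_pow, ← RingHom.map_mul, PowerSeries.coeff_map]

/-- Descent to `K = ℚ(ζ)` and transfer to `Ω`. -/
lemma transfer {q₁ q₂ : ℕ} [NeZero q₁] [NeZero q₂] {R Ω : Type*} [CommRing R] [Field Ω]
    [Algebra ℚ Ω] (χ : DirichletCharacter R q₁) (ψ : DirichletCharacter R q₂) (lam : R →+ ℤ)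
    (ℓ : ℕ) (hℓ : ℓ ≠ 0) (ζ : ℂ) (hζ : IsPrimitiveRoot ζ q₁) (ζ' : Ω) (hζ' : IsPrimitiveRoot ζ' q₁)
    (V : ℕ → ℂ) (V0 : V 0 = 1)
    (hV : ∀ n : ℕ, 1 ≤ n → (n : ℂ) * V n =
      ∑ N ∈ Finset.Icc 1 n, (N : ℂ) * (cN lam χ ψ ζ N / ℓ) * V (n - N))
    (D : ℕ → ℤ) :
    ∃ V' : ℕ → Ω, V' 0 = 1 ∧
      (∀ n : ℕ, 1 ≤ n → (n : Ω) * V' n =
        ∑ N ∈ Finset.Icc 1 n, (N : Ω) * (cN lam χ ψ ζ' N / ℓ) * V' (n - N)) ∧
      ∀ (m p r : ℕ) (κ : ℕ → ℂ), (∃ j ≤ r, κ j ≠ 0) →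
        (∀ s : ℕ, ∑ j ∈ Finset.range (r + 1), κ j *
          (PowerSeries.mk V * (PowerSeries.mk (fun n => (D n : ℂ))) ^ m).coeff (p ^ (s + j)) = 0) →
        ∃ κ' : ℕ → Ω, (∃ j ≤ r, κ' j ≠ 0) ∧
          ∀ s : ℕ, ∑ j ∈ Finset.range (r + 1), κ' j *
          (PowerSeries.mk V' * (PowerSeries.mk (fun n => (D n : Ω))) ^ m).coeff (p ^ (s + j))
            = 0 := by
  classical
  have hq0 : 0 < q₁ := Nat.pos_of_ne_zero (NeZero.ne q₁)
  -- the field `K`
  set K : IntermediateField ℚ ℂ := IntermediateField.adjoin ℚ {ζ} with hK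
  have hint : IsIntegral ℚ ζ := (hζ.isIntegral hq0).tower_top
  -- the embedding
  have hroot : ζ' ∈ (minpoly ℚ ζ).aroots Ω := by
    rw [Polynomial.mem_aroots, ← Polynomial.cyclotomic_eq_minpoly_rat hζ hq0]
    refine ⟨Polynomial.cyclotomic_ne_zero q₁ ℚ, ?_⟩
    have h1 := hζ'.isRoot_cyclotomic hq0
    rw [Polynomial.IsRoot.def, ← Polynomial.map_cyclotomic q₁ (algebraMap ℚ Ω)] at h1
    rw [Polynomial.aeval_def, ← Polynomial.eval_map]
    exact h1
  set ι : K →ₐ[ℚ] Ω := (IntermediateField.algHomAdjoinIntegralEquiv ℚ hint).symm ⟨ζ', hroot⟩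
    with hι
  set ζK : K := IntermediateField.AdjoinSimple.gen ℚ ζ with hζK
  have hιζ : ι ζK = ζ' :=
    IntermediateField.algHomAdjoinIntegralEquiv_symm_apply_gen ℚ hint ⟨ζ', hroot⟩
  have hcζ : (algebraMap K ℂ) ζK = ζ := IntermediateField.AdjoinSimple.algebraMap_gen ℚ ζ
  have hinj : Function.Injective (algebraMap K ℂ) := (algebraMap K ℂ).injective
  -- `V` takes values in `K`
  have hVK : ∀ n, ∃ v : K, algebraMap K ℂ v = V n := by
    intro n
    induction n using Nat.strong_induction_on with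
    | _ n ih =>
    rcases Nat.eq_zero_or_pos n with rfl | hn
    · exact ⟨1, by rw [map_one, V0]⟩
    · have hn0 : (n : ℂ) ≠ 0 := by exact_mod_cast hn.ne'
      choose! v hv using ih
      refine ⟨(∑ N ∈ Finset.Icc 1 n, (N : K) * (cN lam χ ψ ζK N / ℓ) * v (n - N)) / n, ?_⟩
      rw [map_div₀, map_sum, map_natCast, div_eq_iff hn0, mul_comm, hV n hn]
      apply Finset.sum_congr rfl
      intro N hN
      obtain ⟨hN1, hN2⟩ := Finset.mem_Icc.1 hN
      rw [map_mul, map_mul, map_div₀, map_natCast, map_natCast, hv (n - N) (by omega)]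
      congr 3
      rw [map_cN (algebraMap K ℂ), hcζ]
  choose v hv using hVK
  have hv0 : v 0 = 1 := by
    apply hinj
    rw [hv, V0, map_one]
  have hvrec : ∀ n : ℕ, 1 ≤ n → (n : K) * v n =
      ∑ N ∈ Finset.Icc 1 n, (N : K) * (cN lam χ ψ ζK N / ℓ) * v (n - N) := by
    intro n hn
    apply hinj
    rw [map_mul, map_natCast, hv, hV n hn, map_sum]
    apply Finset.sum_congr rfl
    intro N _
    rw [map_mul, map_mul, map_div₀, map_natCast, map_natCast, hv, map_cN (algebraMap K ℂ), hcζ]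
  refine ⟨fun n => ι (v n), by simp only [hv0, map_one], ?_, ?_⟩
  · intro n hn
    have h1 := congrArg ι (hvrec n hn)
    rw [map_mul, map_natCast, map_sum] at h1
    simp only
    rw [h1]
    apply Finset.sum_congr rfl
    intro N _
    rw [map_mul, map_mul, map_div₀, map_natCast, map_natCast]
    congr 3
    have h2 := map_cN (ι : K →+* Ω) lam χ ψ ζK N
    rw [RingHom.coe_coe, hιζ] at h2
    exact h2
  · intro m p r κ hκ hrel
    obtain ⟨j₀, hj₀, hκj₀⟩ := hκ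
    -- coefficients over `K`
    set AK : PowerSeries K := PowerSeries.mk v * (PowerSeries.mk (fun n => (D n : K))) ^ m with hAK
    have hAC : ∀ n, (PowerSeries.mk V * (PowerSeries.mk (fun n => (D n : ℂ))) ^ m).coeff n =
        algebraMap K ℂ (AK.coeff n) := by
      intro n
      have h1 := coeff_map_prod (algebraMap K ℂ) v D m n
      simp only [hv] at h1
      exact h1.symm
    have hAΩ : ∀ n, (PowerSeries.mk (fun n => ι (v n)) *
        (PowerSeries.mk (fun n => (D n : Ω))) ^ m).coeff n = ι (AK.coeff n) := fun n =>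
      (coeff_map_prod (ι : K →+* Ω) v D m n).symm
    -- the projection
    obtain ⟨π, hπ⟩ : ∃ π : Module.Dual K ℂ, π (κ j₀) ≠ 0 := by
      by_contra hno
      push Not at hno
      exact hκj₀ ((Module.forall_dual_apply_eq_zero_iff K (κ j₀)).1 hno)
    refine ⟨fun j => ι (π (κ j)), ⟨j₀, hj₀, ?_⟩, ?_⟩
    · intro h1
      exact hπ ((map_eq_zero ι).1 h1)
    · intro s
      have h1 := congrArg π (hrel s)
      rw [map_sum, map_zero] at h1
      have h2 : ∀ j ∈ Finset.range (r + 1), π (κ j *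
          (PowerSeries.mk V * (PowerSeries.mk (fun n => (D n : ℂ))) ^ m).coeff (p ^ (s + j))) =
          π (κ j) * AK.coeff (p ^ (s + j)) := by
        intro j _
        rw [hAC, mul_comm, ← Algebra.smul_def, map_smul, smul_eq_mul, mul_comm]
      rw [Finset.sum_congr rfl h2] at h1
      have h3 := congrArg ι h1
      rw [map_sum, map_zero] at h3
      rw [← h3]
      apply Finset.sum_congr rfl
      intro j _
      rw [hAΩ, map_mul ι]

lemma coeff_prod_eq_sum {Ω : Type*} [CommRing Ω] (V : ℕ → Ω) (P : PowerSeries Ω) (n : ℕ) :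
    (PowerSeries.mk V * P).coeff n =
      ∑ i ∈ Finset.range (n + 1), P.coeff i * V (n - i) := by
  rw [mul_comm, PowerSeries.coeff_mul, Finset.Nat.sum_antidiagonal_eq_sum_range_succ_mk]
  apply Finset.sum_congr rfl
  intro i _
  rw [PowerSeries.coeff_mk]

end E4

open E4

theorem no_relation (ℓ : ℕ) [Fact ℓ.Prime] {q₁ q₂ : ℕ} [NeZero q₁] [NeZero q₂] {R : Type*}
    [CommRing R] [IsDomain R] [CharZero R] (χ : DirichletCharacter R q₁)
    (ψ : DirichletCharacter R q₂) (hχ : χ.IsPrimitive) (hχ1 : χ ≠ 1) (n : ℕ)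
    (hn : n = 4 ∨ n = 6) (hval : ∀ u : (ZMod q₁)ˣ, χ u ^ n = 1)
    (hpm : ∀ (s : (ZMod q₁)ˣ) (t : (ZMod q₂)ˣ), ∃ r : (ZMod q₁)ˣ,
      χ s * ψ⁻¹ t = χ r ∨ χ s * ψ⁻¹ t = -χ r)
    (lam : R →+ ℤ) (k₀ : (ZMod q₁)ˣ) (hk : ¬ (ℓ : ℤ) ∣ lam (χ⁻¹ k₀)) (V : ℕ → ℂ) (V0 : V 0 = 1)
    (hV : ∀ n : ℕ, 1 ≤ n → (n : ℂ) * V n =
      ∑ N ∈ Finset.Icc 1 n, (N : ℂ) * (cN lam χ ψ (e (1 / q₁)) N / ℓ) * V (n - N))
    (D : ℕ → ℤ) (D0 : D 0 = 0) (D1 : D 1 = 1) (m₀ : ℕ)
    (hrel : ∀ m, m₀ ≤ m → ∀ p : ℕ, p.Prime → p ∣ q₁ → ∃ (r : ℕ) (κ : ℕ → ℂ),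
      (∃ j ≤ r, κ j ≠ 0) ∧ ∀ s : ℕ, ∑ j ∈ Finset.range (r + 1),
        κ j * (PowerSeries.mk V * (PowerSeries.mk (fun n => (D n : ℂ))) ^ m).coeff
          (p ^ (s + j)) = 0) : False := by
  have hℓp : ℓ.Prime := Fact.out
  have hl1 : (1 : ℝ) < ℓ := by exact_mod_cast hℓp.one_lt
  have hl0 : (0 : ℝ) < ℓ := by linarith
  have hq0 : q₁ ≠ 0 := NeZero.ne q₁
  have hq1 : q₁ ≠ 1 := fun h => hχ1 (DirichletCharacter.level_one' χ h)
  obtain ⟨ζ', hζ', hmax, hM1, hM2⟩ := padic_choice ℓ χ hχ n hn hval lam k₀ hk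
  set M := ‖X lam χ ζ' 1‖ with hM
  have hM0 : 0 ≤ M := norm_nonneg _
  have hζ : IsPrimitiveRoot (e (1 / (q₁ : ℂ))) q₁ := by
    have h1 := Complex.isPrimitiveRoot_exp q₁ hq0
    have h2 : e (1 / (q₁ : ℂ)) = Complex.exp (2 * Real.pi * Complex.I / q₁) := by
      unfold e
      congr 1
      ring
    rw [h2]
    exact h1
  obtain ⟨V', hV'0, hV', htr⟩ := transfer (Ω := PadicAlgCl ℓ) χ ψ lam ℓ hℓp.ne_zero
    (e (1 / (q₁ : ℂ))) hζ ζ' hζ' V V0 hV D
  -- the coefficients `y`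
  set y : ℕ → PadicAlgCl ℓ := fun N => cN lam χ ψ ζ' N / ℓ with hy
  have hnl : ‖(ℓ : PadicAlgCl ℓ)‖ = (ℓ : ℝ)⁻¹ := norm_prime
  have hy1 : ‖y 1‖ = M * ℓ := by
    simp only [hy]
    rw [cN_one, norm_div, norm_neg, hnl, div_inv_eq_mul]
  have hterm : ∀ a b : ℕ, ‖X lam χ ζ' (χ (a : ZMod q₁) * ψ⁻¹ (b : ZMod q₂))‖ ≤ M := fun a b =>
    X_le χ ψ hpm lam ζ' hmax _ _
  -- bounded sequences
  have hfinal : ∀ (p m : ℕ), m₀ ≤ m → p.Prime → p ∣ q₁ →
      (∀ C E : ℝ, ∃ K : ℕ, C * E ^ K < ‖∑ i ∈ Finset.range (p ^ K + 1),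
        (((PowerSeries.mk (fun n => (D n : PadicAlgCl ℓ))) ^ m).coeff i) * V' (p ^ K - i)‖) →
      False := by
    intro p m hm hp hpq hgrow
    obtain ⟨r, κ, hκ, hs⟩ := hrel m hm p hp hpq
    obtain ⟨κ', hκ', hs'⟩ := htr m p r κ hκ hs
    obtain ⟨C, E, hCE⟩ := bound_of_rec
      (fun s => (PowerSeries.mk V' *
        (PowerSeries.mk (fun n => (D n : PadicAlgCl ℓ))) ^ m).coeff (p ^ s)) κ' r hκ' hs'
    obtain ⟨K, hK⟩ := hgrow C E
    have h1 := hCE K
    rw [coeff_prod_eq_sum] at h1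
    linarith
  -- facts on `D`
  have hDfacts : ∀ m : ℕ,
      (∀ i < m, ((PowerSeries.mk (fun n => (D n : PadicAlgCl ℓ))) ^ m).coeff i = 0) ∧
      ((PowerSeries.mk (fun n => (D n : PadicAlgCl ℓ))) ^ m).coeff m = 1 ∧
      ∀ i, ‖((PowerSeries.mk (fun n => (D n : PadicAlgCl ℓ))) ^ m).coeff i‖ ≤ 1 := by
    intro m
    obtain ⟨h1, h2⟩ := coeff_pow_facts D D0 D1 m
    rw [mk_cast_eq_map]
    refine ⟨fun i hi => ?_, ?_, fun i => ?_⟩
    · rw [PowerSeries.coeff_map, h1 i hi, map_zero]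
    · rw [PowerSeries.coeff_map, h2, map_one]
    · rw [PowerSeries.coeff_map, eq_intCast]
      exact norm_int_le_one (ℓ := ℓ) _
  by_cases hlq : ℓ ∣ q₁
  · -- wild case
    have hMs := hM2 hlq
    have hρ0 : 0 < M * ℓ := by
      have : 0 < M := by
        rcases hM0.eq_or_lt with h1 | h1
        · exfalso
          rw [← h1] at hMs
          have h3 : (0 : ℝ) < ((ℓ : ℝ)⁻¹) ^ ℓ := by positivity
          rw [zero_pow (Nat.sub_ne_zero_of_lt hℓp.one_lt)] at hMs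
          linarith
        · exact h1
      positivity
    have hρ : (ℓ : ℝ)⁻¹ < (M * ℓ) ^ (ℓ - 1) := by
      have h1 : (ℓ : ℝ)⁻¹ = ((ℓ : ℝ)⁻¹) ^ ℓ * (ℓ : ℝ) ^ (ℓ - 1) := by
        have h2 : ℓ = (ℓ - 1) + 1 := (Nat.sub_add_cancel hℓp.pos).symm
        have h3 : ((ℓ : ℝ)⁻¹) ^ ℓ = ((ℓ : ℝ)⁻¹) ^ (ℓ - 1) * (ℓ : ℝ)⁻¹ := by
          conv_lhs => rw [h2, pow_succ]
          rw [← h2]
        rw [h3, inv_pow]
        field_simp
      rw [h1, mul_pow]
      exact mul_lt_mul_of_pos_right hMs (by positivity)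
    have hyN : ∀ N : ℕ, 1 ≤ N → ‖y N‖ ≤ M * ℓ := by
      intro N _
      simp only [hy]
      rw [norm_div, hnl, div_inv_eq_mul]
      apply mul_le_mul_of_nonneg_right _ hl0.le
      unfold cN
      rw [norm_neg]
      apply IsUltrametricDist.norm_sum_le_of_forall_le_of_nonneg hM0
      intro p _
      by_cases hp : ℓ ∣ p.1
      · have h1 : ¬ IsUnit ((p.1 : ℕ) : ZMod q₁) := by
          rw [ZMod.isUnit_iff_coprime]
          intro h2
          have h3 : ℓ ∣ Nat.gcd p.1 q₁ := Nat.dvd_gcd hp hlq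
          rw [h2] at h3
          exact hℓp.one_lt.ne' (Nat.dvd_one.1 h3)
        rw [MulChar.map_nonunit _ h1, zero_mul, X_zero, mul_zero, norm_zero]
        exact hM0
      · rw [norm_mul, norm_inv, norm_nat_of_not_dvd (ℓ := ℓ) hp, inv_one, one_mul]
        exact hterm _ _
    obtain ⟨κ, hκ⟩ := growth_strong ℓ y V' (M * ℓ) hρ0 hρ hy1 hyN hV'0 hV'
    have hm : 0 < ℓ ^ κ * (m₀ + 1) := Nat.mul_pos (pow_pos hℓp.pos _) (Nat.succ_pos _)
    obtain ⟨hD1, hD2, hD3⟩ := hDfacts (ℓ ^ κ * (m₀ + 1))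
    refine hfinal ℓ (ℓ ^ κ * (m₀ + 1)) ?_ hℓp hlq (fun C E => ?_)
    · have h1 : 1 ≤ ℓ ^ κ := Nat.one_le_pow _ _ hℓp.pos
      nlinarith
    · exact hκ (ℓ ^ κ * (m₀ + 1)) hm (dvd_mul_right _ _)
        (fun i => ((PowerSeries.mk (fun n => (D n : PadicAlgCl ℓ))) ^ (ℓ ^ κ * (m₀ + 1))).coeff i)
        hD1 hD2 hD3 C E
  · -- tame case
    have hMs := hM1 hlq
    have hρ : 1 < M * ℓ := by
      rw [inv_lt_iff_one_lt_mul₀ hl0] at hMs
      linarith
    have hyN : ∀ N : ℕ, 1 ≤ N → ‖(N : PadicAlgCl ℓ) * y N‖ ≤ M * ℓ := by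
      intro N hN
      simp only [hy]
      rw [norm_mul, norm_div, hnl, div_inv_eq_mul, ← mul_assoc, ← norm_mul]
      apply mul_le_mul_of_nonneg_right _ hl0.le
      unfold cN
      rw [mul_neg, norm_neg, Finset.mul_sum]
      apply IsUltrametricDist.norm_sum_le_of_forall_le_of_nonneg hM0
      intro p hp
      obtain ⟨hp1, hp2⟩ := Nat.mem_divisorsAntidiagonal.1 hp
      have hp10 : (p.1 : PadicAlgCl ℓ) ≠ 0 := by
        have : p.1 ≠ 0 := by
          intro h1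
          rw [h1, zero_mul] at hp1
          exact hp2 hp1.symm
        exact_mod_cast this
      have h1 : (N : PadicAlgCl ℓ) * ((p.1 : PadicAlgCl ℓ)⁻¹ *
          X lam χ ζ' (χ (p.1 : ZMod q₁) * ψ⁻¹ (p.2 : ZMod q₂))) =
          (p.2 : PadicAlgCl ℓ) * X lam χ ζ' (χ (p.1 : ZMod q₁) * ψ⁻¹ (p.2 : ZMod q₂)) := by
        rw [← hp1]
        push_cast
        field_simp
      rw [h1, norm_mul]
      have h2 : ‖(p.2 : PadicAlgCl ℓ)‖ ≤ 1 := IsUltrametricDist.norm_natCast_le_one _ _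
      calc ‖(p.2 : PadicAlgCl ℓ)‖ * ‖X lam χ ζ' (χ (p.1 : ZMod q₁) * ψ⁻¹ (p.2 : ZMod q₂))‖
          ≤ 1 * M := mul_le_mul h2 (hterm _ _) (norm_nonneg _) zero_le_one
        _ = M := one_mul M
    have hpr := Nat.minFac_prime hq1
    obtain ⟨hD1, hD2, hD3⟩ := hDfacts (m₀ + 1)
    refine hfinal q₁.minFac (m₀ + 1) (Nat.le_succ _) hpr (Nat.minFac_dvd q₁) (fun C E => ?_)
    exact growth_weak y V' (M * ℓ) hρ hy1 hyN hV'0 hV' (m₀ + 1)
      (fun i => ((PowerSeries.mk (fun n => (D n : PadicAlgCl ℓ))) ^ (m₀ + 1)).coeff i)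
      hD1 hD2 hD3 q₁.minFac hpr.two_le C E

end NDS
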