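import Pool.Agent.H7.NDS.ModU2

open Complex UpperHalfPlane ModularForm ModularFormClass Filter Asymptotics Topology
open scoped MatrixGroups ComplexConjugate Real Manifold ModularForm CongruenceSubgroup

namespace NDS

namespace ModC


variable {N p : ℕ} [NeZero N] [NeZero p] {k : ℤ}

theorem gm_smul (p : ℕ) [NeZero p] (j : ℤ) (τ : ℍ) : ((gm ℝ p j • τ : ℍ) : ℂ) = (τ + j) / p := by
  have hp : (0 : ℝ) < p := by exact_mod_cast Nat.pos_of_ne_zero (NeZero.ne p)
  have hdet : 0 < (gm ℝ p j).det.val := by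
    simp [gm, Matrix.GeneralLinearGroup.mkOfDetNeZero, Matrix.det_fin_two_of, hp]
  rw [UpperHalfPlane.coe_smul_of_det_pos hdet]
  simp [UpperHalfPlane.num, UpperHalfPlane.denom, gm, Matrix.GeneralLinearGroup.mkOfDetNeZero]

omit [NeZero N] in
theorem Gj_apply (F : ModularForm (CongruenceSubgroup.Gamma1 N) k) (j : ℤ) (τ : ℍ) :
    Gj p F j τ = F (gm ℝ p j • τ) / p := by
  have hp : (0 : ℝ) < p := by exact_mod_cast Nat.pos_of_ne_zero (NeZero.ne p)
  have hp' : (p : ℂ) ≠ 0 := by exact_mod_cast NeZero.ne p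
  have hdet : (gm ℝ p j).det.val = p := by
    simp [gm, Matrix.GeneralLinearGroup.mkOfDetNeZero, Matrix.det_fin_two_of]
  have hden : denom (gm ℝ p j) τ = p := by
    simp [UpperHalfPlane.denom, gm, Matrix.GeneralLinearGroup.mkOfDetNeZero]
  have hσ : UpperHalfPlane.σ (gm ℝ p j) (F (gm ℝ p j • τ)) = F (gm ℝ p j • τ) := by
    rw [UpperHalfPlane.σ, if_pos]
    · rfl
    · rw [hdet]; exact hp
  rw [Gj, ModularForm.slash_apply, hσ, hdet, hden, abs_of_pos hp]
  push_cast
  rw [mul_assoc, ← zpow_add₀ hp']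
  have : (k - 1 + -k : ℤ) = -1 := by ring
  rw [this, zpow_neg_one]
  rfl

theorem sum_zeta (p : ℕ) [NeZero p] {ζ : ℂ} (hζ : IsPrimitiveRoot ζ p) (m : ℕ) :
    ∑ x : ZMod p, (ζ ^ x.val) ^ m = if p ∣ m then (p : ℂ) else 0 := by
  have h1 : ∑ x : ZMod p, (ζ ^ x.val) ^ m = ∑ i ∈ Finset.range p, (ζ ^ m) ^ i := by
    refine Finset.sum_nbij' (fun x => x.val) (fun i => (i : ZMod p)) ?_ ?_ ?_ ?_ ?_
    · intro x _
      exact Finset.mem_range.mpr (ZMod.val_lt x)
    · intro i _
      exact Finset.mem_univ _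
    · intro x _
      simp
    · intro i hi
      exact ZMod.val_cast_of_lt (Finset.mem_range.mp hi)
    · intro x _
      rw [← pow_mul, ← pow_mul, mul_comm]
  rw [h1]
  split_ifs with h
  · have : ζ ^ m = 1 := (hζ.pow_eq_one_iff_dvd m).mpr h
    simp [this]
  · have hne : ζ ^ m ≠ 1 := fun h' => h ((hζ.pow_eq_one_iff_dvd m).mp h')
    have := geom_sum_mul (ζ ^ m) p
    rw [← pow_mul, mul_comm m p, pow_mul, hζ.pow_eq_one, one_pow, sub_self] at this
    exact (mul_eq_zero.mp this).resolve_right (sub_ne_zero.mpr hne)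

theorem Uop_coeff (hpN : p ∣ N) (F : ModularForm (CongruenceSubgroup.Gamma1 N) k) (n : ℕ) :
    (qExpansion 1 (Uop p hpN F)).coeff n = (qExpansion 1 F).coeff (n * p) := by
  have hΓ : (1 : ℝ) ∈ (CongruenceSubgroup.Gamma1 N : Subgroup (GL (Fin 2) ℝ)).strictPeriods := by
    simp
  have hcusp : Fact (IsCusp OnePoint.infty (CongruenceSubgroup.Gamma1 N : Subgroup (GL (Fin 2) ℝ))) :=
    ⟨Subgroup.isCusp_of_mem_strictPeriods one_pos hΓ⟩
  have hp' : (p : ℂ) ≠ 0 := by exact_mod_cast NeZero.ne p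
  symm
  refine ModularFormClass.qExpansion_coeff_unique (c := fun n => (qExpansion 1 F).coeff (n * p))
    one_pos hΓ (fun τ => ?_) n
  set ζ : ℂ := Complex.exp (2 * π * Complex.I / p) with hζdef
  have hζ : IsPrimitiveRoot ζ p := Complex.isPrimitiveRoot_exp p (NeZero.ne p)
  set q' : ℂ := Complex.exp (2 * π * Complex.I * τ / p) with hq'
  have hq : ∀ j : ℕ, Function.Periodic.qParam 1 ((gm ℝ p (j : ℤ) • τ : ℍ) : ℂ) = q' * ζ ^ j := by
    intro j
    rw [gm_smul, Function.Periodic.qParam, hζdef, hq', ← Complex.exp_nat_mul, ← Complex.exp_add]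
    congr 1
    push_cast
    field_simp
  have h1 : ∀ x : ZMod p, HasSum (fun m : ℕ => (qExpansion 1 F).coeff m * (q' * ζ ^ x.val) ^ m / p)
      (Gj p F (x.val : ℤ) τ) := by
    intro x
    rw [Gj_apply, ← hq]
    have := ModularForm.hasSum_qExpansion (f := F) one_pos hΓ (gm ℝ p (x.val : ℤ) • τ)
    exact this.div_const _
  have h2 : HasSum (fun m : ℕ => ∑ x : ZMod p, (qExpansion 1 F).coeff m * (q' * ζ ^ x.val) ^ m / p)
      (Uop p hpN F τ) := by
    have h3 := hasSum_sum (s := Finset.univ) (fun x (_ : x ∈ (Finset.univ : Finset (ZMod p))) =>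
      h1 x)
    have h4 : (Uop p hpN F) τ = ∑ x : ZMod p, Gj p F (x.val : ℤ) τ := by
      change Ufun p F τ = _
      rw [Ufun, Finset.sum_apply]
    rw [h4]
    exact h3
  have h5 : (fun m : ℕ => ∑ x : ZMod p, (qExpansion 1 F).coeff m * (q' * ζ ^ x.val) ^ m / p) =
      fun m => if p ∣ m then (qExpansion 1 F).coeff m * q' ^ m else 0 := by
    funext m
    have : ∀ x : ZMod p, (qExpansion 1 F).coeff m * (q' * ζ ^ x.val) ^ m / p =
        (qExpansion 1 F).coeff m * q' ^ m / p * (ζ ^ x.val) ^ m := by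
      intro x; rw [mul_pow]; ring
    simp_rw [this]
    rw [← Finset.mul_sum, sum_zeta p hζ]
    split_ifs
    · field_simp
    · simp
  rw [h5] at h2
  have hinj : Function.Injective (fun n : ℕ => n * p) := by
    intro a b hab
    exact Nat.eq_of_mul_eq_mul_right (Nat.pos_of_ne_zero (NeZero.ne p)) hab
  have h6 := (hinj.hasSum_iff (f := fun m : ℕ => if p ∣ m then (qExpansion 1 F).coeff m * q' ^ m
    else 0) (a := Uop p hpN F τ) ?_).mpr h2
  · have h7 : ((fun m : ℕ => if p ∣ m then (qExpansion 1 F).coeff m * q' ^ m else 0) ∘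
        (fun n : ℕ => n * p)) = fun n => (qExpansion 1 F).coeff (n * p) • Function.Periodic.qParam 1 τ ^ n := by
      funext n
      rw [Function.comp_apply]
      have h8 : q' ^ (n * p) = Function.Periodic.qParam 1 τ ^ n := by
        rw [mul_comm n p, pow_mul]
        congr 1
        rw [hq', Function.Periodic.qParam, ← Complex.exp_nat_mul]
        congr 1
        push_cast
        field_simp
      rw [if_pos (Dvd.intro_left n rfl), h8, smul_eq_mul]
    rw [h7] at h6
    exact h6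
  · intro m hm
    rw [if_neg]
    rintro ⟨c, rfl⟩
    exact hm ⟨c, mul_comm c p⟩

end ModC

open ModC in
/-- The coefficients `a_{n p^j}` of a modular form satisfy a linear relation in `j`, uniformly
in `n`. -/
theorem Up_relation (N p : ℕ) [NeZero N] (hp : p.Prime) (hpN : p ∣ N) (k : ℤ)
    (F : ModularForm (CongruenceSubgroup.Gamma1 N) k) :
    ∃ (r : ℕ) (κ : ℕ → ℂ), (∃ j ≤ r, κ j ≠ 0) ∧
      ∀ n : ℕ, ∑ j ∈ Finset.range (r + 1), κ j * (qExpansion 1 F).coeff (n * p ^ j) = 0 := by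
  have : NeZero p := ⟨hp.ne_zero⟩
  have hΓ : (1 : ℝ) ∈ (CongruenceSubgroup.Gamma1 N : Subgroup (GL (Fin 2) ℝ)).strictPeriods := by
    simp
  obtain ⟨B, hB⟩ := eq_zero_of_coeff N k
  have hG : ∀ j n : ℕ, (qExpansion 1 ((Uop p hpN)^[j] F)).coeff n =
      (qExpansion 1 F).coeff (n * p ^ j) := by
    intro j
    induction j with
    | zero => intro n; simp
    | succ j ih =>
      intro n
      rw [Function.iterate_succ_apply', Uop_coeff, ih]
      congr 2
      ring
  have hdep : ¬ LinearIndependent ℂ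
      (fun (j : Fin (B + 1)) (i : Fin B) => (qExpansion 1 F).coeff ((i : ℕ) * p ^ (j : ℕ))) := by
    intro h
    have := h.fintype_card_le_finrank
    simp at this
  obtain ⟨g, hg, i, hi⟩ := Fintype.not_linearIndependent_iff.mp hdep
  have hcoeff : ∀ (s : Finset (Fin (B + 1))) (n : ℕ),
      (qExpansion 1 (∑ j ∈ s, g j • ((Uop p hpN)^[(j : ℕ)] F) :
        ModularForm (CongruenceSubgroup.Gamma1 N) k)).coeff n =
      ∑ j ∈ s, g j * (qExpansion 1 F).coeff (n * p ^ (j : ℕ)) := by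
    intro s n
    induction s using Finset.induction_on with
    | empty =>
      simp only [Finset.sum_empty]
      have : (qExpansion 1 ((0 : ModularForm (CongruenceSubgroup.Gamma1 N) k) : ℍ → ℂ)) = 0 :=
        qExpansion_zero 1
      rw [this]; simp
    | insert a s ha ih =>
      rw [Finset.sum_insert ha, Finset.sum_insert ha, ← ih]
      rw [FunLike.coe_add, ModularForm.qExpansion_add one_pos hΓ]
      have h2 : (qExpansion 1 ((g a • ((Uop p hpN)^[(a : ℕ)] F) :
          ModularForm (CongruenceSubgroup.Gamma1 N) k) : ℍ → ℂ)) =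
          g a • qExpansion 1 ((Uop p hpN)^[(a : ℕ)] F) :=
        ModularForm.qExpansion_smul one_pos hΓ (g a) ((Uop p hpN)^[(a : ℕ)] F)
      rw [h2, map_add, PowerSeries.coeff_smul, hG, smul_eq_mul]
  have hzero : (∑ j : Fin (B + 1), g j • ((Uop p hpN)^[(j : ℕ)] F) :
      ModularForm (CongruenceSubgroup.Gamma1 N) k) = 0 := by
    apply hB
    intro n hn
    rw [hcoeff]
    have := congrFun hg ⟨n, hn⟩
    simpa using this
  refine ⟨B, fun j => if h : j < B + 1 then g ⟨j, h⟩ else 0,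
    ⟨i, Nat.lt_succ_iff.mp i.2, by beta_reduce; rw [dif_pos i.2]; exact hi⟩, fun n => ?_⟩
  have h1 := hcoeff Finset.univ n
  rw [hzero] at h1
  have h0 : (qExpansion 1 ((0 : ModularForm (CongruenceSubgroup.Gamma1 N) k) : ℍ → ℂ)) = 0 :=
    qExpansion_zero 1
  rw [h0] at h1
  rw [Finset.sum_range]
  simp only [map_zero] at h1
  refine Eq.trans (Finset.sum_congr rfl fun j _ => ?_) h1.symm
  beta_reduce
  rw [dif_pos j.2]

end NDS
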