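import Pool.Agent.H7.NDS.ModA
import Pool.Agent.H7.NDS.ModC5
import Pool.Agent.H7.NDS.ModE1
import Pool.Agent.H7.NDS.ModE3c
import Pool.Agent.H7.NDS.ModE4
import Pool.Agent.H7.NDS.ModU3

/-!
# The main theorem: `L = 2 O` for a quadratic character field
-/

open Complex Filter
open UpperHalfPlane hiding I
open scoped MatrixGroups ComplexConjugate Real Topology Manifold ModularForm CongruenceSubgroup

namespace NDS

set_option linter.unusedSectionVars false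

variable {q₁ q₂ : ℕ} [NeZero q₁] [NeZero q₂]

lemma G_eq_sum {q : ℕ} [NeZero q] (χ : DirichletCharacter ℂ q) :
    G χ = ∑ k : ZMod q, χ k * e (1 / (q : ℂ)) ^ k.val := by
  rw [G, ← sum_range_zmod q (fun z => χ z * e (1 / (q : ℂ)) ^ z.val)]
  refine Finset.sum_congr rfl fun k hk => ?_
  rw [ZMod.val_cast_of_lt (Finset.mem_range.mp hk), ← e_nat_mul]
  congr 2
  ring

lemma liftChar_inv_coe {q : ℕ} (χ : DirichletCharacter ℂ q) (R : Subalgebra ℤ ℂ)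
    (h : ∀ x, χ x ∈ R) (x : ZMod q) : (((liftChar χ R h)⁻¹ x : R) : ℂ) = χ⁻¹ x := by
  rw [MulChar.inv_apply, MulChar.inv_apply, liftChar_coe]

/-- The non-real number `θ`. -/
lemma theta_ne_conj {θ : ℂ} {n : ℕ}
    (hθ : (n = 4 ∧ θ ^ 2 = -1) ∨ (n = 6 ∧ θ ^ 2 + θ + 1 = 0)) : θ - conj θ ≠ 0 := by
  intro h
  have him : θ.im = 0 := by
    have := congr_arg Complex.im h
    simp at this
    exact this
  have hre : θ = ((θ.re : ℝ) : ℂ) := by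
    apply Complex.ext <;> simp [him]
  rcases hθ with ⟨-, hθ⟩ | ⟨-, hθ⟩
  · rw [hre] at hθ
    have : (θ.re) ^ 2 = -1 := by exact_mod_cast hθ
    nlinarith [sq_nonneg θ.re]
  · rw [hre] at hθ
    have : (θ.re) ^ 2 + θ.re + 1 = 0 := by exact_mod_cast hθ
    nlinarith [sq_nonneg (θ.re + 1 / 2)]

theorem two_O_le (χ₁ : DirichletCharacter ℂ q₁) (χ₂ : DirichletCharacter ℂ q₂)
    (h₁ : χ₁.IsPrimitive) (h₂ : χ₂.IsPrimitive) (n₁ : χ₁ ≠ 1) (n₂ : χ₂ ≠ 1)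
    (par : χ₁ (-1) * χ₂ (-1) = 1) (θ : ℂ) (n : ℕ)
    (hθ : (n = 4 ∧ θ ^ 2 = -1) ∨ (n = 6 ∧ θ ^ 2 + θ + 1 = 0))
    (t₀ : (ZMod q₁)ˣ) (ht₀ : χ₁ t₀ = θ)
    (hv₁ : ∀ t : (ZMod q₁)ˣ, χ₁ t ^ n = 1) (hv₂ : ∀ t : (ZMod q₂)ˣ, χ₂ t ^ n = 1)
    (x : ℂ) (hx : x ∈ O χ₁ χ₂) : 2 * x ∈ L χ₁ χ₂ := by
  have hO := O_eq_span χ₁ χ₂ θ n hθ (Or.inl ⟨t₀, ht₀⟩) hv₁ hv₂
  -- the lattice `Λ`
  set φ : ℤ × ℤ →+ ℂ :=
    { toFun := fun p => 2 * ((p.1 : ℂ) + p.2 * θ)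
      map_zero' := by simp
      map_add' := fun p p' => by push_cast [Prod.fst_add, Prod.snd_add]; ring } with hφ
  set Λ : AddSubgroup (ℤ × ℤ) := (L χ₁ χ₂).comap φ with hΛ
  have hmem : ∀ p : ℤ × ℤ, p ∈ Λ ↔ 2 * ((p.1 : ℂ) + p.2 * θ) ∈ L χ₁ χ₂ := fun p => Iff.rfl
  by_cases htop : Λ = ⊤
  · obtain ⟨a, b, rfl⟩ := (hO x).mp hx
    exact (hmem (a, b)).mp (htop ▸ AddSubgroup.mem_top _)
  exfalso
  obtain ⟨ℓ, α, β, hℓ, hαβ, hdvd⟩ := exists_functional Λ htop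
  have : Fact ℓ.Prime := ⟨hℓ⟩
  -- the functional
  set δ : ℂ := (β - α * conj θ) / (θ - conj θ) with hδ
  have hne := theta_ne_conj hθ
  have hne' : conj θ - θ ≠ 0 := by
    intro h; apply hne; linear_combination -h
  have hδ' : ∀ a b : ℤ, δ * ((a : ℂ) + b * θ) + conj (δ * ((a : ℂ) + b * θ)) =
      ((α * a + β * b : ℤ) : ℂ) := by
    intro a b
    rw [hδ]
    simp only [map_mul, map_div₀, map_sub, map_add, Complex.conj_conj, map_intCast]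
    push_cast
    field_simp
    ring
  set R := O χ₁ χ₂ with hR
  have hlam : ∀ x : R, ∃ k : ℤ, (k : ℂ) = δ * x + conj (δ * (x : ℂ)) := by
    intro x
    obtain ⟨a, b, hab⟩ := (hO x).mp x.2
    exact ⟨α * a + β * b, by rw [hab, hδ']⟩
  choose lam0 hlam0 using hlam
  set lam : R →+ ℤ := AddMonoidHom.mk' lam0 (fun x y => by
    have : ((lam0 (x + y) : ℤ) : ℂ) = ((lam0 x + lam0 y : ℤ) : ℂ) := by
      push_cast
      rw [hlam0, hlam0, hlam0]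
      push_cast
      rw [mul_add, map_add]
      ring
    exact_mod_cast this) with hlamdef
  have hlam1 : ∀ x : R, ((lam x : ℤ) : ℂ) = δ * x + conj (δ * (x : ℂ)) := fun x => hlam0 x
  have hlam2 : ∀ (x : R) (a b : ℤ), (x : ℂ) = a + b * θ → lam x = α * a + β * b := by
    intro x a b hab
    have h := hlam1 x
    rw [hab, hδ'] at h
    exact_mod_cast h
  -- the characters
  have hm1 : ∀ x, χ₁ x ∈ R := fun x => Algebra.subset_adjoin (Or.inl ⟨x, rfl⟩)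
  have hm2 : ∀ x, χ₂ x ∈ R := fun x => Algebra.subset_adjoin (Or.inr ⟨x, rfl⟩)
  set χ := liftChar χ₁ R hm1 with hχ
  set ψ := liftChar χ₂ R hm2 with hψ
  have hχp : χ.IsPrimitive := liftChar_isPrimitive χ₁ R hm1 h₁
  have hχ1 : χ ≠ 1 := by
    intro h
    apply n₁
    ext u
    rw [← liftChar_coe χ₁ R hm1, ← hχ, h, MulChar.one_apply_coe, MulChar.one_apply_coe]
    rfl
  have hk : ∃ k₀ : (ZMod q₁)ˣ, ¬ (ℓ : ℤ) ∣ lam (χ⁻¹ k₀) := by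
    rcases hαβ with h | h
    · refine ⟨1, ?_⟩
      have : lam (χ⁻¹ ((1 : (ZMod q₁)ˣ) : ZMod q₁)) = α := by
        have e1 := hlam2 (χ⁻¹ ((1 : (ZMod q₁)ˣ) : ZMod q₁)) 1 0 (by
          rw [Units.val_one, map_one]; push_cast; ring)
        rw [e1]; ring
      rwa [this]
    · refine ⟨t₀⁻¹, ?_⟩
      have : lam (χ⁻¹ ((t₀⁻¹ : (ZMod q₁)ˣ) : ZMod q₁)) = β := by
        have e1 := hlam2 (χ⁻¹ ((t₀⁻¹ : (ZMod q₁)ˣ) : ZMod q₁)) 0 1 (by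
          rw [hχ, liftChar_inv_coe, MulChar.inv_apply, Ring.inverse_unit, inv_inv, ht₀]
          push_cast; ring)
        rw [e1]; ring
      rwa [this]
  obtain ⟨k₀, hk₀⟩ := hk
  have hval : ∀ u : (ZMod q₁)ˣ, χ u ^ n = 1 := by
    intro u
    apply Subtype.ext
    push_cast
    rw [hχ, liftChar_coe]
    exact hv₁ u
  have hpm : ∀ (s : (ZMod q₁)ˣ) (t : (ZMod q₂)ˣ), ∃ r : (ZMod q₁)ˣ,
      χ s * ψ⁻¹ t = χ r ∨ χ s * ψ⁻¹ t = -χ r := by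
    intro s t
    obtain ⟨r, hr⟩ := val_pm χ₁ θ n hθ t₀ ht₀ _ (val_mul_conj_pow χ₁ χ₂ n hv₁ hv₂ s t)
    refine ⟨r, hr.imp (fun h => ?_) (fun h => ?_)⟩
    · apply Subtype.ext
      rw [← liftChar_coe χ₁ R hm1 r, conj_char] at h
      rw [MulMemClass.coe_mul, hψ, liftChar_inv_coe, hχ, liftChar_coe]
      exact h
    · apply Subtype.ext
      rw [conj_char] at h
      rw [MulMemClass.coe_mul, hψ, liftChar_inv_coe, hχ, liftChar_coe]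
      exact h
  -- the coefficients
  have hX : ∀ b : R, X lam χ (e (1 / (q₁ : ℂ))) b =
      δ * b * G χ₁⁻¹ + conj (δ * (b : ℂ)) * G χ₁ := by
    intro b
    rw [X, G_eq_sum, G_eq_sum, Finset.mul_sum, Finset.mul_sum, ← Finset.sum_add_distrib]
    refine Finset.sum_congr rfl fun k _ => ?_
    rw [hlam1, MulMemClass.coe_mul, hχ, liftChar_inv_coe, map_mul, map_mul, map_mul,
      ← conj_char χ₁, Complex.conj_conj]
    ring
  have hcN : ∀ N : ℕ, cN lam χ ψ (e (1 / (q₁ : ℂ))) N = cc χ₁ χ₂ δ N := by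
    intro N
    rw [cN, cc, fc, fc, Finset.mul_sum, Finset.mul_sum, ← Finset.sum_add_distrib]
    congr 1
    refine Finset.sum_congr rfl fun p _ => ?_
    rw [hX, MulMemClass.coe_mul, hψ, liftChar_inv_coe, hχ, liftChar_coe, map_mul, map_mul,
      conj_char, conj_char, conj_char, inv_inv]
    ring
  -- the modular forms
  have hS : ∀ γ ∈ CongruenceSubgroup.Gamma1 (q₁ * q₂), 1 ≤ γ 1 0 → ∃ j : ℤ,
      δ * S χ₁ χ₂ (γ 0 0) (γ 1 0) + conj (δ * S χ₁ χ₂ (γ 0 0) (γ 1 0)) = 2 * ℓ * j := by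
    intro γ hγ hc
    obtain ⟨x, hx, hSx⟩ := S_mem_two_O χ₁ χ₂ h₁ h₂ n₁ n₂ par γ hγ hc
    obtain ⟨a, b, hab⟩ := (hO x).mp hx
    have hL : S χ₁ χ₂ (γ 0 0) (γ 1 0) ∈ L χ₁ χ₂ :=
      AddSubgroup.subset_closure ⟨γ, hγ, hc, rfl⟩
    have hΛm : (a, b) ∈ Λ := by
      rw [hmem]
      show 2 * ((a : ℂ) + b * θ) ∈ L χ₁ χ₂
      rw [← hab, ← hSx]
      exact hL
    obtain ⟨j, hj⟩ := hdvd _ hΛm
    refine ⟨j, ?_⟩
    rw [hSx, hab]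
    have h1 := hδ' a b
    simp only at hj
    rw [hj] at h1
    have h2 : δ * (2 * ((a : ℂ) + b * θ)) = 2 * (δ * ((a : ℂ) + b * θ)) := by ring
    rw [h2, map_mul, Complex.conj_ofNat]
    push_cast at h1
    linear_combination 2 * h1
  obtain ⟨V, V0, hV, m₀, hF⟩ := exists_F χ₁ χ₂ h₁ h₂ n₁ n₂ par δ ℓ hℓ.pos hS
  obtain ⟨D, D0, D1, hD⟩ := Delta_integral
  have hDs : qExpansion 1 ModularForm.discriminant = PowerSeries.mk (fun n => (D n : ℂ)) := by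
    ext n
    rw [hD, PowerSeries.coeff_mk]
  have : NeZero (q₁ * q₂) := ⟨Nat.mul_ne_zero (NeZero.ne q₁) (NeZero.ne q₂)⟩
  refine no_relation ℓ χ ψ hχp hχ1 n (hθ.imp And.left And.left) hval hpm lam k₀ hk₀ V V0
    (fun n hn => ?_) D D0 D1 m₀ (fun m hm p hp hpq => ?_)
  · rw [hV n hn]
    refine Finset.sum_congr rfl fun N _ => ?_
    rw [hcN]
  · obtain ⟨F, hFq⟩ := hF m hm
    obtain ⟨r, κ, hκ, hrel⟩ := Up_relation (q₁ * q₂) p hp (hpq.mul_right q₂) _ F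
    refine ⟨r, κ, hκ, fun s => ?_⟩
    rw [← hDs, ← hFq]
    have := hrel (p ^ s)
    simpa only [pow_add] using this

lemma O_comm (χ₁ : DirichletCharacter ℂ q₁) (χ₂ : DirichletCharacter ℂ q₂) :
    O χ₂ χ₁ = O χ₁ χ₂ := by
  rw [O, O, Set.union_comm]

/-- The main theorem. -/
theorem main (χ₁ : DirichletCharacter ℂ q₁) (χ₂ : DirichletCharacter ℂ q₂)
    (h₁ : χ₁.IsPrimitive) (h₂ : χ₂.IsPrimitive) (n₁ : χ₁ ≠ 1) (n₂ : χ₂ ≠ 1)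
    (par : χ₁ (-1) * χ₂ (-1) = 1) (hF : Module.finrank ℚ (F χ₁ χ₂) = 2) :
    (L χ₁ χ₂ : Set ℂ) = {s : ℂ | ∃ x ∈ O χ₁ χ₂, s = 2 * x} := by
  apply Set.Subset.antisymm
  · set T : AddSubgroup ℂ := (O χ₁ χ₂).toSubring.toAddSubgroup.map (AddMonoidHom.mulLeft (2 : ℂ))
      with hT
    have hle : L χ₁ χ₂ ≤ T := by
      rw [L, AddSubgroup.closure_le]
      rintro s ⟨γ, hγ, hc, rfl⟩
      obtain ⟨x, hx, hS⟩ := S_mem_two_O χ₁ χ₂ h₁ h₂ n₁ n₂ par γ hγ hc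
      exact ⟨x, hx, hS.symm⟩
    intro s hs
    obtain ⟨x, hx, hS⟩ := hle hs
    exact ⟨x, hx, hS.symm⟩
  · rintro s ⟨x, hx, rfl⟩
    obtain ⟨θ, n, hθ, hv, hv₁, hv₂⟩ := struct_quad χ₁ χ₂ hF
    rcases hv with ⟨t₀, ht₀⟩ | ⟨t₀, ht₀⟩
    · exact two_O_le χ₁ χ₂ h₁ h₂ n₁ n₂ par θ n hθ t₀ ht₀ hv₁ hv₂ x hx
    · show 2 * x ∈ L χ₁ χ₂
      rw [L_swap χ₁ χ₂ h₁ h₂ n₁ n₂ par]
      refine two_O_le χ₂ χ₁ h₂ h₁ n₂ n₁ (by rw [mul_comm]; exact par) θ n hθ t₀ ht₀ hv₂ hv₁ x ?_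
      rw [O_comm]
      exact hx

end NDS
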