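import Pool.Agent.H7.NDS.FSeries

/-!
# Gauss sums
-/

open Complex Filter
open scoped MatrixGroups ComplexConjugate Real Topology

namespace NDS

lemma e_eq_stdAddChar {q : ℕ} [NeZero q] (j : ℤ) :
    e ((j : ℂ) / q) = ZMod.stdAddChar (j : ZMod q) := by
  rw [ZMod.stdAddChar_coe, e]
  congr 1
  ring

lemma G_eq_gaussSum {q : ℕ} [NeZero q] (χ : DirichletCharacter ℂ q) :
    G χ = gaussSum χ (ZMod.stdAddChar (N := q)) := by
  rw [G, gaussSum, ← sum_range_zmod q (fun z => χ z * ZMod.stdAddChar z)]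
  refine Finset.sum_congr rfl fun k _ => ?_
  have := e_eq_stdAddChar (q := q) (k : ℤ)
  push_cast at this
  rw [this]

lemma gauss_shift {q : ℕ} [NeZero q] (χ : DirichletCharacter ℂ q) (h : χ.IsPrimitive) (A : ℤ) :
    ∑ k ∈ Finset.range q, χ (k : ZMod q) * e ((k : ℂ) * A / q) = χ⁻¹ (A : ZMod q) * G χ := by
  rw [G_eq_gaussSum, ← gaussSum_mulShift_of_isPrimitive _ h, gaussSum,
    ← sum_range_zmod q (fun z => χ z * (ZMod.stdAddChar.mulShift (A : ZMod q)) z)]
  refine Finset.sum_congr rfl fun k _ => ?_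
  have := e_eq_stdAddChar (q := q) ((k : ℤ) * A)
  push_cast at this
  rw [this, AddChar.mulShift_apply, mul_comm (A : ZMod q)]

lemma G_ne_zero {q : ℕ} [NeZero q] (χ : DirichletCharacter ℂ q) (h : χ.IsPrimitive) :
    G χ ≠ 0 := by
  intro h0
  rw [G_eq_gaussSum] at h0
  have h1 : ∀ k, ZMod.dft (χ : ZMod q → ℂ) k = 0 := fun k => by
    rw [h.fourierTransform_eq_inv_mul_gaussSum, h0, mul_zero]
  have h2 : ZMod.dft (χ : ZMod q → ℂ) = ZMod.dft (0 : ZMod q → ℂ) := by
    funext k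
    rw [h1 k, map_zero]
    rfl
  have h3 := (ZMod.dft (N := q) (E := ℂ)).injective h2
  have h4 := congr_fun h3 1
  simp at h4

lemma inv_isPrimitive {q : ℕ} {χ : DirichletCharacter ℂ q} (h : χ.IsPrimitive) :
    (χ⁻¹).IsPrimitive := by
  rw [DirichletCharacter.isPrimitive_def, DirichletCharacter.conductor_inv]
  exact h

end NDS
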