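import Pool.Agent.H7.NDS.LogRep

/-!
# The limit of `f` at `a/c`
-/

open Complex Filter
open scoped MatrixGroups ComplexConjugate Real Topology

namespace NDS

set_option linter.unusedSectionVars false

variable {q₁ q₂ : ℕ} [NeZero q₁] [NeZero q₂] (χ₁ : DirichletCharacter ℂ q₁)
  (χ₂ : DirichletCharacter ℂ q₂)

lemma char_cast_eq {q : ℕ} (χ : DirichletCharacter ℂ q) {a b : ℤ} (h : (q : ℤ) ∣ a - b) :
    χ (a : ZMod q) = χ (b : ZMod q) := by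
  rw [(ZMod.intCast_eq_intCast_iff_dvd_sub b a q).mpr h]

/-- `e(k/q₁ + n a/c)` -/
noncomputable def w (q₁ c : ℕ) (a k n : ℤ) : ℂ := e ((k : ℂ) / q₁ + (n : ℂ) * a / c)

lemma norm_w (q₁ c : ℕ) (a k n : ℤ) : ‖w q₁ c a k n‖ = 1 := by
  rw [w, norm_e]
  have : ((k : ℂ) / q₁ + (n : ℂ) * a / c).im = 0 := by
    simp [Complex.add_im, Complex.div_natCast_im]
  rw [this]
  simp

lemma w_eq_of {q₁ c : ℕ} {a k n k' n' m : ℤ}
    (h : (k : ℂ) / q₁ + (n : ℂ) * a / c = (k' : ℂ) / q₁ + (n' : ℂ) * a / c + m) :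
    w q₁ c a k n = w q₁ c a k' n' := by
  rw [w, w, h, e_add_int]

lemma sum_char_zero {q : ℕ} [NeZero q] {χ : DirichletCharacter ℂ q} (h : χ ≠ 1) :
    ∑ k ∈ Finset.range q, conj (χ (k : ZMod q)) = 0 := by
  rw [← map_sum, sum_range_zmod q (fun z => χ z), MulChar.sum_eq_zero_of_ne_one h, map_zero]

variable {c : ℕ} [NeZero c] {a : ℤ}

lemma sum_w_shift (hc : q₁ * q₂ ∣ c) (ha : ((q₁ * q₂ : ℕ) : ℤ) ∣ a - 1) (Φ : ℂ → ℂ) (k : ℤ) :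
    ∑ n ∈ Finset.range c, conj (χ₂ ((n : ℤ) : ZMod q₂)) * Φ (w q₁ c a k n) =
      ∑ n ∈ Finset.range c, conj (χ₂ ((n : ℤ) : ZMod q₂)) * Φ (w q₁ c a 0 n) := by
  obtain ⟨c₀, hc₀⟩ := hc
  obtain ⟨a₀, ha₀⟩ := ha
  have hcne : (c : ℂ) ≠ 0 := by exact_mod_cast NeZero.ne c
  have hq₁ : (q₁ : ℂ) ≠ 0 := by exact_mod_cast NeZero.ne q₁
  have hcC : (c : ℂ) = q₁ * q₂ * c₀ := by rw [hc₀]; push_cast; ring
  have hq₂c : (q₂ : ℤ) ∣ (c : ℤ) := ⟨q₁ * c₀, by rw [hc₀]; push_cast; ring⟩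
  have hper : Per c (fun n : ℤ => conj (χ₂ (n : ZMod q₂)) * Φ (w q₁ c a k n)) := by
    intro n
    simp only
    rw [char_cast_eq χ₂ (a := n + c) (b := n) (by simpa using hq₂c)]
    congr 2
    apply w_eq_of (m := a)
    push_cast
    field_simp
    ring
  rw [← hper.sum_shift (-(k * (q₂ * c₀)))]
  refine Finset.sum_congr rfl fun n _ => ?_
  rw [char_cast_eq χ₂ (a := (n : ℤ) + -(k * (q₂ * c₀))) (b := n)
    ⟨-(k * c₀), by ring⟩]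
  congr 2
  apply w_eq_of (m := -(k * (q₂ * a₀)))
  have haC : (a : ℂ) = 1 + q₁ * q₂ * a₀ := by
    have : (a : ℤ) = 1 + q₁ * q₂ * a₀ := by
      have := ha₀; push_cast at this; linarith
    rw [this]; push_cast; ring
  push_cast
  rw [haC]
  field_simp
  rw [hcC]
  ring

lemma mean_zero (n₁ : χ₁ ≠ 1) (hc : q₁ * q₂ ∣ c) (ha : ((q₁ * q₂ : ℕ) : ℤ) ∣ a - 1) (Φ : ℂ → ℂ) :
    ∑ n ∈ Finset.range c, conj (χ₂ ((n : ℤ) : ZMod q₂)) * ∑ k ∈ Finset.range q₁,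
      conj (χ₁ ((k : ℤ) : ZMod q₁)) * Φ (w q₁ c a k n) = 0 := by
  simp_rw [Finset.mul_sum]
  rw [Finset.sum_comm]
  have : ∀ k ∈ Finset.range q₁, ∑ n ∈ Finset.range c, conj (χ₂ ((n : ℤ) : ZMod q₂)) *
      (conj (χ₁ ((k : ℤ) : ZMod q₁)) * Φ (w q₁ c a k n)) = conj (χ₁ (k : ZMod q₁)) *
      ∑ n ∈ Finset.range c, conj (χ₂ ((n : ℤ) : ZMod q₂)) * Φ (w q₁ c a 0 n) := by
    intro k _
    rw [← sum_w_shift χ₂ ⟨_, hc.choose_spec⟩ ha Φ k, Finset.mul_sum]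
    refine Finset.sum_congr rfl fun n _ => ?_
    push_cast
    ring
  rw [Finset.sum_congr rfl this, ← Finset.sum_mul, sum_char_zero n₁, zero_mul]

lemma q_ne_one {q : ℕ} {χ : DirichletCharacter ℂ q} (h : χ ≠ 1) : q ≠ 1 := by
  rintro rfl
  exact h (DirichletCharacter.level_one χ)

lemma not_dvd_of_char_ne {q : ℕ} {χ : DirichletCharacter ℂ q} (h : χ ≠ 1) {n : ℤ}
    (hn : χ (n : ZMod q) ≠ 0) : ¬ (q : ℤ) ∣ n := by
  intro hd
  have h1 := q_ne_one h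
  have : (n : ZMod q) = 0 := (ZMod.intCast_zmod_eq_zero_iff_dvd n q).mpr hd
  rw [this] at hn
  apply hn
  rcases Nat.eq_zero_or_pos q with h0 | h0
  · subst h0
    exact MulChar.map_nonunit χ (by simp)
  · have : Fact (1 < q) := ⟨by omega⟩
    exact MulChar.map_nonunit χ not_isUnit_zero

lemma w_ne_one (n₂ : χ₂ ≠ 1) (hc : q₁ * q₂ ∣ c) (ha : ((q₁ * q₂ : ℕ) : ℤ) ∣ a - 1) {k n : ℤ}
    (hn : χ₂ (n : ZMod q₂) ≠ 0) : w q₁ c a k n ≠ 1 := by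
  intro h
  obtain ⟨c₀, hc₀⟩ := hc
  obtain ⟨a₀, ha₀⟩ := ha
  have hcne : (c : ℂ) ≠ 0 := by exact_mod_cast NeZero.ne c
  have hq₁ : (q₁ : ℂ) ≠ 0 := by exact_mod_cast NeZero.ne q₁
  rw [w, e, Complex.exp_eq_one_iff] at h
  obtain ⟨m, hm⟩ := h
  have h2 : (k : ℂ) / q₁ + (n : ℂ) * a / c = m := by
    have : (2 * π * I : ℂ) ≠ 0 := Complex.two_pi_I_ne_zero
    apply mul_left_cancel₀ this
    rw [hm]; ring
  have hcC : (c : ℂ) = q₁ * q₂ * c₀ := by rw [hc₀]; push_cast; ring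
  have h3 : (k : ℂ) * (q₂ * c₀) + n * a = m * c := by
    field_simp at h2
    have h4 : (q₁ : ℂ) * (k * (q₂ * c₀) + n * a) = q₁ * (m * c) := by
      rw [hcC] at h2 ⊢
      linear_combination h2
    exact mul_left_cancel₀ hq₁ h4
  have h5 : k * (q₂ * c₀) + n * a = m * c := by exact_mod_cast h3
  have h6 : (q₂ : ℤ) ∣ n * a := by
    have : n * a = m * c - k * (q₂ * c₀) := by linarith
    rw [this, hc₀]
    push_cast
    exact ⟨m * (q₁ * c₀) - k * c₀, by ring⟩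
  have h7 : (q₂ : ℤ) ∣ n := by
    have : n = n * a - n * (a - 1) := by ring
    rw [this]
    apply dvd_sub h6
    rw [ha₀]
    push_cast
    exact ⟨n * (q₁ * a₀), by ring⟩
  exact not_dvd_of_char_ne n₂ hn h7

end NDS
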