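import Pool.Agent.H7.NDS.Lim3

/-!
# The limit of `f` at `a/c`, continued
-/

open Complex Filter
open scoped MatrixGroups ComplexConjugate Real Topology

namespace NDS

set_option linter.unusedSectionVars false

variable {q₁ q₂ : ℕ} [NeZero q₁] [NeZero q₂] (χ₁ : DirichletCharacter ℂ q₁)
  (χ₂ : DirichletCharacter ℂ q₂)

variable {c : ℕ} [NeZero c] {a : ℤ}

lemma char_zero {q : ℕ} {χ : DirichletCharacter ℂ q} (h : χ ≠ 1) : χ (0 : ZMod q) = 0 := by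
  by_contra h0
  have := not_dvd_of_char_ne (n := 0) h (by simpa using h0)
  exact this (dvd_zero _)

/-- the summand -/
noncomputable def Fn (c : ℕ) (a : ℤ) (y : ℝ) (n : ℕ) : ℂ :=
  conj (χ₂ ((n : ℤ) : ZMod q₂)) * ∑ k ∈ Finset.range q₁,
    conj (χ₁ ((k : ℤ) : ZMod q₁)) * lg (w q₁ c a k n) (n * y)

lemma hasSum_Fn (h₁ : χ₁.IsPrimitive) (n₂ : χ₂ ≠ 1) {y : ℝ} (hy : 0 < y) :
    HasSum (Fn χ₁ χ₂ c a y) (G χ₁⁻¹ * f χ₁ χ₂ ((a : ℂ) / c + y * I)) := by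
  have him : ((a : ℂ) / c + y * I).im = y := by simp [Complex.div_natCast_im]
  have h := logRep χ₁ χ₂ h₁ (z := (a : ℂ) / c + y * I) (by rw [him]; exact hy)
  have h2 := (PNat.coe_injective.hasSum_iff (f := Fn χ₁ χ₂ c a y)
    (a := G χ₁⁻¹ * f χ₁ χ₂ ((a : ℂ) / c + y * I)) ?_).mp
  · apply h2
    have : (Fn χ₁ χ₂ c a y ∘ fun n : ℕ+ => (n : ℕ)) = fun n : ℕ+ => conj (χ₂ ((n : ℕ) : ZMod q₂)) *
      ∑ k ∈ Finset.range q₁, conj (χ₁ (k : ZMod q₁)) *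
        (-Complex.log (1 - e ((k : ℂ) / q₁ + (n : ℕ) * ((a : ℂ) / c + y * I)))) := by
      funext n
      simp only [Function.comp, Fn]
      push_cast
      congr 1
      refine Finset.sum_congr rfl fun k _ => ?_
      congr 1
      rw [lg, w]
      congr 3
      have e1 : (k : ℂ) / q₁ + (n : ℕ) * ((a : ℂ) / c + y * I) =
        (((k : ℤ) : ℂ) / q₁ + (((n : ℕ) : ℤ) : ℂ) * a / c) + (n : ℕ) * (y * I) := by
        push_cast; ring
      have e4 : e (((n : ℕ) : ℂ) * (y * I)) = ((Real.exp (-2 * π * (((n : ℕ) : ℝ) * y)) : ℝ) : ℂ) := by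
        rw [e, Complex.ofReal_exp]
        congr 1
        push_cast
        linear_combination (2 * (π : ℂ) * ((n : ℕ) : ℂ) * y) * Complex.I_sq
      rw [e1, e_add _ (((n : ℕ) : ℂ) * (y * I)), e4]
    rw [this]
    exact h
  · intro n hn
    have : n = 0 := by
      by_contra h0
      exact hn ⟨⟨n, Nat.pos_of_ne_zero h0⟩, rfl⟩
    subst this
    simp [Fn, char_zero n₂]

lemma Fn_residue (hc : q₁ * q₂ ∣ c) (y : ℝ) (r m : ℕ) :
    Fn χ₁ χ₂ c a y (r + c * m) = conj (χ₂ ((r : ℤ) : ZMod q₂)) * ∑ k ∈ Finset.range q₁,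
    conj (χ₁ ((k : ℤ) : ZMod q₁)) * lg (w q₁ c a k r) ((c * m + r) * y) := by
  obtain ⟨c₀, hc₀⟩ := hc
  have hcne : (c : ℂ) ≠ 0 := by exact_mod_cast NeZero.ne c
  rw [Fn, char_cast_eq χ₂ (a := ((r + c * m : ℕ) : ℤ)) (b := (r : ℤ))
    ⟨q₁ * c₀ * m, by rw [hc₀]; push_cast; ring⟩]
  congr 1
  refine Finset.sum_congr rfl fun k _ => ?_
  congr 1
  rw [w_eq_of (k' := k) (n' := r) (m := m * a)]
  · congr 1
    push_cast
    ring
  · push_cast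
    field_simp
    ring

theorem tendsto_f (h₁ : χ₁.IsPrimitive) (n₁ : χ₁ ≠ 1) (n₂ : χ₂ ≠ 1) (hc : q₁ * q₂ ∣ c)
    (ha : ((q₁ * q₂ : ℕ) : ℤ) ∣ a - 1) :
    Tendsto (fun y : ℝ => G χ₁⁻¹ * f χ₁ χ₂ ((a : ℂ) / c + y * I)) (𝓝[>] 0)
      (𝓝 (∑ r ∈ Finset.range c, conj (χ₂ ((r : ℤ) : ZMod q₂)) * ∑ k ∈ Finset.range q₁,
        conj (χ₁ ((k : ℤ) : ZMod q₁)) * (-((((r : ℝ) / c : ℝ) : ℂ) * lg (w q₁ c a k r) 0)))) := by
  have hcpos : 0 < c := Nat.pos_of_ne_zero (NeZero.ne c)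
  have key : ∀ y : ℝ, 0 < y → G χ₁⁻¹ * f χ₁ χ₂ ((a : ℂ) / c + y * I) =
      ∑ r ∈ Finset.range c, conj (χ₂ ((r : ℤ) : ZMod q₂)) * ∑ k ∈ Finset.range q₁,
        conj (χ₁ ((k : ℤ) : ZMod q₁)) * ((∑' j : ℕ, lg (w q₁ c a k r) ((c * j + r) * y)) -
          (∑' j : ℕ, lg (w q₁ c a k r) ((c * j + (0 : ℕ)) * y))) := by
    intro y hy
    have hF := hasSum_Fn χ₁ χ₂ (c := c) (a := a) h₁ n₂ hy
    rw [← hF.tsum_eq, Nat.sumByResidueClasses hF.summable c]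
    have e1 : ∀ r : ℕ, ∑' m, Fn χ₁ χ₂ c a y (r + c * m) = conj (χ₂ ((r : ℤ) : ZMod q₂)) *
        ∑ k ∈ Finset.range q₁, conj (χ₁ ((k : ℤ) : ZMod q₁)) *
          ∑' j : ℕ, lg (w q₁ c a k r) ((c * j + r) * y) := by
      intro r
      simp_rw [Fn_residue χ₁ χ₂ hc y r]
      rw [tsum_mul_left, Summable.tsum_finsetSum]
      · congr 1
        refine Finset.sum_congr rfl fun k _ => ?_
        rw [tsum_mul_left]
      · intro k _
        exact (summable_lg (norm_w _ _ _ _ _) hcpos r hy).mul_left _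
    have e2 : ∑ j : ZMod c, ∑' m, Fn χ₁ χ₂ c a y (j.val + c * m) =
        ∑ r ∈ Finset.range c, conj (χ₂ ((r : ℤ) : ZMod q₂)) *
        ∑ k ∈ Finset.range q₁, conj (χ₁ ((k : ℤ) : ZMod q₁)) *
          ∑' j : ℕ, lg (w q₁ c a k r) ((c * j + r) * y) := by
      rw [← sum_range_zmod c (fun j => ∑' m, Fn χ₁ χ₂ c a y (j.val + c * m))]
      refine Finset.sum_congr rfl fun r hr => ?_
      rw [ZMod.val_cast_of_lt (Finset.mem_range.mp hr), e1]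
    rw [e2]
    have e3 := mean_zero χ₁ χ₂ n₁ hc ha
      (fun ω => ∑' j : ℕ, lg ω (((c : ℝ) * j + (0 : ℕ)) * y))
    simp_rw [mul_sub, Finset.sum_sub_distrib, mul_sub, Finset.sum_sub_distrib]
    rw [e3, sub_zero]
  have lim : Tendsto (fun y : ℝ => ∑ r ∈ Finset.range c, conj (χ₂ ((r : ℤ) : ZMod q₂)) *
      ∑ k ∈ Finset.range q₁, conj (χ₁ ((k : ℤ) : ZMod q₁)) *
        ((∑' j : ℕ, lg (w q₁ c a k r) ((c * j + r) * y)) -
          (∑' j : ℕ, lg (w q₁ c a k r) ((c * j + (0 : ℕ)) * y)))) (𝓝[>] 0)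
      (𝓝 (∑ r ∈ Finset.range c, conj (χ₂ ((r : ℤ) : ZMod q₂)) * ∑ k ∈ Finset.range q₁,
        conj (χ₁ ((k : ℤ) : ZMod q₁)) * (-((((r : ℝ) / c : ℝ) : ℂ) * lg (w q₁ c a k r) 0)))) := by
    refine tendsto_finsetSum _ fun r hr => ?_
    by_cases h0 : χ₂ ((r : ℤ) : ZMod q₂) = 0
    · rw [h0]
      simp only [map_zero, zero_mul]
      exact tendsto_const_nhds
    · refine Tendsto.const_mul _ (tendsto_finsetSum _ fun k _ => Tendsto.const_mul _ ?_)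
      exact SL (norm_w _ _ _ _ _) (w_ne_one χ₂ n₂ hc ha h0) hcpos (Finset.mem_range.mp hr).le
  refine lim.congr' ?_
  filter_upwards [self_mem_nhdsWithin] with y hy
  exact (key y hy).symm

end NDS
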