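import Pool.Agent.H7.NDS.LimitLemma

/-!
# The limit lemma, part 2
-/

open Complex Filter
open scoped MatrixGroups ComplexConjugate Real Topology

namespace NDS

lemma summable_lg {ω : ℂ} (h1 : ‖ω‖ = 1) {c : ℕ} (hc : 0 < c) (r : ℕ) {y : ℝ} (hy : 0 < y) :
    Summable (fun j : ℕ => lg ω ((c * j + r) * y)) := by
  rw [← summable_nat_add_iff 1]
  have hcy : 0 < (c : ℝ) * y := by positivity
  have hx1 : Real.exp (-2 * π * (c * y)) < 1 := by
    apply Real.exp_lt_one_iff.mpr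
    have := Real.pi_pos
    nlinarith
  have hs : Summable (fun j : ℕ => Real.exp (-2 * π * (c * y)) ^ j /
      (1 - Real.exp (-2 * π * (c * y)))) :=
    (summable_geometric_of_lt_one (Real.exp_pos _).le hx1).div_const _
  refine Summable.of_norm_bounded hs fun j => ?_
  have ht : 0 < ((c : ℝ) * ((j + 1 : ℕ) : ℝ) + r) * y := by positivity
  refine (norm_lg_le h1 ht).trans ?_
  have hpi := Real.pi_pos
  have h2 : (c : ℝ) * y ≤ ((c : ℝ) * ((j + 1 : ℕ) : ℝ) + r) * y := by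
    push_cast
    have : 0 ≤ ((c : ℝ) * j + r) * y := by positivity
    nlinarith
  have h3 : (j : ℝ) * (c * y) ≤ ((c : ℝ) * ((j + 1 : ℕ) : ℝ) + r) * y := by
    push_cast
    have : 0 ≤ ((c : ℝ) + r) * y := by positivity
    nlinarith
  have h4 : Real.exp (-2 * π * (((c : ℝ) * ((j + 1 : ℕ) : ℝ) + r) * y)) ≤
      Real.exp (-2 * π * (c * y)) := by
    apply Real.exp_le_exp.mpr; nlinarith
  have h5 : Real.exp (-2 * π * (((c : ℝ) * ((j + 1 : ℕ) : ℝ) + r) * y)) ≤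
      Real.exp (-2 * π * (c * y)) ^ j := by
    rw [← Real.exp_nat_mul]
    apply Real.exp_le_exp.mpr; nlinarith
  apply div_le_div₀ (by positivity) h5 (by linarith) (by linarith)

lemma SL_bound {ω : ℂ} (h1 : ‖ω‖ = 1) (hω : ω ≠ 1) {c : ℕ} (hc : 0 < c) {r : ℕ} (hr : r ≤ c)
    {y : ℝ} (hy : 0 < y) :
    ‖(∑' j : ℕ, lg ω ((c * j + r) * y)) - (∑' j : ℕ, lg ω ((c * j + (0 : ℕ)) * y)) +
      ((r : ℝ) / c : ℝ) * lg ω 0‖ ≤
      (2 * (16 * π ^ 2 / ‖1 - ω‖ ^ 2) * (c * y) ^ 2) * (1 - Real.exp (-2 * π * (c * y)))⁻¹ := by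
  have hcy : 0 < (c : ℝ) * y := by positivity
  have hpi := Real.pi_pos
  have hx1 : Real.exp (-2 * π * (c * y)) < 1 := by
    apply Real.exp_lt_one_iff.mpr
    nlinarith
  have hcr : (0 : ℝ) < c := by exact_mod_cast hc
  set K := 16 * π ^ 2 / ‖1 - ω‖ ^ 2 with hK
  have hK0 : 0 ≤ K := by positivity
  set g : ℕ → ℂ := fun j => lg ω ((c * j + (0 : ℕ)) * y) with hg
  have hgs : Summable g := summable_lg h1 hc 0 hy
  have hgs' : HasSum (fun j => g (j + 1)) ((∑' j, g j) - g 0) := by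
    have := (hasSum_nat_add_iff' (f := g) 1).mpr hgs.hasSum
    simpa using this
  have hrs := summable_lg h1 hc r hy
  have hR : HasSum (fun j : ℕ => lg ω ((c * j + r) * y) - g j - (((r : ℝ) / c : ℝ) : ℂ) * (g (j + 1) - g j))
      ((∑' j : ℕ, lg ω ((c * j + r) * y)) - (∑' j, g j) - (((r : ℝ) / c : ℝ) : ℂ) *
        ((∑' j, g j) - g 0 - ∑' j, g j)) :=
    (hrs.hasSum.sub hgs.hasSum).sub ((hgs'.sub hgs.hasSum).mul_left _)
  have hg0 : g 0 = lg ω 0 := by simp [hg]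
  have heq : (∑' j : ℕ, lg ω ((c * j + r) * y)) - (∑' j : ℕ, lg ω ((c * j + (0 : ℕ)) * y)) +
      ((r : ℝ) / c : ℝ) * lg ω 0 = (∑' j : ℕ, lg ω ((c * j + r) * y)) - (∑' j, g j) -
        (((r : ℝ) / c : ℝ) : ℂ) * ((∑' j, g j) - g 0 - ∑' j, g j) := by
    rw [hg0]; ring
  rw [heq, ← hR.tsum_eq]
  have hgeo : HasSum (fun j : ℕ => (2 * K * (c * y) ^ 2) * Real.exp (-2 * π * (c * y)) ^ j)
      ((2 * K * (c * y) ^ 2) * (1 - Real.exp (-2 * π * (c * y)))⁻¹) :=
    (hasSum_geometric_of_lt_one (Real.exp_pos _).le hx1).mul_left _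
  refine tsum_of_norm_bounded hgeo fun j => ?_
  have hx0 : 0 ≤ (c : ℝ) * j * y := by positivity
  have key := interp (g := lg ω) (x₀ := (c : ℝ) * j * y) (h := c * y)
    (B := K * Real.exp (-2 * π * ((c : ℝ) * j * y))) (θ := (r : ℝ) / c)
    (by positivity) hcy.le
    (fun t ht => hasDerivAt_lg h1 hω (hx0.trans ht.1))
    (fun t ht => hasDerivAt_lg' h1 hω (hx0.trans ht.1))
    (fun t ht => by
      refine (norm_lg''_le h1 hω (hx0.trans ht.1)).trans ?_
      refine mul_le_mul_of_nonneg_left (Real.exp_le_exp.mpr ?_) hK0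
      have := ht.1
      nlinarith)
    (by positivity) (by rw [div_le_one hcr]; exact_mod_cast hr)
  have e1 : (c : ℝ) * j * y + (r : ℝ) / c * (c * y) = (c * j + r) * y := by field_simp
  have e2 : (c : ℝ) * j * y + c * y = (c * ((j + 1 : ℕ) : ℝ) + (0 : ℕ)) * y := by push_cast; ring
  have e3 : (c : ℝ) * j * y = (c * j + (0 : ℕ)) * y := by push_cast; ring
  rw [e1, e2] at key
  have e4 : lg ω ((c : ℝ) * j * y) = g j := by rw [hg, e3]
  rw [e4] at key
  refine key.trans (le_of_eq ?_)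
  have e5 : Real.exp (-2 * π * (c * y)) ^ j = Real.exp (-2 * π * ((c : ℝ) * j * y)) := by
    rw [← Real.exp_nat_mul]; congr 1; ring
  rw [e5]
  ring

lemma SL {ω : ℂ} (h1 : ‖ω‖ = 1) (hω : ω ≠ 1) {c : ℕ} (hc : 0 < c) {r : ℕ} (hr : r ≤ c) :
    Tendsto (fun y : ℝ => (∑' j : ℕ, lg ω ((c * j + r) * y)) -
      (∑' j : ℕ, lg ω ((c * j + (0 : ℕ)) * y))) (𝓝[>] 0) (𝓝 (-(((r : ℝ) / c : ℝ) * lg ω 0))) := by
  have hpi := Real.pi_pos
  have hcr : (0 : ℝ) < c := by exact_mod_cast hc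
  rw [tendsto_iff_norm_sub_tendsto_zero]
  set K := 16 * π ^ 2 / ‖1 - ω‖ ^ 2 with hK
  have hK0 : 0 ≤ K := by positivity
  have hlim : Tendsto (fun y : ℝ => (2 * K * c ^ 2) * (y * (1 + 2 * π * c * y) / (2 * π * c)))
      (𝓝[>] 0) (𝓝 0) := by
    have : Tendsto (fun y : ℝ => (2 * K * c ^ 2) * (y * (1 + 2 * π * c * y) / (2 * π * c)))
        (𝓝 0) (𝓝 ((2 * K * c ^ 2) * (0 * (1 + 2 * π * c * 0) / (2 * π * c)))) := by
      apply Continuous.tendsto
      fun_prop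
    rw [zero_mul, zero_div, mul_zero] at this
    exact this.mono_left nhdsWithin_le_nhds
  refine squeeze_zero' (Eventually.of_forall fun y => norm_nonneg _) ?_ hlim
  filter_upwards [self_mem_nhdsWithin] with y hy
  have hy : 0 < y := hy
  rw [sub_neg_eq_add]
  refine (SL_bound h1 hω hc hr hy).trans ?_
  have hcy : 0 < 2 * π * (c * y) := by positivity
  have h2 : (1 - Real.exp (-2 * π * (c * y)))⁻¹ ≤ (1 + 2 * π * (c * y)) / (2 * π * (c * y)) := by
    have h3 : Real.exp (-2 * π * (c * y)) ≤ (1 + 2 * π * (c * y))⁻¹ := by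
      rw [show -2 * π * (c * y) = -(2 * π * (c * y)) by ring, Real.exp_neg]
      apply inv_anti₀ (by positivity)
      have := Real.add_one_le_exp (2 * π * (c * y))
      linarith
    rw [inv_le_comm₀ _ (by positivity)]
    · rw [inv_div]
      have : (1 + 2 * π * (c * y))⁻¹ = 1 - 2 * π * (c * y) / (1 + 2 * π * (c * y)) := by
        field_simp; ring
      linarith
    · have : (1 + 2 * π * (c * y))⁻¹ < 1 := inv_lt_one_of_one_lt₀ (by linarith)
      linarith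
  calc (2 * K * (c * y) ^ 2) * (1 - Real.exp (-2 * π * (c * y)))⁻¹
      ≤ (2 * K * (c * y) ^ 2) * ((1 + 2 * π * (c * y)) / (2 * π * (c * y))) := by gcongr
    _ = (2 * K * c ^ 2) * (y * (1 + 2 * π * c * y) / (2 * π * c)) := by field_simp

end NDS
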