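import Pool.Agent.H7.NDS.FSeries

/-!
# The limit lemma
-/

open Complex Filter
open scoped MatrixGroups ComplexConjugate Real Topology

namespace NDS

lemma taylor1 {g g' g'' : ℝ → ℂ} {x₀ h B : ℝ} (hB0 : 0 ≤ B)
    (hg : ∀ t ∈ Set.Icc x₀ (x₀ + h), HasDerivAt g (g' t) t)
    (hg' : ∀ t ∈ Set.Icc x₀ (x₀ + h), HasDerivAt g' (g'' t) t)
    (hB : ∀ t ∈ Set.Icc x₀ (x₀ + h), ‖g'' t‖ ≤ B) {s : ℝ} (hs0 : 0 ≤ s) (hs : s ≤ h) :
    ‖g (x₀ + s) - g x₀ - s * g' x₀‖ ≤ B * h ^ 2 := by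
  have hh : 0 ≤ h := hs0.trans hs
  have hx₀ : x₀ ∈ Set.Icc x₀ (x₀ + h) := ⟨le_rfl, by linarith⟩
  have hxs : x₀ + s ∈ Set.Icc x₀ (x₀ + h) := ⟨by linarith, by linarith⟩
  have h1 : ∀ t ∈ Set.Icc x₀ (x₀ + h), ‖g' t - g' x₀‖ ≤ B * h := by
    intro t ht
    have := (convex_Icc x₀ (x₀ + h)).norm_image_sub_le_of_norm_hasDerivWithin_le
      (fun x hx => (hg' x hx).hasDerivWithinAt) hB hx₀ ht
    refine this.trans ?_
    gcongr
    rw [Real.norm_eq_abs, abs_of_nonneg (by linarith [ht.1])]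
    linarith [ht.2]
  have h2 : ∀ t ∈ Set.Icc x₀ (x₀ + h),
      HasDerivWithinAt (fun t => g t - t * g' x₀) (g' t - g' x₀) (Set.Icc x₀ (x₀ + h)) t := by
    intro t ht
    have ha : HasDerivAt (fun t : ℝ => (t : ℂ) * g' x₀) (1 * g' x₀) t :=
      (Complex.ofRealCLM.hasDerivAt (x := t)).mul_const _
    rw [one_mul] at ha
    exact ((hg t ht).sub ha).hasDerivWithinAt
  have h3 := (convex_Icc x₀ (x₀ + h)).norm_image_sub_le_of_norm_hasDerivWithin_le h2 h1 hx₀ hxs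
  have h4 : g (x₀ + s) - ((x₀ + s : ℝ) : ℂ) * g' x₀ - (g x₀ - (x₀ : ℂ) * g' x₀) =
      g (x₀ + s) - g x₀ - s * g' x₀ := by push_cast; ring
  rw [h4] at h3
  refine h3.trans ?_
  rw [pow_two, ← mul_assoc]
  gcongr
  rw [Real.norm_eq_abs, abs_of_nonneg (by linarith)]
  linarith

lemma interp {g g' g'' : ℝ → ℂ} {x₀ h B θ : ℝ} (hB0 : 0 ≤ B) (hh : 0 ≤ h)
    (hg : ∀ t ∈ Set.Icc x₀ (x₀ + h), HasDerivAt g (g' t) t)
    (hg' : ∀ t ∈ Set.Icc x₀ (x₀ + h), HasDerivAt g' (g'' t) t)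
    (hB : ∀ t ∈ Set.Icc x₀ (x₀ + h), ‖g'' t‖ ≤ B) (hθ0 : 0 ≤ θ) (hθ : θ ≤ 1) :
    ‖g (x₀ + θ * h) - g x₀ - θ * (g (x₀ + h) - g x₀)‖ ≤ 2 * B * h ^ 2 := by
  have h1 := taylor1 hB0 hg hg' hB (s := θ * h) (by positivity) (by nlinarith)
  have h2 := taylor1 hB0 hg hg' hB (s := h) hh le_rfl
  have h3 : g (x₀ + θ * h) - g x₀ - θ * (g (x₀ + h) - g x₀) =
      (g (x₀ + θ * h) - g x₀ - ((θ * h : ℝ) : ℂ) * g' x₀) -
        θ * (g (x₀ + h) - g x₀ - h * g' x₀) := by push_cast; ring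
  rw [h3]
  refine (norm_sub_le _ _).trans ?_
  have h4 : ‖(θ : ℂ) * (g (x₀ + h) - g x₀ - h * g' x₀)‖ ≤ B * h ^ 2 := by
    rw [norm_mul, Complex.norm_real, Real.norm_eq_abs, abs_of_nonneg hθ0]
    calc θ * ‖g (x₀ + h) - g x₀ - h * g' x₀‖ ≤ 1 * (B * h ^ 2) := by gcongr
      _ = _ := one_mul _
  linarith

/-- `-log (1 - ω e^{-2πt})`. -/
noncomputable def lg (ω : ℂ) (t : ℝ) : ℂ := -Complex.log (1 - ω * Real.exp (-2 * π * t))

lemma exp_le_one {t : ℝ} (ht : 0 ≤ t) : Real.exp (-2 * π * t) ≤ 1 := by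
  apply Real.exp_le_one_iff.mpr
  have := Real.pi_pos
  nlinarith

lemma re_pos_of {ω : ℂ} (h1 : ‖ω‖ = 1) (hω : ω ≠ 1) {t : ℝ} (ht : 0 ≤ t) :
    0 < (1 - ω * Real.exp (-2 * π * t)).re := by
  have he := exp_le_one ht
  have hep := Real.exp_pos (-2 * π * t)
  have hre : ω.re < 1 := by
    have hle : ω.re ≤ 1 := h1 ▸ Complex.re_le_norm ω
    rcases lt_or_eq_of_le hle with h | h
    · exact h
    · exfalso
      apply hω
      have h2 : ω.re ^ 2 + ω.im ^ 2 = 1 := by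
        have := Complex.sq_norm ω
        rw [h1, Complex.normSq_apply] at this
        nlinarith
      have h3 : ω.im = 0 := by
        have : ω.im ^ 2 = 0 := by rw [h] at h2; linarith
        exact pow_eq_zero_iff (two_ne_zero) |>.mp this
      exact Complex.ext (by simpa using h) (by simpa using h3)
  have : (ω * ((Real.exp (-2 * π * t) : ℝ) : ℂ)).re = ω.re * Real.exp (-2 * π * t) := by
    rw [Complex.re_mul_ofReal]
  rw [Complex.sub_re, this, Complex.one_re]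
  by_cases h0 : 0 ≤ ω.re
  · nlinarith
  · push Not at h0
    nlinarith

lemma norm_one_sub_ge {ω : ℂ} (h1 : ‖ω‖ = 1) {t : ℝ} (ht : 0 ≤ t) :
    ‖1 - ω‖ / 2 ≤ ‖1 - ω * Real.exp (-2 * π * t)‖ := by
  have he := exp_le_one ht
  have hep := Real.exp_pos (-2 * π * t)
  set s := Real.exp (-2 * π * t)
  have hA : ‖1 - ω‖ ≤ ‖1 - ω * s‖ + (1 - s) := by
    have : 1 - ω = (1 - ω * s) - ω * ((1 - s : ℝ) : ℂ) := by push_cast; ring
    rw [this]
    refine (norm_sub_le _ _).trans ?_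
    rw [norm_mul, h1, Complex.norm_real, Real.norm_eq_abs, abs_of_nonneg (by linarith), one_mul]
  have hB : 1 - s ≤ ‖1 - ω * s‖ := by
    have h2 := norm_sub_norm_le (1 : ℂ) (ω * s)
    rw [norm_one, norm_mul, h1, Complex.norm_real, Real.norm_eq_abs, abs_of_pos hep, one_mul] at h2
    exact h2
  linarith

lemma hasDerivAt_u (ω : ℂ) (t : ℝ) :
    HasDerivAt (fun t : ℝ => ω * ((Real.exp (-2 * π * t) : ℝ) : ℂ))
      (-2 * π * (ω * ((Real.exp (-2 * π * t) : ℝ) : ℂ))) t := by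
  have h1 : HasDerivAt (fun t : ℝ => Real.exp (-2 * π * t)) (Real.exp (-2 * π * t) * (-2 * π)) t := by
    have := ((hasDerivAt_id t).const_mul (-2 * π)).exp
    simpa using this
  have h2 := (h1.ofReal_comp).const_mul ω
  refine h2.congr_deriv ?_
  push_cast
  ring

lemma hasDerivAt_lg {ω : ℂ} (h1 : ‖ω‖ = 1) (hω : ω ≠ 1) {t : ℝ} (ht : 0 ≤ t) :
    HasDerivAt (lg ω) (-2 * π * (ω * Real.exp (-2 * π * t)) / (1 - ω * Real.exp (-2 * π * t))) t := by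
  have hu := (hasDerivAt_u ω t).const_sub 1
  have hs : (1 - ω * Real.exp (-2 * π * t)) ∈ Complex.slitPlane := Or.inl (re_pos_of h1 hω ht)
  have := (hu.clog_real hs).neg
  refine this.congr_deriv ?_
  ring

lemma hasDerivAt_lg' {ω : ℂ} (h1 : ‖ω‖ = 1) (hω : ω ≠ 1) {t : ℝ} (ht : 0 ≤ t) :
    HasDerivAt (fun t : ℝ => -2 * π * (ω * ((Real.exp (-2 * π * t) : ℝ) : ℂ)) /
        (1 - ω * ((Real.exp (-2 * π * t) : ℝ) : ℂ)))
      (4 * π ^ 2 * (ω * Real.exp (-2 * π * t)) / (1 - ω * Real.exp (-2 * π * t)) ^ 2) t := by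
  have hu := hasDerivAt_u ω t
  have hne : (1 - ω * Real.exp (-2 * π * t)) ≠ 0 := by
    intro h
    have := re_pos_of h1 hω ht
    rw [h] at this
    simp at this
  have := (hu.const_mul (-2 * π : ℂ)).div (hu.const_sub 1) hne
  refine this.congr_deriv ?_
  rw [div_left_inj' (pow_ne_zero 2 hne)]
  ring

lemma norm_lg''_le {ω : ℂ} (h1 : ‖ω‖ = 1) (hω : ω ≠ 1) {t : ℝ} (ht : 0 ≤ t) :
    ‖4 * π ^ 2 * (ω * Real.exp (-2 * π * t)) / (1 - ω * Real.exp (-2 * π * t)) ^ 2‖ ≤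
      (16 * π ^ 2 / ‖1 - ω‖ ^ 2) * Real.exp (-2 * π * t) := by
  have h2 := norm_one_sub_ge h1 ht
  have h3 : 0 < ‖1 - ω‖ := norm_pos_iff.mpr (sub_ne_zero.mpr (Ne.symm hω))
  have hep := Real.exp_pos (-2 * π * t)
  rw [norm_div, norm_mul, norm_mul, norm_mul, h1, norm_pow, norm_pow, Complex.norm_real,
    Complex.norm_real, Real.norm_eq_abs, Real.norm_eq_abs, abs_of_pos hep, abs_of_pos Real.pi_pos]
  have h4 : ‖(4 : ℂ)‖ = 4 := by norm_num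
  rw [h4, one_mul]
  have h5 : 0 < ‖1 - ω * Real.exp (-2 * π * t)‖ := lt_of_lt_of_le (by positivity) h2
  rw [div_mul_eq_mul_div, div_le_div_iff₀ (by positivity) (by positivity)]
  have h6 : ‖1 - ω‖ ^ 2 ≤ 4 * ‖1 - ω * Real.exp (-2 * π * t)‖ ^ 2 := by nlinarith
  have h7 : 0 ≤ 4 * π ^ 2 * Real.exp (-2 * π * t) := by positivity
  calc 4 * π ^ 2 * Real.exp (-2 * π * t) * ‖1 - ω‖ ^ 2
      ≤ 4 * π ^ 2 * Real.exp (-2 * π * t) * (4 * ‖1 - ω * Real.exp (-2 * π * t)‖ ^ 2) := by gcongr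
    _ = _ := by ring

lemma norm_lg_le {ω : ℂ} (h1 : ‖ω‖ = 1) {t : ℝ} (ht : 0 < t) :
    ‖lg ω t‖ ≤ Real.exp (-2 * π * t) / (1 - Real.exp (-2 * π * t)) := by
  have he : Real.exp (-2 * π * t) < 1 := by
    apply Real.exp_lt_one_iff.mpr
    have := Real.pi_pos
    nlinarith
  have hep := Real.exp_pos (-2 * π * t)
  have hn : ‖ω * ((Real.exp (-2 * π * t) : ℝ) : ℂ)‖ = Real.exp (-2 * π * t) := by
    rw [norm_mul, h1, Complex.norm_real, Real.norm_eq_abs, abs_of_pos hep, one_mul]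
  have h3 := Complex.hasSum_taylorSeries_neg_log (z := ω * ((Real.exp (-2 * π * t) : ℝ) : ℂ))
    (by rw [hn]; exact he)
  rw [lg, ← h3.tsum_eq]
  have h4 : HasSum (fun n : ℕ => Real.exp (-2 * π * t) ^ (n + 1))
      (Real.exp (-2 * π * t) / (1 - Real.exp (-2 * π * t))) := by
    have := (hasSum_geometric_of_lt_one hep.le he).mul_left (Real.exp (-2 * π * t))
    rw [div_eq_mul_inv]
    simpa only [pow_succ'] using this
  have h5 : HasSum (fun n : ℕ => (ω * ((Real.exp (-2 * π * t) : ℝ) : ℂ)) ^ (n + 1) / ((n + 1 : ℕ) : ℂ))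
      (-Complex.log (1 - ω * ((Real.exp (-2 * π * t) : ℝ) : ℂ))) := by
    rw [hasSum_nat_add_iff (f := fun n : ℕ => (ω * ((Real.exp (-2 * π * t) : ℝ) : ℂ)) ^ n / (n : ℂ)) 1]
    simpa using h3
  rw [h3.tsum_eq, ← h5.tsum_eq]
  refine tsum_of_norm_bounded h4 fun n => ?_
  rw [norm_div, norm_pow, hn, Complex.norm_natCast]
  apply div_le_self (by positivity)
  exact_mod_cast Nat.succ_pos n

end NDS
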