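import Pool.Agent.H7.NDS.Gauss
import Pool.Agent.H7.NDS.Limit2

/-!
# Logarithmic representation of `f` and the limit at `a/c`
-/

open Complex Filter
open scoped MatrixGroups ComplexConjugate Real Topology

namespace NDS

variable {q₁ q₂ : ℕ} [NeZero q₁] [NeZero q₂] (χ₁ : DirichletCharacter ℂ q₁)
  (χ₂ : DirichletCharacter ℂ q₂)

lemma hasSum_log {u : ℂ} (hu : ‖u‖ < 1) :
    HasSum (fun A : ℕ+ => u ^ (A : ℕ) / ((A : ℕ) : ℂ)) (-Complex.log (1 - u)) := by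
  have h := Complex.hasSum_taylorSeries_neg_log hu
  have h2 := (PNat.coe_injective.hasSum_iff (f := fun n : ℕ => u ^ n / (n : ℂ))
    (a := -Complex.log (1 - u)) ?_).mpr h
  · exact h2
  · intro n hn
    have : n = 0 := by
      by_contra h0
      exact hn ⟨⟨n, Nat.pos_of_ne_zero h0⟩, rfl⟩
    simp [this]

lemma logRep (h₁ : χ₁.IsPrimitive) {z : ℂ} (hz : 0 < z.im) :
    HasSum (fun n : ℕ+ => conj (χ₂ ((n : ℕ) : ZMod q₂)) *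
      ∑ k ∈ Finset.range q₁, conj (χ₁ (k : ZMod q₁)) *
        (-Complex.log (1 - e ((k : ℂ) / q₁ + (n : ℕ) * z)))) (G χ₁⁻¹ * f χ₁ χ₂ z) := by
  have h1 := (hasSum_f χ₁ χ₂ hz).mul_left (G χ₁⁻¹)
  have h2 := ((Equiv.prodComm ℕ+ ℕ+).hasSum_iff (a := G χ₁⁻¹ * f χ₁ χ₂ z)
    (f := fun p : ℕ+ × ℕ+ => G χ₁⁻¹ * ft χ₁ χ₂ p z)).mpr h1
  refine h2.prod_fiberwise fun n => ?_
  -- inner sum over `A`
  have hk : ∀ k ∈ Finset.range q₁, HasSum (fun A : ℕ+ => conj (χ₂ ((n : ℕ) : ZMod q₂)) *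
      (conj (χ₁ (k : ZMod q₁)) * (e ((k : ℂ) / q₁ + (n : ℕ) * z) ^ (A : ℕ) / ((A : ℕ) : ℂ))))
      (conj (χ₂ ((n : ℕ) : ZMod q₂)) * (conj (χ₁ (k : ZMod q₁)) *
        (-Complex.log (1 - e ((k : ℂ) / q₁ + (n : ℕ) * z))))) := by
    intro k _
    refine ((hasSum_log ?_).mul_left _).mul_left _
    rw [norm_e]
    apply Real.exp_lt_one_iff.mpr
    have hpi := Real.pi_pos
    have hn : (0 : ℝ) < (n : ℕ) := by exact_mod_cast n.pos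
    have him : ((k : ℂ) / q₁ + ((n : ℕ) : ℂ) * z).im = (n : ℕ) * z.im := by
      simp [Complex.add_im, Complex.mul_im, Complex.div_natCast_im]
    rw [him]
    have : 0 < (n : ℕ) * z.im := by positivity
    nlinarith
  have h3 := hasSum_sum hk
  rw [← Finset.mul_sum] at h3
  have hfun : (fun A : ℕ+ => ((fun p : ℕ+ × ℕ+ => G χ₁⁻¹ * ft χ₁ χ₂ p z) ∘ (Equiv.prodComm ℕ+ ℕ+)) (n, A)) =
      fun A : ℕ+ => ∑ k ∈ Finset.range q₁, conj (χ₂ ((n : ℕ) : ZMod q₂)) *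
        (conj (χ₁ (k : ZMod q₁)) * (e ((k : ℂ) / q₁ + (n : ℕ) * z) ^ (A : ℕ) / ((A : ℕ) : ℂ))) := by
    funext A
    have hg := gauss_shift χ₁⁻¹ (inv_isPrimitive h₁) ((A : ℕ) : ℤ)
    rw [inv_inv] at hg
    push_cast at hg
    simp only [Function.comp, Equiv.prodComm_apply, Prod.swap, ft]
    have hA : ((A : ℕ) : ℂ) ≠ 0 := by exact_mod_cast A.pos.ne'
    have e1 : ∀ k ∈ Finset.range q₁, conj (χ₂ ((n : ℕ) : ZMod q₂)) *
        (conj (χ₁ (k : ZMod q₁)) * (e ((k : ℂ) / q₁ + (n : ℕ) * z) ^ (A : ℕ) / ((A : ℕ) : ℂ))) =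
        (conj (χ₂ ((n : ℕ) : ZMod q₂)) / ((A : ℕ) : ℂ) * e (((A : ℕ) : ℂ) * ((n : ℕ) : ℂ) * z)) *
          (χ₁⁻¹ (k : ZMod q₁) * e ((k : ℂ) * (A : ℕ) / q₁)) := by
      intro k _
      rw [conj_char χ₁, ← e_nat_mul, mul_add, e_add]
      have e2 : ((A : ℕ) : ℂ) * ((k : ℂ) / q₁) = (k : ℂ) * (A : ℕ) / q₁ := by ring
      have e3 : ((A : ℕ) : ℂ) * (((n : ℕ) : ℂ) * z) = ((A : ℕ) : ℂ) * ((n : ℕ) : ℂ) * z := by ring
      rw [e2, e3]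
      ring
    rw [Finset.sum_congr rfl e1, ← Finset.mul_sum, hg]
    ring
  rw [hfun]
  exact h3

end NDS
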