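import Pool.Agent.H7.NDS.ModA2

/-!
# Module A: `L_swap` and `S_mem_two_O`
-/

open Complex
open scoped MatrixGroups ComplexConjugate Real

namespace NDS.A

section swap

variable {q₁ q₂ : ℕ} [NeZero q₁] [NeZero q₂] (χ₁ : DirichletCharacter ℂ q₁)
  (χ₂ : DirichletCharacter ℂ q₂)

/-- numerators coprime to `d`. -/
lemma ff_periodic (d : ℕ) (hd : 0 < d) (s : ℤ) {q : ℕ} (χ : DirichletCharacter ℂ q) (x : ℤ) :
    ff χ ((s : ℝ) * ((x + (d : ℤ) : ℤ) : ℝ) / d) = ff χ ((s : ℝ) * (x : ℝ) / d) := by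
  have hdR : (d : ℝ) ≠ 0 := by exact_mod_cast hd.ne'
  have h1 : (s : ℝ) * ((x + (d : ℤ) : ℤ) : ℝ) / d = (s : ℝ) * (x : ℝ) / d + (s : ℤ) := by
    push_cast
    field_simp
  rw [h1, ff_add_int]

/-- `T(s', d)` for `χ₁, χ₂` is `T(s, d)` for `χ₂, χ₁` if `s s' ≡ 1 mod d`. -/
lemma T_swap {d : ℕ} (hd : 0 < d) {s s' : ℤ} (h : (d : ℤ) ∣ s * s' - 1) :
    T χ₁ χ₂ s' d = T χ₂ χ₁ s d := by
  have hdR : (d : ℝ) ≠ 0 := by exact_mod_cast hd.ne'
  have hcop : IsCoprime s (d : ℤ) := by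
    obtain ⟨t, ht⟩ := h
    exact ⟨s', -t, by linarith⟩
  have h1 : ∀ x : ℤ, ff χ₁ ((1 : ℤ) * ((x + (d : ℤ) : ℤ) : ℝ) / d) *
      ff χ₂ ((s' : ℝ) * ((x + (d : ℤ) : ℤ) : ℝ) / d) =
      ff χ₁ ((1 : ℤ) * (x : ℝ) / d) * ff χ₂ ((s' : ℝ) * (x : ℝ) / d) := by
    intro x
    rw [ff_periodic d hd, ff_periodic d hd]
  have h2 := sum_periodic hd (φ := fun x : ℤ => ff χ₁ ((1 : ℤ) * (x : ℝ) / d) *
      ff χ₂ ((s' : ℝ) * (x : ℝ) / d)) h1 hcop 0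
  unfold T
  calc ∑ n ∈ Finset.range d, ff χ₁ ((n : ℝ) / d) * ff χ₂ ((s' : ℝ) * n / d)
      = ∑ n ∈ Finset.range d, ff χ₁ ((1 : ℤ) * (((n : ℕ) : ℤ) : ℝ) / d) *
          ff χ₂ ((s' : ℝ) * (((n : ℕ) : ℤ) : ℝ) / d) := by
        apply Finset.sum_congr rfl
        intro n _
        simp
    _ = _ := h2.symm
    _ = _ := by
        apply Finset.sum_congr rfl
        intro n _
        obtain ⟨t, ht⟩ := h
        have ht' : (s : ℝ) * s' - 1 = d * t := by exact_mod_cast ht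
        have h3 : ((1 : ℤ) : ℝ) * ((s * (n : ℤ) + 0 : ℤ) : ℝ) / d = (s : ℝ) * n / d := by
          push_cast
          ring
        have h4 : (s' : ℝ) * ((s * (n : ℤ) + 0 : ℤ) : ℝ) / d = (n : ℝ) / d + ((t * n : ℤ) : ℝ) := by
          have h5 : (s : ℝ) * s' = d * t + 1 := by linarith
          have h6 : (s' : ℝ) * ((s * (n : ℤ) + 0 : ℤ) : ℝ) = (d * t + 1) * n := by
            rw [← h5]
            push_cast
            ring
          rw [h6]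
          push_cast
          field_simp
          ring
        rw [h3, h4, ff_add_int, mul_comm]

/-- The data of a matrix in `Γ₁(N)`, with a good choice of `d`. -/
lemma exists_good_d {N : ℕ} [NeZero N] (γ : SL(2, ℤ)) (hγ : γ ∈ CongruenceSubgroup.Gamma1 N)
    (hc : 1 ≤ γ 1 0) : ∃ c₀ d : ℕ, 0 < c₀ ∧ 0 < d ∧ Odd d ∧ γ 1 0 = ((N * c₀ : ℕ) : ℤ) ∧
      ((N * c₀ : ℕ) : ℤ) ∣ γ 0 0 * d - 1 ∧ ((N : ℕ) : ℤ) ∣ (d : ℤ) - 1 := by
  have hN : 0 < N := Nat.pos_of_ne_zero (NeZero.ne N)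
  rw [CongruenceSubgroup.Gamma1_mem] at hγ
  obtain ⟨h00, h11, h10⟩ := hγ
  have hdet : γ 0 0 * γ 1 1 - γ 0 1 * γ 1 0 = 1 := by
    have := γ.det_coe
    rwa [Matrix.det_fin_two] at this
  have hNc : (N : ℤ) ∣ γ 1 0 := (ZMod.intCast_zmod_eq_zero_iff_dvd _ _).1 h10
  have hNd : (N : ℤ) ∣ γ 1 1 - 1 := by
    rw [← ZMod.intCast_zmod_eq_zero_iff_dvd]
    push_cast
    rw [h11, sub_self]
  obtain ⟨c₁, hc₁⟩ := hNc
  have hc₁pos : 0 < c₁ := by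
    by_contra h
    push Not at h
    have : (N : ℤ) * c₁ ≤ 0 := mul_nonpos_of_nonneg_of_nonpos (by positivity) h
    omega
  obtain ⟨c₀, rfl⟩ : ∃ c₀ : ℕ, c₁ = c₀ := ⟨c₁.toNat, (Int.toNat_of_nonneg hc₁pos.le).symm⟩
  have hc₀ : 0 < c₀ := by exact_mod_cast hc₁pos
  have hceq : γ 1 0 = ((N * c₀ : ℕ) : ℤ) := by rw [hc₁]; push_cast; ring
  -- a general shift
  have key : ∀ k : ℤ, 0 < γ 1 1 + k * γ 1 0 → Odd (γ 1 1 + k * γ 1 0) →
      ∃ c₀ d : ℕ, 0 < c₀ ∧ 0 < d ∧ Odd d ∧ γ 1 0 = ((N * c₀ : ℕ) : ℤ) ∧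
      ((N * c₀ : ℕ) : ℤ) ∣ γ 0 0 * d - 1 ∧ ((N : ℕ) : ℤ) ∣ (d : ℤ) - 1 := by
    intro k hk hodd
    refine ⟨c₀, (γ 1 1 + k * γ 1 0).toNat, hc₀, by omega, ?_, hceq, ?_, ?_⟩
    · have h1 : (((γ 1 1 + k * γ 1 0).toNat : ℕ) : ℤ) = γ 1 1 + k * γ 1 0 :=
        Int.toNat_of_nonneg hk.le
      have h2 : Odd (((γ 1 1 + k * γ 1 0).toNat : ℕ) : ℤ) := by rw [h1]; exact hodd
      exact_mod_cast h2
    · rw [Int.toNat_of_nonneg hk.le, ← hceq]
      exact ⟨γ 0 1 + k * γ 0 0, by linear_combination hdet⟩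
    · rw [Int.toNat_of_nonneg hk.le]
      obtain ⟨t, ht⟩ := hNd
      exact ⟨t + k * c₀, by rw [hc₁]; linear_combination ht⟩
  have hbig : ∀ k : ℤ, |γ 1 1| < k → 0 < γ 1 1 + k * γ 1 0 := by
    intro k hk
    have h1 := neg_abs_le (γ 1 1)
    have h2 := abs_nonneg (γ 1 1)
    nlinarith
  rcases Int.even_or_odd (γ 1 0) with hce | hco
  · -- c even, d odd
    have hdo : Odd (γ 1 1) := by
      by_contra h
      rw [Int.not_odd_iff_even] at h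
      have h1 : Even (γ 0 0 * γ 1 1 - γ 0 1 * γ 1 0) := (h.mul_left _).sub (hce.mul_left _)
      rw [hdet] at h1
      exact absurd h1 (by decide)
    apply key (|γ 1 1| + 1) (hbig _ (by omega))
    exact hdo.add_even (hce.mul_left _)
  · rcases Int.even_or_odd (γ 1 1 + (|γ 1 1| + 1) * γ 1 0) with h1 | h1
    · apply key (|γ 1 1| + 2) (hbig _ (by omega))
      have h2 : γ 1 1 + (|γ 1 1| + 2) * γ 1 0 = (γ 1 1 + (|γ 1 1| + 1) * γ 1 0) + γ 1 0 := by ring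
      rw [h2]
      exact h1.add_odd hco
    · exact key (|γ 1 1| + 1) (hbig _ (by omega)) h1

/-- Existence of a matrix with prescribed lower row. -/
lemma exists_gamma {N : ℕ} [NeZero N] {c₀ d : ℕ} (hd : (N : ℤ) ∣ (d : ℤ) - 1)
    (hcop : IsCoprime (d : ℤ) ((N * c₀ : ℕ) : ℤ)) :
    ∃ γ ∈ CongruenceSubgroup.Gamma1 N, γ 1 0 = ((N * c₀ : ℕ) : ℤ) ∧
      ((N * c₀ : ℕ) : ℤ) ∣ γ 0 0 * d - 1 := by
  obtain ⟨u, v, huv⟩ := hcop
  -- u d + v c = 1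
  have hdet : (!![u, -v; ((N * c₀ : ℕ) : ℤ), (d : ℤ)] : Matrix (Fin 2) (Fin 2) ℤ).det = 1 := by
    rw [Matrix.det_fin_two_of]
    linarith
  refine ⟨⟨!![u, -v; ((N * c₀ : ℕ) : ℤ), (d : ℤ)], hdet⟩, ?_, rfl, ?_⟩
  · rw [CongruenceSubgroup.Gamma1_mem]
    have h1 : ((d : ℤ) : ZMod N) = 1 := by
      have := (ZMod.intCast_zmod_eq_zero_iff_dvd _ _).2 hd
      push_cast at this ⊢
      exact sub_eq_zero.1 this
    have h2 : (((N * c₀ : ℕ) : ℤ) : ZMod N) = 0 := by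
      push_cast
      simp
    refine ⟨?_, h1, h2⟩
    have h3 : ((u * d + v * ((N * c₀ : ℕ) : ℤ) : ℤ) : ZMod N) = 1 := by rw [huv]; simp
    rw [Int.cast_add, Int.cast_mul, Int.cast_mul, h1, h2, mul_zero, add_zero, mul_one] at h3
    exact h3
  · refine ⟨-v, ?_⟩
    change u * (d : ℤ) - 1 = ((N * c₀ : ℕ) : ℤ) * (-v)
    linarith

lemma L_le_swap (n₁ : χ₁ ≠ 1) (n₂ : χ₂ ≠ 1) (par : χ₁ (-1) * χ₂ (-1) = 1) :
    L χ₁ χ₂ ≤ L χ₂ χ₁ := by
  have hq₁ : 0 < q₁ := Nat.pos_of_ne_zero (NeZero.ne q₁)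
  have hq₂ : 0 < q₂ := Nat.pos_of_ne_zero (NeZero.ne q₂)
  unfold L
  rw [AddSubgroup.closure_le]
  rintro s ⟨γ, hγ, hc, rfl⟩
  apply AddSubgroup.subset_closure
  obtain ⟨c₀, d, hc₀, hd, -, hceq, had, hNd⟩ := exists_good_d γ hγ hc
  have hcop : IsCoprime (d : ℤ) ((q₁ * q₂ * c₀ : ℕ) : ℤ) := by
    obtain ⟨t, ht⟩ := had
    exact ⟨γ 0 0, -t, by linarith⟩
  -- `c' = N c₀'` with `c c₀' ≡ 1 mod d`
  obtain ⟨u, v, huv⟩ := hcop
  -- u d + v c = 1; take `c₀' = v + (|v| + 1) d`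
  set w : ℤ := v + (|v| + 1) * d with hw
  have hw1 : 0 < w := by
    have h1 := neg_abs_le v
    have h2 := abs_nonneg v
    have h3 : (1 : ℤ) ≤ d := by exact_mod_cast hd
    nlinarith
  obtain ⟨c₁, hc₁⟩ : ∃ c₁ : ℕ, w = c₁ := ⟨w.toNat, (Int.toNat_of_nonneg hw1.le).symm⟩
  have hc₁pos : 0 < c₁ := by
    have : (0 : ℤ) < c₁ := by rw [← hc₁]; exact hw1
    exact_mod_cast this
  have hcc : (d : ℤ) ∣ ((q₁ * q₂ * c₀ : ℕ) : ℤ) * c₁ - 1 := by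
    rw [← hc₁, hw]
    exact ⟨-u + ((q₁ * q₂ * c₀ : ℕ) : ℤ) * (|v| + 1), by linear_combination huv⟩
  have hcop1 : IsCoprime (d : ℤ) (c₁ : ℤ) := by
    obtain ⟨t, ht⟩ := hcc
    exact ⟨-t, ((q₁ * q₂ * c₀ : ℕ) : ℤ), by linarith⟩
  have hcopN : IsCoprime (d : ℤ) ((q₂ * q₁ : ℕ) : ℤ) := by
    obtain ⟨t, ht⟩ := hNd
    exact ⟨1, -t, by push_cast at ht ⊢; linarith⟩
  have hcop' : IsCoprime (d : ℤ) ((q₂ * q₁ * c₁ : ℕ) : ℤ) := by
    rw [Nat.cast_mul]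
    exact hcopN.mul_right hcop1
  have hNd' : ((q₂ * q₁ : ℕ) : ℤ) ∣ (d : ℤ) - 1 := by rwa [mul_comm q₂ q₁]
  obtain ⟨γ', hγ', hc', had'⟩ := exists_gamma (N := q₂ * q₁) hNd' hcop'
  refine ⟨γ', hγ', ?_, ?_⟩
  · rw [hc']
    have : 0 < q₂ * q₁ * c₁ := by positivity
    exact_mod_cast this
  · have e1 : ((q₁ * q₂ * c₀ : ℕ) : ℤ) = ((q₂ * (q₁ * c₀) : ℕ) : ℤ) := by push_cast; ring
    have e2 : ((q₂ * q₁ * c₁ : ℕ) : ℤ) = ((q₁ * (q₂ * c₁) : ℕ) : ℤ) := by push_cast; ring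
    rw [e1] at hceq had
    rw [e2] at hc' had'
    rw [hceq, hc', reciprocity χ₁ χ₂ n₁ n₂ hc₀ hd had hNd,
      reciprocity χ₂ χ₁ n₂ n₁ hc₁pos hd had' hNd']
    have h1 : T χ₁ χ₂ ((q₁ * c₀ : ℕ) : ℤ) d = T χ₂ χ₁ ((q₂ * c₁ : ℕ) : ℤ) d := by
      apply T_swap χ₁ χ₂ hd
      have h2 : ((q₂ * c₁ : ℕ) : ℤ) * ((q₁ * c₀ : ℕ) : ℤ) - 1 =
          ((q₁ * q₂ * c₀ : ℕ) : ℤ) * c₁ - 1 := by push_cast; ring
      rw [h2]
      exact hcc
    have h2 : χ₂ (-1) = χ₁ (-1) := by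
      rcases sign_cases χ₁ with h3 | h3 <;> rcases sign_cases χ₂ with h4 | h4 <;>
        rw [h3, h4] at par ⊢ <;> norm_num at par
    rw [h1, h2]
    ring

end swap

section integrality

variable {q : ℕ} [NeZero q]

lemma conj_mem_range (χ : DirichletCharacter ℂ q) (k : ℤ) : cb χ k ∈ Set.range χ := by
  unfold cb
  refine ⟨Ring.inverse (k : ZMod q), ?_⟩
  rw [← MulChar.inv_apply]
  exact (MulChar.star_apply' χ _).symm

/-- `h(n) = f(n/d) - f(0)`. -/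
noncomputable def hh (χ : DirichletCharacter ℂ q) (d : ℕ) (n : ℤ) : ℂ :=
  ff χ ((n : ℝ) / d) - ff χ 0

lemma hh_mem (χ : DirichletCharacter ℂ q) (hχ : χ ≠ 1) (A : Subalgebra ℤ ℂ)
    (hA : Set.range χ ⊆ A) {d : ℕ} (hd : 0 < d) (hdq : (q : ℤ) ∣ (d : ℤ) - 1) (n : ℤ) :
    hh χ d n ∈ A := by
  have hdR : (d : ℝ) ≠ 0 := by exact_mod_cast hd.ne'
  have hqR : (q : ℝ) ≠ 0 := by exact_mod_cast NeZero.ne q
  have hq1 : q ≠ 1 := fun h => hχ (DirichletCharacter.level_one' χ h)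
  have hcb : ∀ k : ℤ, cb χ k ∈ A := fun k => hA (conj_mem_range χ k)
  by_cases hn : (d : ℤ) ∣ n
  · obtain ⟨t, ht⟩ := hn
    have h1 : (n : ℝ) / d = 0 + (t : ℤ) := by
      rw [ht]
      push_cast
      field_simp
      ring
    unfold hh
    rw [h1, ff_add_int, sub_self]
    exact A.zero_mem
  · have hz : ∀ k ∈ Finset.range q, ∃ z : ℤ, cb χ k * ((B1 ((n : ℝ) / d + k / q) : ℝ) : ℂ) -
        cb χ k * ((B1 (0 + k / q) : ℝ) : ℂ) = cb χ k * ((n : ℂ) / d) + cb χ k * (z : ℂ) := by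
      intro k hk
      rcases Nat.eq_zero_or_pos k with rfl | hkpos
      · refine ⟨0, ?_⟩
        rw [Nat.cast_zero, cb_zero χ hq1]
        ring
      · have hkq := Finset.mem_range.1 hk
        have h1 : Int.fract ((n : ℝ) / d + k / q) ≠ 0 := by
          intro h
          rw [Int.fract_eq_zero_iff] at h
          obtain ⟨t, ht⟩ := h
          have h3 : (n : ℝ) * q + k * d = d * q * t := by
            rw [ht]
            field_simp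
          have h4 : (n : ℤ) * q + k * d = d * q * t := by exact_mod_cast h3
          have h5 : (d : ℤ) ∣ q * n := ⟨q * t - k, by linarith⟩
          have h6 : IsCoprime (d : ℤ) (q : ℤ) := by
            obtain ⟨u, hu⟩ := hdq
            exact ⟨1, -u, by linarith⟩
          exact hn (h6.dvd_of_dvd_mul_left h5)
        have h2 : Int.fract ((0 : ℝ) + k / q) ≠ 0 := by
          rw [zero_add]
          have h3 : (0 : ℝ) < (k : ℝ) / q := by positivity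
          have h4 : (k : ℝ) / q < 1 := by
            rw [div_lt_one (by positivity)]
            exact_mod_cast hkq
          rw [Int.fract_eq_self.2 ⟨h3.le, h4⟩]
          exact h3.ne'
        refine ⟨(-⌊(n : ℝ) / d + k / q⌋) - (-⌊(0 : ℝ) + k / q⌋), ?_⟩
        rw [B1_eq_of_fract_ne h1, B1_eq_of_fract_ne h2]
        push_cast
        ring
    choose! z hz using hz
    have h1 : hh χ d n = ∑ k ∈ Finset.range q, cb χ k * (z k : ℂ) := by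
      unfold hh ff
      rw [← Finset.sum_sub_distrib, Finset.sum_congr rfl hz, Finset.sum_add_distrib,
        ← Finset.sum_mul, sum_cb χ hχ, zero_mul, zero_add]
    rw [h1]
    apply A.sum_mem
    intro k _
    exact A.mul_mem (hcb k) (A.intCast_mem _)

lemma hh_periodic (χ : DirichletCharacter ℂ q) {d : ℕ} (hd : 0 < d) (n t : ℤ) :
    hh χ d (n + d * t) = hh χ d n := by
  have hdR : (d : ℝ) ≠ 0 := by exact_mod_cast hd.ne'
  unfold hh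
  have h1 : ((n + d * t : ℤ) : ℝ) / d = (n : ℝ) / d + (t : ℤ) := by
    push_cast
    field_simp
  rw [h1, ff_add_int]

lemma ff_zero (χ : DirichletCharacter ℂ q) : -χ (-1) * ff χ 0 = ff χ 0 := by
  have h1 := ff_neg χ 0
  rw [neg_zero] at h1
  exact h1.symm

lemma hh_neg (χ : DirichletCharacter ℂ q) (d : ℕ) (n : ℤ) :
    hh χ d (-n) = -χ (-1) * hh χ d n := by
  have h1 := ff_zero χ
  unfold hh
  have h2 : ((-n : ℤ) : ℝ) / d = -((n : ℝ) / d) := by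
    push_cast
    ring
  rw [h2, ff_neg]
  linear_combination h1

lemma sum_ff (χ : DirichletCharacter ℂ q) {d : ℕ} (hd : 0 < d) (hdq : (q : ℤ) ∣ (d : ℤ) - 1)
    {s : ℤ} (hs : IsCoprime s (d : ℤ)) :
    ∑ n ∈ Finset.range d, ff χ (((s * (n : ℤ) : ℤ) : ℝ) / d) = ff χ 0 := by
  have hdR : (d : ℝ) ≠ 0 := by exact_mod_cast hd.ne'
  have hqR : (q : ℝ) ≠ 0 := by exact_mod_cast NeZero.ne q
  have h1 : ∀ x : ℤ, ff χ (((x + (d : ℤ) : ℤ) : ℝ) / d) = ff χ ((x : ℝ) / d) := by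
    intro x
    have h2 : ((x + (d : ℤ) : ℤ) : ℝ) / d = (x : ℝ) / d + ((1 : ℤ) : ℝ) := by
      push_cast
      field_simp
    rw [h2, ff_add_int]
  have h2 := sum_periodic hd (φ := fun x : ℤ => ff χ ((x : ℝ) / d)) h1 hs 0
  simp only [add_zero] at h2
  rw [h2]
  unfold ff
  rw [Finset.sum_comm]
  apply Finset.sum_congr rfl
  intro k _
  rw [← Finset.mul_sum]
  congr 1
  have h3 := B1_distribution d hd ((k : ℝ) / q)
  obtain ⟨t, ht⟩ := hdq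
  have ht' : (d : ℝ) = q * t + 1 := by
    have : ((d : ℤ) : ℝ) - 1 = q * t := by exact_mod_cast ht
    rw [Int.cast_natCast] at this
    linarith
  have h4 : (d : ℝ) * ((k : ℝ) / q) = (0 + k / q) + ((t * k : ℤ) : ℝ) := by
    rw [ht']
    push_cast
    field_simp
    ring
  rw [h4, B1_add_int] at h3
  rw [← h3]
  apply Finset.sum_congr rfl
  intro n _
  congr 2
  rw [Int.cast_natCast]
  ring

lemma q_mul_ff_zero (χ : DirichletCharacter ℂ q) (hχ : χ ≠ 1) :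
    (q : ℂ) * ff χ 0 = ∑ k ∈ Finset.range q, (k : ℂ) * cb χ k := by
  have hqR : (q : ℝ) ≠ 0 := by exact_mod_cast NeZero.ne q
  have hqC : (q : ℂ) ≠ 0 := by exact_mod_cast NeZero.ne q
  have hq1 : q ≠ 1 := fun h => hχ (DirichletCharacter.level_one' χ h)
  have h1 : ∀ k ∈ Finset.range q, (q : ℂ) * (cb χ k * ((B1 (0 + k / q) : ℝ) : ℂ)) =
      (k : ℂ) * cb χ k - (q / 2 : ℂ) * cb χ k := by
    intro k hk
    rcases Nat.eq_zero_or_pos k with rfl | hkpos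
    · rw [Nat.cast_zero, cb_zero χ hq1]
      ring
    · have hkq := Finset.mem_range.1 hk
      have h3 : (0 : ℝ) < (k : ℝ) / q := by positivity
      have h4 : (k : ℝ) / q < 1 := by
        rw [div_lt_one (by positivity)]
        exact_mod_cast hkq
      have h5 : B1 ((0 : ℝ) + k / q) = k / q - 1 / 2 := by
        unfold B1
        rw [zero_add, Int.fract_eq_self.2 ⟨h3.le, h4⟩, if_neg h3.ne']
      rw [h5]
      push_cast
      field_simp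
  unfold ff
  rw [Finset.mul_sum, Finset.sum_congr rfl h1, Finset.sum_sub_distrib, ← Finset.mul_sum,
    sum_cb χ hχ, mul_zero, sub_zero]

lemma b_mem (χ : DirichletCharacter ℂ q) (hχ : χ ≠ 1) (A : Subalgebra ℤ ℂ)
    (hA : Set.range χ ⊆ A) : (q : ℂ) * ff χ 0 ∈ A := by
  rw [q_mul_ff_zero χ hχ]
  apply A.sum_mem
  intro k _
  exact A.mul_mem (A.natCast_mem _) (hA (conj_mem_range χ k))

lemma b_even (χ : DirichletCharacter ℂ q) (hχ : χ ≠ 1) (A : Subalgebra ℤ ℂ)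
    (hA : Set.range χ ⊆ A) (hq : Even q) : ∃ x ∈ A, (q : ℂ) * ff χ 0 = 2 * x := by
  refine ⟨∑ k ∈ Finset.range q, ((k / 2 : ℕ) : ℂ) * cb χ k, ?_, ?_⟩
  · apply A.sum_mem
    intro k _
    exact A.mul_mem (A.natCast_mem _) (hA (conj_mem_range χ k))
  · rw [q_mul_ff_zero χ hχ]
    have h1 : ∀ k ∈ Finset.range q, (k : ℂ) * cb χ k =
        cb χ k + 2 * (((k / 2 : ℕ) : ℂ) * cb χ k) := by
      intro k _
      rcases Nat.even_or_odd' k with ⟨j, hj | hj⟩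
      · have h2 : cb χ k = 0 := by
          unfold cb
          rw [MulChar.map_nonunit, map_zero]
          rw [Int.cast_natCast, ZMod.isUnit_iff_coprime]
          intro h3
          have h4 : 2 ∣ Nat.gcd k q := Nat.dvd_gcd ⟨j, hj⟩ hq.two_dvd
          rw [h3] at h4
          omega
        rw [h2]
        ring
      · have h2 : k / 2 = j := by omega
        rw [h2, hj]
        push_cast
        ring
    rw [Finset.sum_congr rfl h1, Finset.sum_add_distrib, sum_cb χ hχ, zero_add,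
      ← Finset.mul_sum]

/-- Folding an even, `d`-periodic function with `p 0 = 0`, `d` odd. -/
lemma sum_even_fold (A : Subalgebra ℤ ℂ) {d : ℕ} (hd : Odd d) (p : ℤ → ℂ) (hp : ∀ n, p n ∈ A)
    (h0 : p 0 = 0) (hneg : ∀ n, p (-n) = p n) (hper : ∀ n, p (n + d) = p n) :
    ∃ x ∈ A, ∑ n ∈ Finset.range d, p n = 2 * x := by
  obtain ⟨r, hr⟩ := hd
  refine ⟨∑ n ∈ Finset.range r, p ((n : ℤ) + 1), A.sum_mem fun n _ => hp _, ?_⟩
  have h1 : d = (r + r) + 1 := by omega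
  have h2 : ∑ n ∈ Finset.range r, p (((r + n : ℕ) : ℤ) + 1) =
      ∑ n ∈ Finset.range r, p ((n : ℤ) + 1) := by
    rw [← Finset.sum_range_reflect]
    apply Finset.sum_congr rfl
    intro n hn
    have hn' := Finset.mem_range.1 hn
    have h3 : (((r + (r - 1 - n) : ℕ) : ℤ) + 1) = -((n : ℤ) + 1) + d := by
      rw [hr]
      have : ((r - 1 - n : ℕ) : ℤ) = (r : ℤ) - 1 - n := by omega
      push_cast [this]
      ring
    rw [h3, hper, hneg]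
  calc ∑ n ∈ Finset.range d, p n = ∑ n ∈ Finset.range ((r + r) + 1), p n := by rw [h1]
    _ = ∑ n ∈ Finset.range (r + r), p ((n + 1 : ℕ) : ℤ) := by
        rw [Finset.sum_range_succ', Nat.cast_zero, h0, add_zero]
    _ = ∑ n ∈ Finset.range r, p ((n + 1 : ℕ) : ℤ) +
        ∑ n ∈ Finset.range r, p ((r + n + 1 : ℕ) : ℤ) := Finset.sum_range_add _ _ _
    _ = _ := by
        push_cast at h2 ⊢
        rw [h2]
        ring

end integrality

end NDS.A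

namespace NDS

open NDS.A

theorem L_swap {q₁ q₂ : ℕ} [NeZero q₁] [NeZero q₂] (χ₁ : DirichletCharacter ℂ q₁)
    (χ₂ : DirichletCharacter ℂ q₂) (h₁ : χ₁.IsPrimitive) (h₂ : χ₂.IsPrimitive)
    (n₁ : χ₁ ≠ 1) (n₂ : χ₂ ≠ 1) (par : χ₁ (-1) * χ₂ (-1) = 1) :
    L χ₁ χ₂ = L χ₂ χ₁ :=
  le_antisymm (L_le_swap χ₁ χ₂ n₁ n₂ par) (L_le_swap χ₂ χ₁ n₂ n₁ (by rw [mul_comm]; exact par))

theorem S_mem_two_O {q₁ q₂ : ℕ} [NeZero q₁] [NeZero q₂] (χ₁ : DirichletCharacter ℂ q₁)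
    (χ₂ : DirichletCharacter ℂ q₂) (h₁ : χ₁.IsPrimitive) (h₂ : χ₂.IsPrimitive)
    (n₁ : χ₁ ≠ 1) (n₂ : χ₂ ≠ 1) (par : χ₁ (-1) * χ₂ (-1) = 1)
    (γ : SL(2, ℤ)) (hγ : γ ∈ CongruenceSubgroup.Gamma1 (q₁ * q₂)) (hc : 1 ≤ γ 1 0) :
    ∃ x ∈ O χ₁ χ₂, S χ₁ χ₂ (γ 0 0) (γ 1 0) = 2 * x := by
  have hA₁ : Set.range χ₁ ⊆ (O χ₁ χ₂ : Set ℂ) :=
    Set.subset_union_left.trans Algebra.subset_adjoin
  have hA₂ : Set.range χ₂ ⊆ (O χ₁ χ₂ : Set ℂ) :=
    Set.subset_union_right.trans Algebra.subset_adjoin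
  obtain ⟨c₀, d, hc₀, hd, hodd, hceq, had, hNd⟩ := exists_good_d γ hγ hc
  have e1 : ((q₁ * q₂ * c₀ : ℕ) : ℤ) = ((q₂ * (q₁ * c₀) : ℕ) : ℤ) := by push_cast; ring
  rw [e1] at hceq had
  rw [hceq, reciprocity χ₁ χ₂ n₁ n₂ hc₀ hd had hNd]
  have hd₁ : (q₁ : ℤ) ∣ (d : ℤ) - 1 :=
    dvd_trans ⟨(q₂ : ℤ), by push_cast; ring⟩ hNd
  have hd₂ : (q₂ : ℤ) ∣ (d : ℤ) - 1 :=
    dvd_trans ⟨(q₁ : ℤ), by push_cast; ring⟩ hNd
  set s : ℤ := ((q₁ * c₀ : ℕ) : ℤ) with hs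
  have hscop : IsCoprime s (d : ℤ) := by
    obtain ⟨t, ht⟩ := had
    refine ⟨-(q₂ * t), γ 0 0, ?_⟩
    push_cast at ht hs ⊢
    rw [hs]
    linear_combination ht
  -- the function `p`
  set p : ℤ → ℂ := fun n => hh χ₁ d n * hh χ₂ d (s * n) with hp
  obtain ⟨X, hX, hXs⟩ := sum_even_fold (O χ₁ χ₂) hodd p
    (fun n => (O χ₁ χ₂).mul_mem (hh_mem χ₁ n₁ _ hA₁ hd hd₁ n) (hh_mem χ₂ n₂ _ hA₂ hd hd₂ _))
    (by simp [hp, hh]) (by
      intro n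
      simp only [hp]
      rw [mul_neg, hh_neg, hh_neg]
      linear_combination (hh χ₁ d n * hh χ₂ d (s * n)) * par) (by
      intro n
      simp only [hp]
      have h1 := hh_periodic χ₁ hd n 1
      have h2 := hh_periodic χ₂ hd (s * n) s
      rw [mul_one] at h1
      rw [h1, mul_add, mul_comm s (d : ℤ), h2])
  set β₁ := ff χ₁ 0 with hβ₁
  set β₂ := ff χ₂ 0 with hβ₂
  have hsum₁ : ∑ n ∈ Finset.range d, hh χ₁ d n = β₁ - d * β₁ := by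
    have h1 := sum_ff χ₁ hd hd₁ (s := 1) isCoprime_one_left
    unfold hh
    rw [Finset.sum_sub_distrib, Finset.sum_const, Finset.card_range, nsmul_eq_mul]
    simp only [one_mul] at h1
    rw [h1]
  have hsum₂ : ∑ n ∈ Finset.range d, hh χ₂ d (s * n) = β₂ - d * β₂ := by
    have h1 := sum_ff χ₂ hd hd₂ hscop
    unfold hh
    rw [Finset.sum_sub_distrib, Finset.sum_const, Finset.card_range, nsmul_eq_mul, h1]
  have hT : T χ₁ χ₂ s d = 2 * X + (2 - d) * (β₁ * β₂) := by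
    have h1 : T χ₁ χ₂ s d = ∑ n ∈ Finset.range d, (p n + β₂ * hh χ₁ d n +
        β₁ * hh χ₂ d (s * n) + β₁ * β₂) := by
      unfold T
      apply Finset.sum_congr rfl
      intro n _
      simp only [hp]
      unfold hh
      have h2 : ((s : ℝ) * n / d) = (((s * (n : ℤ) : ℤ) : ℝ) / d) := by push_cast; ring
      rw [h2, Int.cast_natCast]
      ring
    rw [h1, Finset.sum_add_distrib, Finset.sum_add_distrib, Finset.sum_add_distrib, hXs,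
      ← Finset.mul_sum, ← Finset.mul_sum, hsum₁, hsum₂, Finset.sum_const, Finset.card_range,
      nsmul_eq_mul]
    ring
  have hb₂ : -χ₂ (-1) * β₂ = β₂ := ff_zero χ₂
  -- `(1 - d) β₁ β₂ ∈ 2O`
  obtain ⟨t, ht⟩ := hNd
  have htC : (d : ℂ) - 1 = q₁ * q₂ * t := by
    have := congrArg (fun z : ℤ => (z : ℂ)) ht
    push_cast at this
    exact this
  have hY : ∃ Y ∈ O χ₁ χ₂, (1 - (d : ℂ)) * (β₁ * β₂) = 2 * Y := by
    have hb1 := b_mem χ₁ n₁ _ hA₁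
    have hb2 := b_mem χ₂ n₂ _ hA₂
    have key : (1 - (d : ℂ)) * (β₁ * β₂) = -(t : ℂ) * ((q₁ * β₁) * (q₂ * β₂)) := by
      linear_combination (-(β₁ * β₂)) * htC
    rcases Nat.even_or_odd (q₁ * q₂) with hN | hN
    · rcases Nat.even_mul.1 hN with h3 | h3
      · obtain ⟨x, hx, hxe⟩ := b_even χ₁ n₁ _ hA₁ h3
        refine ⟨-(t : ℂ) * (x * (q₂ * β₂)), ?_, ?_⟩
        · exact (O χ₁ χ₂).mul_mem ((O χ₁ χ₂).neg_mem ((O χ₁ χ₂).intCast_mem t))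
            ((O χ₁ χ₂).mul_mem hx hb2)
        · rw [key, hxe]
          ring
      · obtain ⟨x, hx, hxe⟩ := b_even χ₂ n₂ _ hA₂ h3
        refine ⟨-(t : ℂ) * ((q₁ * β₁) * x), ?_, ?_⟩
        · exact (O χ₁ χ₂).mul_mem ((O χ₁ χ₂).neg_mem ((O χ₁ χ₂).intCast_mem t))
            ((O χ₁ χ₂).mul_mem hb1 hx)
        · rw [key, hxe]
          ring
    · have hte : Even t := by
        have h4 : Even ((d : ℤ) - 1) := by
          have : Odd (d : ℤ) := by exact_mod_cast hodd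
          exact this.sub_odd odd_one
        rw [ht, Int.even_mul] at h4
        rcases h4 with h5 | h5
        · exfalso
          have h6 : Even (q₁ * q₂) := by exact_mod_cast h5
          exact (Nat.not_even_iff_odd.2 hN) h6
        · exact h5
      obtain ⟨u, hu⟩ := hte
      refine ⟨-(u : ℂ) * ((q₁ * β₁) * (q₂ * β₂)), ?_, ?_⟩
      · exact (O χ₁ χ₂).mul_mem ((O χ₁ χ₂).neg_mem ((O χ₁ χ₂).intCast_mem u))
          ((O χ₁ χ₂).mul_mem hb1 hb2)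
      · rw [key, hu]
        push_cast
        ring
  obtain ⟨Y, hY, hYe⟩ := hY
  have hsign : χ₂ (-1) ∈ O χ₁ χ₂ := hA₂ ⟨-1, rfl⟩
  refine ⟨-χ₂ (-1) * X + Y, (O χ₁ χ₂).add_mem ((O χ₁ χ₂).mul_mem ((O χ₁ χ₂).neg_mem hsign) hX) hY,
    ?_⟩
  rw [hT]
  linear_combination hYe + ((2 - (d : ℂ)) * β₁) * hb₂

end NDS
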