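import Pool.Agent.H7.NDS.Defs

/-!
# Module A1: the sawtooth function, distribution relation, three term identity,
sums of periodic functions
-/

open Complex
open scoped MatrixGroups ComplexConjugate Real

namespace NDS.A

/-! ### periodic sums -/

lemma periodic_mod {c : ℕ} (hc : 0 < c) {φ : ℤ → ℂ} (hφ : ∀ x, φ (x + c) = φ x) (x : ℤ) :
    φ (x % c) = φ x := by
  have hP : Function.Periodic φ (c : ℤ) := hφ
  have h1 := hP.int_mul (x / c) (x % c)
  have h2 : x % c + x / c * c = x := by
    rw [mul_comm]
    exact Int.emod_add_mul_ediv x c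
  rw [← h1]
  congr 1

lemma sum_periodic {c : ℕ} (hc : 0 < c) {φ : ℤ → ℂ} (hφ : ∀ x, φ (x + c) = φ x) {d : ℤ}
    (hd : IsCoprime d c) (t : ℤ) :
    ∑ m ∈ Finset.range c, φ (d * m + t) = ∑ m ∈ Finset.range c, φ m := by
  classical
  have : NeZero c := ⟨hc.ne'⟩
  set ψ : ZMod c → ℂ := fun z => φ z.val with hψ
  have h1 : ∀ x : ℤ, φ x = ψ (x : ZMod c) := by
    intro x
    simp only [hψ]
    rw [ZMod.val_intCast, periodic_mod hc hφ]
  have h2 : ∀ χ : ZMod c → ℂ, ∑ m ∈ Finset.range c, χ ((m : ℕ) : ZMod c) = ∑ z : ZMod c, χ z := by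
    intro χ
    apply Finset.sum_nbij' (fun m => ((m : ℕ) : ZMod c)) (fun z => z.val)
    · intro m _
      exact Finset.mem_univ _
    · intro z _
      exact Finset.mem_range.2 (ZMod.val_lt z)
    · intro m hm
      exact ZMod.val_natCast_of_lt (Finset.mem_range.1 hm)
    · intro z _
      exact ZMod.natCast_zmod_val z
    · intro m _
      rfl
  have hdu : IsUnit ((d : ℤ) : ZMod c) := by
    obtain ⟨u, v, huv⟩ := hd
    apply IsUnit.of_mul_eq_one ((u : ℤ) : ZMod c)
    have h3 := congrArg (fun z : ℤ => (z : ZMod c)) huv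
    simp only [Int.cast_add, Int.cast_mul, Int.cast_natCast, ZMod.natCast_self, mul_zero,
      add_zero, Int.cast_one] at h3
    rw [mul_comm]
    exact h3
  obtain ⟨u, hu⟩ := hdu
  calc ∑ m ∈ Finset.range c, φ (d * m + t)
      = ∑ m ∈ Finset.range c, ψ ((u : ZMod c) * ((m : ℕ) : ZMod c) + (t : ZMod c)) := by
        apply Finset.sum_congr rfl
        intro m _
        rw [h1, hu]
        push_cast
        rfl
    _ = ∑ z : ZMod c, ψ ((u : ZMod c) * z + (t : ZMod c)) :=
        h2 (fun z => ψ ((u : ZMod c) * z + (t : ZMod c)))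
    _ = ∑ z : ZMod c, ψ (z + (t : ZMod c)) :=
        Equiv.sum_comp (Units.mulLeft u) (fun z => ψ (z + (t : ZMod c)))
    _ = ∑ z : ZMod c, ψ z := Equiv.sum_comp (Equiv.addRight (t : ZMod c)) ψ
    _ = ∑ m ∈ Finset.range c, ψ ((m : ℕ) : ZMod c) := (h2 ψ).symm
    _ = ∑ m ∈ Finset.range c, φ m := by
        apply Finset.sum_congr rfl
        intro m _
        rw [h1]
        push_cast
        rfl

lemma sum_range_mul_split {A : Type*} [AddCommMonoid A] (q M : ℕ) (φ : ℕ → A) :
    ∑ m ∈ Finset.range (q * M), φ m = ∑ r ∈ Finset.range q, ∑ j ∈ Finset.range M, φ (r + q * j) := by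
  rw [Finset.sum_comm]
  induction M with
  | zero => simp
  | succ M ih =>
    rw [Nat.mul_succ, Finset.sum_range_add, ih, Finset.sum_range_succ]
    congr 1
    apply Finset.sum_congr rfl
    intro r _
    rw [add_comm]

/-! ### the sawtooth -/

lemma B1_add_int (x : ℝ) (n : ℤ) : B1 (x + n) = B1 x := by
  unfold B1
  rw [Int.fract_add_intCast]

lemma B1_neg (x : ℝ) : B1 (-x) = -B1 x := by
  unfold B1
  by_cases h : Int.fract x = 0
  · have h1 : Int.fract (-x) = 0 := Int.fract_neg_eq_zero.2 h
    rw [if_pos h, if_pos h1, neg_zero]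
  · have h1 : Int.fract (-x) ≠ 0 := fun h2 => h (Int.fract_neg_eq_zero.1 h2)
    rw [if_neg h, if_neg h1, Int.fract_neg h]
    ring

/-- `B₂`. -/
noncomputable def B2 (x : ℝ) : ℝ := Int.fract x ^ 2 - Int.fract x + 1 / 6

lemma B2_add_int (x : ℝ) (n : ℤ) : B2 (x + n) = B2 x := by
  unfold B2
  rw [Int.fract_add_intCast]

/-- Off the integers `B₁ x ≡ x - 1/2` modulo `ℤ`. -/
lemma B1_eq_of_fract_ne {x : ℝ} (h : Int.fract x ≠ 0) : B1 x = x - 1 / 2 + ((-⌊x⌋ : ℤ) : ℝ) := by
  unfold B1
  rw [if_neg h, Int.fract]
  push_cast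
  ring

lemma three_term {x y z : ℝ} (hs : x + y + z = 0) (h : ¬ (Int.fract z = 0 ∧ Int.fract x = 0)) :
    B1 x * B1 y + B1 y * B1 z + B1 z * B1 x = -(B2 x + B2 y + B2 z) / 2 := by
  have hx := Int.fract_add_floor x
  have hy := Int.fract_add_floor y
  have hz := Int.fract_add_floor z
  have hx0 := Int.fract_nonneg x
  have hy0 := Int.fract_nonneg y
  have hz0 := Int.fract_nonneg z
  have hx1 := Int.fract_lt_one x
  have hy1 := Int.fract_lt_one y
  have hz1 := Int.fract_lt_one z
  set u := Int.fract x with hu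
  set v := Int.fract y with hv
  set w := Int.fract z with hw
  obtain ⟨k, hk⟩ : ∃ k : ℤ, u + v + w = k := ⟨-(⌊x⌋ + ⌊y⌋ + ⌊z⌋), by push_cast; linarith⟩
  have hk0 : (0 : ℤ) ≤ k := by
    have : (0 : ℝ) ≤ k := by rw [← hk]; positivity
    exact_mod_cast this
  have hk3 : k < 3 := by
    have : (k : ℝ) < 3 := by rw [← hk]; linarith
    exact_mod_cast this
  unfold B1 B2
  rw [← hu, ← hv, ← hw]
  by_cases h1 : u = 0
  · have h2 : w ≠ 0 := fun h3 => h ⟨h3, h1⟩
    have h4 : v ≠ 0 := by
      intro h5
      apply h2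
      rw [h1, h5] at hk
      interval_cases k
      · simpa using hk
      · exfalso
        push_cast at hk
        linarith
      · exfalso
        push_cast at hk
        linarith
    rw [if_pos h1, if_neg h4, if_neg h2, h1]
    have h6 : v + w = 1 := by
      rw [h1] at hk
      have hv' : 0 < v := lt_of_le_of_ne hy0 (Ne.symm h4)
      interval_cases k
      · exfalso
        push_cast at hk
        linarith
      · push_cast at hk
        linarith
      · exfalso
        push_cast at hk
        linarith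
    have h7 : w = 1 - v := by linarith
    rw [h7]
    ring
  · by_cases h4 : v = 0
    · have h2 : w ≠ 0 := by
        intro h5
        apply h1
        rw [h4, h5] at hk
        interval_cases k
        · simpa using hk
        · exfalso
          push_cast at hk
          linarith
        · exfalso
          push_cast at hk
          linarith
      rw [if_pos h4, if_neg h1, if_neg h2, h4]
      have h6 : u + w = 1 := by
        rw [h4] at hk
        have hv' : 0 < u := lt_of_le_of_ne hx0 (Ne.symm h1)
        interval_cases k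
        · exfalso
          push_cast at hk
          linarith
        · push_cast at hk
          linarith
        · exfalso
          push_cast at hk
          linarith
      have h7 : w = 1 - u := by linarith
      rw [h7]
      ring
    · by_cases h2 : w = 0
      · rw [if_pos h2, if_neg h1, if_neg h4, h2]
        have h6 : u + v = 1 := by
          rw [h2] at hk
          have hv' : 0 < u := lt_of_le_of_ne hx0 (Ne.symm h1)
          interval_cases k
          · exfalso
            push_cast at hk
            linarith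
          · push_cast at hk
            linarith
          · exfalso
            push_cast at hk
            linarith
        have h7 : v = 1 - u := by linarith
        rw [h7]
        ring
      · rw [if_neg h1, if_neg h2, if_neg h4]
        have hu' : 0 < u := lt_of_le_of_ne hx0 (Ne.symm h1)
        interval_cases k
        · exfalso
          push_cast at hk
          linarith
        · push_cast at hk
          have h7 : w = 1 - u - v := by linarith
          rw [h7]
          ring
        · push_cast at hk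
          have h7 : w = 2 - u - v := by linarith
          rw [h7]
          ring

/-- Distribution relation. -/
lemma B1_distribution (M : ℕ) (hM : 0 < M) (x : ℝ) :
    ∑ j ∈ Finset.range M, ((B1 (x + j / M) : ℝ) : ℂ) = ((B1 (M * x) : ℝ) : ℂ) := by
  have hM' : (0 : ℝ) < M := by exact_mod_cast hM
  set y : ℝ := Int.fract (M * x) / M with hy
  set i : ℤ := ⌊(M : ℝ) * x⌋ with hi
  have hxy : x = y + i / M := by
    have h1 : Int.fract ((M : ℝ) * x) + i = M * x := Int.fract_add_floor _
    rw [hy, ← add_div, h1]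
    field_simp
  have hy0 : 0 ≤ y := div_nonneg (Int.fract_nonneg _) hM'.le
  have hyM : y * M < 1 := by
    rw [hy, div_mul_cancel₀ _ hM'.ne']
    exact Int.fract_lt_one _
  -- shift
  have hper : ∀ t : ℤ, ((B1 (y + ((t + (M : ℤ) : ℤ) : ℝ) / M) : ℝ) : ℂ) =
      ((B1 (y + (t : ℝ) / M) : ℝ) : ℂ) := by
    intro t
    congr 1
    rw [← B1_add_int (y + (t : ℝ) / M) 1]
    congr 1
    push_cast
    field_simp
    ring
  have hshift := sum_periodic hM (φ := fun t : ℤ => ((B1 (y + (t : ℝ) / M) : ℝ) : ℂ)) hper
    (d := 1) isCoprime_one_left i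
  have h1 : ∑ j ∈ Finset.range M, ((B1 (x + j / M) : ℝ) : ℂ) =
      ∑ j ∈ Finset.range M, ((B1 (y + (((1 : ℤ) * (j : ℤ) + i : ℤ) : ℝ) / M) : ℝ) : ℂ) := by
    apply Finset.sum_congr rfl
    intro j _
    congr 2
    rw [hxy]
    push_cast
    ring
  rw [h1, hshift]
  have h2 : B1 (M * x) = B1 (M * y) := by
    rw [← B1_add_int (M * y) i]
    congr 1
    rw [hxy]
    field_simp
  rw [h2]
  have h3 : ∀ j ∈ Finset.range M, ∀ (hj : 0 < y ∨ 0 < j), B1 (y + (((j : ℕ) : ℤ) : ℝ) / M) =
      y + j / M - 1 / 2 := by
    intro j hj hpos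
    have hj' : (j : ℝ) + 1 ≤ M := by
      have := Finset.mem_range.1 hj
      exact_mod_cast this
    have h4 : 0 < y + (j : ℝ) / M := by
      rcases hpos with h5 | h5
      · positivity
      · have : (0 : ℝ) < j := by exact_mod_cast h5
        positivity
    have h5 : y + (j : ℝ) / M < 1 := by
      rw [← sub_pos]
      have : 0 < (M - y * M - j) / M := by
        apply div_pos _ hM'
        linarith
      have h6 : (M - y * M - j) / M = 1 - (y + (j : ℝ) / M) := by
        field_simp
        ring
      rwa [h6] at this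
    have h6 : Int.fract (y + (j : ℝ) / M) = y + (j : ℝ) / M :=
      Int.fract_eq_self.2 ⟨h4.le, h5⟩
    unfold B1
    rw [Int.cast_natCast, h6, if_neg h4.ne']
  have hgauss : ∑ j ∈ Finset.range M, (j : ℂ) = M * (M - 1) / 2 := by
    have := Finset.sum_range_id_mul_two M
    have h5 : (((∑ j ∈ Finset.range M, j) * 2 : ℕ) : ℂ) = ((M * (M - 1) : ℕ) : ℂ) := by
      rw [this]
    push_cast [Nat.cast_sub hM] at h5
    rw [← h5]
    ring
  have hMC : (M : ℂ) ≠ 0 := by exact_mod_cast hM.ne'
  rcases hy0.eq_or_lt with h0 | h0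
  · -- y = 0
    rw [← h0, mul_zero]
    have h4 : B1 0 = 0 := by simp [B1]
    rw [h4]
    have h5 : ∀ j ∈ Finset.range M, ((B1 (0 + (((j : ℕ) : ℤ) : ℝ) / M) : ℝ) : ℂ) =
        ((j : ℂ) / M - 1 / 2) + (if j = 0 then (1 / 2 : ℂ) else 0) := by
      intro j hj
      rcases Nat.eq_zero_or_pos j with rfl | hjp
      · simp [h4]
      · have h6 := h3 j hj (Or.inr hjp)
        rw [← h0] at h6
        rw [h6, if_neg hjp.ne']
        push_cast
        ring
    rw [Finset.sum_congr rfl h5, Finset.sum_add_distrib, Finset.sum_sub_distrib,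
      ← Finset.sum_div, hgauss, Finset.sum_ite_eq', if_pos (Finset.mem_range.2 hM)]
    rw [Finset.sum_const, Finset.card_range, nsmul_eq_mul]
    push_cast
    field_simp
    ring
  · have h5 : ∀ j ∈ Finset.range M, ((B1 (y + (((j : ℕ) : ℤ) : ℝ) / M) : ℝ) : ℂ) =
        ((j : ℂ) / M + (y - 1 / 2)) := by
      intro j hj
      rw [h3 j hj (Or.inl h0)]
      push_cast
      ring
    rw [Finset.sum_congr rfl h5, Finset.sum_add_distrib, ← Finset.sum_div, hgauss,
      Finset.sum_const, Finset.card_range, nsmul_eq_mul]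
    have h6 : B1 (M * y) = M * y - 1 / 2 := by
      have h7 : Int.fract ((M : ℝ) * y) = M * y :=
        Int.fract_eq_self.2 ⟨by positivity, by linarith⟩
      unfold B1
      rw [h7, if_neg (by positivity)]
    rw [h6]
    push_cast
    field_simp
    ring

end NDS.A
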