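import Pool.Agent.H7.NDS.ModA1

/-!
# Module A2: the reciprocity law
-/

open Complex
open scoped MatrixGroups ComplexConjugate Real

namespace NDS.A

/-- `conj χ` at an integer. -/
noncomputable def cb {q : ℕ} (χ : DirichletCharacter ℂ q) (k : ℤ) : ℂ := conj (χ (k : ZMod q))

/-- `f_χ(x) = ∑_k conj χ(k) B₁(x + k/q)`. -/
noncomputable def ff {q : ℕ} (χ : DirichletCharacter ℂ q) (x : ℝ) : ℂ :=
  ∑ k ∈ Finset.range q, cb χ k * ((B1 (x + k / q) : ℝ) : ℂ)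

/-- `T(s, d) = ∑_{n<d} f₁(n/d) f₂(sn/d)`. -/
noncomputable def T {q₁ q₂ : ℕ} (χ₁ : DirichletCharacter ℂ q₁) (χ₂ : DirichletCharacter ℂ q₂)
    (s : ℤ) (d : ℕ) : ℂ :=
  ∑ n ∈ Finset.range d, ff χ₁ ((n : ℝ) / d) * ff χ₂ ((s : ℝ) * n / d)

section single

variable {q : ℕ} (χ : DirichletCharacter ℂ q)

lemma cb_add_mul (k t : ℤ) : cb χ (k + q * t) = cb χ k := by
  unfold cb
  congr 2
  push_cast
  simp

lemma cb_mul (k l : ℤ) : cb χ (k * l) = cb χ k * cb χ l := by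
  unfold cb
  rw [Int.cast_mul, map_mul, map_mul]

lemma cb_one : cb χ 1 = 1 := by
  unfold cb
  simp

lemma cb_eq_of_dvd {k l : ℤ} (h : (q : ℤ) ∣ k - l) : cb χ k = cb χ l := by
  obtain ⟨t, ht⟩ := h
  have h1 : k = l + q * t := by linarith
  rw [h1, cb_add_mul]

lemma cb_zero (hq : q ≠ 1) : cb χ 0 = 0 := by
  unfold cb
  have : Nontrivial (ZMod q) := ZMod.nontrivial_iff.2 hq
  rw [Int.cast_zero, MulChar.map_nonunit χ (by exact not_isUnit_zero), map_zero]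

lemma sign_cases [NeZero q] : χ (-1) = 1 ∨ χ (-1) = -1 := χ.even_or_odd

lemma cb_neg_one [NeZero q] : cb χ (-1) = χ (-1) := by
  unfold cb
  rw [Int.cast_neg, Int.cast_one]
  rcases sign_cases χ with h | h <;> rw [h] <;> simp

lemma cb_neg [NeZero q] (k : ℤ) : cb χ (-k) = χ (-1) * cb χ k := by
  rw [← cb_neg_one, ← cb_mul]
  congr 1
  ring

lemma sum_cb [NeZero q] (hχ : χ ≠ 1) : ∑ k ∈ Finset.range q, cb χ k = 0 := by
  have h1 : ∑ z : ZMod q, χ z = 0 := MulChar.sum_eq_zero_of_ne_one hχ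
  have h2 : ∑ k ∈ Finset.range q, χ ((k : ℕ) : ZMod q) = ∑ z : ZMod q, χ z := by
    apply Finset.sum_nbij' (fun m => ((m : ℕ) : ZMod q)) (fun z => z.val)
    · intro m _
      exact Finset.mem_univ _
    · intro z _
      exact Finset.mem_range.2 (ZMod.val_lt z)
    · intro m hm
      exact ZMod.val_natCast_of_lt (Finset.mem_range.1 hm)
    · intro z _
      exact ZMod.natCast_zmod_val z
    · intro m _
      rfl
  unfold cb
  rw [← map_sum]
  simp only [Int.cast_natCast]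
  rw [h2, h1, map_zero]

lemma sum_cb_mul [NeZero q] (hχ : χ ≠ 1) (M : ℕ) : ∑ m ∈ Finset.range (q * M), cb χ m = 0 := by
  rw [sum_range_mul_split]
  have h1 : ∀ r ∈ Finset.range q, ∑ j ∈ Finset.range M, cb χ ((r + q * j : ℕ) : ℤ) =
      M * cb χ r := by
    intro r _
    have h2 : ∀ j ∈ Finset.range M, cb χ ((r + q * j : ℕ) : ℤ) = cb χ r := by
      intro j _
      push_cast
      exact cb_add_mul χ r j
    rw [Finset.sum_congr rfl h2, Finset.sum_const, Finset.card_range, nsmul_eq_mul]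
  rw [Finset.sum_congr rfl h1, ← Finset.mul_sum, sum_cb χ hχ, mul_zero]

lemma ff_add_int (x : ℝ) (n : ℤ) : ff χ (x + n) = ff χ x := by
  unfold ff
  apply Finset.sum_congr rfl
  intro k _
  have h1 : x + n + (k : ℝ) / q = x + k / q + n := by ring
  rw [h1, B1_add_int]

lemma ff_neg [NeZero q] (x : ℝ) : ff χ (-x) = -χ (-1) * ff χ x := by
  have hq : 0 < q := Nat.pos_of_ne_zero (NeZero.ne q)
  have hqR : (q : ℝ) ≠ 0 := by exact_mod_cast hq.ne'
  unfold ff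
  have h1 : ∀ t : ℤ, cb χ (t + q) * ((B1 (-x + ((t + (q : ℤ) : ℤ) : ℝ) / q) : ℝ) : ℂ) =
      cb χ t * ((B1 (-x + (t : ℝ) / q) : ℝ) : ℂ) := by
    intro t
    have h2 : cb χ (t + q) = cb χ t := by simpa using cb_add_mul χ t 1
    have h3 : -x + ((t + (q : ℤ) : ℤ) : ℝ) / q = -x + (t : ℝ) / q + ((1 : ℤ) : ℝ) := by
      push_cast
      field_simp
      ring
    rw [h2, h3, B1_add_int]
  have h2 := sum_periodic hq (φ := fun t : ℤ => cb χ t * ((B1 (-x + (t : ℝ) / q) : ℝ) : ℂ)) h1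
    (d := -1) (isCoprime_one_left.neg_left) 0
  rw [Finset.mul_sum]
  calc ∑ k ∈ Finset.range q, cb χ k * ((B1 (-x + k / q) : ℝ) : ℂ)
      = ∑ m ∈ Finset.range q, cb χ ((m : ℕ) : ℤ) *
          ((B1 (-x + (((m : ℕ) : ℤ) : ℝ) / q) : ℝ) : ℂ) := by
        apply Finset.sum_congr rfl
        intro k _
        rw [Int.cast_natCast]
    _ = _ := h2.symm
    _ = _ := by
        apply Finset.sum_congr rfl
        intro k _
        have h3 : (-1 : ℤ) * (k : ℤ) + 0 = -(k : ℤ) := by ring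
        rw [h3, cb_neg]
        have h4 : -x + ((-(k : ℤ) : ℤ) : ℝ) / q = -(x + k / q) := by
          push_cast
          ring
        rw [h4, B1_neg]
        push_cast
        ring

/-- folding a sum over `m < qM`. -/
lemma fold [NeZero q] {M : ℕ} (hM : 0 < M) (x : ℝ) :
    ∑ m ∈ Finset.range (q * M), cb χ m * ((B1 (x + m / (q * M : ℕ)) : ℝ) : ℂ) =
      ff χ (M * x) := by
  have hq : (q : ℝ) ≠ 0 := by exact_mod_cast NeZero.ne q
  have hM' : (M : ℝ) ≠ 0 := by exact_mod_cast hM.ne'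
  rw [sum_range_mul_split]
  unfold ff
  apply Finset.sum_congr rfl
  intro r _
  have h1 : ∀ j ∈ Finset.range M, cb χ ((r + q * j : ℕ) : ℤ) *
      ((B1 (x + ((r + q * j : ℕ) : ℝ) / (q * M : ℕ)) : ℝ) : ℂ) =
      cb χ r * ((B1 ((x + r / (q * M)) + j / M) : ℝ) : ℂ) := by
    intro j _
    have h2 : cb χ ((r + q * j : ℕ) : ℤ) = cb χ r := by
      push_cast
      exact cb_add_mul χ r j
    have h3 : x + ((r + q * j : ℕ) : ℝ) / (q * M : ℕ) = (x + r / (q * M)) + j / M := by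
      push_cast
      field_simp
      ring
    rw [h2, h3]
  rw [Finset.sum_congr rfl h1, ← Finset.mul_sum, B1_distribution M hM]
  congr 3
  field_simp

end single

section recip

variable {q₁ q₂ : ℕ} [NeZero q₁] [NeZero q₂] (χ₁ : DirichletCharacter ℂ q₁)
  (χ₂ : DirichletCharacter ℂ q₂)

/-- The reciprocity law. -/
theorem reciprocity (n₁ : χ₁ ≠ 1) (n₂ : χ₂ ≠ 1) {a : ℤ} {c₀ d : ℕ} (hc₀ : 0 < c₀) (hd : 0 < d)
    (had : ((q₂ * (q₁ * c₀) : ℕ) : ℤ) ∣ a * d - 1) (hd1 : ((q₁ * q₂ : ℕ) : ℤ) ∣ (d : ℤ) - 1) :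
    S χ₁ χ₂ a ((q₂ * (q₁ * c₀) : ℕ) : ℤ) =
      -χ₂ (-1) * T χ₁ χ₂ ((q₁ * c₀ : ℕ) : ℤ) d - ff χ₁ 0 * ff χ₂ 0 := by
  have hq₁ : 0 < q₁ := Nat.pos_of_ne_zero (NeZero.ne q₁)
  have hq₂ : 0 < q₂ := Nat.pos_of_ne_zero (NeZero.ne q₂)
  have hq₂1 : q₂ ≠ 1 := fun h => n₂ (DirichletCharacter.level_one' χ₂ h)
  set M : ℕ := q₁ * c₀ with hMdef
  have hM : 0 < M := Nat.mul_pos hq₁ hc₀
  set c : ℕ := q₂ * M with hcdef
  have hc : 0 < c := Nat.mul_pos hq₂ hM
  have hcR : (c : ℝ) ≠ 0 := by exact_mod_cast hc.ne'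
  have hdR : (d : ℝ) ≠ 0 := by exact_mod_cast hd.ne'
  have hq₁R : (q₁ : ℝ) ≠ 0 := by exact_mod_cast hq₁.ne'
  have hq₂R : (q₂ : ℝ) ≠ 0 := by exact_mod_cast hq₂.ne'
  have hc₀R : (c₀ : ℝ) ≠ 0 := by exact_mod_cast hc₀.ne'
  have hcop : IsCoprime (d : ℤ) (c : ℤ) := by
    obtain ⟨t, ht⟩ := had
    exact ⟨a, -t, by linarith⟩
  have hd1q₁ : (q₁ : ℤ) ∣ (d : ℤ) - 1 := by
    refine dvd_trans ?_ hd1
    push_cast
    exact dvd_mul_right _ _
  have hd1q₂ : (q₂ : ℤ) ∣ (d : ℤ) - 1 := by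
    refine dvd_trans ?_ hd1
    push_cast
    exact dvd_mul_left _ _
  -- step 1
  have hS : S χ₁ χ₂ a (c : ℤ) = ∑ k ∈ Finset.range q₁, ∑ m ∈ Finset.range c,
      cb χ₁ k * cb χ₂ m * ((B1 ((m : ℝ) / c + k / q₁) : ℝ) : ℂ) *
        ((B1 (d * ((m : ℝ) / c)) : ℝ) : ℂ) := by
    unfold S
    rw [Int.toNat_natCast]
    apply Finset.sum_congr rfl
    intro k _
    have h1 : ∀ t : ℤ, cb χ₁ k * cb χ₂ (t + c) *
        ((B1 ((a : ℝ) * ((t + (c : ℤ) : ℤ) : ℝ) / c + k / q₁) : ℝ) : ℂ) *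
        ((B1 (((t + (c : ℤ) : ℤ) : ℝ) / c) : ℝ) : ℂ) =
        cb χ₁ k * cb χ₂ t * ((B1 ((a : ℝ) * (t : ℝ) / c + k / q₁) : ℝ) : ℂ) *
        ((B1 ((t : ℝ) / c) : ℝ) : ℂ) := by
      intro t
      have h2 : cb χ₂ (t + c) = cb χ₂ t := by
        have := cb_add_mul χ₂ t M
        rw [hcdef]
        push_cast
        exact this
      have h3 : (a : ℝ) * ((t + (c : ℤ) : ℤ) : ℝ) / c + k / q₁ =
          ((a : ℝ) * (t : ℝ) / c + k / q₁) + (a : ℤ) := by
        push_cast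
        field_simp
        ring
      have h4 : ((t + (c : ℤ) : ℤ) : ℝ) / c = (t : ℝ) / c + ((1 : ℤ) : ℝ) := by
        push_cast
        field_simp
      rw [h2, h3, h4, B1_add_int, B1_add_int]
    have h2 := sum_periodic hc (φ := fun t : ℤ => cb χ₁ k * cb χ₂ t *
        ((B1 ((a : ℝ) * (t : ℝ) / c + k / q₁) : ℝ) : ℂ) * ((B1 ((t : ℝ) / c) : ℝ) : ℂ)) h1 hcop 0
    have h3 : ∑ m ∈ Finset.range c, conj (χ₁ (k : ZMod q₁)) * conj (χ₂ (m : ZMod q₂)) *
        ((B1 ((a : ℝ) * m / (c : ℤ) + k / q₁) : ℝ) : ℂ) * ((B1 ((m : ℝ) / (c : ℤ)) : ℝ) : ℂ) =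
        ∑ m ∈ Finset.range c, cb χ₁ k * cb χ₂ ((m : ℕ) : ℤ) *
        ((B1 ((a : ℝ) * (((m : ℕ) : ℤ) : ℝ) / c + k / q₁) : ℝ) : ℂ) *
        ((B1 ((((m : ℕ) : ℤ) : ℝ) / c) : ℝ) : ℂ) := by
      apply Finset.sum_congr rfl
      intro m _
      unfold cb
      simp only [Int.cast_natCast]
    rw [h3, ← h2]
    apply Finset.sum_congr rfl
    intro m _
    have h4 : cb χ₂ ((d : ℤ) * (m : ℤ) + 0) = cb χ₂ m := by
      apply cb_eq_of_dvd
      have : (d : ℤ) * (m : ℤ) + 0 - m = ((d : ℤ) - 1) * m := by ring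
      rw [this]
      exact Dvd.dvd.mul_right hd1q₂ _
    have h5 : ((B1 ((a : ℝ) * (((d : ℤ) * (m : ℤ) + 0 : ℤ) : ℝ) / c + k / q₁) : ℝ) : ℂ) =
        ((B1 ((m : ℝ) / c + k / q₁) : ℝ) : ℂ) := by
      obtain ⟨t, ht⟩ := had
      have h6 : (a : ℝ) * d - 1 = c * t := by exact_mod_cast ht
      rw [← B1_add_int ((m : ℝ) / c + k / q₁) (t * m)]
      congr 2
      have h7 : (a : ℝ) * d = c * t + 1 := by linarith
      push_cast
      rw [add_zero, ← mul_assoc, h7]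
      field_simp
      ring
    have h6 : ((((d : ℤ) * (m : ℤ) + 0 : ℤ) : ℝ) / c) = d * ((m : ℝ) / c) := by
      push_cast
      ring
    rw [h4, h5, h6]
  -- the three variables
  have hident : ∀ k ∈ Finset.range q₁, ∀ m ∈ Finset.range c, ∀ n ∈ Finset.range d,
      cb χ₁ k * cb χ₂ m * (((B1 ((m : ℝ) / c + k / q₁) : ℝ) : ℂ) *
        ((B1 (-((n : ℝ) / d + k / q₁)) : ℝ) : ℂ) +
        ((B1 (-((n : ℝ) / d + k / q₁)) : ℝ) : ℂ) * ((B1 ((n : ℝ) / d - m / c) : ℝ) : ℂ) +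
        ((B1 ((n : ℝ) / d - m / c) : ℝ) : ℂ) * ((B1 ((m : ℝ) / c + k / q₁) : ℝ) : ℂ)) =
      cb χ₁ k * cb χ₂ m * (-(((B2 ((m : ℝ) / c + k / q₁) : ℝ) : ℂ) +
        ((B2 (-((n : ℝ) / d + k / q₁)) : ℝ) : ℂ) + ((B2 ((n : ℝ) / d - m / c) : ℝ) : ℂ)) / 2) := by
    intro k _ m hm n _
    by_cases hm0 : m = 0
    · rw [hm0, Nat.cast_zero, cb_zero χ₂ hq₂1]
      ring
    · congr 1
      have h1 : ¬ (Int.fract ((n : ℝ) / d - m / c) = 0 ∧ Int.fract ((m : ℝ) / c + k / q₁) = 0) := by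
        rintro ⟨h2, -⟩
        rw [Int.fract_eq_zero_iff] at h2
        obtain ⟨t, ht⟩ := h2
        have h3 : (c : ℝ) * n - d * m = c * d * t := by
          rw [ht]
          field_simp
        have h4 : (c : ℤ) * n - d * m = c * d * t := by exact_mod_cast h3
        have h5 : (c : ℤ) ∣ d * m := ⟨n - d * t, by linarith⟩
        have h6 : (c : ℤ) ∣ m := hcop.symm.dvd_of_dvd_mul_left h5
        have h7 : c ∣ m := by exact_mod_cast h6
        have h8 := Nat.le_of_dvd (Nat.pos_of_ne_zero hm0) h7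
        have h9 := Finset.mem_range.1 hm
        omega
      have h2 := three_term (x := (m : ℝ) / c + k / q₁) (y := -((n : ℝ) / d + k / q₁))
        (z := (n : ℝ) / d - m / c) (by ring) h1
      have h3 := congrArg (fun r : ℝ => (r : ℂ)) h2
      push_cast at h3 ⊢
      exact h3
  -- sum the identity
  have hsum : (∑ k ∈ Finset.range q₁, ∑ m ∈ Finset.range c, ∑ n ∈ Finset.range d,
      cb χ₁ k * cb χ₂ m * (((B1 ((m : ℝ) / c + k / q₁) : ℝ) : ℂ) *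
        ((B1 (-((n : ℝ) / d + k / q₁)) : ℝ) : ℂ))) +
      (∑ k ∈ Finset.range q₁, ∑ m ∈ Finset.range c, ∑ n ∈ Finset.range d,
      cb χ₁ k * cb χ₂ m * (((B1 (-((n : ℝ) / d + k / q₁)) : ℝ) : ℂ) *
        ((B1 ((n : ℝ) / d - m / c) : ℝ) : ℂ))) +
      (∑ k ∈ Finset.range q₁, ∑ m ∈ Finset.range c, ∑ n ∈ Finset.range d,
      cb χ₁ k * cb χ₂ m * (((B1 ((n : ℝ) / d - m / c) : ℝ) : ℂ) *
        ((B1 ((m : ℝ) / c + k / q₁) : ℝ) : ℂ))) =
      -((∑ k ∈ Finset.range q₁, ∑ m ∈ Finset.range c, ∑ n ∈ Finset.range d,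
      cb χ₁ k * cb χ₂ m * ((B2 ((m : ℝ) / c + k / q₁) : ℝ) : ℂ)) +
      (∑ k ∈ Finset.range q₁, ∑ m ∈ Finset.range c, ∑ n ∈ Finset.range d,
      cb χ₁ k * cb χ₂ m * ((B2 (-((n : ℝ) / d + k / q₁)) : ℝ) : ℂ)) +
      (∑ k ∈ Finset.range q₁, ∑ m ∈ Finset.range c, ∑ n ∈ Finset.range d,
      cb χ₁ k * cb χ₂ m * ((B2 ((n : ℝ) / d - m / c) : ℝ) : ℂ))) / 2 := by
    simp only [← Finset.sum_add_distrib, neg_div, Finset.sum_div, ← Finset.sum_neg_distrib]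
    apply Finset.sum_congr rfl
    intro k hk
    apply Finset.sum_congr rfl
    intro m hm
    apply Finset.sum_congr rfl
    intro n hn
    have := hident k hk m hm n hn
    linear_combination this
  -- the `B₂` sums vanish
  have hcbsum₁ := sum_cb χ₁ n₁
  have hcbsum₂ : ∑ m ∈ Finset.range c, cb χ₂ m = 0 := sum_cb_mul χ₂ n₂ M
  have hQx : (∑ k ∈ Finset.range q₁, ∑ m ∈ Finset.range c, ∑ n ∈ Finset.range d,
      cb χ₁ k * cb χ₂ m * ((B2 ((m : ℝ) / c + k / q₁) : ℝ) : ℂ)) = 0 := by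
    have h1 : ∀ k ∈ Finset.range q₁, ∑ m ∈ Finset.range c, ∑ n ∈ Finset.range d,
        cb χ₁ k * cb χ₂ m * ((B2 ((m : ℝ) / c + k / q₁) : ℝ) : ℂ) =
        cb χ₁ k * (d * ∑ m ∈ Finset.range c, cb χ₂ m * ((B2 ((((m : ℕ) : ℤ) : ℝ) / c) : ℝ) : ℂ)) := by
      intro k _
      have h2 : ∀ t : ℤ, cb χ₂ (t + c) * ((B2 (((t + (c : ℤ) : ℤ) : ℝ) / c) : ℝ) : ℂ) =
          cb χ₂ t * ((B2 ((t : ℝ) / c) : ℝ) : ℂ) := by
        intro t
        have h2 : cb χ₂ (t + c) = cb χ₂ t := by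
          have := cb_add_mul χ₂ t M
          rw [hcdef]
          push_cast
          exact this
        have h4 : ((t + (c : ℤ) : ℤ) : ℝ) / c = (t : ℝ) / c + ((1 : ℤ) : ℝ) := by
          push_cast
          field_simp
        rw [h2, h4, B2_add_int]
      have h3 := sum_periodic hc (φ := fun t : ℤ => cb χ₂ t * ((B2 ((t : ℝ) / c) : ℝ) : ℂ)) h2
        (d := 1) isCoprime_one_left ((q₂ * c₀ * k : ℕ) : ℤ)
      rw [← h3, Finset.mul_sum, Finset.mul_sum]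
      apply Finset.sum_congr rfl
      intro m _
      rw [Finset.sum_const, Finset.card_range, nsmul_eq_mul]
      have h4 : cb χ₂ ((1 : ℤ) * (m : ℤ) + ((q₂ * c₀ * k : ℕ) : ℤ)) = cb χ₂ m := by
        apply cb_eq_of_dvd
        refine ⟨c₀ * k, ?_⟩
        push_cast
        ring
      have h5 : (((1 : ℤ) * (m : ℤ) + ((q₂ * c₀ * k : ℕ) : ℤ) : ℤ) : ℝ) / c =
          (m : ℝ) / c + k / q₁ := by
        rw [hcdef, hMdef]
        push_cast
        field_simp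
      rw [h4, h5]
      ring
    rw [Finset.sum_congr rfl h1, ← Finset.sum_mul, hcbsum₁, zero_mul]
  have hQy : (∑ k ∈ Finset.range q₁, ∑ m ∈ Finset.range c, ∑ n ∈ Finset.range d,
      cb χ₁ k * cb χ₂ m * ((B2 (-((n : ℝ) / d + k / q₁)) : ℝ) : ℂ)) = 0 := by
    apply Finset.sum_eq_zero
    intro k _
    rw [Finset.sum_comm]
    apply Finset.sum_eq_zero
    intro n _
    rw [← Finset.sum_mul, ← Finset.mul_sum, hcbsum₂, mul_zero, zero_mul]
  have hQz : (∑ k ∈ Finset.range q₁, ∑ m ∈ Finset.range c, ∑ n ∈ Finset.range d,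
      cb χ₁ k * cb χ₂ m * ((B2 ((n : ℝ) / d - m / c) : ℝ) : ℂ)) = 0 := by
    rw [Finset.sum_comm]
    apply Finset.sum_eq_zero
    intro m _
    rw [Finset.sum_comm]
    apply Finset.sum_eq_zero
    intro n _
    rw [← Finset.sum_mul, ← Finset.sum_mul, hcbsum₁, zero_mul, zero_mul]
  -- XZ
  have hzx : (∑ k ∈ Finset.range q₁, ∑ m ∈ Finset.range c, ∑ n ∈ Finset.range d,
      cb χ₁ k * cb χ₂ m * (((B1 ((n : ℝ) / d - m / c) : ℝ) : ℂ) *
        ((B1 ((m : ℝ) / c + k / q₁) : ℝ) : ℂ))) = -S χ₁ χ₂ a (c : ℤ) := by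
    rw [hS, ← Finset.sum_neg_distrib]
    apply Finset.sum_congr rfl
    intro k _
    rw [← Finset.sum_neg_distrib]
    apply Finset.sum_congr rfl
    intro m _
    have h1 : ∑ n ∈ Finset.range d, ((B1 ((n : ℝ) / d - m / c) : ℝ) : ℂ) =
        -((B1 (d * ((m : ℝ) / c)) : ℝ) : ℂ) := by
      have h2 := B1_distribution d hd (-((m : ℝ) / c))
      rw [mul_neg, B1_neg] at h2
      push_cast at h2
      rw [← h2]
      apply Finset.sum_congr rfl
      intro n _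
      congr 2
      ring
    rw [← Finset.mul_sum, ← Finset.sum_mul, h1]
    ring
  -- YZ
  have hyz : (∑ k ∈ Finset.range q₁, ∑ m ∈ Finset.range c, ∑ n ∈ Finset.range d,
      cb χ₁ k * cb χ₂ m * (((B1 (-((n : ℝ) / d + k / q₁)) : ℝ) : ℂ) *
        ((B1 ((n : ℝ) / d - m / c) : ℝ) : ℂ))) = -χ₂ (-1) * T χ₁ χ₂ (M : ℤ) d := by
    have h1 : ∀ n ∈ Finset.range d, ∑ k ∈ Finset.range q₁, ∑ m ∈ Finset.range c,
        cb χ₁ k * cb χ₂ m * (((B1 (-((n : ℝ) / d + k / q₁)) : ℝ) : ℂ) *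
        ((B1 ((n : ℝ) / d - m / c) : ℝ) : ℂ)) =
        -χ₂ (-1) * (ff χ₁ ((n : ℝ) / d) * ff χ₂ (((M : ℤ) : ℝ) * n / d)) := by
      intro n _
      have h2 : ∑ m ∈ Finset.range c, cb χ₂ m * ((B1 ((n : ℝ) / d - m / c) : ℝ) : ℂ) =
          χ₂ (-1) * ff χ₂ (((M : ℤ) : ℝ) * n / d) := by
        have h3 := fold χ₂ hM (-((n : ℝ) / d))
        have h4 : (M : ℝ) * (-((n : ℝ) / d)) = -(((M : ℤ) : ℝ) * n / d) := by
          rw [Int.cast_natCast]
          ring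
        rw [h4, ff_neg] at h3
        have h5 : ∑ m ∈ Finset.range c, cb χ₂ m * ((B1 ((n : ℝ) / d - m / c) : ℝ) : ℂ) =
            -∑ m ∈ Finset.range (q₂ * M), cb χ₂ m *
              ((B1 (-((n : ℝ) / d) + m / (q₂ * M : ℕ)) : ℝ) : ℂ) := by
          rw [← Finset.sum_neg_distrib]
          apply Finset.sum_congr rfl
          intro m _
          have h6 : (n : ℝ) / d - m / c = -(-((n : ℝ) / d) + m / (q₂ * M : ℕ)) := by
            rw [hcdef]
            ring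
          rw [h6, B1_neg]
          push_cast
          ring
        rw [h5, h3]
        ring
      have h3 : ∑ k ∈ Finset.range q₁, cb χ₁ k * ((B1 (-((n : ℝ) / d + k / q₁)) : ℝ) : ℂ) =
          -ff χ₁ ((n : ℝ) / d) := by
        unfold ff
        rw [← Finset.sum_neg_distrib]
        apply Finset.sum_congr rfl
        intro k _
        rw [B1_neg]
        push_cast
        ring
      have h4 : ∑ k ∈ Finset.range q₁, ∑ m ∈ Finset.range c,
          cb χ₁ k * cb χ₂ m * (((B1 (-((n : ℝ) / d + k / q₁)) : ℝ) : ℂ) *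
          ((B1 ((n : ℝ) / d - m / c) : ℝ) : ℂ)) =
          (∑ k ∈ Finset.range q₁, cb χ₁ k * ((B1 (-((n : ℝ) / d + k / q₁)) : ℝ) : ℂ)) *
          (∑ m ∈ Finset.range c, cb χ₂ m * ((B1 ((n : ℝ) / d - m / c) : ℝ) : ℂ)) := by
        rw [Finset.sum_mul_sum]
        apply Finset.sum_congr rfl
        intro k _
        apply Finset.sum_congr rfl
        intro m _
        ring
      rw [h4, h3, h2]
      ring
    have h2 : (∑ k ∈ Finset.range q₁, ∑ m ∈ Finset.range c, ∑ n ∈ Finset.range d,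
        cb χ₁ k * cb χ₂ m * (((B1 (-((n : ℝ) / d + k / q₁)) : ℝ) : ℂ) *
        ((B1 ((n : ℝ) / d - m / c) : ℝ) : ℂ))) =
        ∑ n ∈ Finset.range d, ∑ k ∈ Finset.range q₁, ∑ m ∈ Finset.range c,
        cb χ₁ k * cb χ₂ m * (((B1 (-((n : ℝ) / d + k / q₁)) : ℝ) : ℂ) *
        ((B1 ((n : ℝ) / d - m / c) : ℝ) : ℂ)) := by
      rw [Finset.sum_comm' (s := Finset.range d) (t := fun _ => Finset.range q₁)
        (t' := Finset.range q₁) (s' := fun _ => Finset.range d) (by intros; tauto)]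
      apply Finset.sum_congr rfl
      intro k _
      exact Finset.sum_comm
    rw [h2, Finset.sum_congr rfl h1, ← Finset.mul_sum]
    rfl
  -- XY
  have hxy : (∑ k ∈ Finset.range q₁, ∑ m ∈ Finset.range c, ∑ n ∈ Finset.range d,
      cb χ₁ k * cb χ₂ m * (((B1 ((m : ℝ) / c + k / q₁) : ℝ) : ℂ) *
        ((B1 (-((n : ℝ) / d + k / q₁)) : ℝ) : ℂ))) = -(ff χ₁ 0 * ff χ₂ 0) := by
    have h1 : ∀ k ∈ Finset.range q₁, ∑ m ∈ Finset.range c, ∑ n ∈ Finset.range d,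
        cb χ₁ k * cb χ₂ m * (((B1 ((m : ℝ) / c + k / q₁) : ℝ) : ℂ) *
        ((B1 (-((n : ℝ) / d + k / q₁)) : ℝ) : ℂ)) =
        -(cb χ₁ k * ((B1 (0 + k / q₁) : ℝ) : ℂ)) * ff χ₂ 0 := by
      intro k _
      have h2 : ∑ n ∈ Finset.range d, ((B1 (-((n : ℝ) / d + k / q₁)) : ℝ) : ℂ) =
          -((B1 (0 + k / q₁) : ℝ) : ℂ) := by
        have h3 := B1_distribution d hd ((k : ℝ) / q₁)
        obtain ⟨t, ht⟩ := hd1q₁
        have ht' : (d : ℝ) = q₁ * t + 1 := by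
          have : ((d : ℤ) : ℝ) - 1 = q₁ * t := by exact_mod_cast ht
          rw [Int.cast_natCast] at this
          linarith
        have h4 : (d : ℝ) * ((k : ℝ) / q₁) = (0 + k / q₁) + ((t * k : ℤ) : ℝ) := by
          rw [ht']
          push_cast
          field_simp
          ring
        rw [h4, B1_add_int] at h3
        rw [← h3, ← Finset.sum_neg_distrib]
        apply Finset.sum_congr rfl
        intro n _
        rw [B1_neg, add_comm]
        push_cast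
        ring
      have h3 : ∑ m ∈ Finset.range c, cb χ₂ m * ((B1 ((m : ℝ) / c + k / q₁) : ℝ) : ℂ) =
          ff χ₂ 0 := by
        have h4 := fold χ₂ hM ((k : ℝ) / q₁)
        have h5 : (M : ℝ) * ((k : ℝ) / q₁) = 0 + ((c₀ * k : ℤ) : ℝ) := by
          rw [hMdef]
          push_cast
          field_simp
          ring
        rw [h5, ff_add_int] at h4
        rw [← h4]
        apply Finset.sum_congr rfl
        intro m _
        rw [add_comm]
      have h4 : ∑ m ∈ Finset.range c, ∑ n ∈ Finset.range d,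
          cb χ₁ k * cb χ₂ m * (((B1 ((m : ℝ) / c + k / q₁) : ℝ) : ℂ) *
          ((B1 (-((n : ℝ) / d + k / q₁)) : ℝ) : ℂ)) =
          cb χ₁ k * ((∑ m ∈ Finset.range c, cb χ₂ m * ((B1 ((m : ℝ) / c + k / q₁) : ℝ) : ℂ)) *
          ∑ n ∈ Finset.range d, ((B1 (-((n : ℝ) / d + k / q₁)) : ℝ) : ℂ)) := by
        rw [Finset.sum_mul_sum, Finset.mul_sum]
        apply Finset.sum_congr rfl
        intro m _
        rw [Finset.mul_sum]
        apply Finset.sum_congr rfl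
        intro n _
        ring
      rw [h4, h3, h2]
      ring
    rw [Finset.sum_congr rfl h1, ← Finset.sum_mul, Finset.sum_neg_distrib]
    unfold ff
    ring
  rw [hxy, hyz, hzx, hQx, hQy, hQz] at hsum
  linear_combination (-1 : ℂ) * hsum

end recip

end NDS.A
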