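import Mathlib

/-!
# Module C4: `v Δ^m` is a modular form
-/

open Complex UpperHalfPlane Filter Topology
open scoped MatrixGroups Real Manifold ModularForm CongruenceSubgroup

namespace NDS

namespace C4

/-- `Δ|δ = Δ`. -/
lemma disc_slash (δ : SL(2, ℤ)) :
    (ModularForm.discriminant ∣[(12 : ℤ)] δ) = ModularForm.discriminant :=
  SlashInvariantForm.slash_action_generators_SL2Z ModularForm.discriminant_S_invariant
    ModularForm.discriminant_T_invariant δ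

lemma slash_form (v : ℍ → ℂ) (m : ℕ) (δ : SL(2, ℤ)) (z : ℍ) :
    ((fun z => v z * ModularForm.discriminant z ^ m) ∣[(12 * (m : ℤ))] δ) z =
      v (δ • z) * ModularForm.discriminant z ^ m := by
  have h1 := congrFun (disc_slash δ) z
  rw [ModularForm.SL_slash_apply] at h1 ⊢
  conv_rhs => rw [← h1]
  rw [mul_pow, ← zpow_natCast (denom (δ : GL (Fin 2) ℝ) z ^ (-(12 : ℤ))) m, ← zpow_mul]
  have h2 : -(12 * (m : ℤ)) = -12 * (m : ℤ) := by ring
  rw [h2]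
  ring

/-- exponential decay of `Δ`. -/
lemma disc_bound : ∃ (c₁ A : ℝ), ∀ z : ℍ, A ≤ z.im →
    ‖ModularForm.discriminant z‖ ≤ c₁ * Real.exp (-2 * π * z.im) := by
  have h1 := CuspFormClass.exp_decay_atImInfty (h := 1) CuspForm.discriminant one_pos
    one_mem_strictPeriods_SL
  rw [Asymptotics.isBigO_iff] at h1
  obtain ⟨c, hc⟩ := h1
  rw [Filter.Eventually, atImInfty_mem] at hc
  obtain ⟨A, hA⟩ := hc
  refine ⟨c, A, fun z hz => ?_⟩
  have h2 := hA z hz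
  simp only [Set.mem_ofPred_eq, CuspForm.coe_discriminant, div_one] at h2
  rwa [Real.norm_of_nonneg (Real.exp_pos _).le] at h2

/-- the constant attached to `ρ`. -/
noncomputable def KK (N : ℕ) (ρ : SL(2, ℤ)) : ℝ :=
  (|((ρ 1 0 : ℤ) : ℝ)| * N + |((ρ 1 1 : ℤ) : ℝ)|) ^ 2 + ((ρ 1 0 : ℤ) : ℝ) ^ 2

lemma v_bound (v : ℍ → ℂ) {C : ℝ} (hC : ∀ z : ℍ, ‖v z‖ ≤ Real.exp (C / z.im)) (hC0 : 0 ≤ C)
    (ρ : SL(2, ℤ)) (N : ℕ) (z : ℍ) (hx : |z.re| ≤ N) (hy : 1 ≤ z.im) :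
    ‖v (ρ • z)‖ ≤ Real.exp (C * KK N ρ * z.im) := by
  refine (hC _).trans (Real.exp_le_exp.2 ?_)
  have hypos : 0 < z.im := by linarith
  have hden : 0 < Complex.normSq (denom (ρ : GL (Fin 2) ℝ) z) :=
    Complex.normSq_pos.2 (denom_ne_zero _ z)
  rw [ModularGroup.im_smul_eq_div_normSq]
  have hns : Complex.normSq (denom (ρ : GL (Fin 2) ℝ) z) =
      ((ρ 1 0 : ℤ) * z.re + (ρ 1 1 : ℤ)) ^ 2 + ((ρ 1 0 : ℤ) * z.im) ^ 2 := by
    rw [ModularGroup.denom_apply, Complex.normSq_apply]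
    simp
    ring
  have h1 : C / (z.im / Complex.normSq (denom (ρ : GL (Fin 2) ℝ) z)) =
      C * (Complex.normSq (denom (ρ : GL (Fin 2) ℝ) z) / z.im) := by
    field_simp
  rw [h1, mul_assoc]
  apply mul_le_mul_of_nonneg_left _ hC0
  rw [div_le_iff₀ hypos, hns]
  unfold KK
  have h2 : |((ρ 1 0 : ℤ) : ℝ) * z.re + (ρ 1 1 : ℤ)| ≤
      |((ρ 1 0 : ℤ) : ℝ)| * N + |((ρ 1 1 : ℤ) : ℝ)| := by
    refine (abs_add_le _ _).trans ?_
    rw [abs_mul]
    have := mul_le_mul_of_nonneg_left hx (abs_nonneg ((ρ 1 0 : ℤ) : ℝ))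
    linarith
  have h3 : (((ρ 1 0 : ℤ) : ℝ) * z.re + (ρ 1 1 : ℤ)) ^ 2 ≤
      (|((ρ 1 0 : ℤ) : ℝ)| * N + |((ρ 1 1 : ℤ) : ℝ)|) ^ 2 := by
    rw [← sq_abs (((ρ 1 0 : ℤ) : ℝ) * z.re + (ρ 1 1 : ℤ))]
    exact pow_le_pow_left₀ (abs_nonneg _) h2 2
  have h4 : (1 : ℝ) ≤ z.im * z.im := by nlinarith
  have h5 := mul_le_mul_of_nonneg_left h4
    (sq_nonneg (|((ρ 1 0 : ℤ) : ℝ)| * N + |((ρ 1 1 : ℤ) : ℝ)|))
  nlinarith

/-- reduction to `|x| ≤ N`. -/
lemma period_reduce {N : ℕ} [NeZero N] (v : ℍ → ℂ)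
    (inv : ∀ γ ∈ CongruenceSubgroup.Gamma1 N, ∀ z : ℍ, v (γ • z) = v z) (δ : SL(2, ℤ)) (z : ℍ) :
    ∃ z' : ℍ, |z'.re| ≤ N ∧ z'.im = z.im ∧ v (δ • z) = v (δ • z') := by
  have hN : (0 : ℝ) < N := by exact_mod_cast Nat.pos_of_ne_zero (NeZero.ne N)
  set k : ℤ := ⌊z.re / N⌋ with hk
  refine ⟨ModularGroup.T ^ (-(N * k : ℤ)) • z, ?_, ?_, ?_⟩
  · rw [ModularGroup.re_T_zpow_smul]
    have h1 := Int.floor_le (z.re / N)
    have h2 := Int.lt_floor_add_one (z.re / N)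
    rw [← hk] at h1 h2
    rw [le_div_iff₀ hN] at h1
    rw [div_lt_iff₀ hN] at h2
    push_cast
    rw [abs_le]
    constructor
    · linarith
    · linarith
  · rw [ModularGroup.im_T_zpow_smul]
  · have hT : ModularGroup.T ^ (-(N * k : ℤ)) ∈ CongruenceSubgroup.Gamma N := by
      have := CongruenceSubgroup.ModularGroup_T_pow_mem_Gamma (N : ℤ) (-(N * k : ℤ))
        ⟨-k, by ring⟩
      simpa using this
    have hconj : δ * ModularGroup.T ^ (-(N * k : ℤ)) * δ⁻¹ ∈ CongruenceSubgroup.Gamma N :=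
      (CongruenceSubgroup.Gamma_normal N).conj_mem _ hT δ
    have h1 : δ * ModularGroup.T ^ (-(N * k : ℤ)) * δ⁻¹ ∈ CongruenceSubgroup.Gamma1 N := by
      rw [CongruenceSubgroup.Gamma_mem] at hconj
      rw [CongruenceSubgroup.Gamma1_mem]
      exact ⟨hconj.1, hconj.2.2.2, hconj.2.2.1⟩
    have h2 := inv _ h1 (δ • z)
    rw [← h2, smul_smul, smul_smul]
    congr 2
    group

end C4

open C4

theorem exists_form (N : ℕ) [NeZero N] (v : ℍ → ℂ) (hol : MDiff v)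
    (inv : ∀ γ ∈ CongruenceSubgroup.Gamma1 N, ∀ z : ℍ, v (γ • z) = v z)
    (C : ℝ) (hC : ∀ z : ℍ, ‖v z‖ ≤ Real.exp (C / z.im)) :
    ∃ m₀ : ℕ, ∀ m : ℕ, m₀ ≤ m → ∃ F : ModularForm (CongruenceSubgroup.Gamma1 N) (12 * (m : ℤ)),
      ∀ z, F z = v z * ModularForm.discriminant z ^ m := by
  classical
  -- make the constant nonnegative
  have hC' : ∀ z : ℍ, ‖v z‖ ≤ Real.exp (|C| / z.im) := fun z =>
    (hC z).trans (Real.exp_le_exp.2 (div_le_div_of_nonneg_right (le_abs_self C) z.im_pos.le))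
  -- finitely many cosets
  have hfin : Finite (SL(2, ℤ) ⧸ CongruenceSubgroup.Gamma1 N) := inferInstance
  have : Fintype (SL(2, ℤ) ⧸ CongruenceSubgroup.Gamma1 N) := Fintype.ofFinite _
  set K : ℝ := ∑ x : SL(2, ℤ) ⧸ CongruenceSubgroup.Gamma1 N, KK N (x.out)⁻¹ with hK
  have hKK : ∀ ρ, 0 ≤ KK N ρ := fun ρ => by unfold KK; positivity
  have hKle : ∀ x : SL(2, ℤ) ⧸ CongruenceSubgroup.Gamma1 N, KK N (x.out)⁻¹ ≤ K := fun x =>
    Finset.single_le_sum (f := fun x : SL(2, ℤ) ⧸ CongruenceSubgroup.Gamma1 N =>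
      KK N (x.out)⁻¹) (fun y _ => hKK _) (Finset.mem_univ x)
  obtain ⟨c₁, A, hA⟩ := disc_bound
  obtain ⟨m₀, hm₀⟩ := exists_nat_ge (|C| * K)
  refine ⟨m₀, fun m hm => ?_⟩
  have hmK : |C| * K ≤ 2 * π * m := by
    have h1 : (m₀ : ℝ) ≤ m := by exact_mod_cast hm
    have h2 : (3 : ℝ) < π := Real.pi_gt_three
    have h3 : (0 : ℝ) ≤ m := by positivity
    nlinarith
  -- boundedness at all translates
  have hbdd : ∀ δ : SL(2, ℤ), IsBoundedAtImInfty
      ((fun z => v z * ModularForm.discriminant z ^ m) ∣[(12 * (m : ℤ))] δ) := by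
    intro δ
    rw [isBoundedAtImInfty_iff]
    refine ⟨|c₁| ^ m, max A 1, fun z hz => ?_⟩
    have hzA : A ≤ z.im := (le_max_left _ _).trans hz
    have hz1 : 1 ≤ z.im := (le_max_right _ _).trans hz
    rw [slash_form]
    obtain ⟨z', hz'x, hz'y, hvz'⟩ := period_reduce v inv δ z
    -- coset representative
    set x : SL(2, ℤ) ⧸ CongruenceSubgroup.Gamma1 N := QuotientGroup.mk δ⁻¹ with hx
    have hout : (QuotientGroup.mk x.out : SL(2, ℤ) ⧸ CongruenceSubgroup.Gamma1 N) =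
        QuotientGroup.mk δ⁻¹ := by rw [QuotientGroup.out_eq']
    have hmem : (x.out)⁻¹ * δ⁻¹ ∈ CongruenceSubgroup.Gamma1 N := QuotientGroup.eq.1 hout
    have hρ : v (δ • z') = v ((x.out)⁻¹ • z') := by
      have h1 := inv _ hmem (δ • z')
      rw [← h1, smul_smul]
      congr 2
      group
    have hb := v_bound v hC' (abs_nonneg C) (x.out)⁻¹ N z' hz'x (by rw [hz'y]; exact hz1)
    rw [← hρ, ← hvz', hz'y] at hb
    have hd := hA z hzA
    have hd' : ‖ModularForm.discriminant z‖ ≤ |c₁| * Real.exp (-2 * π * z.im) :=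
      hd.trans (mul_le_mul_of_nonneg_right (le_abs_self _) (Real.exp_pos _).le)
    rw [norm_mul, norm_pow]
    calc ‖v (δ • z)‖ * ‖ModularForm.discriminant z‖ ^ m
        ≤ Real.exp (|C| * KK N (x.out)⁻¹ * z.im) * (|c₁| * Real.exp (-2 * π * z.im)) ^ m := by
          apply mul_le_mul hb (pow_le_pow_left₀ (norm_nonneg _) hd' m) (by positivity)
            (Real.exp_pos _).le
      _ = |c₁| ^ m * Real.exp (|C| * KK N (x.out)⁻¹ * z.im + m * (-2 * π * z.im)) := by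
          rw [mul_pow, ← Real.exp_nat_mul, Real.exp_add]
          ring
      _ ≤ |c₁| ^ m * 1 := by
          apply mul_le_mul_of_nonneg_left _ (by positivity)
          rw [Real.exp_le_one_iff]
          have h1 : |C| * KK N (x.out)⁻¹ ≤ 2 * π * m :=
            (mul_le_mul_of_nonneg_left (hKle x) (abs_nonneg C)).trans hmK
          nlinarith
      _ = |c₁| ^ m := mul_one _
  refine ⟨{ toFun := fun z => v z * ModularForm.discriminant z ^ m
            slash_action_eq' := ?_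
            holo' := ?_
            bdd_at_cusps' := ?_ }, fun z => rfl⟩
  · rintro A ⟨γ, hγ, rfl⟩
    ext z
    have h1 := slash_form v m γ z
    rw [inv γ hγ] at h1
    exact h1
  · have h1 : MDiff ModularForm.discriminant := CuspForm.discriminant.holo'
    exact hol.mul (h1.pow m)
  · intro c hc
    rw [Subgroup.IsArithmetic.isCusp_iff_isCusp_SL2Z] at hc
    rw [OnePoint.isBoundedAt_iff_forall_SL2Z hc]
    intro γ _
    exact hbdd γ

end NDS
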