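import Pool.Agent.H7.NDS.Defs

/-!
# Module D1: ultrametric growth, weak version
-/

open Filter

namespace NDS

lemma norm_sum_eq_of_dominant {ι Ω : Type*} [NormedField Ω] [IsUltrametricDist Ω]
    (s : Finset ι) (f : ι → Ω) (i₀ : ι) (h₀ : i₀ ∈ s)
    (h : ∀ i ∈ s, i ≠ i₀ → ‖f i‖ < ‖f i₀‖) : ‖∑ i ∈ s, f i‖ = ‖f i₀‖ := by
  classical
  rw [← Finset.add_sum_erase s f h₀]
  rcases (s.erase i₀).eq_empty_or_nonempty with he | hne
  · rw [he, Finset.sum_empty, add_zero]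
  · obtain ⟨j, hj, hle⟩ := IsUltrametricDist.exists_norm_finsetSum_le_of_nonempty hne f
    have hj' := h j (Finset.mem_of_mem_erase hj) (Finset.ne_of_mem_erase hj)
    have hlt : ‖∑ i ∈ s.erase i₀, f i‖ < ‖f i₀‖ := lt_of_le_of_lt hle hj'
    rw [IsUltrametricDist.norm_add_eq_max_of_norm_ne_norm hlt.ne', max_eq_left hlt.le]

/-- Doubly exponential beats exponential. -/
lemma eventually_lt_pow_pow (r : ℝ) (hr : 1 < r) (c : ℝ) (hc : 0 < c) (p : ℕ) (hp : 2 ≤ p)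
    (C E : ℝ) : ∀ᶠ K : ℕ in atTop, C * E ^ K < c * r ^ (p ^ K) := by
  -- `r ^ K → ∞`
  set b : ℝ := |E| + 1 with hb
  have hb1 : 1 ≤ b := by have := abs_nonneg E; linarith
  have h1 : ∀ᶠ K : ℕ in atTop, 2 * b ≤ r ^ K :=
    (tendsto_pow_atTop_atTop_of_one_lt hr).eventually_ge_atTop _
  have h2 : ∀ᶠ K : ℕ in atTop, |C| / c < (2 : ℝ) ^ K :=
    (tendsto_pow_atTop_atTop_of_one_lt (by norm_num : (1 : ℝ) < 2)).eventually_gt_atTop _
  have h3 : ∀ᶠ K : ℕ in atTop, 4 ≤ K := eventually_ge_atTop 4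
  filter_upwards [h1, h2, h3] with K hK1 hK2 hK3
  have hsq : K * K ≤ p ^ K := by
    have h4 : K * K ≤ 2 ^ K := by
      clear hK1 hK2
      induction K, hK3 using Nat.le_induction with
      | base => norm_num
      | succ n hn ih =>
        rw [pow_succ]
        nlinarith
    exact h4.trans (Nat.pow_le_pow_left hp K)
  have hr0 : 0 < r := by linarith
  calc C * E ^ K ≤ |C * E ^ K| := le_abs_self _
    _ = |C| * |E| ^ K := by rw [abs_mul, abs_pow]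
    _ ≤ |C| * b ^ K := by
        apply mul_le_mul_of_nonneg_left _ (abs_nonneg C)
        exact pow_le_pow_left₀ (abs_nonneg E) (by linarith) K
    _ < c * 2 ^ K * b ^ K := by
        apply mul_lt_mul_of_pos_right _ (by positivity)
        rw [div_lt_iff₀ hc] at hK2
        linarith
    _ = c * (2 * b) ^ K := by rw [mul_pow]; ring
    _ ≤ c * (r ^ K) ^ K := by
        apply mul_le_mul_of_nonneg_left _ hc.le
        exact pow_le_pow_left₀ (by positivity) hK1 K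
    _ = c * r ^ (K * K) := by rw [← pow_mul]
    _ ≤ c * r ^ (p ^ K) := by
        apply mul_le_mul_of_nonneg_left _ hc.le
        exact pow_le_pow_right₀ hr.le hsq

lemma norm_natCast_ne_zero {Ω : Type*} [NormedField Ω] [CharZero Ω] {n : ℕ} (hn : n ≠ 0) :
    0 < ‖(n : Ω)‖ := by
  rw [norm_pos_iff]
  exact_mod_cast hn

/-- `‖n!‖ ≤ ‖k!‖` for `k ≤ n`. -/
lemma norm_factorial_le {Ω : Type*} [NormedField Ω] [IsUltrametricDist Ω] {k n : ℕ}
    (h : k ≤ n) : ‖((n.factorial : ℕ) : Ω)‖ ≤ ‖((k.factorial : ℕ) : Ω)‖ := by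
  obtain ⟨c, hc⟩ := Nat.factorial_dvd_factorial h
  rw [hc, Nat.cast_mul, norm_mul]
  have := IsUltrametricDist.norm_natCast_le_one Ω c
  nlinarith [norm_nonneg ((k.factorial : ℕ) : Ω)]

/-- D1: growth when `1 < ρ`. (`|V n| = ρ^n / |n!|` by induction.) -/
theorem norm_V_eq {Ω : Type*} [NormedField Ω] [IsUltrametricDist Ω] [CharZero Ω]
    (y V : ℕ → Ω) (ρ : ℝ) (hρ : 1 < ρ) (hy1 : ‖y 1‖ = ρ)
    (hy : ∀ N : ℕ, 1 ≤ N → ‖(N : Ω) * y N‖ ≤ ρ) (V0 : V 0 = 1)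
    (hV : ∀ n : ℕ, 1 ≤ n → (n : Ω) * V n = ∑ N ∈ Finset.Icc 1 n, (N : Ω) * y N * V (n - N))
    (n : ℕ) : ‖V n‖ = ρ ^ n / ‖((n.factorial : ℕ) : Ω)‖ := by
  have hρ0 : 0 < ρ := by linarith
  induction n using Nat.strong_induction_on with
  | _ n ih =>
  rcases Nat.eq_zero_or_pos n with rfl | hn
  · simp [V0]
  have hfac : ∀ k : ℕ, 0 < ‖((k.factorial : ℕ) : Ω)‖ := fun k =>
    norm_natCast_ne_zero (Nat.factorial_ne_zero k)
  have h1 : ‖∑ N ∈ Finset.Icc 1 n, (N : Ω) * y N * V (n - N)‖ =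
      ‖((1 : ℕ) : Ω) * y 1 * V (n - 1)‖ := by
    apply norm_sum_eq_of_dominant (Finset.Icc 1 n) (fun N => (N : Ω) * y N * V (n - N)) 1
      (Finset.mem_Icc.2 ⟨le_rfl, hn⟩)
    intro N hN hN1
    obtain ⟨hN2, hN3⟩ := Finset.mem_Icc.1 hN
    have hN4 : 2 ≤ N := by omega
    simp only [norm_mul]
    rw [ih (n - N) (by omega), ih (n - 1) (by omega), hy1, Nat.cast_one, norm_one, one_mul]
    have h2 : ‖(N : Ω)‖ * ‖y N‖ ≤ ρ := by
      rw [← norm_mul]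
      exact hy N hN2
    have h3 := norm_factorial_le (Ω := Ω) (show n - N ≤ n - 1 by omega)
    have h4 : ρ ^ (n - N) < ρ ^ (n - 1) := pow_lt_pow_right₀ hρ (by omega)
    calc ‖(N : Ω)‖ * ‖y N‖ * (ρ ^ (n - N) / ‖(((n - N).factorial : ℕ) : Ω)‖)
        ≤ ρ * (ρ ^ (n - N) / ‖(((n - N).factorial : ℕ) : Ω)‖) := by
          apply mul_le_mul_of_nonneg_right h2
          have := hfac (n - N)
          positivity
      _ ≤ ρ * (ρ ^ (n - N) / ‖(((n - 1).factorial : ℕ) : Ω)‖) := by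
          apply mul_le_mul_of_nonneg_left _ hρ0.le
          exact div_le_div_of_nonneg_left (by positivity) (hfac _) h3
      _ < ρ * (ρ ^ (n - 1) / ‖(((n - 1).factorial : ℕ) : Ω)‖) := by
          apply mul_lt_mul_of_pos_left _ hρ0
          exact div_lt_div_of_pos_right h4 (hfac _)
  rw [← hV n hn, norm_mul, norm_mul, norm_mul, ih (n - 1) (by omega), hy1, Nat.cast_one, norm_one,
    one_mul] at h1
  have h5 : (n.factorial : ℕ) = n * (n - 1).factorial := (Nat.mul_factorial_pred hn.ne').symm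
  have h6 : 0 < ‖(n : Ω)‖ := norm_natCast_ne_zero hn.ne'
  have h7 := hfac (n - 1)
  rw [h5, Nat.cast_mul, norm_mul]
  have h8 : ρ ^ n = ρ * ρ ^ (n - 1) := by
    rw [← pow_succ']
    congr 1
    omega
  rw [h8, eq_div_iff (by positivity)]
  calc ‖V n‖ * (‖(n : Ω)‖ * ‖(((n - 1).factorial : ℕ) : Ω)‖)
      = (‖(n : Ω)‖ * ‖V n‖) * ‖(((n - 1).factorial : ℕ) : Ω)‖ := by ring
    _ = ρ * ρ ^ (n - 1) := by
        rw [h1]
        field_simp

/-- D1: growth when `1 < ρ`. (`|V n| = ρ^n / |n!|` by induction.) -/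
theorem growth_weak {Ω : Type*} [NormedField Ω] [IsUltrametricDist Ω] [CharZero Ω]
    (y V : ℕ → Ω) (ρ : ℝ) (hρ : 1 < ρ) (hy1 : ‖y 1‖ = ρ)
    (hy : ∀ N : ℕ, 1 ≤ N → ‖(N : Ω) * y N‖ ≤ ρ) (V0 : V 0 = 1)
    (hV : ∀ n : ℕ, 1 ≤ n → (n : Ω) * V n = ∑ N ∈ Finset.Icc 1 n, (N : Ω) * y N * V (n - N))
    (m : ℕ) (D : ℕ → Ω) (D_lt : ∀ i < m, D i = 0) (D_m : D m = 1) (D_le : ∀ i, ‖D i‖ ≤ 1)
    (p : ℕ) (hp : 2 ≤ p) (C E : ℝ) :
    ∃ K : ℕ, C * E ^ K < ‖∑ i ∈ Finset.range (p ^ K + 1), D i * V (p ^ K - i)‖ := by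
  have hρ0 : 0 < ρ := by linarith
  have hfac : ∀ k : ℕ, 0 < ‖((k.factorial : ℕ) : Ω)‖ := fun k =>
    norm_natCast_ne_zero (Nat.factorial_ne_zero k)
  have hVn := norm_V_eq y V ρ hρ hy1 hy V0 hV
  have e1 := eventually_lt_pow_pow ρ hρ ((ρ ^ m)⁻¹) (by positivity) p hp C E
  have e2 : ∀ᶠ K : ℕ in atTop, m ≤ K := eventually_ge_atTop m
  obtain ⟨K, hK1, hK2⟩ := (e1.and e2).exists
  refine ⟨K, ?_⟩
  have hmp : m ≤ p ^ K := hK2.trans (Nat.lt_pow_self (by omega : 1 < p)).le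
  have h1 : ‖∑ i ∈ Finset.range (p ^ K + 1), D i * V (p ^ K - i)‖ =
      ‖D m * V (p ^ K - m)‖ := by
    apply norm_sum_eq_of_dominant (Finset.range (p ^ K + 1)) (fun i => D i * V (p ^ K - i)) m
      (Finset.mem_range.2 (by omega))
    intro i hi hi1
    have hi2 := Finset.mem_range.1 hi
    simp only [D_m, one_mul]
    rcases lt_or_gt_of_ne hi1 with hlt | hgt
    · rw [D_lt i hlt, zero_mul, norm_zero, hVn]
      have := hfac (p ^ K - m)
      positivity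
    · rw [norm_mul]
      have h2 : ‖V (p ^ K - i)‖ < ‖V (p ^ K - m)‖ := by
        rw [hVn, hVn]
        have h3 := norm_factorial_le (Ω := Ω) (show p ^ K - i ≤ p ^ K - m by omega)
        have h4 : ρ ^ (p ^ K - i) < ρ ^ (p ^ K - m) := pow_lt_pow_right₀ hρ (by omega)
        calc ρ ^ (p ^ K - i) / ‖(((p ^ K - i).factorial : ℕ) : Ω)‖
            ≤ ρ ^ (p ^ K - i) / ‖(((p ^ K - m).factorial : ℕ) : Ω)‖ :=
              div_le_div_of_nonneg_left (by positivity) (hfac _) h3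
          _ < ρ ^ (p ^ K - m) / ‖(((p ^ K - m).factorial : ℕ) : Ω)‖ :=
              div_lt_div_of_pos_right h4 (hfac _)
      have := D_le i
      nlinarith [norm_nonneg (V (p ^ K - i))]
  rw [h1, D_m, one_mul, hVn]
  have h5 : ρ ^ (p ^ K) = ρ ^ m * ρ ^ (p ^ K - m) := by
    rw [← pow_add]
    congr 1
    omega
  calc C * E ^ K < (ρ ^ m)⁻¹ * ρ ^ (p ^ K) := hK1
    _ = ρ ^ (p ^ K - m) := by
        rw [h5]
        field_simp
    _ ≤ ρ ^ (p ^ K - m) / ‖(((p ^ K - m).factorial : ℕ) : Ω)‖ := by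
        rw [le_div_iff₀ (hfac _)]
        have := IsUltrametricDist.norm_natCast_le_one Ω (p ^ K - m).factorial
        have h6 : 0 < ρ ^ (p ^ K - m) := by positivity
        nlinarith

end NDS
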