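import Pool.Agent.H7.NDS.ModD1

/-!
# Module D2: ultrametric growth, strong version
-/

open Filter

namespace NDS

section PS

open PowerSeries

variable {Ω : Type*} [Field Ω] [CharZero Ω]

/-- `exp(u)` as a formal power series (`u` without constant term). -/
noncomputable def eser (u : Ω⟦X⟧) : Ω⟦X⟧ :=
  PowerSeries.mk fun d => ∑ j ∈ Finset.range (d + 1), coeff d (u ^ j) / ((j.factorial : ℕ) : Ω)

omit [CharZero Ω] in
lemma coeff_pow_zero_of_lt {u : Ω⟦X⟧} (s : ℕ) (hu : X ^ s ∣ u) {j d : ℕ} (h : d < s * j) :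
    coeff d (u ^ j) = 0 := by
  have h1 : X ^ (s * j) ∣ u ^ j := by
    rw [pow_mul]
    exact pow_dvd_pow_of_dvd hu j
  exact (X_pow_dvd_iff.1 h1) d h

omit [CharZero Ω] in
lemma eser_coeff_of_le {u : Ω⟦X⟧} (hu : X ^ 1 ∣ u) {d M : ℕ} (h : d ≤ M) :
    coeff d (eser u) = ∑ j ∈ Finset.range (M + 1), coeff d (u ^ j) / ((j.factorial : ℕ) : Ω) := by
  unfold eser
  rw [coeff_mk]
  apply Finset.sum_subset
  · intro x hx
    simp only [Finset.mem_range] at hx ⊢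
    omega
  · intro x _ hx
    simp only [Finset.mem_range, not_lt] at hx
    rw [coeff_pow_zero_of_lt 1 hu (by omega), zero_div]

lemma derivative_eser {u : Ω⟦X⟧} (hu : X ^ 1 ∣ u) : d⁄dX Ω (eser u) = d⁄dX Ω u * eser u := by
  ext d
  rw [coeff_derivative, coeff_mul]
  have h1 : ∀ p ∈ Finset.HasAntidiagonal.antidiagonal d,
      coeff p.1 (d⁄dX Ω u) * coeff p.2 (eser u) =
      ∑ j ∈ Finset.range (d + 1), (coeff p.1 (d⁄dX Ω u) * coeff p.2 (u ^ j)) /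
        ((j.factorial : ℕ) : Ω) := by
    intro p hp
    rw [eser_coeff_of_le hu (show p.2 ≤ d by
      have := Finset.HasAntidiagonal.mem_antidiagonal.1 hp
      omega), Finset.mul_sum]
    apply Finset.sum_congr rfl
    intro j _
    rw [mul_div_assoc]
  rw [Finset.sum_congr rfl h1, Finset.sum_comm]
  have h2 : coeff (d + 1) (eser u) * ((d : Ω) + 1) =
      ∑ j ∈ Finset.range (d + 2), coeff d (d⁄dX Ω (u ^ j)) / ((j.factorial : ℕ) : Ω) := by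
    unfold eser
    rw [coeff_mk, Finset.sum_mul]
    apply Finset.sum_congr rfl
    intro j _
    rw [coeff_derivative]
    ring
  rw [h2, Finset.sum_range_succ']
  have h3 : coeff d (d⁄dX Ω (u ^ 0)) / (((0 : ℕ).factorial : ℕ) : Ω) = 0 := by
    rw [pow_zero, derivative_one]
    simp
  rw [h3, add_zero]
  apply Finset.sum_congr rfl
  intro j _
  rw [Derivation.leibniz_pow, ← Finset.sum_div]
  have h4 : (j + 1) • u ^ (j + 1 - 1) • d⁄dX Ω u = ((j + 1 : ℕ) : Ω) • (d⁄dX Ω u * u ^ j) := by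
    rw [Nat.add_sub_cancel, smul_eq_mul, mul_comm, Nat.cast_smul_eq_nsmul]
  rw [h4, map_smul, smul_eq_mul, coeff_mul, Nat.factorial_succ, Nat.cast_mul]
  have h5 : ((j + 1 : ℕ) : Ω) ≠ 0 := Nat.cast_ne_zero.2 (by omega)
  have h6 : ((j.factorial : ℕ) : Ω) ≠ 0 := Nat.cast_ne_zero.2 (Nat.factorial_ne_zero j)
  field_simp

end PS

section Conv

open PowerSeries

variable {Ω : Type*} [Field Ω] [CharZero Ω]

/-- Decomposition `V = W * e`. -/
lemma V_eq_conv (y V : ℕ → Ω) (V0 : V 0 = 1)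
    (hV : ∀ n : ℕ, 1 ≤ n → (n : Ω) * V n = ∑ N ∈ Finset.Icc 1 n, (N : Ω) * y N * V (n - N))
    (u : Ω⟦X⟧) (hu : u = PowerSeries.mk fun N => if 2 ≤ N then y N else 0)
    (ee : Ω⟦X⟧) (hee : ee = PowerSeries.mk fun j => y 1 ^ j / ((j.factorial : ℕ) : Ω)) :
    PowerSeries.mk V = eser u * ee := by
  have hu2 : X ^ 1 ∣ u := by
    rw [X_pow_dvd_iff]
    intro m hm
    rw [hu, coeff_mk, if_neg (by omega)]
  have hderiv : d⁄dX Ω (eser u * ee) = (d⁄dX Ω u + C (y 1)) * (eser u * ee) := by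
    have h1 : d⁄dX Ω ee = C (y 1) * ee := by
      ext d
      rw [coeff_derivative, coeff_C_mul, hee, coeff_mk, coeff_mk, Nat.factorial_succ,
        Nat.cast_mul, pow_succ]
      have h5 : ((d + 1 : ℕ) : Ω) ≠ 0 := Nat.cast_ne_zero.2 (by omega)
      have h6 : ((d.factorial : ℕ) : Ω) ≠ 0 := Nat.cast_ne_zero.2 (Nat.factorial_ne_zero d)
      push_cast at h5 ⊢
      field_simp
    rw [Derivation.leibniz, derivative_eser hu2, h1, smul_eq_mul, smul_eq_mul]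
    ring
  ext n
  rw [coeff_mk]
  induction n using Nat.strong_induction_on with
  | _ n ih =>
  rcases Nat.eq_zero_or_pos n with rfl | hn
  · rw [V0, coeff_mul]
    simp [eser, hee]
  obtain ⟨k, rfl⟩ : ∃ k, n = k + 1 := ⟨n - 1, by omega⟩
  have h5 : ((k + 1 : ℕ) : Ω) ≠ 0 := Nat.cast_ne_zero.2 (by omega)
  apply mul_left_cancel₀ h5
  rw [hV (k + 1) hn]
  have h6 := congrArg (coeff k) hderiv
  rw [coeff_derivative] at h6
  have h7 : ((k + 1 : ℕ) : Ω) * coeff (k + 1) (eser u * ee) =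
      coeff (k + 1) (eser u * ee) * ((k : Ω) + 1) := by
    push_cast
    ring
  rw [h7, h6, coeff_mul, Finset.Nat.sum_antidiagonal_eq_sum_range_succ
    (fun a b => coeff a (d⁄dX Ω u + C (y 1)) * coeff b (eser u * ee))]
  have h8 : Finset.Icc 1 (k + 1) = (Finset.range (k + 1)).image (· + 1) := by
    ext x
    simp only [Finset.mem_Icc, Finset.mem_image, Finset.mem_range]
    constructor
    · rintro ⟨h1, h2⟩
      exact ⟨x - 1, by omega, by omega⟩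
    · rintro ⟨a, ha, rfl⟩
      omega
  rw [h8, Finset.sum_image (fun a _ b _ h => by simpa using h)]
  apply Finset.sum_congr rfl
  intro a ha
  have ha' := Finset.mem_range.1 ha
  rw [← ih (k - a) (by omega), show k + 1 - (a + 1) = k - a by omega]
  congr 1
  rw [map_add, coeff_derivative, hu, coeff_mk, coeff_C]
  rcases Nat.eq_zero_or_pos a with rfl | ha0
  · simp
  · rw [if_pos (by omega), if_neg (by omega)]
    push_cast
    ring

end Conv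


section Bounds

open PowerSeries

variable {Ω : Type*} [NormedField Ω] [IsUltrametricDist Ω]

lemma norm_coeff_pow_le (u : Ω⟦X⟧) (ρ : ℝ) (hρ : 0 ≤ ρ) (hu : ∀ n, ‖coeff n u‖ ≤ ρ) (j : ℕ) :
    ∀ d, ‖coeff d (u ^ j)‖ ≤ ρ ^ j := by
  induction j with
  | zero =>
    intro d
    rw [pow_zero, pow_zero, coeff_one]
    split_ifs
    · rw [norm_one]
    · rw [norm_zero]
      exact zero_le_one
  | succ j ih =>
    intro d
    rw [pow_succ, coeff_mul]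
    apply IsUltrametricDist.norm_sum_le_of_forall_le_of_nonneg (by positivity)
    intro p _
    rw [norm_mul, pow_succ]
    exact mul_le_mul (ih _) (hu _) (norm_nonneg _) (by positivity)

/-- Coefficients of `exp(u)`, `u` of order at least two. -/
lemma norm_eser_le (u : Ω⟦X⟧) (ρ : ℝ) (hρ : 0 ≤ ρ) (hu : ∀ n, ‖coeff n u‖ ≤ ρ)
    (hu2 : X ^ 2 ∣ u) (d : ℕ) :
    ∃ j, 2 * j ≤ d ∧ ‖coeff d (eser u)‖ ≤ ρ ^ j / ‖((j.factorial : ℕ) : Ω)‖ := by
  have h1 : coeff d (eser u) = ∑ j ∈ (Finset.range (d + 1)).filter (fun j => 2 * j ≤ d),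
      coeff d (u ^ j) / ((j.factorial : ℕ) : Ω) := by
    unfold eser
    rw [coeff_mk]
    symm
    apply Finset.sum_subset (Finset.filter_subset _ _)
    intro x hx hx2
    simp only [Finset.mem_filter, not_and, not_le] at hx2
    rw [coeff_pow_zero_of_lt 2 hu2 (hx2 hx), zero_div]
  have hne : ((Finset.range (d + 1)).filter (fun j => 2 * j ≤ d)).Nonempty :=
    ⟨0, by simp⟩
  obtain ⟨j, hj, hle⟩ := IsUltrametricDist.exists_norm_finsetSum_le_of_nonempty hne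
    (fun j => coeff d (u ^ j) / ((j.factorial : ℕ) : Ω))
  refine ⟨j, (Finset.mem_filter.1 hj).2, ?_⟩
  rw [h1]
  refine hle.trans ?_
  rw [norm_div]
  exact div_le_div_of_nonneg_right (norm_coeff_pow_le u ρ hρ hu j d) (norm_nonneg _)

end Bounds

section Padic

variable (ℓ : ℕ) [Fact ℓ.Prime] {Ω : Type*} [NormedField Ω] [NormedAlgebra ℚ_[ℓ] Ω]

lemma norm_natCast_eq_padic (n : ℕ) : ‖(n : Ω)‖ = ‖(n : ℚ_[ℓ])‖ := by
  rw [← map_natCast (algebraMap ℚ_[ℓ] Ω) n, norm_algebraMap']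

lemma norm_natCast_eq_zpow {n : ℕ} (hn : n ≠ 0) :
    ‖(n : ℚ_[ℓ])‖ = ((ℓ : ℝ) ^ (padicValNat ℓ n))⁻¹ := by
  rw [Padic.norm_eq_zpow_neg_valuation (Nat.cast_ne_zero.2 hn), Padic.valuation_natCast, zpow_neg,
    zpow_natCast]

lemma norm_sub_eq {K t : ℕ} (ht : 0 < t) (htK : t < ℓ ^ K) :
    ‖((ℓ ^ K - t : ℕ) : ℚ_[ℓ])‖ = ‖(t : ℚ_[ℓ])‖ := by
  have h1 : ‖((ℓ ^ K : ℕ) : ℚ_[ℓ])‖ < ‖(t : ℚ_[ℓ])‖ := by
    rw [Nat.cast_pow, Padic.norm_p_pow]
    by_contra hcon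
    rw [not_lt] at hcon
    have h2 := (Padic.norm_int_le_pow_iff_dvd (p := ℓ) (t : ℤ) K).1 (by exact_mod_cast hcon)
    have h3 : ℓ ^ K ∣ t := by exact_mod_cast h2
    have := Nat.le_of_dvd ht h3
    omega
  rw [Nat.cast_sub htK.le, sub_eq_add_neg,
    IsUltrametricDist.norm_add_eq_max_of_norm_ne_norm (by rw [norm_neg]; exact h1.ne), norm_neg,
    max_eq_right h1.le]

/-- `‖(A - i)!‖ ‖A‖ ‖(i - 1)!‖ = ‖A!‖` for `A = ℓ^K`, `1 ≤ i ≤ A`. -/
lemma norm_factorial_sub {K : ℕ} (i : ℕ) (hi : i + 1 ≤ ℓ ^ K) :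
    ‖(((ℓ ^ K - (i + 1)).factorial : ℕ) : ℚ_[ℓ])‖ * ‖((ℓ ^ K : ℕ) : ℚ_[ℓ])‖ *
      ‖((i.factorial : ℕ) : ℚ_[ℓ])‖ = ‖(((ℓ ^ K).factorial : ℕ) : ℚ_[ℓ])‖ := by
  induction i with
  | zero =>
    rw [Nat.factorial_zero, Nat.cast_one, norm_one, mul_one, ← norm_mul, ← Nat.cast_mul, mul_comm,
      Nat.mul_factorial_pred (by omega)]
  | succ i ih =>
    rw [← ih (by omega), Nat.factorial_succ, Nat.cast_mul, norm_mul,
      ← norm_sub_eq ℓ (K := K) (t := i + 1) (by omega) (by omega)]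
    have h1 : ℓ ^ K - (i + 1) = (ℓ ^ K - (i + 1 + 1)) + 1 := by omega
    have h2 : (ℓ ^ K - (i + 1)).factorial =
        (ℓ ^ K - (i + 1)) * (ℓ ^ K - (i + 1 + 1)).factorial := by
      conv_lhs => rw [h1]
      rw [Nat.factorial_succ, ← h1]
    rw [h2, Nat.cast_mul, norm_mul]
    ring

/-- Legendre. -/
lemma norm_factorial_pow (k : ℕ) : ‖((k.factorial : ℕ) : ℚ_[ℓ])‖ ^ (ℓ - 1) =
    ((ℓ : ℝ) ^ (k - (ℓ.digits k).sum))⁻¹ := by
  rw [norm_natCast_eq_zpow ℓ (Nat.factorial_ne_zero k), inv_pow, ← pow_mul, mul_comm,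
    sub_one_mul_padicValNat_factorial]

lemma digit_sum_bound (k : ℕ) : (ℓ : ℝ) ^ ((ℓ.digits k).sum) ≤ ((ℓ : ℝ) * (k + 1)) ^ (ℓ - 1) := by
  have hℓ : 1 < ℓ := (Fact.out : ℓ.Prime).one_lt
  have hℓ' : (1 : ℝ) ≤ ℓ := by exact_mod_cast hℓ.le
  have h1 : (ℓ.digits k).sum ≤ (ℓ.digits k).length * (ℓ - 1) := by
    have := List.sum_le_card_nsmul (ℓ.digits k) (ℓ - 1) (by
      intro d hd
      have := Nat.digits_lt_base hℓ hd
      omega)
    simpa using this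
  have h2 : (ℓ : ℝ) ^ (ℓ.digits k).length ≤ (ℓ : ℝ) * (k + 1) := by
    rcases Nat.eq_zero_or_pos k with rfl | hk
    · simpa using hℓ'
    · have := Nat.base_pow_length_digits_le ℓ k hℓ hk.ne'
      have h3 : (ℓ : ℝ) ^ (ℓ.digits k).length ≤ (ℓ : ℝ) * k := by exact_mod_cast this
      nlinarith
  calc (ℓ : ℝ) ^ ((ℓ.digits k).sum) ≤ (ℓ : ℝ) ^ ((ℓ.digits k).length * (ℓ - 1)) :=
        pow_le_pow_right₀ hℓ' h1
    _ = ((ℓ : ℝ) ^ (ℓ.digits k).length) ^ (ℓ - 1) := by rw [pow_mul]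
    _ ≤ _ := pow_le_pow_left₀ (by positivity) h2 _

lemma exists_r (ρ : ℝ) (hρ0 : 0 < ρ) (hρ : (ℓ : ℝ)⁻¹ < ρ ^ (ℓ - 1)) :
    ∃ r : ℝ, 1 < r ∧ r ^ (ℓ - 1) = ρ ^ (ℓ - 1) * ℓ := by
  have hℓ : 1 < ℓ := (Fact.out : ℓ.Prime).one_lt
  have hℓ0 : (0 : ℝ) < ℓ := by positivity
  have h1 : (1 : ℝ) < ρ ^ (ℓ - 1) * ℓ := by
    rw [inv_lt_iff_one_lt_mul₀ hℓ0] at hρ
    linarith
  refine ⟨(ρ ^ (ℓ - 1) * ℓ) ^ ((((ℓ - 1 : ℕ) : ℝ))⁻¹), ?_, ?_⟩
  · apply Real.one_lt_rpow h1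
    have : 0 < ℓ - 1 := by omega
    positivity
  · apply Real.rpow_inv_natCast_pow (by positivity)
    omega

/-- `sup_i ρ^{-i} ‖(i-1)!‖ < ∞`. -/
lemma exists_bound (ρ : ℝ) (hρ0 : 0 < ρ) (hρ : (ℓ : ℝ)⁻¹ < ρ ^ (ℓ - 1)) :
    ∃ C' : ℝ, 0 < C' ∧ ∀ k : ℕ, ‖((k.factorial : ℕ) : ℚ_[ℓ])‖ / ρ ^ (k + 1) ≤ C' := by
  have hℓ : 1 < ℓ := (Fact.out : ℓ.Prime).one_lt
  have hℓ0 : (0 : ℝ) < ℓ := by positivity
  have hℓ1 : (1 : ℝ) ≤ ℓ := by exact_mod_cast hℓ.le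
  obtain ⟨r, hr, hrr⟩ := exists_r ℓ ρ hρ0 hρ
  have hr0 : 0 < r := by linarith
  -- `(k+1)/r^(k+1)` is bounded
  obtain ⟨c, hc⟩ : ∃ c : ℝ, ∀ k : ℕ, ((k : ℝ) + 1) / r ^ (k + 1) ≤ c := by
    refine ⟨(r - 1)⁻¹, fun k => ?_⟩
    rw [div_le_iff₀ (by positivity)]
    have hB := one_add_mul_le_pow (show (-2 : ℝ) ≤ r - 1 by linarith) (k + 1)
    have h2 : (1 + (r - 1)) = r := by ring
    rw [h2] at hB
    push_cast at hB
    have h3 : 0 < r - 1 := by linarith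
    rw [inv_mul_eq_div, le_div_iff₀ h3]
    nlinarith
  have hc0 : 0 < c := lt_of_lt_of_le (by positivity) (hc 0)
  refine ⟨ℓ * (ℓ * c), by positivity, fun k => ?_⟩
  have h1 : ℓ - 1 ≠ 0 := by omega
  apply le_of_pow_le_pow_left₀ h1 (by positivity)
  have hsum : (ℓ.digits k).sum ≤ k := Nat.digit_sum_le ℓ k
  have h4 : ((ℓ : ℝ) ^ (k - (ℓ.digits k).sum))⁻¹ = (ℓ : ℝ) ^ ((ℓ.digits k).sum) / (ℓ : ℝ) ^ k := by
    rw [eq_div_iff (by positivity), inv_mul_eq_div, div_eq_iff (by positivity), ← pow_add]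
    congr 1
    omega
  calc (‖((k.factorial : ℕ) : ℚ_[ℓ])‖ / ρ ^ (k + 1)) ^ (ℓ - 1)
      = ((ℓ : ℝ) ^ ((ℓ.digits k).sum) / (ℓ : ℝ) ^ k) / (ρ ^ (ℓ - 1)) ^ (k + 1) := by
        rw [div_pow, norm_factorial_pow, h4, ← pow_mul, ← pow_mul, mul_comm (k + 1)]
    _ = ℓ * ((ℓ : ℝ) ^ ((ℓ.digits k).sum)) / (r ^ (ℓ - 1)) ^ (k + 1) := by
        rw [hrr, mul_pow, pow_succ (ℓ : ℝ) k]
        field_simp
    _ ≤ ℓ * ((ℓ : ℝ) * (k + 1)) ^ (ℓ - 1) / (r ^ (ℓ - 1)) ^ (k + 1) := by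
        apply div_le_div_of_nonneg_right _ (by positivity)
        exact mul_le_mul_of_nonneg_left (digit_sum_bound ℓ k) hℓ0.le
    _ = ℓ * ((ℓ : ℝ) * (((k : ℝ) + 1) / r ^ (k + 1))) ^ (ℓ - 1) := by
        rw [← pow_mul, mul_comm (ℓ - 1), pow_mul, mul_div_assoc, ← div_pow, mul_div_assoc]
    _ ≤ ℓ ^ (ℓ - 1) * ((ℓ : ℝ) * c) ^ (ℓ - 1) := by
        apply mul_le_mul
        · exact le_self_pow₀ hℓ1 h1
        · apply pow_le_pow_left₀ (by positivity)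
          exact mul_le_mul_of_nonneg_left (hc k) hℓ0.le
        · positivity
        · positivity
    _ = (ℓ * (ℓ * c)) ^ (ℓ - 1) := by rw [mul_pow (ℓ : ℝ) (ℓ * c)]

lemma norm_eA (ρ r : ℝ) (hρ0 : 0 < ρ) (hr : 1 < r) (hrr : r ^ (ℓ - 1) = ρ ^ (ℓ - 1) * ℓ) (K : ℕ) :
    r ^ (ℓ ^ K) / ℓ ≤ ρ ^ (ℓ ^ K) / ‖(((ℓ ^ K).factorial : ℕ) : ℚ_[ℓ])‖ := by
  have hℓ : 1 < ℓ := (Fact.out : ℓ.Prime).one_lt
  have hℓ0 : (0 : ℝ) < ℓ := by positivity
  have hℓ1 : (1 : ℝ) ≤ ℓ := by exact_mod_cast hℓ.le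
  have h1 : ℓ - 1 ≠ 0 := by omega
  have hr0 : 0 < r := by linarith
  apply le_of_pow_le_pow_left₀ h1 (by positivity)
  have h2 : (ℓ.digits (ℓ ^ K)).sum = 1 := by
    have := Nat.digits_base_pow_mul (b := ℓ) (k := K) (m := 1) hℓ one_pos
    rw [mul_one] at this
    rw [this, Nat.digits_of_lt ℓ 1 one_ne_zero hℓ]
    simp
  have h3 : 1 ≤ ℓ ^ K := Nat.one_le_pow _ _ (by omega)
  rw [div_pow, div_pow, norm_factorial_pow, h2, div_inv_eq_mul]
  have h4 : (ℓ : ℝ) ^ (ℓ ^ K) = ℓ * (ℓ : ℝ) ^ (ℓ ^ K - 1) := by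
    rw [← pow_succ']
    congr 1
    omega
  calc (r ^ ℓ ^ K) ^ (ℓ - 1) / (ℓ : ℝ) ^ (ℓ - 1)
      ≤ (r ^ ℓ ^ K) ^ (ℓ - 1) / ℓ := by
        apply div_le_div_of_nonneg_left (by positivity) hℓ0
        exact le_self_pow₀ hℓ1 h1
    _ = (ρ ^ ℓ ^ K) ^ (ℓ - 1) * (ℓ : ℝ) ^ (ℓ ^ K - 1) := by
        rw [← pow_mul, mul_comm (ℓ ^ K), pow_mul, hrr, mul_pow, h4, ← pow_mul, ← pow_mul,
          mul_comm (ℓ - 1)]
        field_simp

end Padic


open PowerSeries in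
/-- D2: growth when only `ρ > |ℓ|^{1/(ℓ-1)}` but `|y N| ≤ ρ`. -/
theorem growth_strong (ℓ : ℕ) [Fact ℓ.Prime] {Ω : Type*} [NormedField Ω] [NormedAlgebra ℚ_[ℓ] Ω]
    [IsUltrametricDist Ω]
    (y V : ℕ → Ω) (ρ : ℝ) (hρ0 : 0 < ρ) (hρ : (ℓ : ℝ)⁻¹ < ρ ^ (ℓ - 1)) (hy1 : ‖y 1‖ = ρ)
    (hy : ∀ N : ℕ, 1 ≤ N → ‖y N‖ ≤ ρ) (V0 : V 0 = 1)
    (hV : ∀ n : ℕ, 1 ≤ n → (n : Ω) * V n = ∑ N ∈ Finset.Icc 1 n, (N : Ω) * y N * V (n - N)) :
    ∃ κ : ℕ, ∀ m : ℕ, 0 < m → ℓ ^ κ ∣ m → ∀ D : ℕ → Ω, (∀ i < m, D i = 0) → D m = 1 →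
      (∀ i, ‖D i‖ ≤ 1) → ∀ C E : ℝ,
      ∃ K : ℕ, C * E ^ K < ‖∑ i ∈ Finset.range (ℓ ^ K + 1), D i * V (ℓ ^ K - i)‖ := by
  have hℓ : 1 < ℓ := (Fact.out : ℓ.Prime).one_lt
  have hℓ0 : (0 : ℝ) < ℓ := by positivity
  have hℓ1 : (1 : ℝ) < ℓ := by exact_mod_cast hℓ
  have : CharZero Ω := charZero_of_injective_algebraMap (algebraMap ℚ_[ℓ] Ω).injective
  have hfac : ∀ k : ℕ, 0 < ‖((k.factorial : ℕ) : Ω)‖ := fun k =>
    norm_natCast_ne_zero (Nat.factorial_ne_zero k)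
  obtain ⟨C', hC'0, hC'⟩ := exists_bound ℓ ρ hρ0 hρ
  obtain ⟨r, hr, hrr⟩ := exists_r ℓ ρ hρ0 hρ
  obtain ⟨κ, hκ⟩ : ∃ κ : ℕ, C' < (ℓ : ℝ) ^ κ :=
    pow_unbounded_of_one_lt C' hℓ1
  refine ⟨κ, fun m hm hκm D D_lt D_m D_le C E => ?_⟩
  -- the series
  set u : Ω⟦X⟧ := PowerSeries.mk fun N => if 2 ≤ N then y N else 0 with hu
  set ee : Ω⟦X⟧ := PowerSeries.mk fun j => y 1 ^ j / ((j.factorial : ℕ) : Ω) with hee
  have hconv := V_eq_conv y V V0 hV u hu ee hee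
  have hu2 : X ^ 2 ∣ u := by
    rw [X_pow_dvd_iff]
    intro k hk
    rw [hu, coeff_mk, if_neg (by omega)]
  have hun : ∀ n, ‖coeff n u‖ ≤ ρ := by
    intro n
    rw [hu, coeff_mk]
    split_ifs with h
    · exact hy n (by omega)
    · rw [norm_zero]
      exact hρ0.le
  set Ψ : Ω⟦X⟧ := PowerSeries.mk D * eser u with hΨ
  have hW0 : coeff 0 (eser u) = 1 := by simp [eser]
  have hΨlt : ∀ i < m, coeff i Ψ = 0 := by
    intro i hi
    rw [hΨ, coeff_mul]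
    apply Finset.sum_eq_zero
    intro p hp
    have := Finset.HasAntidiagonal.mem_antidiagonal.1 hp
    rw [coeff_mk, D_lt p.1 (by omega), zero_mul]
  have hΨm : coeff m Ψ = 1 := by
    rw [hΨ, coeff_mul, Finset.sum_eq_single (m, 0)]
    · rw [coeff_mk, D_m, hW0, one_mul]
    · intro p hp hne
      have := Finset.HasAntidiagonal.mem_antidiagonal.1 hp
      have h1 : p.1 < m := by
        by_contra hcon
        apply hne
        ext <;> simp <;> omega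
      rw [coeff_mk, D_lt p.1 h1, zero_mul]
    · intro h
      exact absurd (Finset.HasAntidiagonal.mem_antidiagonal.2 (by simp)) h
  have hΨd : ∀ d, ∃ j, 2 * j ≤ d ∧ ‖coeff (m + d) Ψ‖ ≤ ρ ^ j / ‖((j.factorial : ℕ) : Ω)‖ := by
    intro d
    have hne : (Finset.HasAntidiagonal.antidiagonal (m + d) : Finset (ℕ × ℕ)).Nonempty :=
      ⟨(m, d), Finset.HasAntidiagonal.mem_antidiagonal.2 rfl⟩
    obtain ⟨p, hp, hle⟩ := IsUltrametricDist.exists_norm_finsetSum_le_of_nonempty hne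
      (fun p => coeff p.1 (PowerSeries.mk D) * coeff p.2 (eser u))
    have hp' := Finset.HasAntidiagonal.mem_antidiagonal.1 hp
    rw [← coeff_mul, ← hΨ] at hle
    by_cases hpm : p.1 < m
    · refine ⟨0, by omega, hle.trans ?_⟩
      rw [coeff_mk, D_lt p.1 hpm, zero_mul, norm_zero]
      positivity
    · obtain ⟨j, hj1, hj2⟩ := norm_eser_le u ρ hρ0.le hun hu2 p.2
      refine ⟨j, by omega, hle.trans ?_⟩
      rw [coeff_mk, norm_mul]
      calc ‖D p.1‖ * ‖coeff p.2 (eser u)‖ ≤ 1 * ‖coeff p.2 (eser u)‖ :=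
            mul_le_mul_of_nonneg_right (D_le _) (norm_nonneg _)
        _ ≤ _ := by rw [one_mul]; exact hj2
  -- choose K
  have hBm : 0 < ‖(((m - 1).factorial : ℕ) : Ω)‖ / ρ ^ m := div_pos (hfac _) (by positivity)
  have e1 := eventually_lt_pow_pow r hr (‖(((m - 1).factorial : ℕ) : Ω)‖ / ρ ^ m / ℓ)
    (by positivity) ℓ hℓ C (E * ℓ)
  have e2 : ∀ᶠ K : ℕ in atTop, m ≤ K := eventually_ge_atTop m
  obtain ⟨K, hK1, hK2⟩ := (e1.and e2).exists
  refine ⟨K, ?_⟩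
  have hmA : m < ℓ ^ K := lt_of_le_of_lt hK2 (Nat.lt_pow_self hℓ)
  set A := ℓ ^ K with hA
  have hsum : ∑ i ∈ Finset.range (A + 1), D i * V (A - i) =
      ∑ i ∈ Finset.range (A + 1), coeff i Ψ * coeff (A - i) ee := by
    have h1 : PowerSeries.mk D * PowerSeries.mk V = Ψ * ee := by
      rw [hconv, hΨ, mul_assoc]
    have h2 := congrArg (coeff A) h1
    rw [coeff_mul, coeff_mul, Finset.Nat.sum_antidiagonal_eq_sum_range_succ
      (fun a b => coeff a (PowerSeries.mk D) * coeff b (PowerSeries.mk V)),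
      Finset.Nat.sum_antidiagonal_eq_sum_range_succ
      (fun a b => coeff a Ψ * coeff b ee)] at h2
    simpa using h2
  -- norm of e_{A-i}
  have hee_norm : ∀ i, i + 1 ≤ A → ‖coeff (A - (i + 1)) ee‖ =
      (ρ ^ A / ‖((A.factorial : ℕ) : Ω)‖ * ‖((A : ℕ) : Ω)‖) *
        (‖((i.factorial : ℕ) : Ω)‖ / ρ ^ (i + 1)) := by
    intro i hi
    have h1 := norm_factorial_sub ℓ (K := K) i hi
    rw [hee, coeff_mk, norm_div, norm_pow, hy1, norm_natCast_eq_padic ℓ A.factorial,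
      norm_natCast_eq_padic ℓ A, norm_natCast_eq_padic ℓ i.factorial,
      norm_natCast_eq_padic ℓ (A - (i + 1)).factorial, ← h1]
    have h2 : ∀ k : ℕ, k ≠ 0 → 0 < ‖(k : ℚ_[ℓ])‖ := fun k hk => by
      rw [norm_pos_iff]
      exact_mod_cast hk
    have h3 := h2 _ (Nat.factorial_ne_zero (A - (i + 1)))
    have h4 := h2 _ (Nat.factorial_ne_zero i)
    have h5 := h2 A (by omega)
    have h6 : ρ ^ A = ρ ^ (A - (i + 1)) * ρ ^ (i + 1) := by
      rw [← pow_add]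
      congr 1
      omega
    rw [h6]
    rw [← hA]
    field_simp
  have hmain : ‖∑ i ∈ Finset.range (A + 1), coeff i Ψ * coeff (A - i) ee‖ =
      ‖coeff m Ψ * coeff (A - m) ee‖ := by
    apply norm_sum_eq_of_dominant (Finset.range (A + 1)) (fun i => coeff i Ψ * coeff (A - i) ee) m
      (Finset.mem_range.2 (by omega))
    intro i hi him
    have hi' := Finset.mem_range.1 hi
    simp only [hΨm, one_mul]
    have hpos : 0 < ρ ^ A / ‖((A.factorial : ℕ) : Ω)‖ * ‖((A : ℕ) : Ω)‖ :=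
      mul_pos (div_pos (by positivity) (hfac _)) (norm_natCast_ne_zero (by omega))
    have hmm : m = (m - 1) + 1 := by omega
    have hem := hee_norm (m - 1) (by omega)
    rw [← hmm] at hem
    rcases lt_or_gt_of_ne him with hlt | hgt
    · rw [hΨlt i hlt, zero_mul, norm_zero, hem]
      exact mul_pos hpos hBm
    · obtain ⟨d, rfl⟩ : ∃ d, i = m + d := ⟨i - m, by omega⟩
      have hd : 0 < d := by omega
      obtain ⟨j, hj1, hj2⟩ := hΨd d
      have hei := hee_norm (m + d - 1) (by omega)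
      rw [show m + d - 1 + 1 = m + d by omega] at hei
      rw [norm_mul, hei, hem]
      -- key inequality
      have hkey : ρ ^ j / ‖((j.factorial : ℕ) : Ω)‖ *
          (‖(((m + d - 1).factorial : ℕ) : Ω)‖ / ρ ^ (m + d)) <
          ‖(((m - 1).factorial : ℕ) : Ω)‖ / ρ ^ m := by
        -- (m+d-1)! = (m-1)! * m * (d-1)! * choose
        obtain ⟨c, hc⟩ : ∃ c : ℕ, (m + d - 1).factorial =
            (m - 1).factorial * (m * (j.factorial * ((d - j - 1).factorial * c))) := by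
          have h1 : m.factorial * (d - 1).factorial ∣ (m + d - 1).factorial := by
            have := Nat.factorial_mul_factorial_dvd_factorial_add m (d - 1)
            rwa [show m + (d - 1) = m + d - 1 by omega] at this
          have h2 : j.factorial * (d - j - 1).factorial ∣ (d - 1).factorial := by
            have := Nat.factorial_mul_factorial_dvd_factorial_add j (d - j - 1)
            rwa [show j + (d - j - 1) = d - 1 by omega] at this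
          obtain ⟨c1, hc1⟩ := h1
          obtain ⟨c2, hc2⟩ := h2
          refine ⟨c2 * c1, ?_⟩
          rw [hc1, hc2, ← Nat.mul_factorial_pred hm.ne']
          ring
        have hcn : ‖(c : Ω)‖ ≤ 1 := IsUltrametricDist.norm_natCast_le_one Ω c
        have hmn : ‖(m : Ω)‖ ≤ ((ℓ : ℝ) ^ κ)⁻¹ := by
          obtain ⟨m', hm'⟩ := hκm
          rw [hm', Nat.cast_mul, norm_mul, norm_natCast_eq_padic ℓ (ℓ ^ κ), Nat.cast_pow,
            Padic.norm_p_pow, zpow_neg, zpow_natCast]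
          have := IsUltrametricDist.norm_natCast_le_one Ω m'
          have h3 : 0 < ((ℓ : ℝ) ^ κ)⁻¹ := by positivity
          nlinarith
        have hB := hC' (d - j - 1)
        rw [show d - j - 1 + 1 = d - j by omega, ← norm_natCast_eq_padic ℓ (Ω := Ω)] at hB
        rw [hc]
        simp only [Nat.cast_mul, norm_mul]
        have h6 : ρ ^ (m + d) = ρ ^ m * (ρ ^ j * ρ ^ (d - j)) := by
          rw [← pow_add, ← pow_add]
          congr 1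
          omega
        rw [h6]
        have hj0 := hfac j
        have hdj := hfac (d - j - 1)
        have hm1 := hfac (m - 1)
        have h7 : ρ ^ j / ‖((j.factorial : ℕ) : Ω)‖ *
            (‖(((m - 1).factorial : ℕ) : Ω)‖ * (‖(m : Ω)‖ * (‖((j.factorial : ℕ) : Ω)‖ *
              (‖(((d - j - 1).factorial : ℕ) : Ω)‖ * ‖(c : Ω)‖))) /
                (ρ ^ m * (ρ ^ j * ρ ^ (d - j)))) =
            (‖(((m - 1).factorial : ℕ) : Ω)‖ / ρ ^ m) *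
              (‖(m : Ω)‖ * (‖(((d - j - 1).factorial : ℕ) : Ω)‖ / ρ ^ (d - j)) * ‖(c : Ω)‖) := by
          field_simp
        rw [h7]
        have h8 : ‖(m : Ω)‖ * (‖(((d - j - 1).factorial : ℕ) : Ω)‖ / ρ ^ (d - j)) * ‖(c : Ω)‖ < 1 := by
          calc ‖(m : Ω)‖ * (‖(((d - j - 1).factorial : ℕ) : Ω)‖ / ρ ^ (d - j)) * ‖(c : Ω)‖
              ≤ ((ℓ : ℝ) ^ κ)⁻¹ * C' * 1 := by
                apply mul_le_mul _ hcn (norm_nonneg _) (by positivity)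
                exact mul_le_mul hmn hB (by positivity) (by positivity)
            _ < 1 := by
                rw [mul_one, inv_mul_eq_div, div_lt_one (by positivity)]
                exact hκ
        calc _ < ‖(((m - 1).factorial : ℕ) : Ω)‖ / ρ ^ m * 1 :=
              mul_lt_mul_of_pos_left h8 hBm
          _ = _ := mul_one _
      calc ‖coeff (m + d) Ψ‖ * ((ρ ^ A / ‖((A.factorial : ℕ) : Ω)‖ * ‖((A : ℕ) : Ω)‖) *
            (‖(((m + d - 1).factorial : ℕ) : Ω)‖ / ρ ^ (m + d)))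
          ≤ ρ ^ j / ‖((j.factorial : ℕ) : Ω)‖ *
            ((ρ ^ A / ‖((A.factorial : ℕ) : Ω)‖ * ‖((A : ℕ) : Ω)‖) *
            (‖(((m + d - 1).factorial : ℕ) : Ω)‖ / ρ ^ (m + d))) := by
            apply mul_le_mul_of_nonneg_right hj2
            positivity
        _ = (ρ ^ A / ‖((A.factorial : ℕ) : Ω)‖ * ‖((A : ℕ) : Ω)‖) *
            (ρ ^ j / ‖((j.factorial : ℕ) : Ω)‖ *
            (‖(((m + d - 1).factorial : ℕ) : Ω)‖ / ρ ^ (m + d))) := by ring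
        _ < _ := mul_lt_mul_of_pos_left hkey hpos
  have hmm : m = (m - 1) + 1 := by omega
  have hem := hee_norm (m - 1) (by omega)
  rw [← hmm] at hem
  rw [hsum, hmain, hΨm, one_mul, hem]
  have hAn : ‖((A : ℕ) : Ω)‖ = ((ℓ : ℝ) ^ K)⁻¹ := by
    rw [norm_natCast_eq_padic ℓ A, hA, Nat.cast_pow, Padic.norm_p_pow, zpow_neg, zpow_natCast]
  have heA := norm_eA ℓ ρ r hρ0 hr hrr K
  rw [← hA, ← norm_natCast_eq_padic ℓ (Ω := Ω)] at heA
  have hℓK : 0 < (ℓ : ℝ) ^ K := by positivity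
  calc C * E ^ K = (C * (E * ℓ) ^ K) * ((ℓ : ℝ) ^ K)⁻¹ := by
        rw [mul_pow]
        field_simp
    _ < (‖(((m - 1).factorial : ℕ) : Ω)‖ / ρ ^ m / ℓ * r ^ A) * ((ℓ : ℝ) ^ K)⁻¹ :=
        mul_lt_mul_of_pos_right hK1 (by positivity)
    _ = (r ^ A / ℓ * ((ℓ : ℝ) ^ K)⁻¹) * (‖(((m - 1).factorial : ℕ) : Ω)‖ / ρ ^ m) := by ring
    _ ≤ (ρ ^ A / ‖((A.factorial : ℕ) : Ω)‖ * ((ℓ : ℝ) ^ K)⁻¹) *
          (‖(((m - 1).factorial : ℕ) : Ω)‖ / ρ ^ m) := by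
        apply mul_le_mul_of_nonneg_right _ hBm.le
        exact mul_le_mul_of_nonneg_right heA (by positivity)
    _ = _ := by rw [hAn]

end NDS
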