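import Pool.Agent.H7.NDS.ModD3c

/-!
# Module D3: the choice of the `ℓ`-adic embedding
-/

open Polynomial

namespace NDS

section core

variable {q : ℕ} [NeZero q] {R Ω : Type*} [CommRing R] [IsDomain R]

omit [IsDomain R] in
/-- Claim 2. -/
lemma core_bound [NormedField Ω] [IsUltrametricDist Ω] (lam : R →+ ℤ)
    (ψ : DirichletCharacter R q) {ζ : Ω} (hζ : IsPrimitiveRoot ζ q) {M : ℝ} (hM0 : 0 ≤ M)
    (hM : ∀ t : ZMod q, ‖Z lam ψ ζ 1 t‖ ≤ M) {D m : ℕ} (hq : q = D * m) (k₀ : ZMod q) :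
    ‖(m : Ω)‖ * ‖∑ j ∈ Finset.range D, ((lam (ψ (k₀ + (m * j : ℕ))) : ℤ) : Ω) * (ζ ^ m) ^ j‖
      ≤ M := by
  have h1 := partial_inversion hζ hq (fun k => ((lam (ψ k) : ℤ) : Ω)) k₀
  rw [← norm_mul, ← h1]
  apply IsUltrametricDist.norm_sum_le_of_forall_le_of_nonneg hM0
  intro s _
  rw [norm_mul, norm_pow, norm_root (NeZero.ne q) hζ.pow_eq_one, one_pow, one_mul]
  have h2 := hM (1 + (D * s : ℕ))
  unfold Z at h2
  simpa only [one_mul] using h2

end core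

/-- splitting a sum into even and odd indices -/
lemma sum_range_even_odd {A : Type*} [AddCommMonoid A] (f : ℕ → A) (N : ℕ) :
    ∑ j ∈ Finset.range (2 * N), f j = ∑ i ∈ Finset.range N, (f (2 * i) + f (2 * i + 1)) := by
  induction N with
  | zero => simp
  | succ N ih =>
    rw [show 2 * (N + 1) = 2 * N + 1 + 1 by ring, Finset.sum_range_succ, Finset.sum_range_succ,
      Finset.sum_range_succ, ih, add_assoc]

lemma zmod2_aux : ∀ x : ZMod 2, IsUnit x → ¬ IsUnit (x + 1) := by decide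

section primes

variable {q : ℕ} [NeZero q] {R Ω : Type*} [CommRing R] [IsDomain R]

/-- The case `ℓ = 2`, `4 ∣ q`. -/
lemma case_two [Fact (Nat.Prime 2)] [NormedField Ω] [NormedAlgebra ℚ_[2] Ω]
    [IsUltrametricDist Ω] (lam : R →+ ℤ)
    (ψ : DirichletCharacter R q) (hψ : ψ.IsPrimitive) {ζ : Ω} (hζ : IsPrimitiveRoot ζ q) {M : ℝ}
    (hM0 : 0 ≤ M) (hM : ∀ t : ZMod q, ‖Z lam ψ ζ 1 t‖ ≤ M) (h4 : 2 ^ 2 ∣ q)
    (k₀ : (ZMod q)ˣ) (hk : ¬ ((2 : ℕ) : ℤ) ∣ lam (ψ k₀)) : 1 / 4 < M := by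
  have hq0 : q ≠ 0 := NeZero.ne q
  -- write `q = 2^(e+2) * m`
  obtain ⟨f, m, hm, hqm⟩ := Nat.exists_eq_pow_mul_and_not_dvd hq0 2 (by norm_num)
  have hf : 2 ≤ f := by
    by_contra hlt
    push Not at hlt
    have h5 : 2 ^ 2 ∣ 2 ^ f * m := by rwa [hqm] at h4
    interval_cases f
    · apply hm
      exact (Nat.dvd_trans (by norm_num : 2 ∣ 2 ^ 2) (by simpa using h5))
    · apply hm
      rw [pow_one, pow_two] at h5
      exact Nat.dvd_of_mul_dvd_mul_left (by norm_num) h5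
  obtain ⟨e, rfl⟩ : ∃ e, f = e + 2 := ⟨f - 2, by omega⟩
  have h2q : 2 ∣ q := Nat.dvd_trans (by norm_num) h4
  have hhalf : q / 2 = 2 ^ (e + 1) * m := by
    rw [hqm, show (2 : ℕ) ^ (e + 2) * m = 2 * (2 ^ (e + 1) * m) by ring]
    exact Nat.mul_div_cancel_left _ (by norm_num)
  have hcore := core_bound lam ψ hζ hM0 hM hqm (k₀ : ZMod q)
  rw [norm_nat_of_not_dvd (ℓ := 2) hm, one_mul] at hcore
  set ω := ζ ^ m with hω
  have hωp : IsPrimitiveRoot ω (2 ^ (e + 2)) := hζ.pow (Nat.pos_of_ne_zero hq0) (by rw [hqm]; ring)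
  set ξ := ω ^ 2 with hξ
  have hξp : IsPrimitiveRoot ξ (2 ^ (e + 1)) := hωp.pow (by positivity) (by ring)
  -- odd terms vanish
  have hodd : ∀ i : ℕ, ψ ((k₀ : ZMod q) + (m * (2 * i + 1) : ℕ)) = 0 := by
    intro i
    apply MulChar.map_nonunit
    intro hu
    have h5 : IsUnit (ZMod.castHom h2q (ZMod 2) ((k₀ : ZMod q) + (m * (2 * i + 1) : ℕ))) :=
      hu.map _
    have h6 : IsUnit (ZMod.castHom h2q (ZMod 2) (k₀ : ZMod q)) := k₀.isUnit.map _
    rw [map_add, map_natCast] at h5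
    have h7 : ((m * (2 * i + 1) : ℕ) : ZMod 2) = 1 := by
      have : ((m * (2 * i + 1) : ℕ) : ZMod 2) = ((1 : ℕ) : ZMod 2) := by
        rw [ZMod.natCast_eq_natCast_iff']
        have h8 : m % 2 = 1 := by omega
        rw [Nat.mul_mod, h8]
        omega
      simpa using this
    rw [h7] at h5
    exact zmod2_aux _ h6 h5
  -- antiperiodicity
  have hanti : ∀ k : ZMod q, ψ (k + ((q / 2 : ℕ) : ZMod q)) = -ψ k := by
    intro k
    by_cases hku : IsUnit k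
    · obtain ⟨k, rfl⟩ := hku
      obtain ⟨θ, h5, h6, -, h7⟩ := exists_theta (ℓ := 2) h4 ψ hψ k
      have h8 := h7 1
      rw [Nat.cast_one, one_mul, pow_one] at h8
      rw [h8]
      have h9 : θ = -1 := by
        have h10 : (θ - 1) * (θ + 1) = 0 := by linear_combination h6
        rcases mul_eq_zero.1 h10 with h11 | h11
        · exact absurd (sub_eq_zero.1 h11) h5
        · exact eq_neg_of_add_eq_zero_left h11
      rw [h9, mul_neg, mul_one]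
    · have h5 : ¬ IsUnit (k + ((q / 2 : ℕ) : ZMod q)) := by
        have := isUnit_shift_iff (ℓ := 2) h4 k 1
        rw [Nat.cast_one, one_mul] at this
        rwa [this]
      rw [MulChar.map_nonunit _ h5, MulChar.map_nonunit _ hku, neg_zero]
  have hξhalf : ξ ^ (2 ^ e) = -1 := by
    have h5 : (ξ ^ (2 ^ e)) ^ 2 = 1 := by
      rw [← pow_mul, show 2 ^ e * 2 = 2 ^ (e + 1) by ring, hξp.pow_eq_one]
    have h6 : ξ ^ (2 ^ e) ≠ 1 := by
      intro h7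
      have h8 := hξp.dvd_of_pow_eq_one _ h7
      have h9 := Nat.le_of_dvd (by positivity) h8
      rw [pow_succ] at h9
      have : 0 < 2 ^ e := by positivity
      omega
    have h10 : (ξ ^ (2 ^ e) - 1) * (ξ ^ (2 ^ e) + 1) = 0 := by linear_combination h5
    rcases mul_eq_zero.1 h10 with h11 | h11
    · exact absurd (sub_eq_zero.1 h11) h6
    · exact eq_neg_of_add_eq_zero_left h11
  set a : ℕ → ℤ := fun i => lam (ψ ((k₀ : ZMod q) + (m * (2 * i) : ℕ))) with ha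
  have hsum : ∑ j ∈ Finset.range (2 ^ (e + 2)),
      ((lam (ψ ((k₀ : ZMod q) + (m * j : ℕ))) : ℤ) : Ω) * ω ^ j =
      2 * ∑ i ∈ Finset.range (2 ^ e), (a i : Ω) * ξ ^ i := by
    rw [show 2 ^ (e + 2) = 2 * (2 ^ e + 2 ^ e) by ring, sum_range_even_odd]
    have h5 : ∀ i ∈ Finset.range (2 ^ e + 2 ^ e),
        ((lam (ψ ((k₀ : ZMod q) + (m * (2 * i) : ℕ))) : ℤ) : Ω) * ω ^ (2 * i) +
        ((lam (ψ ((k₀ : ZMod q) + (m * (2 * i + 1) : ℕ))) : ℤ) : Ω) * ω ^ (2 * i + 1) =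
        (a i : Ω) * ξ ^ i := by
      intro i _
      rw [hodd i, map_zero, Int.cast_zero, zero_mul, add_zero, hξ, ← pow_mul ω 2 i]
    rw [Finset.sum_congr rfl h5, Finset.sum_range_add, two_mul]
    congr 1
    apply Finset.sum_congr rfl
    intro i _
    have h6 : a (2 ^ e + i) = -a i := by
      have h7 : (k₀ : ZMod q) + (m * (2 * (2 ^ e + i)) : ℕ) =
          ((k₀ : ZMod q) + (m * (2 * i) : ℕ)) + ((q / 2 : ℕ) : ZMod q) := by
        rw [hhalf]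
        push_cast
        ring
      simp only [ha]
      rw [h7, hanti, map_neg]
    rw [h6, pow_add, hξhalf]
    push_cast
    ring
  rw [hsum, norm_mul] at hcore
  have h5 := norm_sum_root_gt (ℓ := 2) hξp (N := 2 ^ e) (by simp) a ⟨0, by positivity, by
    simpa [ha] using hk⟩
  have h6 : ‖(2 : Ω)‖ = 1 / 2 := by
    have := norm_prime (ℓ := 2) (Ω := Ω)
    simpa using this
  rw [h6] at hcore
  have h7 : ((2 : ℕ) : ℝ)⁻¹ = 1 / 2 := by norm_num
  rw [h7] at h5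
  linarith

/-- `27 ∣ q` is impossible for `ℓ = 3`. -/
lemma not_27_dvd [Fact (Nat.Prime 3)] (ψ : DirichletCharacter R q) (hψ : ψ.IsPrimitive)
    (hval : ∀ u : (ZMod q)ˣ, ψ u ^ 6 = 1) : ¬ 27 ∣ q := by
  rintro ⟨r, hr⟩
  have h9 : 3 ^ 2 ∣ q := ⟨3 * r, by rw [hr]; ring⟩
  have hne := psi_shift_ne_one (ℓ := 3) h9 ψ hψ
  obtain ⟨hh, hlh⟩ := shift_facts (q := q) (ℓ := 3) h9
  have h3 : q / 3 = 9 * r := by omega
  have hqz : (27 : ZMod q) * (r : ZMod q) = 0 := by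
    have : ((27 * r : ℕ) : ZMod q) = 0 := by rw [← hr]; simp
    simpa using this
  rw [h3] at hne hh hlh
  push_cast at hne hh hlh
  have hcube : (1 + 3 * (r : ZMod q)) ^ 3 = 1 + 9 * (r : ZMod q) := by
    linear_combination ((r : ZMod q) + (r : ZMod q) ^ 2) * hqz
  have hcube2 : (1 + 9 * (r : ZMod q)) ^ 3 = 1 := by
    linear_combination (1 + 9 * (r : ZMod q) + 27 * (r : ZMod q) ^ 2) * hqz
  have hu : IsUnit (1 + 3 * (r : ZMod q)) := by
    apply IsUnit.of_mul_eq_one ((1 + 3 * (r : ZMod q)) ^ 2 * (1 + 9 * (r : ZMod q)) ^ 2)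
    calc (1 + 3 * (r : ZMod q)) * ((1 + 3 * (r : ZMod q)) ^ 2 * (1 + 9 * (r : ZMod q)) ^ 2)
        = (1 + 3 * (r : ZMod q)) ^ 3 * (1 + 9 * (r : ZMod q)) ^ 2 := by ring
      _ = (1 + 9 * (r : ZMod q)) ^ 3 := by rw [hcube]; ring
      _ = 1 := hcube2
  obtain ⟨u, hu⟩ := hu
  have h6 := hval u
  rw [hu] at h6
  have h7 : ψ (1 + 9 * (r : ZMod q)) ^ 2 = 1 := by
    rw [← hcube, map_pow, ← pow_mul]
    exact h6
  have h8 : ψ (1 + 9 * (r : ZMod q)) ^ 3 = 1 := by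
    rw [← map_pow, hcube2, map_one]
  apply hne
  calc ψ (1 + 9 * (r : ZMod q)) = ψ (1 + 9 * (r : ZMod q)) * ψ (1 + 9 * (r : ZMod q)) ^ 2 := by
        rw [h7, mul_one]
    _ = ψ (1 + 9 * (r : ZMod q)) ^ 3 := by ring
    _ = 1 := h8

lemma zmod3_aux : ∀ x y : ZMod 3, x ≠ 0 → y ≠ 0 → (x + y = 0 ∨ x + 2 * y = 0) := by decide

lemma zmod3_three : (3 : ZMod 3) = 0 := by decide

lemma zmod3_unit : ∀ x : ZMod 3, IsUnit x → x ≠ 0 := by decide

/-- The case `ℓ = 3`, `9 ∣ q`, `n = 6`. -/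
lemma case_three [Fact (Nat.Prime 3)] [NormedField Ω] [NormedAlgebra ℚ_[3] Ω]
    [IsUltrametricDist Ω] (lam : R →+ ℤ)
    (ψ : DirichletCharacter R q) (hψ : ψ.IsPrimitive) (hval : ∀ u : (ZMod q)ˣ, ψ u ^ 6 = 1)
    {ζ : Ω} (hζ : IsPrimitiveRoot ζ q) {M : ℝ}
    (hM0 : 0 ≤ M) (hM : ∀ t : ZMod q, ‖Z lam ψ ζ 1 t‖ ≤ M) (h9 : 3 ^ 2 ∣ q)
    (k₀ : (ZMod q)ˣ) (hk : ¬ ((3 : ℕ) : ℤ) ∣ lam (ψ k₀)) : 1 / 27 < M ^ 2 := by
  have hq0 : q ≠ 0 := NeZero.ne q
  obtain ⟨m, hqm⟩ := h9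
  have hm : ¬ 3 ∣ m := by
    rintro ⟨r, hr⟩
    exact not_27_dvd ψ hψ hval ⟨r, by rw [hqm, hr]; ring⟩
  have h9 : 3 ^ 2 ∣ q := ⟨m, hqm⟩
  have h3q : 3 ∣ q := Nat.dvd_trans (by norm_num) h9
  have hthird : q / 3 = 3 * m := by omega
  have hcore := core_bound lam ψ hζ hM0 hM hqm (k₀ : ZMod q)
  rw [norm_nat_of_not_dvd (ℓ := 3) hm, one_mul] at hcore
  set ω := ζ ^ m with hω
  have hωp : IsPrimitiveRoot ω (3 ^ (1 + 1)) :=
    hζ.pow (Nat.pos_of_ne_zero hq0) (by rw [hqm]; ring)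
  -- relation
  have hωrel : ω ^ 6 + ω ^ 3 + 1 = 0 := by
    have h5 : ω ^ 9 = 1 := hωp.pow_eq_one
    have h6 : ω ^ 3 ≠ 1 := by
      intro h7
      have h8 := hωp.dvd_of_pow_eq_one _ h7
      revert h8
      decide
    have h10 : (ω ^ 3 - 1) * (ω ^ 6 + ω ^ 3 + 1) = 0 := by linear_combination h5
    exact (mul_eq_zero.1 h10).resolve_left (sub_ne_zero.2 h6)
  -- sums over cosets
  have hcos : ∀ k : ZMod q, lam (ψ k) + lam (ψ (k + ((3 * m : ℕ) : ZMod q))) +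
      lam (ψ (k + ((6 * m : ℕ) : ZMod q))) = 0 := by
    intro k
    by_cases hku : IsUnit k
    · obtain ⟨k, rfl⟩ := hku
      obtain ⟨θ, h5, h6, -, h7⟩ := exists_theta (ℓ := 3) h9 ψ hψ k
      have h8 := h7 1
      have h10 := h7 2
      rw [hthird] at h8 h10
      have h11 : (k : ZMod q) + ((1 : ℕ) : ZMod q) * ((3 * m : ℕ) : ZMod q) =
        (k : ZMod q) + ((3 * m : ℕ) : ZMod q) := by push_cast; ring
      have h12 : (k : ZMod q) + ((2 : ℕ) : ZMod q) * ((3 * m : ℕ) : ZMod q) =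
        (k : ZMod q) + ((6 * m : ℕ) : ZMod q) := by push_cast; ring
      rw [h11] at h8
      rw [h12] at h10
      rw [h8, h10, ← map_add, ← map_add]
      have h13 : 1 + θ + θ ^ 2 = 0 := by
        have h14 : (θ - 1) * (1 + θ + θ ^ 2) = 0 := by linear_combination h6
        exact (mul_eq_zero.1 h14).resolve_left (sub_ne_zero.2 h5)
      have h15 : ψ (k : ZMod q) + ψ (k : ZMod q) * θ ^ 1 + ψ (k : ZMod q) * θ ^ 2 = 0 := by
        linear_combination ψ (k : ZMod q) * h13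
      rw [h15, map_zero]
    · have h5 : ¬ IsUnit (k + ((3 * m : ℕ) : ZMod q)) := by
        have := isUnit_shift_iff (ℓ := 3) h9 k 1
        rw [Nat.cast_one, one_mul, hthird] at this
        rwa [this]
      have h6 : ¬ IsUnit (k + ((6 * m : ℕ) : ZMod q)) := by
        have := isUnit_shift_iff (ℓ := 3) h9 k 2
        have h12 : k + ((2 : ℕ) : ZMod q) * ((3 * m : ℕ) : ZMod q) =
          k + ((6 * m : ℕ) : ZMod q) := by push_cast; ring
        rw [hthird, h12] at this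
        rwa [this]
      rw [MulChar.map_nonunit _ h5, MulChar.map_nonunit _ hku, MulChar.map_nonunit _ h6]
      simp
  set c : ℕ → ℤ := fun j => lam (ψ ((k₀ : ZMod q) + (m * j : ℕ))) with hc
  have hc3 : ∀ j : ℕ, c j + c (j + 3) + c (j + 6) = 0 := by
    intro j
    have h5 := hcos ((k₀ : ZMod q) + (m * j : ℕ))
    have h6 : (k₀ : ZMod q) + (m * j : ℕ) + ((3 * m : ℕ) : ZMod q) =
        (k₀ : ZMod q) + (m * (j + 3) : ℕ) := by push_cast; ring
    have h7 : (k₀ : ZMod q) + (m * j : ℕ) + ((6 * m : ℕ) : ZMod q) =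
        (k₀ : ZMod q) + (m * (j + 6) : ℕ) := by push_cast; ring
    rw [h6, h7] at h5
    exact h5
  have hc0 : ¬ (3 : ℤ) ∣ c 0 := by simpa [hc] using hk
  have hzero : (∀ i : ℕ, c (3 * i + 1) = 0) ∨ (∀ i : ℕ, c (3 * i + 2) = 0) := by
    have hx : ZMod.castHom h3q (ZMod 3) (k₀ : ZMod q) ≠ 0 := zmod3_unit _ (k₀.isUnit.map _)
    have hy : (m : ZMod 3) ≠ 0 := by
      rw [Ne, ZMod.natCast_eq_zero_iff]
      exact hm
    have h3z : (3 : ZMod 3) = 0 := zmod3_three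
    have hnon : ∀ j : ℕ, ZMod.castHom h3q (ZMod 3) (k₀ : ZMod q) + (m : ZMod 3) * (j : ZMod 3) = 0 →
        c j = 0 := by
      intro j hj
      simp only [hc]
      rw [MulChar.map_nonunit, map_zero]
      intro hu
      have h5 : IsUnit (ZMod.castHom h3q (ZMod 3) ((k₀ : ZMod q) + (m * j : ℕ))) := hu.map _
      rw [map_add, map_natCast, Nat.cast_mul] at h5
      exact zmod3_unit _ h5 hj
    rcases zmod3_aux _ _ hx hy with h5 | h5
    · left
      intro i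
      apply hnon
      push_cast
      linear_combination h5 + (m : ZMod 3) * (i : ZMod 3) * h3z
    · right
      intro i
      apply hnon
      push_cast
      linear_combination h5 + (m : ZMod 3) * (i : ZMod 3) * h3z
  -- the reduced combination
  set a : ℕ → ℤ := fun j => if j < 3 then c j - c (j + 6) else c j - c (j + 3) with ha
  have hsum : ∑ j ∈ Finset.range (3 ^ 2),
      ((lam (ψ ((k₀ : ZMod q) + (m * j : ℕ))) : ℤ) : Ω) * ω ^ j =
      ∑ i ∈ Finset.range 6, (a i : Ω) * ω ^ i := by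
    have h5 : ∀ j, ((lam (ψ ((k₀ : ZMod q) + (m * j : ℕ))) : ℤ) : Ω) * ω ^ j =
      (c j : Ω) * ω ^ j := fun j => rfl
    simp only [h5]
    rw [show (3 : ℕ) ^ 2 = 9 by norm_num]
    simp only [Finset.sum_range_succ, Finset.sum_range_zero, ha]
    norm_num
    linear_combination ((c 6 : Ω) + (c 7 : Ω) * ω + (c 8 : Ω) * ω ^ 2) * hωrel
  rw [hsum] at hcore
  have hinv3 : ((3 : ℕ) : ℝ)⁻¹ = 1 / 3 := by norm_num
  by_cases hall : ∃ i < 6, ¬ (((3 : ℕ) : ℤ) ∣ a i)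
  · have h5 := norm_sum_root_gt (ℓ := 3) hωp (N := 6) (by norm_num) a hall
    rw [hinv3] at h5
    have h6 : 1 / 3 < M := lt_of_lt_of_le h5 hcore
    nlinarith
  · push Not at hall
    choose! a' ha' using hall
    have ha0 : a 0 = 3 * a' 0 := ha' 0 (by norm_num)
    have ha1 : a 1 = 3 * a' 1 := ha' 1 (by norm_num)
    have ha2 : a 2 = 3 * a' 2 := ha' 2 (by norm_num)
    have ha3 : a 3 = 3 * a' 3 := ha' 3 (by norm_num)
    have ha4 : a 4 = 3 * a' 4 := ha' 4 (by norm_num)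
    have ha5 : a 5 = 3 * a' 5 := ha' 5 (by norm_num)
    have e0 : a 0 = c 0 - c 6 := rfl
    have e1 : a 1 = c 1 - c 7 := rfl
    have e2 : a 2 = c 2 - c 8 := rfl
    have e3 : a 3 = c 3 - c 6 := rfl
    have e4 : a 4 = c 4 - c 7 := rfl
    have e5 : a 5 = c 5 - c 8 := rfl
    have s0 : c 0 + c 3 + c 6 = 0 := hc3 0
    have s1 : c 1 + c 4 + c 7 = 0 := hc3 1
    have s2 : c 2 + c 5 + c 8 = 0 := hc3 2
    have hP : ∑ i ∈ Finset.range 6, (a i : Ω) * ω ^ i =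
        3 * ∑ i ∈ Finset.range 6, (a' i : Ω) * ω ^ i := by
      rw [Finset.mul_sum]
      apply Finset.sum_congr rfl
      intro i hi
      rw [ha' i (Finset.mem_range.1 hi)]
      push_cast
      ring
    have hnot : ¬ (((3 : ℕ) : ℤ) ∣ ∑ i ∈ Finset.range 6, a' i ∧
        ((3 : ℕ) : ℤ) ∣ ∑ i ∈ Finset.range 6, i * a' i) := by
      simp only [Finset.sum_range_succ, Finset.sum_range_zero]
      push_cast
      rcases hzero with h5 | h5
      · have z1 : c 1 = 0 := h5 0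
        have z4 : c 4 = 0 := h5 1
        have z7 : c 7 = 0 := h5 2
        omega
      · have z2 : c 2 = 0 := h5 0
        have z5 : c 5 = 0 := h5 1
        have z8 : c 8 = 0 := h5 2
        omega
    have h5 := norm_sum_root_ge (ℓ := 3) hωp (N := 6) (by norm_num) a' hnot
    have h6 := norm_one_sub_pow (ℓ := 3) hωp
    obtain ⟨h7, h8⟩ := norm_one_sub_lt_one (ℓ := 3) hωp
    rw [hinv3, show 3 ^ 1 * (3 - 1) = 6 by norm_num] at h6
    have h10 : ‖(3 : Ω)‖ = 1 / 3 := by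
      have := norm_prime (ℓ := 3) (Ω := Ω)
      rw [hinv3] at this
      simpa using this
    rw [hP, norm_mul, h10] at hcore
    set r := ‖1 - ω‖ with hr
    have h11 : 1 / 3 * r ≤ M := by linarith
    have h12 : 1 / 3 < r ^ 2 := by
      by_contra h13
      push Not at h13
      have h14 : (r ^ 2) ^ 3 ≤ (1 / 3) ^ 3 := pow_le_pow_left₀ (by positivity) h13 3
      rw [← pow_mul, h6] at h14
      norm_num at h14
    have h13 : (1 / 3 * r) ^ 2 ≤ M ^ 2 := pow_le_pow_left₀ (by positivity) h11 2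
    nlinarith

end primes

/-- D3. -/
theorem padic_choice (ℓ : ℕ) [Fact ℓ.Prime] {q : ℕ} [NeZero q] {R : Type*} [CommRing R]
    [IsDomain R] [CharZero R] (χ : DirichletCharacter R q) (hχ : χ.IsPrimitive)
    (n : ℕ) (hn : n = 4 ∨ n = 6) (hval : ∀ u : (ZMod q)ˣ, χ u ^ n = 1)
    (lam : R →+ ℤ) (k₀ : (ZMod q)ˣ) (hk : ¬ (ℓ : ℤ) ∣ lam (χ⁻¹ k₀)) :
    ∃ ζ : PadicAlgCl ℓ, IsPrimitiveRoot ζ q ∧
      (∀ t : (ZMod q)ˣ, ‖X lam χ ζ (χ t)‖ ≤ ‖X lam χ ζ 1‖) ∧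
      (¬ ℓ ∣ q → (ℓ : ℝ)⁻¹ < ‖X lam χ ζ 1‖) ∧
      (ℓ ∣ q → ((ℓ : ℝ)⁻¹) ^ ℓ < ‖X lam χ ζ 1‖ ^ (ℓ - 1)) := by
  classical
  have hℓ : Fact ℓ.Prime := inferInstance
  have hq0 : q ≠ 0 := NeZero.ne q
  have hn0 : n ≠ 0 := by omega
  -- the inverse character
  have hψ : χ⁻¹.IsPrimitive := by
    rw [DirichletCharacter.isPrimitive_def, DirichletCharacter.conductor_inv]
    exact hχ
  have hψval : ∀ u : (ZMod q)ˣ, χ⁻¹ u ^ n = 1 := by
    intro u
    have h1 : χ u * χ⁻¹ u = 1 := by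
      rw [← MulChar.mul_apply, mul_inv_cancel, MulChar.one_apply_coe]
    calc χ⁻¹ u ^ n = χ u ^ n * χ⁻¹ u ^ n := by rw [hval u, one_mul]
      _ = (χ u * χ⁻¹ u) ^ n := (mul_pow _ _ _).symm
      _ = 1 := by rw [h1, one_pow]
  -- maximal primitive root
  have hprim : (primitiveRoots q (PadicAlgCl ℓ)).Nonempty := by
    obtain ⟨ζ, hζ⟩ := HasEnoughRootsOfUnity.exists_primitiveRoot (PadicAlgCl ℓ) q
    exact ⟨ζ, (mem_primitiveRoots (Nat.pos_of_ne_zero hq0)).2 hζ⟩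
  obtain ⟨ζ, hζmem, hmax⟩ := Finset.exists_max_image (primitiveRoots q (PadicAlgCl ℓ))
    (fun ζ => ‖X lam χ ζ 1‖) hprim
  have hζ : IsPrimitiveRoot ζ q := isPrimitiveRoot_of_mem_primitiveRoots hζmem
  set M := ‖X lam χ ζ 1‖ with hMdef
  have hM0 : 0 ≤ M := norm_nonneg _
  have hunit : ∀ t : (ZMod q)ˣ, ‖X lam χ ζ (χ t)‖ ≤ M := by
    intro t
    rw [Z_unit, ← X_pow lam χ hζ.pow_eq_one]
    apply hmax
    rw [mem_primitiveRoots (Nat.pos_of_ne_zero hq0)]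
    apply hζ.pow_of_coprime
    exact ZMod.val_coe_unit_coprime t
  have hM : ∀ t : ZMod q, ‖Z lam χ⁻¹ ζ 1 t‖ ≤ M := by
    intro t
    by_cases ht : IsUnit t
    · obtain ⟨t, rfl⟩ := ht
      rw [← Z_unit]
      exact hunit t
    · rw [Z_nonunit lam χ⁻¹ hψ n hn0 hψval ζ t ht, norm_zero]
      exact hM0
  have hl1 : (1 : ℝ) < ℓ := by exact_mod_cast hℓ.out.one_lt
  have hlpos : (0 : ℝ) < (ℓ : ℝ)⁻¹ := by positivity
  have hllt : (ℓ : ℝ)⁻¹ < 1 := inv_lt_one_of_one_lt₀ hl1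
  -- D = 1
  have hbase : ‖(q : PadicAlgCl ℓ)‖ ≤ M := by
    have h1 := core_bound lam χ⁻¹ hζ hM0 hM (D := 1) (m := q) (by simp) (k₀ : ZMod q)
    rw [Finset.sum_range_one, pow_zero, mul_one, mul_zero, Nat.cast_zero, add_zero,
      norm_int_of_not_dvd (ℓ := ℓ) hk, mul_one] at h1
    exact h1
  refine ⟨ζ, hζ, hunit, ?_, ?_⟩
  · intro hlq
    rw [norm_nat_of_not_dvd (ℓ := ℓ) hlq] at hbase
    linarith
  · intro hlq
    by_cases hl2 : ℓ ^ 2 ∣ q
    · -- wild case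
      obtain ⟨θ, h1, h2, ⟨v, hv⟩, -⟩ := exists_theta (ℓ := ℓ) hl2 χ⁻¹ hψ 1
      have h3 : θ ^ n = 1 := by rw [hv]; exact hψval v
      have h4 : ¬ Nat.Coprime ℓ n := by
        intro hcop
        apply h1
        have h5 : θ ^ (Nat.gcd ℓ n) = 1 := pow_gcd_eq_one.2 ⟨h2, h3⟩
        rw [hcop, pow_one] at h5
        exact h5
      have h5 : ℓ ∣ n := by
        by_contra h6
        exact h4 ((Nat.Prime.coprime_iff_not_dvd hℓ.out).2 h6)
      have h23 : ℓ = 2 ∨ (ℓ = 3 ∧ n = 6) := by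
        rcases hn with rfl | rfl
        · left
          have h6 : ℓ ∣ 2 ^ 2 := by norm_num; exact h5
          exact (Nat.prime_dvd_prime_iff_eq hℓ.out Nat.prime_two).1 (hℓ.out.dvd_of_dvd_pow h6)
        · have h6 : ℓ ∣ 2 * 3 := by norm_num; exact h5
          rcases (Nat.Prime.dvd_mul hℓ.out).1 h6 with h7 | h7
          · left
            exact (Nat.prime_dvd_prime_iff_eq hℓ.out Nat.prime_two).1 h7
          · right
            exact ⟨(Nat.prime_dvd_prime_iff_eq hℓ.out Nat.prime_three).1 h7, rfl⟩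
      rcases h23 with rfl | ⟨rfl, rfl⟩
      · have h6 := case_two lam χ⁻¹ hψ hζ hM0 hM hl2 k₀ hk
        norm_num
        linarith
      · have h6 := case_three lam χ⁻¹ hψ hψval hζ hM0 hM hl2 k₀ hk
        norm_num
        linarith
    · -- tame case
      obtain ⟨r, hr⟩ := hlq
      have hr' : ¬ ℓ ∣ r := by
        rintro ⟨s, hs⟩
        exact hl2 ⟨s, by rw [hr, hs]; ring⟩
      rw [hr, Nat.cast_mul, norm_mul, norm_prime, norm_nat_of_not_dvd (ℓ := ℓ) hr',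
        mul_one] at hbase
      calc ((ℓ : ℝ)⁻¹) ^ ℓ < ((ℓ : ℝ)⁻¹) ^ (ℓ - 1) :=
            pow_lt_pow_right_of_lt_one₀ hlpos hllt (Nat.sub_lt hℓ.out.pos one_pos)
        _ ≤ M ^ (ℓ - 1) := pow_le_pow_left₀ hlpos.le hbase _

end NDS
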