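import Pool.Agent.H7.NDS.ModD2

/-!
# Module D3a: `ℓ`-adic size of integer combinations of a root of unity of order `ℓ^e`
-/

open Polynomial

namespace NDS

section

variable {ℓ : ℕ} [hℓ : Fact ℓ.Prime] {Ω : Type*} [NormedField Ω] [NormedAlgebra ℚ_[ℓ] Ω]
  [IsUltrametricDist Ω]

omit [IsUltrametricDist Ω] in
lemma norm_intCast_eq_padic (z : ℤ) : ‖(z : Ω)‖ = ‖(z : ℚ_[ℓ])‖ := by
  rw [← map_intCast (algebraMap ℚ_[ℓ] Ω) z, norm_algebraMap']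

omit [IsUltrametricDist Ω] in
include hℓ in
lemma norm_int_le_one (z : ℤ) : ‖(z : Ω)‖ ≤ 1 := by
  rw [norm_intCast_eq_padic (ℓ := ℓ)]
  exact Padic.norm_int_le_one z

omit [IsUltrametricDist Ω] in
lemma norm_int_of_not_dvd {z : ℤ} (h : ¬ (ℓ : ℤ) ∣ z) : ‖(z : Ω)‖ = 1 := by
  rw [norm_intCast_eq_padic (ℓ := ℓ)]
  refine le_antisymm (Padic.norm_int_le_one z) (not_lt.1 fun hlt => h ?_)
  exact Padic.norm_intCast_lt_one_iff.1 hlt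

omit [IsUltrametricDist Ω] in
lemma norm_int_of_dvd {z : ℤ} (h : (ℓ : ℤ) ∣ z) : ‖(z : Ω)‖ ≤ (ℓ : ℝ)⁻¹ := by
  obtain ⟨w, rfl⟩ := h
  rw [norm_intCast_eq_padic (ℓ := ℓ), Int.cast_mul, norm_mul, Int.cast_natCast, Padic.norm_p]
  have h1 := Padic.norm_int_le_one (p := ℓ) w
  have h2 : (0 : ℝ) ≤ (ℓ : ℝ)⁻¹ := by positivity
  nlinarith

omit [IsUltrametricDist Ω] in
lemma norm_nat_of_not_dvd {z : ℕ} (h : ¬ ℓ ∣ z) : ‖(z : Ω)‖ = 1 := by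
  have := norm_int_of_not_dvd (ℓ := ℓ) (Ω := Ω) (z := (z : ℤ)) (by exact_mod_cast h)
  simpa using this

omit [IsUltrametricDist Ω] in
lemma norm_prime : ‖(ℓ : Ω)‖ = (ℓ : ℝ)⁻¹ := by
  rw [norm_natCast_eq_padic ℓ, Padic.norm_p]

omit [NormedAlgebra ℚ_[ℓ] Ω] [IsUltrametricDist Ω] hℓ in
lemma norm_root {ω : Ω} {k : ℕ} (hk : k ≠ 0) (h : ω ^ k = 1) : ‖ω‖ = 1 := by
  have h1 : ‖ω‖ ^ k = 1 := by rw [← norm_pow, h, norm_one]
  exact (pow_eq_one_iff_of_nonneg (norm_nonneg _) hk).1 h1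

/-- Evaluate an integer polynomial at a small element. -/
lemma norm_aeval_small {π : Ω} {φ : ℕ} (hφ : ‖π‖ ^ φ = (ℓ : ℝ)⁻¹) (B : ℤ[X]) {i₀ : ℕ}
    (hi₀ : i₀ < φ) (h₀ : ¬ (ℓ : ℤ) ∣ B.coeff i₀) (h : ∀ i < i₀, (ℓ : ℤ) ∣ B.coeff i) :
    ‖aeval π B‖ = ‖π‖ ^ i₀ := by
  have hl1 : (1 : ℝ) < ℓ := by exact_mod_cast hℓ.out.one_lt
  have hpos : 0 < ‖π‖ := by
    rcases (norm_nonneg π).eq_or_lt with h1 | h1
    · rw [← h1, zero_pow (by omega)] at hφ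
      have : (0 : ℝ) < (ℓ : ℝ)⁻¹ := by positivity
      linarith
    · exact h1
  have hlt : ‖π‖ < 1 := by
    by_contra h1
    push Not at h1
    have h2 : 1 ≤ ‖π‖ ^ φ := one_le_pow₀ h1
    rw [hφ] at h2
    have h3 : (ℓ : ℝ)⁻¹ < 1 := inv_lt_one_of_one_lt₀ hl1
    linarith
  have hdom : ‖((B.coeff i₀ : ℤ) : Ω) * π ^ i₀‖ = ‖π‖ ^ i₀ := by
    rw [norm_mul, norm_pow, norm_int_of_not_dvd (ℓ := ℓ) h₀, one_mul]
  rw [aeval_eq_sum_range, ← hdom]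
  have hne : B.coeff i₀ ≠ 0 := by
    intro h1
    rw [h1] at h₀
    exact h₀ (dvd_zero _)
  have hmem : i₀ ∈ Finset.range (B.natDegree + 1) := by
    rw [Finset.mem_range]
    have := le_natDegree_of_ne_zero hne
    omega
  have key := norm_sum_eq_of_dominant (Finset.range (B.natDegree + 1))
    (fun i => B.coeff i • π ^ i) i₀ hmem ?_
  · rw [key, zsmul_eq_mul]
  · intro i _ hi
    simp only [zsmul_eq_mul]
    rw [hdom, norm_mul, norm_pow]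
    rcases lt_or_gt_of_ne hi with h1 | h1
    · calc ‖((B.coeff i : ℤ) : Ω)‖ * ‖π‖ ^ i ≤ (ℓ : ℝ)⁻¹ * 1 := by
            apply mul_le_mul (norm_int_of_dvd (h i h1)) (pow_le_one₀ hpos.le hlt.le)
              (by positivity) (by positivity)
        _ = ‖π‖ ^ φ := by rw [mul_one, hφ]
        _ < ‖π‖ ^ i₀ := pow_lt_pow_right_of_lt_one₀ hpos hlt hi₀
    · calc ‖((B.coeff i : ℤ) : Ω)‖ * ‖π‖ ^ i ≤ 1 * ‖π‖ ^ i := by
            apply mul_le_mul_of_nonneg_right (norm_int_le_one (ℓ := ℓ) _) (by positivity)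
        _ = ‖π‖ ^ i := one_mul _
        _ < ‖π‖ ^ i₀ := pow_lt_pow_right_of_lt_one₀ hpos hlt h1

omit [NormedAlgebra ℚ_[ℓ] Ω] hℓ in
/-- `‖1 - μ‖ ≤ ‖1 - ν‖` for primitive roots of the same order. -/
lemma norm_one_sub_le {k : ℕ} [NeZero k] {μ ν : Ω} (hμ : IsPrimitiveRoot μ k)
    (hν : IsPrimitiveRoot ν k) : ‖1 - μ‖ ≤ ‖1 - ν‖ := by
  obtain ⟨i, _, rfl⟩ := hν.eq_pow_of_pow_eq_one hμ.pow_eq_one
  have h1 : (1 - ν) * ∑ j ∈ Finset.range i, ν ^ j = 1 - ν ^ i := by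
    rw [mul_comm, ← neg_sub ν 1, mul_neg, geom_sum_mul]
    ring
  rw [← h1, norm_mul]
  have h2 : ‖∑ j ∈ Finset.range i, ν ^ j‖ ≤ 1 := by
    apply IsUltrametricDist.norm_sum_le_of_forall_le_of_nonneg zero_le_one
    intro j _
    rw [norm_pow, norm_root (NeZero.ne k) hν.pow_eq_one, one_pow]
  nlinarith [norm_nonneg (1 - ν)]

omit [NormedAlgebra ℚ_[ℓ] Ω] hℓ in
lemma norm_one_sub_eq {k : ℕ} [NeZero k] {μ ν : Ω} (hμ : IsPrimitiveRoot μ k)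
    (hν : IsPrimitiveRoot ν k) : ‖1 - μ‖ = ‖1 - ν‖ :=
  le_antisymm (norm_one_sub_le hμ hν) (norm_one_sub_le hν hμ)

/-- `‖1 - ω‖ ^ φ(ℓ^(e+1)) = 1/ℓ`. -/
lemma norm_one_sub_pow {e : ℕ} {ω : Ω} (hω : IsPrimitiveRoot ω (ℓ ^ (e + 1))) :
    ‖1 - ω‖ ^ (ℓ ^ e * (ℓ - 1)) = (ℓ : ℝ)⁻¹ := by
  classical
  have : NeZero (ℓ ^ (e + 1)) := ⟨pow_ne_zero _ hℓ.out.ne_zero⟩
  have h1 : eval 1 (cyclotomic (ℓ ^ (e + 1)) Ω) = (ℓ : Ω) := eval_one_cyclotomic_prime_pow e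
  rw [cyclotomic_eq_prod_X_sub_primitiveRoots hω, eval_prod] at h1
  simp only [eval_sub, eval_X, eval_C] at h1
  have h2 : ‖∏ μ ∈ primitiveRoots (ℓ ^ (e + 1)) Ω, (1 - μ)‖ = (ℓ : ℝ)⁻¹ := by
    rw [h1, norm_prime]
  rw [norm_prod] at h2
  have h3 : ∏ μ ∈ primitiveRoots (ℓ ^ (e + 1)) Ω, ‖1 - μ‖ =
      ∏ _μ ∈ primitiveRoots (ℓ ^ (e + 1)) Ω, ‖1 - ω‖ := by
    apply Finset.prod_congr rfl
    intro μ hμ
    exact norm_one_sub_eq (isPrimitiveRoot_of_mem_primitiveRoots hμ) hω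
  rw [h3, Finset.prod_const, hω.card_primitiveRoots, Nat.totient_prime_pow_succ hℓ.out] at h2
  exact h2

/-- Integer combinations: the general statement. -/
lemma norm_aeval_root {e : ℕ} {ω : Ω} (hω : IsPrimitiveRoot ω (ℓ ^ (e + 1))) (A : ℤ[X])
    (hdeg : A.natDegree < ℓ ^ e * (ℓ - 1)) (hA : ∃ i, ¬ (ℓ : ℤ) ∣ A.coeff i) :
    ∃ i₀ : ℕ, i₀ < ℓ ^ e * (ℓ - 1) ∧ ‖aeval ω A‖ = ‖1 - ω‖ ^ i₀ ∧
      (∀ i < i₀, (ℓ : ℤ) ∣ (A.comp (1 - X)).coeff i) := by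
  classical
  set B : ℤ[X] := A.comp (1 - X) with hB
  have hBA : B.comp (1 - X) = A := by
    rw [hB, comp_assoc]
    simp
  have hex : ∃ i, ¬ (ℓ : ℤ) ∣ B.coeff i := by
    by_contra hno
    push Not at hno
    obtain ⟨i, hi⟩ := hA
    apply hi
    have h1 : C (ℓ : ℤ) ∣ B := (C_dvd_iff_dvd_coeff _ _).2 hno
    obtain ⟨B', hB'⟩ := h1
    have h2 : A = C (ℓ : ℤ) * B'.comp (1 - X) := by
      rw [← hBA, hB', mul_comp, C_comp]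
    rw [h2, coeff_C_mul]
    exact dvd_mul_right _ _
  have hspec := Nat.find_spec hex
  have hmin : ∀ i < Nat.find hex, (ℓ : ℤ) ∣ B.coeff i := fun i hi => by
    have := Nat.find_min hex hi
    push Not at this
    exact this
  have hdegB : B.natDegree ≤ A.natDegree := by
    rw [hB]
    refine le_trans natDegree_comp_le ?_
    have : (1 - X : ℤ[X]).natDegree ≤ 1 := by
      compute_degree
    nlinarith
  have hi₀ : Nat.find hex < ℓ ^ e * (ℓ - 1) := by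
    have hne : B.coeff (Nat.find hex) ≠ 0 := by
      intro h1
      rw [h1] at hspec
      exact hspec (dvd_zero _)
    have := le_natDegree_of_ne_zero hne
    omega
  refine ⟨Nat.find hex, hi₀, ?_, hmin⟩
  have h1 := norm_aeval_small (ℓ := ℓ) (norm_one_sub_pow hω) B hi₀ hspec hmin
  rw [← h1, hB, aeval_comp]
  simp

lemma norm_one_sub_lt_one {e : ℕ} {ω : Ω} (hω : IsPrimitiveRoot ω (ℓ ^ (e + 1))) :
    0 < ‖1 - ω‖ ∧ ‖1 - ω‖ < 1 := by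
  have hl1 : (1 : ℝ) < ℓ := by exact_mod_cast hℓ.out.one_lt
  have h1 := norm_one_sub_pow hω
  have hφ : 0 < ℓ ^ e * (ℓ - 1) :=
    Nat.mul_pos (pow_pos hℓ.out.pos _) (Nat.sub_pos_of_lt hℓ.out.one_lt)
  constructor
  · rcases (norm_nonneg (1 - ω)).eq_or_lt with h2 | h2
    · rw [← h2, zero_pow hφ.ne'] at h1
      have : (0 : ℝ) < (ℓ : ℝ)⁻¹ := by positivity
      linarith
    · exact h2
  · by_contra h2
    push Not at h2
    have h3 : 1 ≤ ‖1 - ω‖ ^ (ℓ ^ e * (ℓ - 1)) := one_le_pow₀ h2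
    rw [h1] at h3
    have h4 : (ℓ : ℝ)⁻¹ < 1 := inv_lt_one_of_one_lt₀ hl1
    linarith

/-- the polynomial `∑ a_i X^i`. -/
noncomputable def polyOf (a : ℕ → ℤ) (N : ℕ) : ℤ[X] := ∑ i ∈ Finset.range N, C (a i) * X ^ i

lemma polyOf_coeff (a : ℕ → ℤ) (N i : ℕ) : (polyOf a N).coeff i = if i < N then a i else 0 := by
  classical
  unfold polyOf
  rw [finsetSum_coeff]
  simp only [coeff_C_mul_X_pow]
  rw [Finset.sum_ite_eq]
  simp only [Finset.mem_range]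

lemma polyOf_natDegree (a : ℕ → ℤ) {N : ℕ} (hN : 0 < N) : (polyOf a N).natDegree < N := by
  rw [Nat.lt_iff_le_pred hN]
  apply natDegree_le_iff_coeff_eq_zero.2
  intro i hi
  rw [polyOf_coeff, if_neg (by omega)]

omit [NormedAlgebra ℚ_[ℓ] Ω] [IsUltrametricDist Ω] hℓ in
lemma polyOf_aeval (a : ℕ → ℤ) (N : ℕ) (ω : Ω) :
    aeval ω (polyOf a N) = ∑ i ∈ Finset.range N, (a i : Ω) * ω ^ i := by
  unfold polyOf
  rw [map_sum]
  apply Finset.sum_congr rfl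
  intro i _
  rw [map_mul, map_pow, aeval_X, aeval_C]
  simp

/-- L1 -/
lemma norm_sum_root_gt {e : ℕ} {ω : Ω} (hω : IsPrimitiveRoot ω (ℓ ^ (e + 1))) {N : ℕ}
    (hN : N = ℓ ^ e * (ℓ - 1)) (a : ℕ → ℤ) (ha : ∃ i < N, ¬ (ℓ : ℤ) ∣ a i) :
    (ℓ : ℝ)⁻¹ < ‖∑ i ∈ Finset.range N, (a i : Ω) * ω ^ i‖ := by
  have hφ : 0 < N := by
    rw [hN]
    exact Nat.mul_pos (pow_pos hℓ.out.pos _) (Nat.sub_pos_of_lt hℓ.out.one_lt)
  obtain ⟨i, hi, hai⟩ := ha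
  obtain ⟨i₀, hi₀, h1, -⟩ := norm_aeval_root hω (polyOf a N)
    (by rw [← hN]; exact polyOf_natDegree a hφ) ⟨i, by rw [polyOf_coeff, if_pos hi]; exact hai⟩
  rw [← polyOf_aeval, h1, ← norm_one_sub_pow hω]
  obtain ⟨h2, h3⟩ := norm_one_sub_lt_one hω
  exact pow_lt_pow_right_of_lt_one₀ h2 h3 hi₀

/-- L1' -/
lemma norm_sum_root_ge {e : ℕ} {ω : Ω} (hω : IsPrimitiveRoot ω (ℓ ^ (e + 1))) {N : ℕ}
    (hN : N = ℓ ^ e * (ℓ - 1)) (a : ℕ → ℤ)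
    (ha : ¬ ((ℓ : ℤ) ∣ ∑ i ∈ Finset.range N, a i ∧ (ℓ : ℤ) ∣ ∑ i ∈ Finset.range N, i * a i)) :
    ‖1 - ω‖ ≤ ‖∑ i ∈ Finset.range N, (a i : Ω) * ω ^ i‖ := by
  have hφ : 0 < N := by
    rw [hN]
    exact Nat.mul_pos (pow_pos hℓ.out.pos _) (Nat.sub_pos_of_lt hℓ.out.one_lt)
  have hex : ∃ i, ¬ (ℓ : ℤ) ∣ (polyOf a N).coeff i := by
    by_contra hno
    push Not at hno
    apply ha
    have h1 : ∀ i ∈ Finset.range N, (ℓ : ℤ) ∣ a i := by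
      intro i hi
      have := hno i
      rwa [polyOf_coeff, if_pos (Finset.mem_range.1 hi)] at this
    exact ⟨Finset.dvd_sum h1, Finset.dvd_sum fun i hi => Dvd.dvd.mul_left (h1 i hi) _⟩
  obtain ⟨i₀, hi₀, h1, hmin⟩ := norm_aeval_root hω (polyOf a N)
    (by rw [← hN]; exact polyOf_natDegree a hφ) hex
  have hc0 : ((polyOf a N).comp (1 - X)).coeff 0 = ∑ i ∈ Finset.range N, a i := by
    rw [coeff_zero_eq_eval_zero, eval_comp]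
    simp [polyOf, eval_finsetSum]
  have hc1 : ((polyOf a N).comp (1 - X)).coeff 1 = -∑ i ∈ Finset.range N, i * a i := by
    have h2 := coeff_derivative ((polyOf a N).comp (1 - X)) 0
    rw [Nat.cast_zero, zero_add, zero_add, mul_one, derivative_comp, coeff_zero_eq_eval_zero,
      eval_mul, eval_comp] at h2
    rw [← h2]
    simp [polyOf, eval_finsetSum]
    apply Finset.sum_congr rfl
    intro i _
    rw [derivative_X_pow]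
    simp
    ring
  have hi1 : i₀ ≤ 1 := by
    by_contra h2
    push Not at h2
    apply ha
    have h3 := hmin 0 (by omega)
    have h4 := hmin 1 (by omega)
    rw [hc0] at h3
    rw [hc1] at h4
    exact ⟨h3, (dvd_neg).1 h4⟩
  obtain ⟨h2, h3⟩ := norm_one_sub_lt_one hω
  rw [← polyOf_aeval, h1]
  calc ‖1 - ω‖ = ‖1 - ω‖ ^ 1 := (pow_one _).symm
    _ ≤ ‖1 - ω‖ ^ i₀ := pow_le_pow_of_le_one h2.le h3.le hi1

end

end NDS
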