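import Pool.Agent.H7.NDS.ModD3a

/-!
# Module D3b: primitive characters, nilpotent shifts, partial Gauss sums
-/

open Polynomial

namespace NDS

section char

variable {q : ℕ} [NeZero q] {R : Type*} [CommRing R] [IsDomain R]

/-- A primitive character is nontrivial on the kernel of reduction modulo a proper divisor. -/
lemma exists_unit_ne_one (ψ : DirichletCharacter R q) (hψ : ψ.IsPrimitive) (d : ℕ) (hd : d ∣ q)
    (hne : d ≠ q) : ∃ u : (ZMod q)ˣ, (d ∣ ((u : ZMod q) - 1).val) ∧ ψ u ≠ 1 := by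
  by_contra hno
  push Not at hno
  have hq : q ≠ 0 := NeZero.ne q
  have h1 : DirichletCharacter.FactorsThrough ψ d := by
    rw [DirichletCharacter.factorsThrough_iff_ker_unitsMap hd]
    intro u hu
    rw [MonoidHom.mem_ker] at hu ⊢
    have h2 : d ∣ ((u : ZMod q) - 1).val := by
      have h3 : ZMod.castHom hd (ZMod d) (u : ZMod q) = 1 := by
        have := congrArg (Units.val) hu
        simpa [ZMod.unitsMap_def] using this
      have h4 : ZMod.castHom hd (ZMod d) ((u : ZMod q) - 1) = 0 := by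
        rw [map_sub, h3, map_one, sub_self]
      have h5 : ((((u : ZMod q) - 1).val : ℕ) : ZMod d) = 0 := by
        rw [← h4]
        conv_rhs => rw [← ZMod.natCast_zmod_val ((u : ZMod q) - 1), map_natCast]
      exact (ZMod.natCast_eq_zero_iff _ _).1 h5
    have h6 := hno u h2
    apply Units.ext
    rw [MulChar.coe_toUnitHom, h6]
    rfl
  have h2 : ψ.conductor ≤ d := Nat.sInf_le h1
  rw [DirichletCharacter.isPrimitive_def] at hψ
  rw [hψ] at h2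
  exact hne (le_antisymm (Nat.le_of_dvd (Nat.pos_of_ne_zero hq) hd) h2)

/-- For a non-unit `t` there is a unit `u` with `u t = t` and `ψ u ≠ 1`. -/
lemma exists_unit_fix (ψ : DirichletCharacter R q) (hψ : ψ.IsPrimitive) (t : ZMod q)
    (ht : ¬ IsUnit t) : ∃ u : (ZMod q)ˣ, (u : ZMod q) * t = t ∧ ψ u ≠ 1 := by
  have hq : q ≠ 0 := NeZero.ne q
  set g := Nat.gcd t.val q with hg
  have hgq : g ∣ q := Nat.gcd_dvd_right _ _
  have hgt : g ∣ t.val := Nat.gcd_dvd_left _ _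
  have hg1 : g ≠ 1 := by
    intro h1
    apply ht
    have h2 : IsUnit ((t.val : ℕ) : ZMod q) := (ZMod.isUnit_iff_coprime _ _).2 h1
    rwa [ZMod.natCast_zmod_val] at h2
  have hg0 : 0 < g := Nat.gcd_pos_of_pos_right _ (Nat.pos_of_ne_zero hq)
  obtain ⟨d, hd⟩ := hgq
  obtain ⟨u, hu1, hu2⟩ := exists_unit_ne_one ψ hψ d ⟨g, by rw [hd, mul_comm]⟩ (by
    intro h1
    rw [← h1] at hd
    have h3 : d ≠ 0 := by rw [h1]; exact hq
    have h4 : g * d = 1 * d := by rw [← hd, one_mul]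
    exact hg1 (Nat.eq_of_mul_eq_mul_right (Nat.pos_of_ne_zero h3) h4))
  refine ⟨u, ?_, hu2⟩
  have h5 : ((u : ZMod q) - 1) * t = 0 := by
    rw [← ZMod.natCast_zmod_val ((u : ZMod q) - 1), ← ZMod.natCast_zmod_val t, ← Nat.cast_mul,
      ZMod.natCast_eq_zero_iff]
    obtain ⟨a, ha⟩ := hu1
    obtain ⟨b, hb⟩ := hgt
    rw [ha, hb]
    exact ⟨a * b, by rw [hd]; ring⟩
  linear_combination h5

/-- `(1 + x)^j = 1 + j x` if `x^2 = 0`. -/
lemma one_add_pow_of_sq_zero {A : Type*} [CommRing A] (x : A) (hx : x * x = 0) (j : ℕ) :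
    (1 + x) ^ j = 1 + j * x := by
  induction j with
  | zero => simp
  | succ j ih =>
    rw [pow_succ, ih]
    push_cast
    linear_combination (j : A) * hx

variable {ℓ : ℕ} [hℓ : Fact ℓ.Prime]

/-- The nilpotent element `h = q/ℓ`. -/
lemma shift_facts (hq : ℓ ^ 2 ∣ q) : (((q / ℓ : ℕ) : ZMod q) * ((q / ℓ : ℕ) : ZMod q) = 0) ∧
    ((ℓ : ZMod q) * ((q / ℓ : ℕ) : ZMod q) = 0) := by
  obtain ⟨r, hr⟩ := hq
  have h0 : 0 < ℓ := hℓ.out.pos
  have h1 : q / ℓ = ℓ * r := by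
    rw [hr, pow_two, mul_assoc, Nat.mul_div_cancel_left _ h0]
  constructor
  · rw [← Nat.cast_mul, ZMod.natCast_eq_zero_iff, h1]
    exact ⟨r, by rw [hr]; ring⟩
  · rw [← Nat.cast_mul, ZMod.natCast_eq_zero_iff, h1]
    exact ⟨1, by rw [hr]; ring⟩

lemma psi_shift_ne_one (hq : ℓ ^ 2 ∣ q) (ψ : DirichletCharacter R q) (hψ : ψ.IsPrimitive) :
    ψ (1 + ((q / ℓ : ℕ) : ZMod q)) ≠ 1 := by
  have hq0 : q ≠ 0 := NeZero.ne q
  obtain ⟨hh, hlh⟩ := shift_facts (q := q) (ℓ := ℓ) hq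
  obtain ⟨r, hr⟩ := hq
  have h0 : 0 < ℓ := hℓ.out.pos
  have h1 : q / ℓ = ℓ * r := by
    rw [hr, pow_two, mul_assoc, Nat.mul_div_cancel_left _ h0]
  have hne : q / ℓ ≠ q := by
    apply (Nat.div_lt_self (Nat.pos_of_ne_zero hq0) hℓ.out.one_lt).ne
  obtain ⟨u, hu1, hu2⟩ := exists_unit_ne_one ψ hψ (q / ℓ) ⟨ℓ, by rw [h1, hr]; ring⟩ hne
  intro h2
  apply hu2
  obtain ⟨s, hs⟩ := hu1
  have h3 : (u : ZMod q) = (1 + ((q / ℓ : ℕ) : ZMod q)) ^ s := by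
    rw [one_add_pow_of_sq_zero _ hh]
    have h4 : (u : ZMod q) - 1 = ((q / ℓ * s : ℕ) : ZMod q) := by
      rw [← hs, ZMod.natCast_zmod_val]
    rw [Nat.cast_mul] at h4
    linear_combination h4
  rw [h3, map_pow, h2, one_pow]

/-- The value `θ_k = ψ(1 + h k⁻¹)`: `ψ(k + s h) = ψ(k) θ^s` and `θ ≠ 1`, `θ^ℓ = 1`. -/
lemma exists_theta (hq : ℓ ^ 2 ∣ q) (ψ : DirichletCharacter R q) (hψ : ψ.IsPrimitive)
    (k : (ZMod q)ˣ) : ∃ θ : R, θ ≠ 1 ∧ θ ^ ℓ = 1 ∧ (∃ v : (ZMod q)ˣ, θ = ψ v) ∧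
      ∀ s : ℕ, ψ ((k : ZMod q) + s * ((q / ℓ : ℕ) : ZMod q)) = ψ k * θ ^ s := by
  obtain ⟨hh, hlh⟩ := shift_facts (q := q) (ℓ := ℓ) hq
  have hne := psi_shift_ne_one (ℓ := ℓ) hq ψ hψ
  set h : ZMod q := ((q / ℓ : ℕ) : ZMod q) with hdef
  have hx : (h * (k⁻¹ : (ZMod q)ˣ)) * (h * (k⁻¹ : (ZMod q)ˣ)) = 0 := by
    linear_combination ((k⁻¹ : (ZMod q)ˣ) : ZMod q) * ((k⁻¹ : (ZMod q)ˣ) : ZMod q) * hh
  have hkk : ((k⁻¹ : (ZMod q)ˣ) : ZMod q) * (k : ZMod q) = 1 := by simp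
  have hthl : ψ (1 + h * (k⁻¹ : (ZMod q)ˣ)) ^ ℓ = 1 := by
    rw [← map_pow, one_add_pow_of_sq_zero _ hx]
    have h1 : (1 : ZMod q) + ℓ * (h * (k⁻¹ : (ZMod q)ˣ)) = 1 := by
      linear_combination ((k⁻¹ : (ZMod q)ˣ) : ZMod q) * hlh
    rw [h1, map_one]
  have hunit : IsUnit (1 + h * (k⁻¹ : (ZMod q)ˣ) : ZMod q) := by
    apply IsUnit.of_mul_eq_one (1 - h * (k⁻¹ : (ZMod q)ˣ))
    linear_combination (-1 : ZMod q) * hx
  refine ⟨ψ (1 + h * (k⁻¹ : (ZMod q)ˣ)), ?_, hthl, ⟨hunit.unit, by rw [IsUnit.unit_spec]⟩, ?_⟩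
  · intro h1
    apply hne
    have h2 : (1 : ZMod q) + h = (1 + h * (k⁻¹ : (ZMod q)ˣ)) ^ ((k : ZMod q).val) := by
      rw [one_add_pow_of_sq_zero _ hx, ZMod.natCast_zmod_val]
      linear_combination (-h) * hkk
    rw [h2, map_pow, h1, one_pow]
  · intro s
    rw [← map_pow, one_add_pow_of_sq_zero _ hx, ← map_mul]
    congr 1
    linear_combination (-(s : ZMod q) * h) * hkk

/-- Shifting by `h` does not change being a unit. -/
lemma isUnit_shift_iff (hq : ℓ ^ 2 ∣ q) (k : ZMod q) (s : ℕ) :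
    IsUnit (k + s * ((q / ℓ : ℕ) : ZMod q)) ↔ IsUnit k := by
  obtain ⟨hh, hlh⟩ := shift_facts (q := q) (ℓ := ℓ) hq
  have key : ∀ (k : ZMod q) (z : ZMod q), z * z = 0 → IsUnit k → IsUnit (k + z) := by
    intro k z hz hk
    obtain ⟨k, rfl⟩ := hk
    have hkk : ((k⁻¹ : (ZMod q)ˣ) : ZMod q) * (k : ZMod q) = 1 := by simp
    have h1 : IsUnit (((k⁻¹ : (ZMod q)ˣ) : ZMod q) * ((k : ZMod q) + z)) := by
      apply IsUnit.of_mul_eq_one (1 - ((k⁻¹ : (ZMod q)ˣ) : ZMod q) * z)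
      linear_combination (-((k⁻¹ : (ZMod q)ˣ) : ZMod q) ^ 2) * hz +
        (1 - ((k⁻¹ : (ZMod q)ˣ) : ZMod q) * z) * hkk
    exact (Units.isUnit_units_mul _ _).1 h1
  constructor
  · intro h1
    have h2 := key _ (-(s * ((q / ℓ : ℕ) : ZMod q))) (by linear_combination (s : ZMod q) ^ 2 * hh) h1
    simpa using h2
  · intro h1
    exact key _ _ (by linear_combination (s : ZMod q) ^ 2 * hh) h1

end char

end NDS
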