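import Pool.Agent.H7.NDS.ModD3b

/-!
# Module D3c: partial Gauss sums
-/

open Polynomial

namespace NDS

/-- The `ℓ`-adic image of `g(b) = ∑_k λ(b χ⁻¹(k)) ζ^k`. -/
noncomputable def X {q : ℕ} [NeZero q] {R Ω : Type*} [CommRing R] [Field Ω]
    (lam : R →+ ℤ) (χ : DirichletCharacter R q) (ζ : Ω) (b : R) : Ω :=
  ∑ k : ZMod q, ((lam (b * χ⁻¹ k) : ℤ) : Ω) * ζ ^ k.val

section gauss

variable {q : ℕ} [NeZero q] {R Ω : Type*} [CommRing R] [IsDomain R]

/-- The twisted sum `∑_k λ(b ψ(k)) ζ^{tk}`. -/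
noncomputable def Z [Field Ω] (lam : R →+ ℤ) (ψ : DirichletCharacter R q) (ζ : Ω) (b : R)
    (t : ZMod q) : Ω :=
  ∑ k : ZMod q, ((lam (b * ψ k) : ℤ) : Ω) * ζ ^ (t * k).val

lemma zpow_val_add [Field Ω] {ζ : Ω} (hζ : ζ ^ q = 1) (a b : ZMod q) :
    ζ ^ (a + b).val = ζ ^ a.val * ζ ^ b.val := by
  rw [← AddChar.zmodChar_apply hζ, AddChar.map_add_eq_mul, AddChar.zmodChar_apply,
    AddChar.zmodChar_apply]

lemma zpow_val_natCast_mul [Field Ω] {ζ : Ω} (hζ : ζ ^ q = 1) (n : ℕ) (a : ZMod q) :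
    ζ ^ ((n : ZMod q) * a).val = (ζ ^ a.val) ^ n := by
  rw [← AddChar.zmodChar_apply hζ, ← nsmul_eq_mul, AddChar.map_nsmul_eq_pow,
    AddChar.zmodChar_apply]

lemma zpow_val_natCast [Field Ω] {ζ : Ω} (hζ : ζ ^ q = 1) (n : ℕ) :
    ζ ^ ((n : ZMod q)).val = ζ ^ n := by
  rw [← AddChar.zmodChar_apply hζ, AddChar.zmodChar_apply']

omit [IsDomain R] in
lemma Z_unit [Field Ω] (lam : R →+ ℤ) (χ : DirichletCharacter R q) (ζ : Ω) (t : (ZMod q)ˣ) :
    X lam χ ζ (χ t) = Z lam χ⁻¹ ζ 1 t := by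
  unfold X Z
  symm
  apply Fintype.sum_equiv (Units.mulLeft t)
  intro k
  have h1 : χ t * χ⁻¹ t = 1 := by
    rw [← MulChar.mul_apply, mul_inv_cancel, MulChar.one_apply_coe]
  have h2 : χ t * χ⁻¹ ((t : ZMod q) * k) = 1 * χ⁻¹ k := by
    rw [map_mul, ← mul_assoc, h1]
  rw [Units.mulLeft_apply, h2]

omit [IsDomain R] in
lemma X_pow [Field Ω] (lam : R →+ ℤ) (χ : DirichletCharacter R q) {ζ : Ω} (hζ : ζ ^ q = 1)
    (t : ZMod q) : X lam χ (ζ ^ t.val) 1 = Z lam χ⁻¹ ζ 1 t := by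
  unfold X Z
  apply Finset.sum_congr rfl
  intro k _
  congr 1
  have h1 : t * k = (k.val : ZMod q) * t := by rw [ZMod.natCast_zmod_val, mul_comm]
  rw [h1, zpow_val_natCast_mul hζ]

lemma Z_nonunit [Field Ω] [CharZero Ω] (lam : R →+ ℤ) (ψ : DirichletCharacter R q)
    (hψ : ψ.IsPrimitive) (n : ℕ) (hn : n ≠ 0) (hval : ∀ u : (ZMod q)ˣ, ψ u ^ n = 1)
    (ζ : Ω) (t : ZMod q) (ht : ¬ IsUnit t) : Z lam ψ ζ 1 t = 0 := by
  obtain ⟨u, hut, hu⟩ := exists_unit_fix ψ hψ t ht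
  -- invariance
  have hinv : ∀ b : R, Z lam ψ ζ b t = Z lam ψ ζ (b * ψ u) t := by
    intro b
    unfold Z
    symm
    apply Fintype.sum_equiv (Units.mulLeft u)
    intro k
    have h1 : b * ψ ((u : ZMod q) * k) = b * ψ u * ψ k := by rw [map_mul, mul_assoc]
    rw [Units.mulLeft_apply, h1, ← mul_assoc t, mul_comm t (u : ZMod q), hut]
  have hadd : ∀ b c : R, Z lam ψ ζ (b - c) t = Z lam ψ ζ b t - Z lam ψ ζ c t := by
    intro b c
    unfold Z
    rw [← Finset.sum_sub_distrib]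
    apply Finset.sum_congr rfl
    intro k _
    rw [sub_mul, map_sub, Int.cast_sub, sub_mul]
  have hzero : ∀ b : R, Z lam ψ ζ (b * (1 - ψ u)) t = 0 := by
    intro b
    rw [mul_sub, mul_one, hadd, ← hinv b, sub_self]
  -- n = (1 - x) * r
  have hgeom : ∑ i ∈ Finset.range n, ψ u ^ i = 0 := by
    have h1 := geom_sum_mul (ψ u) n
    rw [hval u, sub_self] at h1
    exact (mul_eq_zero.1 h1).resolve_right (sub_ne_zero.2 hu)
  have hdvd : ∃ r : R, (n : R) = r * (1 - ψ u) := by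
    have h1 : (n : R) = ∑ i ∈ Finset.range n, (1 - ψ u ^ i) := by
      rw [Finset.sum_sub_distrib, hgeom, sub_zero]
      simp
    have h2 : (1 - ψ u) ∣ (n : R) := by
      rw [h1]
      apply Finset.dvd_sum
      intro i _
      have := sub_dvd_pow_sub_pow (1 : R) (ψ u) i
      rwa [one_pow] at this
    obtain ⟨r, hr⟩ := h2
    exact ⟨r, by rw [hr, mul_comm]⟩
  obtain ⟨r, hr⟩ := hdvd
  have h3 : Z lam ψ ζ (n : R) t = 0 := by rw [hr]; exact hzero r
  have h4 : Z lam ψ ζ (n : R) t = n * Z lam ψ ζ 1 t := by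
    unfold Z
    rw [Finset.mul_sum]
    apply Finset.sum_congr rfl
    intro k _
    rw [one_mul, ← nsmul_eq_mul, map_nsmul, nsmul_eq_mul]
    push_cast
    ring
  rw [h4] at h3
  exact (mul_eq_zero.1 h3).resolve_left (by exact_mod_cast hn)

/-- Orthogonality over the residues `1 + D s`. -/
lemma partial_inversion [Field Ω] {ζ : Ω} (hζ : IsPrimitiveRoot ζ q) {D m : ℕ}
    (hq : q = D * m) (c : ZMod q → Ω) (k₀ : ZMod q) :
    ∑ s ∈ Finset.range m, ζ ^ (-((1 + (D * s : ℕ) : ZMod q) * k₀)).val *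
        ∑ k : ZMod q, c k * ζ ^ ((1 + (D * s : ℕ) : ZMod q) * k).val =
      m * ∑ j ∈ Finset.range D, c (k₀ + (m * j : ℕ)) * (ζ ^ m) ^ j := by
  classical
  have hζ1 : ζ ^ q = 1 := hζ.pow_eq_one
  have hq0 : q ≠ 0 := NeZero.ne q
  have hm0 : m ≠ 0 := by
    rintro rfl
    exact hq0 (by rw [hq, mul_zero])
  have hD0 : D ≠ 0 := by
    rintro rfl
    exact hq0 (by rw [hq, zero_mul])
  -- step 1: swap
  have h1 : ∀ s ∈ Finset.range m, ζ ^ (-((1 + (D * s : ℕ) : ZMod q) * k₀)).val *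
        ∑ k : ZMod q, c k * ζ ^ ((1 + (D * s : ℕ) : ZMod q) * k).val =
      ∑ x : ZMod q, c (k₀ + x) * ζ ^ x.val * (ζ ^ ((D : ZMod q) * x).val) ^ s := by
    intro s _
    rw [Finset.mul_sum, ← Equiv.sum_comp (Equiv.addLeft k₀)]
    apply Finset.sum_congr rfl
    intro x _
    rw [Equiv.coe_addLeft, mul_left_comm, ← zpow_val_add hζ1, mul_assoc]
    congr 1
    rw [← zpow_val_natCast_mul hζ1, ← zpow_val_add hζ1]
    congr 2
    push_cast
    ring
  rw [Finset.sum_congr rfl h1, Finset.sum_comm]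
  have h2 : ∀ x : ZMod q, ∑ s ∈ Finset.range m,
      c (k₀ + x) * ζ ^ x.val * (ζ ^ ((D : ZMod q) * x).val) ^ s =
      if (D : ZMod q) * x = 0 then m * (c (k₀ + x) * ζ ^ x.val) else 0 := by
    intro x
    rw [← Finset.mul_sum]
    split_ifs with hx
    · rw [hx]
      simp
      ring
    · have h3 : (ζ ^ ((D : ZMod q) * x).val) ^ m = 1 := by
        rw [← zpow_val_natCast_mul hζ1, ← mul_assoc]
        have h4 : (m : ZMod q) * (D : ZMod q) = 0 := by
          rw [← Nat.cast_mul, mul_comm, ← hq]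
          simp
        rw [h4, zero_mul]
        simp
      have h5 : ζ ^ ((D : ZMod q) * x).val ≠ 1 := by
        intro h6
        apply hx
        rw [← ZMod.val_eq_zero]
        have h7 := hζ.dvd_of_pow_eq_one _ h6
        exact Nat.eq_zero_of_dvd_of_lt h7 (ZMod.val_lt _)
      have h8 := geom_sum_mul (ζ ^ ((D : ZMod q) * x).val) m
      rw [h3, sub_self] at h8
      rw [(mul_eq_zero.1 h8).resolve_right (sub_ne_zero.2 h5), mul_zero]
  rw [Finset.sum_congr rfl (fun x _ => h2 x), ← Finset.sum_filter, Finset.mul_sum]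
  symm
  apply Finset.sum_bij (fun j _ => ((m * j : ℕ) : ZMod q))
  · intro j _
    rw [Finset.mem_filter]
    refine ⟨Finset.mem_univ _, ?_⟩
    rw [← Nat.cast_mul, ZMod.natCast_eq_zero_iff]
    exact ⟨j, by rw [hq]; ring⟩
  · intro i hi j hj hij
    rw [Finset.mem_range] at hi hj
    rw [ZMod.natCast_eq_natCast_iff'] at hij
    have hi' : m * i < q := by
      rw [hq, mul_comm D]
      exact Nat.mul_lt_mul_of_pos_left hi (Nat.pos_of_ne_zero hm0)
    have hj' : m * j < q := by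
      rw [hq, mul_comm D]
      exact Nat.mul_lt_mul_of_pos_left hj (Nat.pos_of_ne_zero hm0)
    rw [Nat.mod_eq_of_lt hi', Nat.mod_eq_of_lt hj'] at hij
    exact Nat.eq_of_mul_eq_mul_left (Nat.pos_of_ne_zero hm0) hij
  · intro x hx
    rw [Finset.mem_filter] at hx
    have h3 := hx.2
    rw [← ZMod.natCast_zmod_val x, ← Nat.cast_mul, ZMod.natCast_eq_zero_iff] at h3
    obtain ⟨r, hr⟩ := h3
    have h4 : x.val = m * r := by
      apply Nat.eq_of_mul_eq_mul_left (Nat.pos_of_ne_zero hD0)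
      rw [hr]
      conv_lhs => rw [hq]
      ring
    refine ⟨r, ?_, ?_⟩
    · rw [Finset.mem_range]
      have h5 := ZMod.val_lt x
      have h6 : m * r < m * D := by
        calc m * r = x.val := h4.symm
          _ < q := h5
          _ = m * D := by rw [hq]; ring
      exact lt_of_mul_lt_mul_left h6 (Nat.zero_le _)
    · rw [← h4, ZMod.natCast_zmod_val]
  · intro j _
    congr 2
    rw [zpow_val_natCast hζ1, pow_mul]

end gauss

end NDS
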