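import Mathlib

/-!
# The exponential of a power series converging on the unit disc
-/

open Complex Filter
open scoped Topology Nat

namespace NDS

lemma hasFPowerSeries_of_hasSum {y : ℕ → ℂ} {Y : ℂ → ℂ}
    (hY : ∀ q : ℂ, ‖q‖ < 1 → HasSum (fun N => y N * q ^ N) (Y q)) :
    HasFPowerSeriesOnBall Y (.ofScalars ℂ y) 0 1 := by
  constructor
  · refine le_of_forall_lt_imp_le_of_dense fun r hr ↦ ?_
    lift r to NNReal using hr.ne_top
    apply FormalMultilinearSeries.le_radius_of_summable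
    have h1 := (hY (r : ℂ) (by simpa using hr)).summable.norm
    refine h1.congr fun n => ?_
    rw [FormalMultilinearSeries.ofScalars_norm, norm_mul, norm_pow]
    simp
  · simp
  · intro q hq
    rw [← ENNReal.coe_one, Metric.eball_coe, NNReal.coe_one, mem_ball_zero_iff] at hq
    have h1 := hY q hq
    rw [zero_add]
    simpa [mul_comm] using h1

lemma iteratedDeriv_of_hasSum {y : ℕ → ℂ} {Y : ℂ → ℂ}
    (hY : ∀ q : ℂ, ‖q‖ < 1 → HasSum (fun N => y N * q ^ N) (Y q)) (n : ℕ) :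
    iteratedDeriv n Y 0 = n ! * y n := by
  have h1 := (hasFPowerSeries_of_hasSum hY).hasFPowerSeriesAt
  have h2 := h1.analyticAt.hasFPowerSeriesAt
  have h3 := congr_arg (FormalMultilinearSeries.coeff · n) (h2.eq_formalMultilinearSeries h1)
  simp only [FormalMultilinearSeries.coeff_ofScalars] at h3
  rw [← h3]
  have : (n ! : ℂ) ≠ 0 := by exact_mod_cast n.factorial_ne_zero
  field_simp

theorem exp_series (y : ℕ → ℂ) (hy0 : y 0 = 0) (Y : ℂ → ℂ)
    (hY : ∀ q : ℂ, ‖q‖ < 1 → HasSum (fun N => y N * q ^ N) (Y q)) :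
    ∃ V : ℕ → ℂ, V 0 = 1 ∧
      (∀ n : ℕ, 1 ≤ n → (n : ℂ) * V n = ∑ N ∈ Finset.Icc 1 n, (N : ℂ) * y N * V (n - N)) ∧
      ∀ q : ℂ, ‖q‖ < 1 → HasSum (fun n => V n * q ^ n) (Complex.exp (Y q)) := by
  have hps := hasFPowerSeries_of_hasSum hY
  have hYd : DifferentiableOn ℂ Y (Metric.ball 0 1) := by
    have := hps.differentiableOn
    rwa [← ENNReal.coe_one, Metric.eball_coe, NNReal.coe_one] at this
  have hYa : AnalyticAt ℂ Y 0 := hps.analyticAt
  set W : ℂ → ℂ := fun q => Complex.exp (Y q) with hW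
  have hWd : DifferentiableOn ℂ W (Metric.ball 0 1) := hYd.cexp
  have hWa : AnalyticAt ℂ W 0 := hYa.cexp
  have hY0 : Y 0 = 0 := by
    have := iteratedDeriv_of_hasSum hY 0
    simpa [hy0] using this
  refine ⟨fun n => iteratedDeriv n W 0 / (n ! : ℕ), ?_, ?_, ?_⟩
  · simp [hW, hY0]
  · intro n hn
    obtain ⟨k, rfl⟩ : ∃ k, n = k + 1 := ⟨n - 1, by omega⟩
    have hev : deriv W =ᶠ[𝓝 0] (deriv Y * W) := by
      filter_upwards [Metric.ball_mem_nhds (0 : ℂ) one_pos] with q hq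
      have hd : DifferentiableAt ℂ Y q := (hYd q hq).differentiableAt (Metric.isOpen_ball.mem_nhds hq)
      have h1 := hd.hasDerivAt.cexp.deriv
      show deriv (fun q => Complex.exp (Y q)) q = deriv Y q * Complex.exp (Y q)
      rw [h1, mul_comm]
    have hD : iteratedDeriv (k + 1) W 0 = iteratedDeriv k (deriv Y * W) 0 := by
      rw [iteratedDeriv_succ']
      exact hev.iteratedDeriv_eq k
    rw [iteratedDeriv_mul (hYa.deriv.contDiffAt) hWa.contDiffAt] at hD
    have hre : ∑ N ∈ Finset.Icc 1 (k + 1), (N : ℂ) * y N *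
        (iteratedDeriv (k + 1 - N) W 0 / ((k + 1 - N)! : ℕ)) =
        ∑ i ∈ Finset.range (k + 1), ((i + 1 : ℕ) : ℂ) * y (i + 1) *
          (iteratedDeriv (k - i) W 0 / ((k - i)! : ℕ)) := by
      have e1 : Finset.Icc 1 (k + 1) = Finset.Ico (0 + 1) (k + 1 + 1) := by
        rfl
      rw [e1, Finset.range_eq_Ico, ← Finset.sum_Ico_add' (fun N : ℕ => (N : ℂ) * y N *
        (iteratedDeriv (k + 1 - N) W 0 / ((k + 1 - N)! : ℕ))) 0 (k + 1) 1]
      refine Finset.sum_congr rfl fun i _ => ?_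
      have e2 : k + 1 - (i + 1) = k - i := by omega
      rw [e2]
    rw [hre]
    show ((k + 1 : ℕ) : ℂ) * (iteratedDeriv (k + 1) W 0 / ((k + 1)! : ℕ)) = _
    rw [hD, Finset.sum_div, Finset.mul_sum]
    refine Finset.sum_congr rfl fun i hi => ?_
    have hi' : i ≤ k := by simpa [Nat.lt_succ_iff] using hi
    have e3 : iteratedDeriv i (deriv Y) 0 = ((i + 1)! : ℕ) * y (i + 1) := by
      rw [← iteratedDeriv_succ']
      exact iteratedDeriv_of_hasSum hY (i + 1)
    rw [e3, Nat.cast_choose ℂ hi', Nat.factorial_succ, Nat.factorial_succ]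
    have f1 : ((k ! : ℕ) : ℂ) ≠ 0 := by exact_mod_cast k.factorial_ne_zero
    have f2 : ((i ! : ℕ) : ℂ) ≠ 0 := by exact_mod_cast i.factorial_ne_zero
    have f3 : (((k - i)! : ℕ) : ℂ) ≠ 0 := by exact_mod_cast (k - i).factorial_ne_zero
    have f4 : ((k : ℂ) + 1) ≠ 0 := by exact_mod_cast k.succ_ne_zero
    push_cast
    field_simp
  · intro q hq
    have h1 := Complex.hasSum_taylorSeries_on_ball (c := 0) (r := 1) (f := W) (by simpa using hWd)
      (z := q) (by simpa using hq)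
    rw [show (fun n : ℕ => iteratedDeriv n W 0 / ((n ! : ℕ) : ℂ) * q ^ n) =
      fun n : ℕ => ((n ! : ℕ) : ℂ)⁻¹ • (q - 0) ^ n • iteratedDeriv n W 0 from ?_]
    · exact h1
    · funext n
      rw [sub_zero, smul_eq_mul, smul_eq_mul]
      ring

end NDS
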