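import Pool.Agent.H7.NDS.Transform
import Pool.Agent.H7.NDS.ModE2

/-!
# The function `L_λ` : `q`-expansion and growth
-/

open Complex Filter
open UpperHalfPlane hiding I
open scoped MatrixGroups ComplexConjugate Real Topology

namespace NDS

variable {q₁ q₂ : ℕ} (χ₁ : DirichletCharacter ℂ q₁) (χ₂ : DirichletCharacter ℂ q₂)

/-- The `N`-th coefficient of `f` as a power series in `q = e(z)`. -/
noncomputable def fc (N : ℕ) : ℂ :=
  ∑ p ∈ N.divisorsAntidiagonal, χ₁ (p.1 : ZMod q₁) * conj (χ₂ (p.2 : ZMod q₂)) / (p.1 : ℂ)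

lemma fc_zero : fc χ₁ χ₂ 0 = 0 := by simp [fc]

lemma hasSum_fc {z : ℂ} (hz : 0 < z.im) :
    HasSum (fun N : ℕ => fc χ₁ χ₂ N * e z ^ N) (f χ₁ χ₂ z) := by
  have h := hasSum_f χ₁ χ₂ hz
  rw [← sigmaAntidiagonalEquivProd.hasSum_iff] at h
  have h2 := h.sigma (fun n => hasSum_fintype _)
  rw [← Function.Injective.hasSum_iff PNat.coe_injective]
  · rw [show ((fun N : ℕ => fc χ₁ χ₂ N * e z ^ N) ∘ fun n : ℕ+ => (n : ℕ)) = _ from ?_]
    · exact h2
    funext n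
    simp only [Function.comp]
    rw [fc, Finset.sum_mul, ← Finset.sum_coe_sort (n : ℕ).divisorsAntidiagonal]
    refine Finset.sum_congr rfl fun x _ => ?_
    have hx := (Nat.mem_divisorsAntidiagonal.mp x.2).1
    simp only [sigmaAntidiagonalEquivProd, Equiv.coe_fn_mk, divisorsAntidiagonalFactors, ft,
      PNat.mk_coe]
    rw [← Nat.cast_mul, e_nat_mul, hx]
  · intro N hN
    have : N = 0 := by
      by_contra h0
      exact hN ⟨⟨N, Nat.pos_of_ne_zero h0⟩, rfl⟩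
    rw [this, fc_zero, zero_mul]

lemma e_im_axis {r : ℝ} (h0 : 0 < r) (h1 : r < 1) :
    ∃ z : ℂ, 0 < z.im ∧ e z = r := by
  have hpi := Real.pi_pos
  refine ⟨((-Real.log r / (2 * π) : ℝ) : ℂ) * I, ?_, ?_⟩
  · have : Real.log r < 0 := Real.log_neg h0 h1
    simp only [Complex.mul_im, Complex.ofReal_re, Complex.I_im, mul_one, Complex.ofReal_im,
      Complex.I_re, mul_zero, add_zero]
    apply div_pos <;> linarith
  · rw [e]
    have : (2 * π * I * (((-Real.log r / (2 * π) : ℝ) : ℂ) * I)) = ((Real.log r : ℝ) : ℂ) := by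
      push_cast
      have : (π : ℂ) ≠ 0 := by exact_mod_cast hpi.ne'
      field_simp
      rw [Complex.I_sq]; ring
    rw [this, ← Complex.ofReal_exp, Real.exp_log h0]

lemma summable_fc {q : ℂ} (hq : ‖q‖ < 1) : Summable (fun N : ℕ => fc χ₁ χ₂ N * q ^ N) := by
  set r : ℝ := max ‖q‖ (1 / 2) with hr
  have hr0 : 0 < r := lt_of_lt_of_le (by norm_num) (le_max_right _ _)
  have hr1 : r < 1 := max_lt hq (by norm_num)
  obtain ⟨z, hz, hez⟩ := e_im_axis hr0 hr1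
  have h1 := (hasSum_fc χ₁ χ₂ hz).summable.norm
  refine Summable.of_norm_bounded h1 fun N => ?_
  rw [norm_mul, norm_mul, norm_pow, norm_pow, hez, Complex.norm_real, Real.norm_of_nonneg hr0.le]
  gcongr
  exact le_max_left _ _

/-- `|f(z)| ≤ C / Im z`. -/
lemma norm_f_le : ∃ C : ℝ, 0 ≤ C ∧ ∀ z : ℂ, 0 < z.im → ‖f χ₁ χ₂ z‖ ≤ C / z.im := by
  have hpi := Real.pi_pos
  refine ⟨(∑' A : ℕ+, 1 / ((A : ℕ) : ℝ) ^ 2) / (2 * π), by positivity, fun z hz => ?_⟩
  set r := Real.exp (-2 * π * z.im) with hr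
  have hr0 : 0 < r := Real.exp_pos _
  have hr1 : r < 1 := exp_lt_one_of_im_pos hz
  have hs := summable_geo hr0.le hr1
  have hs2 : Summable (fun p : ℕ+ × ℕ+ => r ^ ((p.1 : ℕ) * (p.2 : ℕ)) / (p.1 : ℕ)) := by
    refine Summable.of_nonneg_of_le (fun p => by positivity) (fun p => ?_) hs
    apply div_le_self (by positivity)
    exact_mod_cast p.1.pos
  have h1 : ‖f χ₁ χ₂ z‖ ≤ ∑' p : ℕ+ × ℕ+, r ^ ((p.1 : ℕ) * (p.2 : ℕ)) / (p.1 : ℕ) :=
    tsum_of_norm_bounded hs2.hasSum fun p => norm_ft_le χ₁ χ₂ p z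
  refine h1.trans ?_
  rw [hs2.tsum_prod]
  have hA : ∀ A : ℕ+, ∑' n : ℕ+, r ^ ((A : ℕ) * (n : ℕ)) / (A : ℕ) ≤
      1 / ((A : ℕ) : ℝ) ^ 2 * (1 / (2 * π * z.im)) := by
    intro A
    have hA0 : (0 : ℝ) < (A : ℕ) := by exact_mod_cast A.pos
    set x := r ^ (A : ℕ) with hx
    have hx0 : 0 < x := by positivity
    have hx1 : x < 1 := pow_lt_one₀ hr0.le hr1 A.pos.ne'
    have e1 : ∀ n : ℕ+, r ^ ((A : ℕ) * (n : ℕ)) / (A : ℕ) = x ^ (n : ℕ) / (A : ℕ) := by
      intro n; rw [hx, pow_mul]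
    have e2 : ∑' n : ℕ+, x ^ (n : ℕ) / ((A : ℕ) : ℝ) = x / (1 - x) / (A : ℕ) := by
      rw [tsum_div_const, tsum_pnat_eq_tsum_succ (f := fun n : ℕ => x ^ n)]
      congr 1
      have : ∀ n : ℕ, x ^ (n + 1) = x * x ^ n := fun n => by ring
      simp_rw [this]
      rw [tsum_mul_left, tsum_geometric_of_lt_one hx0.le hx1]
      rfl
    rw [tsum_congr e1, e2]
    have h3 : x / (1 - x) ≤ 1 / (2 * π * z.im * (A : ℕ)) := by
      have hs0 : 0 < 2 * π * z.im * (A : ℕ) := by positivity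
      have h4 : x = (Real.exp (2 * π * z.im * (A : ℕ)))⁻¹ := by
        rw [hx, hr, ← Real.exp_nat_mul, ← Real.exp_neg]; congr 1; ring
      have h5 := Real.add_one_le_exp (2 * π * z.im * (A : ℕ))
      rw [div_le_div_iff₀ (by linarith) hs0, one_mul]
      have h6 : x * Real.exp (2 * π * z.im * (A : ℕ)) = 1 := by
        rw [h4]; exact inv_mul_cancel₀ (Real.exp_pos _).ne'
      nlinarith
    calc x / (1 - x) / ((A : ℕ) : ℝ) ≤ 1 / (2 * π * z.im * (A : ℕ)) / (A : ℕ) := by gcongr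
      _ = _ := by field_simp
  have hsA : Summable (fun A : ℕ+ => 1 / ((A : ℕ) : ℝ) ^ 2) :=
    (Real.summable_one_div_nat_pow.mpr (by norm_num : 1 < 2)).comp_injective PNat.coe_injective
  have h7 := Summable.tsum_le_tsum hA hs2.prod (hsA.mul_right _)
  refine h7.trans (le_of_eq ?_)
  rw [tsum_mul_right]
  field_simp

end NDS
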