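import Pool.Agent.H7.NDS.ModE3
import Pool.Agent.H7.NDS.ModC4

/-!
# The function `L_λ` and the root `v = exp(L_λ/ℓ)`
-/

open Complex Filter
open UpperHalfPlane hiding I
open scoped MatrixGroups ComplexConjugate Real Topology Manifold ModularForm CongruenceSubgroup

namespace NDS

set_option linter.unusedSectionVars false

variable {q₁ q₂ : ℕ} (χ₁ : DirichletCharacter ℂ q₁) (χ₂ : DirichletCharacter ℂ q₂)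

/-- The function `L_λ`, for `λ(x) = δx + conj(δx)`. -/
noncomputable def Lam (δ : ℂ) (z : ℂ) : ℂ :=
  -(δ * G χ₁⁻¹ * f χ₁ χ₂ z + conj δ * G χ₁ * f χ₁⁻¹ χ₂⁻¹ z)

/-- Its coefficients. -/
noncomputable def cc (δ : ℂ) (N : ℕ) : ℂ :=
  -(δ * G χ₁⁻¹ * fc χ₁ χ₂ N + conj δ * G χ₁ * fc χ₁⁻¹ χ₂⁻¹ N)

lemma cc_zero (δ : ℂ) : cc χ₁ χ₂ δ 0 = 0 := by simp [cc, fc_zero]

lemma hasSum_cc (δ : ℂ) {z : ℂ} (hz : 0 < z.im) :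
    HasSum (fun N : ℕ => cc χ₁ χ₂ δ N * e z ^ N) (Lam χ₁ χ₂ δ z) := by
  have h1 := (hasSum_fc χ₁ χ₂ hz).mul_left (δ * G χ₁⁻¹)
  have h2 := (hasSum_fc χ₁⁻¹ χ₂⁻¹ hz).mul_left (conj δ * G χ₁)
  have h3 := (h1.add h2).neg
  unfold Lam
  rw [show (fun N : ℕ => cc χ₁ χ₂ δ N * e z ^ N) = _ from ?_]
  · exact h3
  funext N
  unfold cc
  ring

lemma summable_cc (δ : ℂ) {q : ℂ} (hq : ‖q‖ < 1) : Summable (fun N : ℕ => cc χ₁ χ₂ δ N * q ^ N) := by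
  have h1 := (summable_fc χ₁ χ₂ hq).mul_left (δ * G χ₁⁻¹)
  have h2 := (summable_fc χ₁⁻¹ χ₂⁻¹ hq).mul_left (conj δ * G χ₁)
  have h3 := (h1.add h2).neg
  refine h3.congr fun N => ?_
  unfold cc
  ring

lemma S_conj (a c : ℤ) : S χ₁⁻¹ χ₂⁻¹ a c = conj (S χ₁ χ₂ a c) := by
  unfold S
  rw [map_sum]
  refine Finset.sum_congr rfl fun k _ => ?_
  rw [map_sum]
  refine Finset.sum_congr rfl fun m _ => ?_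
  rw [map_mul, map_mul, map_mul, Complex.conj_ofReal, Complex.conj_ofReal]
  simp only [conj_char]

variable [NeZero q₁] [NeZero q₂]

lemma Lam_transform (h₁ : χ₁.IsPrimitive) (h₂ : χ₂.IsPrimitive) (n₁ : χ₁ ≠ 1) (n₂ : χ₂ ≠ 1)
    (par : χ₁ (-1) * χ₂ (-1) = 1) (δ : ℂ) {a b c d : ℤ} (hdet : a * d - b * c = 1)
    (ha : ((q₁ * q₂ : ℕ) : ℤ) ∣ a - 1) (hd : ((q₁ * q₂ : ℕ) : ℤ) ∣ d - 1)
    (hc : ((q₁ * q₂ : ℕ) : ℤ) ∣ c) (hcpos : 0 < c) {z : ℂ} (hz : 0 < z.im) :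
    Lam χ₁ χ₂ δ (((a : ℂ) * z + b) / (c * z + d)) - Lam χ₁ χ₂ δ z =
      -(π * I * (δ * S χ₁ χ₂ a c + conj (δ * S χ₁ χ₂ a c))) := by
  have h1 := transform χ₁ χ₂ h₁ h₂ n₁ n₂ par hdet ha hd hc hcpos hz
  have n₁' : χ₁⁻¹ ≠ 1 := fun h => n₁ (by rw [← inv_inv χ₁, h, inv_one])
  have n₂' : χ₂⁻¹ ≠ 1 := fun h => n₂ (by rw [← inv_inv χ₂, h, inv_one])
  have par' : χ₁⁻¹ (-1) * χ₂⁻¹ (-1) = 1 := by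
    rw [← conj_char, ← conj_char, ← map_mul, par, map_one]
  have h2 := transform χ₁⁻¹ χ₂⁻¹ (inv_isPrimitive h₁) (inv_isPrimitive h₂) n₁' n₂' par' hdet ha hd
    hc hcpos hz
  rw [inv_inv, S_conj] at h2
  unfold Lam
  rw [map_mul]
  linear_combination (-δ) * h1 - conj δ * h2

/-- The root `v = exp(L_λ/ℓ)`. -/
noncomputable def vv (δ : ℂ) (ℓ : ℕ) (τ : ℍ) : ℂ := Complex.exp (Lam χ₁ χ₂ δ (τ : ℂ) / ℓ)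

lemma Lam_add_int (δ : ℂ) (z : ℂ) (j : ℤ) : Lam χ₁ χ₂ δ (z + j) = Lam χ₁ χ₂ δ z := by
  unfold Lam
  rw [f_add_int, f_add_int]

lemma coe_smul (γ : SL(2, ℤ)) (τ : ℍ) : ((γ • τ : ℍ) : ℂ) =
    (((γ 0 0 : ℤ) : ℂ) * τ + (γ 0 1 : ℤ)) / (((γ 1 0 : ℤ) : ℂ) * τ + (γ 1 1 : ℤ)) := by
  rw [UpperHalfPlane.coe_specialLinearGroup_apply]
  simp

lemma det_eq (γ : SL(2, ℤ)) : γ 0 0 * γ 1 1 - γ 0 1 * γ 1 0 = 1 := by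
  have := γ.det_coe
  rwa [Matrix.det_fin_two] at this

lemma dvd_of_gamma1 {N : ℕ} {γ : SL(2, ℤ)} (hγ : γ ∈ CongruenceSubgroup.Gamma1 N) :
    (N : ℤ) ∣ γ 0 0 - 1 ∧ (N : ℤ) ∣ γ 1 1 - 1 ∧ (N : ℤ) ∣ γ 1 0 := by
  rw [CongruenceSubgroup.Gamma1_mem] at hγ
  refine ⟨?_, ?_, ?_⟩
  · rw [← ZMod.intCast_zmod_eq_zero_iff_dvd]; push_cast; rw [hγ.1, sub_self]
  · rw [← ZMod.intCast_zmod_eq_zero_iff_dvd]; push_cast; rw [hγ.2.1, sub_self]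
  · rw [← ZMod.intCast_zmod_eq_zero_iff_dvd]; exact hγ.2.2

lemma vv_inv_pos (h₁ : χ₁.IsPrimitive) (h₂ : χ₂.IsPrimitive) (n₁ : χ₁ ≠ 1) (n₂ : χ₂ ≠ 1)
    (par : χ₁ (-1) * χ₂ (-1) = 1) (δ : ℂ) (ℓ : ℕ) (hℓ : 0 < ℓ)
    (hS : ∀ γ ∈ CongruenceSubgroup.Gamma1 (q₁ * q₂), 1 ≤ γ 1 0 → ∃ j : ℤ,
      δ * S χ₁ χ₂ (γ 0 0) (γ 1 0) + conj (δ * S χ₁ χ₂ (γ 0 0) (γ 1 0)) = 2 * ℓ * j)
    {γ : SL(2, ℤ)} (hγ : γ ∈ CongruenceSubgroup.Gamma1 (q₁ * q₂)) (hc : 0 < γ 1 0) (τ : ℍ) :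
    vv χ₁ χ₂ δ ℓ (γ • τ) = vv χ₁ χ₂ δ ℓ τ := by
  obtain ⟨j, hj⟩ := hS γ hγ hc
  obtain ⟨d1, d2, d3⟩ := dvd_of_gamma1 hγ
  have h := Lam_transform χ₁ χ₂ h₁ h₂ n₁ n₂ par δ (det_eq γ) d1 d2 d3 hc τ.im_pos
  rw [hj] at h
  unfold vv
  rw [coe_smul]
  have hℓ' : (ℓ : ℂ) ≠ 0 := by exact_mod_cast hℓ.ne'
  generalize (((γ 0 0 : ℤ) : ℂ) * τ + (γ 0 1 : ℤ)) / (((γ 1 0 : ℤ) : ℂ) * τ + (γ 1 1 : ℤ)) = w at h ⊢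
  have h2 : Lam χ₁ χ₂ δ w / ℓ = Lam χ₁ χ₂ δ τ / ℓ + (-j : ℤ) * (2 * π * I) := by
    field_simp
    push_cast
    linear_combination h
  rw [h2, Complex.exp_add, Complex.exp_int_mul_two_pi_mul_I, mul_one]

lemma vv_inv (h₁ : χ₁.IsPrimitive) (h₂ : χ₂.IsPrimitive) (n₁ : χ₁ ≠ 1) (n₂ : χ₂ ≠ 1)
    (par : χ₁ (-1) * χ₂ (-1) = 1) (δ : ℂ) (ℓ : ℕ) (hℓ : 0 < ℓ)
    (hS : ∀ γ ∈ CongruenceSubgroup.Gamma1 (q₁ * q₂), 1 ≤ γ 1 0 → ∃ j : ℤ,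
      δ * S χ₁ χ₂ (γ 0 0) (γ 1 0) + conj (δ * S χ₁ χ₂ (γ 0 0) (γ 1 0)) = 2 * ℓ * j)
    (γ : SL(2, ℤ)) (hγ : γ ∈ CongruenceSubgroup.Gamma1 (q₁ * q₂)) (τ : ℍ) :
    vv χ₁ χ₂ δ ℓ (γ • τ) = vv χ₁ χ₂ δ ℓ τ := by
  rcases lt_trichotomy (γ 1 0) 0 with hc | hc | hc
  · have hγ' : γ⁻¹ ∈ CongruenceSubgroup.Gamma1 (q₁ * q₂) := inv_mem hγ
    have hc' : 0 < (γ⁻¹) 1 0 := by
      rw [Matrix.SpecialLinearGroup.SL2_inv_expl]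
      simpa using hc
    have h := vv_inv_pos χ₁ χ₂ h₁ h₂ n₁ n₂ par δ ℓ hℓ hS hγ' hc' (γ • τ)
    rw [inv_smul_smul] at h
    exact h.symm
  · have hdet := det_eq γ
    rw [hc, mul_zero, sub_zero] at hdet
    unfold vv
    rw [coe_smul, hc]
    rcases Int.mul_eq_one_iff_eq_one_or_neg_one.mp hdet with ⟨ha, hd⟩ | ⟨ha, hd⟩
    · rw [ha, hd]
      have : (((1 : ℤ) : ℂ) * τ + (γ 0 1 : ℤ)) / (((0 : ℤ) : ℂ) * τ + ((1 : ℤ) : ℂ)) =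
          τ + (γ 0 1 : ℤ) := by push_cast; ring
      rw [this, Lam_add_int]
    · rw [ha, hd]
      have : (((-1 : ℤ) : ℂ) * τ + (γ 0 1 : ℤ)) / (((0 : ℤ) : ℂ) * τ + ((-1 : ℤ) : ℂ)) =
          τ + (-γ 0 1 : ℤ) := by push_cast; field_simp; ring
      rw [this, Lam_add_int]
  · exact vv_inv_pos χ₁ χ₂ h₁ h₂ n₁ n₂ par δ ℓ hℓ hS hγ hc τ

lemma differentiableAt_Lam (δ : ℂ) {z : ℂ} (hz : 0 < z.im) :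
    DifferentiableAt ℂ (Lam χ₁ χ₂ δ) z := by
  have h1 := (hasSum_deriv_f χ₁ χ₂ hz).2
  have h2 := (hasSum_deriv_f χ₁⁻¹ χ₂⁻¹ hz).2
  unfold Lam
  exact ((h1.const_mul _).add (h2.const_mul _)).neg

lemma vv_mdiff (δ : ℂ) (ℓ : ℕ) : MDiff (vv χ₁ χ₂ δ ℓ) := by
  rw [UpperHalfPlane.mdifferentiable_iff]
  intro z hz
  have h1 : DifferentiableAt ℂ (fun z => Complex.exp (Lam χ₁ χ₂ δ z / ℓ)) z :=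
    ((differentiableAt_Lam χ₁ χ₂ δ hz).div_const _).cexp
  refine (h1.congr_of_eventuallyEq ?_).differentiableWithinAt
  filter_upwards [isOpen_upperHalfPlaneSet.mem_nhds hz] with w hw
  simp only [Function.comp, vv]
  rw [UpperHalfPlane.ofComplex_apply_of_im_pos hw]

lemma vv_bound (δ : ℂ) (ℓ : ℕ) (hℓ : 0 < ℓ) :
    ∃ C : ℝ, ∀ τ : ℍ, ‖vv χ₁ χ₂ δ ℓ τ‖ ≤ Real.exp (C / τ.im) := by
  obtain ⟨C₁, hC₁, h1⟩ := norm_f_le χ₁ χ₂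
  obtain ⟨C₂, hC₂, h2⟩ := norm_f_le χ₁⁻¹ χ₂⁻¹
  refine ⟨(‖δ * G χ₁⁻¹‖ * C₁ + ‖conj δ * G χ₁‖ * C₂), fun τ => ?_⟩
  have hτ : 0 < (τ : ℂ).im := τ.im_pos
  unfold vv
  refine (Complex.norm_exp_le_exp_norm _).trans (Real.exp_le_exp.mpr ?_)
  rw [norm_div, Complex.norm_natCast]
  have hℓ' : (1 : ℝ) ≤ ℓ := by exact_mod_cast hℓ
  refine (div_le_self (norm_nonneg _) hℓ').trans ?_
  unfold Lam
  rw [norm_neg]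
  refine (norm_add_le _ _).trans ?_
  rw [norm_mul, norm_mul _ (f χ₁⁻¹ χ₂⁻¹ _), add_div, mul_div_assoc, mul_div_assoc]
  gcongr
  · exact h1 _ hτ
  · exact h2 _ hτ

end NDS
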