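import Pool.Agent.H7.NDS.Defs

/-! MODULE C, part 3: spaces of modular forms for `Γ₁(N)` are finite dimensional. -/

open Complex UpperHalfPlane ModularForm ModularFormClass Filter Asymptotics Topology
open scoped MatrixGroups ComplexConjugate Real Manifold ModularForm CongruenceSubgroup

namespace NDS

namespace ModC


theorem norm_q (τ : ℍ) : ‖Function.Periodic.qParam 1 (τ : ℂ)‖ = Real.exp (-2 * π * τ.im) := by
  simp [Function.Periodic.qParam, Complex.norm_exp]

theorem isBigO_of_coeff_zero {f : ℍ → ℂ} (hfper : Function.Periodic (f ∘ ofComplex) (1 : ℝ))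
    (hfhol : MDiff f) (hfbdd : IsBoundedAtImInfty f) (B : ℕ)
    (hB : ∀ n < B, (qExpansion 1 f).coeff n = 0) :
    f =O[atImInfty] fun τ => Real.exp (-2 * π * τ.im) ^ B := by
  have han := analyticAt_cuspFunction_zero one_pos hfper hfhol hfbdd
  have hsum : ∀ τ : ℍ, HasSum (fun m ↦ (qExpansion 1 f).coeff m • Function.Periodic.qParam 1 τ ^ m) (f τ) :=
    fun τ => UpperHalfPlane.hasSum_qExpansion one_pos hfper hfhol hfbdd τ
  have hp := (hasFPowerSeriesOnBall_cuspFunction one_pos han hsum).hasFPowerSeriesAt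
  have h1 := hp.isBigO_sub_partialSum_pow B
  have h2 : ∀ y : ℂ, (FormalMultilinearSeries.ofScalars ℂ
      (fun m => (qExpansion 1 f).coeff m)).partialSum B y = 0 := by
    intro y
    rw [FormalMultilinearSeries.partialSum]
    refine Finset.sum_eq_zero fun m hm => ?_
    rw [FormalMultilinearSeries.ofScalars_apply_eq, hB m (Finset.mem_range.mp hm), zero_smul]
  simp only [h2, sub_zero, zero_add] at h1
  have h3 := h1.comp_tendsto (qParam_tendsto_atImInfty one_pos)
  have h4 : (fun τ : ℍ => cuspFunction 1 f (Function.Periodic.qParam 1 τ)) = f := by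
    funext τ
    exact eq_cuspFunction τ one_ne_zero hfper
  have h5 : (fun τ : ℍ => ‖Function.Periodic.qParam 1 (τ : ℂ)‖ ^ B) = fun τ => Real.exp (-2 * π * τ.im) ^ B := by
    funext τ
    rw [norm_q]
  rw [← h5]
  have h6 : (fun τ : ℍ => cuspFunction 1 f (Function.Periodic.qParam 1 τ)) =O[atImInfty] (fun τ : ℍ => ‖Function.Periodic.qParam 1 (τ : ℂ)‖ ^ B) := h3
  rw [h4] at h6
  exact h6

theorem coeff_zero_of_isBigO {f : ℍ → ℂ} (hfper : Function.Periodic (f ∘ ofComplex) (1 : ℝ))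
    (hfhol : MDiff f) (hfbdd : IsBoundedAtImInfty f) (B : ℕ)
    (hB : f =O[atImInfty] fun τ => Real.exp (-2 * π * τ.im) ^ B) :
    ∀ n < B, (qExpansion 1 f).coeff n = 0 := by
  intro n hn
  obtain ⟨M, hM⟩ := hB.bound
  rw [Filter.Eventually, atImInfty_mem] at hM
  obtain ⟨Y, hY⟩ := hM
  have h1 : ∀ t : ℝ, 0 < t → Y ≤ t →
      ‖(qExpansion 1 f).coeff n‖ ≤ |M| * Real.exp (-2 * π * t) := by
    intro t ht htY
    rw [qExpansion_coeff_eq_intervalIntegral one_pos hfper hfhol hfbdd n ht]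
    have h2 : ∀ u ∈ Set.uIoc (0 : ℝ) 1, ‖1 / Function.Periodic.qParam 1 ((u : ℂ) + t * Complex.I) ^ n *
        f ⟨u + t * Complex.I, by simpa using ht⟩‖ ≤ |M| * Real.exp (-2 * π * t) := by
      intro u _
      let τ : ℍ := ⟨u + t * Complex.I, by simpa using ht⟩
      have him : τ.im = t := by
        change (u + t * Complex.I : ℂ).im = t
        simp
      have h3 : ‖f τ‖ ≤ M * ‖Real.exp (-2 * π * τ.im) ^ B‖ := hY τ (by rw [him]; exact htY)
      have h4 := norm_q τ
      rw [him] at h4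
      have h5 : ‖f τ‖ ≤ M * Real.exp (-2 * π * t) ^ B := by
        rwa [him, norm_pow, Real.norm_eq_abs, Real.abs_exp] at h3
      have h6 : (τ : ℂ) = u + t * Complex.I := rfl
      rw [h6] at h4
      rw [norm_mul, norm_div, norm_one, norm_pow, h4]
      have hexp : 0 < Real.exp (-2 * π * t) := Real.exp_pos _
      have hexp1 : Real.exp (-2 * π * t) ≤ 1 := by
        rw [Real.exp_le_one_iff]
        have := Real.pi_pos
        nlinarith [mul_pos this ht]
      calc 1 / Real.exp (-2 * π * t) ^ n * ‖f τ‖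
          ≤ 1 / Real.exp (-2 * π * t) ^ n * (|M| * Real.exp (-2 * π * t) ^ B) := by
            gcongr
            exact h5.trans (by gcongr; exact le_abs_self M)
        _ = |M| * Real.exp (-2 * π * t) ^ (B - n) := by
            obtain ⟨c, rfl⟩ := Nat.exists_eq_add_of_lt hn
            have : n + c + 1 - n = c + 1 := by omega
            rw [this, show n + c + 1 = n + (c + 1) by omega, pow_add]
            field_simp
        _ ≤ |M| * Real.exp (-2 * π * t) ^ 1 := by
            gcongr 1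
            exact pow_le_pow_of_le_one hexp.le hexp1 (by omega)
        _ = _ := by rw [pow_one]
    have h7 := intervalIntegral.norm_integral_le_of_norm_le_const h2
    rw [norm_mul]
    simpa using h7
  have hlim : Tendsto (fun t : ℝ => |M| * Real.exp (-2 * π * t)) atTop (𝓝 0) := by
    have h8 : Tendsto (fun t : ℝ => -2 * π * t) atTop atBot := by
      apply Tendsto.const_mul_atTop_of_neg _ tendsto_id
      have := Real.pi_pos
      linarith
    have := (Real.tendsto_exp_atBot.comp h8).const_mul |M|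
    simpa using this
  have h9 : ‖(qExpansion 1 f).coeff n‖ ≤ 0 := by
    refine ge_of_tendsto hlim ?_
    filter_upwards [eventually_gt_atTop 0, eventually_ge_atTop Y] with t ht htY
    exact h1 t ht htY
  exact norm_le_zero_iff.mp h9

theorem eq_zero_of_coeff (N : ℕ) [NeZero N] (k : ℤ) : ∃ B : ℕ,
    ∀ F : ModularForm (CongruenceSubgroup.Gamma1 N) k,
      (∀ n < B, (qExpansion 1 F).coeff n = 0) → F = 0 := by
  classical
  let Γ : Subgroup (GL (Fin 2) ℝ) := (CongruenceSubgroup.Gamma1 N : Subgroup (GL (Fin 2) ℝ))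
  refine ⟨(k * Nat.card (𝒮ℒ ⧸ (Γ.subgroupOf 𝒮ℒ))).toNat / 12 + 1, fun F hF => ?_⟩
  set B := (k * Nat.card (𝒮ℒ ⧸ (Γ.subgroupOf 𝒮ℒ))).toNat / 12 + 1 with hBdef
  have hΓ : (1 : ℝ) ∈ Γ.strictPeriods := by simp [Γ]
  have hcusp : Fact (IsCusp OnePoint.infty Γ) := ⟨Γ.isCusp_of_mem_strictPeriods one_pos hΓ⟩
  have h1 : (F : ℍ → ℂ) =O[atImInfty] fun τ => Real.exp (-2 * π * τ.im) ^ B :=
    isBigO_of_coeff_zero (SlashInvariantFormClass.periodic_comp_ofComplex F hΓ)
      (ModularFormClass.holo F) (ModularFormClass.bdd_at_infty F) B hF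
  have h2 : (ModularForm.norm 𝒮ℒ F : ℍ → ℂ) =O[atImInfty]
      fun τ => Real.exp (-2 * π * τ.im) ^ B := by
    rw [ModularForm.coe_norm]
    let := Fintype.ofFinite (𝒮ℒ ⧸ (Γ.subgroupOf 𝒮ℒ))
    have hcuspSL : IsCusp OnePoint.infty 𝒮ℒ :=
      (𝒮ℒ).isCusp_of_mem_strictPeriods one_pos one_mem_strictPeriods_SL
    have hb : ∀ q : 𝒮ℒ ⧸ (Γ.subgroupOf 𝒮ℒ),
        SlashInvariantForm.quotientFunc F q =O[atImInfty] (fun _ => (1 : ℝ)) := by
      refine Quotient.forall.mpr fun ⟨r, hr⟩ => ?_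
      refine OnePoint.isBoundedAt_infty_iff.mp ((translate F r⁻¹).bdd_at_cusps' ?_)
      simpa using hcuspSL.of_isFiniteRelIndex_conj hr
    have h0 : SlashInvariantForm.quotientFunc F (⟦1⟧ : 𝒮ℒ ⧸ (Γ.subgroupOf 𝒮ℒ)) =
        (F : ℍ → ℂ) := by
      rw [SlashInvariantForm.quotientFunc_mk]
      simp
    have h8 := Finset.mul_prod_erase Finset.univ
      (fun q : 𝒮ℒ ⧸ (Γ.subgroupOf 𝒮ℒ) => SlashInvariantForm.quotientFunc F q)
      (Finset.mem_univ (⟦1⟧ : 𝒮ℒ ⧸ (Γ.subgroupOf 𝒮ℒ)))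
    simp only [h0] at h8
    change (∏ q : 𝒮ℒ ⧸ (Γ.subgroupOf 𝒮ℒ), SlashInvariantForm.quotientFunc F q) =O[atImInfty] _
    rw [← h8]
    have h6 : (∏ q ∈ Finset.univ.erase (⟦1⟧ : 𝒮ℒ ⧸ (Γ.subgroupOf 𝒮ℒ)),
        SlashInvariantForm.quotientFunc F q) =O[atImInfty] (fun _ => (1 : ℝ)) := by
      rw [show (fun _ : ℍ => (1 : ℝ)) = (fun x ↦ ∏ i ∈ Finset.univ.erase
        (⟦1⟧ : 𝒮ℒ ⧸ (Γ.subgroupOf 𝒮ℒ)), (1 : ℝ)) by ext; simp, Finset.prod_fn]
      exact .finsetProd fun q _ => hb q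
    have h7 := h1.mul h6
    simp only [mul_one] at h7
    exact h7
  have h3 : ModularForm.norm 𝒮ℒ F = 0 := by
    apply sturm_bound_levelOne
    have h4 := coeff_zero_of_isBigO
      (SlashInvariantFormClass.periodic_comp_ofComplex (ModularForm.norm 𝒮ℒ F)
        one_mem_strictPeriods_SL)
      (ModularFormClass.holo (ModularForm.norm 𝒮ℒ F)) (ModularFormClass.bdd_at_infty
        (ModularForm.norm 𝒮ℒ F)) B h2
    have h5 := PowerSeries.nat_le_order _ B h4
    refine lt_of_lt_of_le ?_ h5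
    rw [hBdef]
    exact_mod_cast Nat.lt_succ_self _
  rw [ModularForm.norm_eq_zero_iff] at h3
  exact DFunLike.coe_injective h3

end ModC

end NDS
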