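import Pool.Agent.H7.NDS.ModU1

/-! MODULE C, part 4: the operator `U_p`. -/

open Complex UpperHalfPlane ModularForm ModularFormClass Filter Asymptotics Topology
open scoped MatrixGroups ComplexConjugate Real Manifold ModularForm CongruenceSubgroup

namespace NDS

namespace ModC


/-- the matrix `(1 j; 0 p)` -/
noncomputable def gm (K : Type*) [Field K] [CharZero K] (p : ℕ) [NeZero p] (j : ℤ) :
    GL (Fin 2) K :=
  Matrix.GeneralLinearGroup.mkOfDetNeZero !![1, (j : K); 0, (p : K)] (by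
    rw [Matrix.det_fin_two_of]
    simpa using NeZero.ne p)

theorem gm_map (p : ℕ) [NeZero p] (j : ℤ) :
    (gm ℚ p j).map (Rat.castHom ℝ) = gm ℝ p j := by
  ext a b
  fin_cases a <;> fin_cases b <;> simp [gm, Matrix.GeneralLinearGroup.mkOfDetNeZero]

variable {N p : ℕ} [NeZero N] [NeZero p] {k : ℤ}

/-- `F ∣ (1 j; 0 p)` -/
noncomputable def Gj (p : ℕ) [NeZero p] (F : ModularForm (CongruenceSubgroup.Gamma1 N) k) (j : ℤ) :
    ℍ → ℂ :=
  (F : ℍ → ℂ) ∣[k] (gm ℝ p j)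

omit [NeZero N] in
theorem F_slash (F : ModularForm (CongruenceSubgroup.Gamma1 N) k) {γ : SL(2, ℤ)}
    (hγ : γ ∈ CongruenceSubgroup.Gamma1 N) :
    (F : ℍ → ℂ) ∣[k] (Matrix.SpecialLinearGroup.mapGL ℝ γ) = F :=
  F.slash_action_eq' _ ⟨γ, hγ, rfl⟩

omit [NeZero N] in
/-- the basic relation `(1 j; 0 p) γ = γ' (1 j + b; 0 p)` -/
theorem Gj_slash (hpN : p ∣ N) (F : ModularForm (CongruenceSubgroup.Gamma1 N) k) (j : ℤ)
    {γ : SL(2, ℤ)} (hγ : γ ∈ CongruenceSubgroup.Gamma1 N) :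
    (Gj p F j) ∣[k] (Matrix.SpecialLinearGroup.mapGL ℝ γ) = Gj p F (j + γ 0 1) := by
  rw [CongruenceSubgroup.Gamma1_mem] at hγ
  obtain ⟨ha, hd, hc⟩ := hγ
  have hdet : γ 0 0 * γ 1 1 - γ 0 1 * γ 1 0 = 1 := by
    have := γ.det_coe
    rwa [Matrix.det_fin_two] at this
  have hp : (p : ℤ) ∣ γ 0 1 + j * γ 1 1 - (j + γ 0 1) * (γ 0 0 + j * γ 1 0) := by
    have hpN' : (p : ℤ) ∣ N := by exact_mod_cast hpN
    have ha' : (N : ℤ) ∣ γ 0 0 - 1 := by
      rw [← ZMod.intCast_zmod_eq_zero_iff_dvd]; push_cast; rw [ha]; simp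
    have hd' : (N : ℤ) ∣ γ 1 1 - 1 := by
      rw [← ZMod.intCast_zmod_eq_zero_iff_dvd]; push_cast; rw [hd]; simp
    have hc' : (N : ℤ) ∣ γ 1 0 := by
      rw [← ZMod.intCast_zmod_eq_zero_iff_dvd]; exact hc
    obtain ⟨a', ha'⟩ := hpN'.trans ha'
    obtain ⟨d', hd'⟩ := hpN'.trans hd'
    obtain ⟨c', hc'⟩ := hpN'.trans hc'
    refine ⟨j * d' - (j + γ 0 1) * (a' + j * c'), ?_⟩
    have e1 : γ 0 0 = p * a' + 1 := by linarith
    have e2 : γ 1 1 = p * d' + 1 := by linarith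
    rw [e1, e2, hc']
    ring
  obtain ⟨b', hb'⟩ := hp
  obtain ⟨γ', h00, h01, h10, h11⟩ : ∃ γ' : SL(2, ℤ), γ' 0 0 = γ 0 0 + j * γ 1 0 ∧ γ' 0 1 = b' ∧
      γ' 1 0 = p * γ 1 0 ∧ γ' 1 1 = γ 1 1 - (j + γ 0 1) * γ 1 0 :=
    ⟨⟨!![γ 0 0 + j * γ 1 0, b'; p * γ 1 0, γ 1 1 - (j + γ 0 1) * γ 1 0], by
      rw [Matrix.det_fin_two_of]
      linear_combination hdet + γ 1 0 * hb'⟩, rfl, rfl, rfl, rfl⟩
  have hγ' : γ' ∈ CongruenceSubgroup.Gamma1 N := by
    rw [CongruenceSubgroup.Gamma1_mem, h00, h10, h11]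
    refine ⟨?_, ?_, ?_⟩
    · simp [ha, hc]
    · simp [hd, hc]
    · simp [hc]
  have hmat : gm ℝ p j * Matrix.SpecialLinearGroup.mapGL ℝ γ =
      Matrix.SpecialLinearGroup.mapGL ℝ γ' * gm ℝ p (j + γ 0 1) := by
    have hb'' : ((γ 0 1 : ℝ) + j * γ 1 1 - (j + γ 0 1) * (γ 0 0 + j * γ 1 0)) = p * b' := by
      exact_mod_cast hb'
    ext a b
    fin_cases a <;> fin_cases b
    · simp [gm, Matrix.GeneralLinearGroup.mkOfDetNeZero, Matrix.mul_apply, Fin.sum_univ_two, h00]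
    · simp [gm, Matrix.GeneralLinearGroup.mkOfDetNeZero, Matrix.mul_apply, Fin.sum_univ_two, h00,
        h01]
      linear_combination hb''
    · simp [gm, Matrix.GeneralLinearGroup.mkOfDetNeZero, Matrix.mul_apply, Fin.sum_univ_two, h10]
    · simp [gm, Matrix.GeneralLinearGroup.mkOfDetNeZero, Matrix.mul_apply, Fin.sum_univ_two, h10,
        h11]
      ring
  rw [Gj, ← SlashAction.slash_mul, hmat, SlashAction.slash_mul, F_slash F hγ']
  rfl

theorem Gj_add (F : ModularForm (CongruenceSubgroup.Gamma1 N) k) (j m : ℤ) :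
    Gj p F (j + p * m) = Gj p F j := by
  have hT : ModularGroup.T ^ m ∈ CongruenceSubgroup.Gamma1 N := by
    rw [CongruenceSubgroup.Gamma1_mem]
    simp [ModularGroup.coe_T_zpow]
  have hmat : gm ℝ p (j + p * m) = Matrix.SpecialLinearGroup.mapGL ℝ (ModularGroup.T ^ m) *
      gm ℝ p j := by
    have hc := ModularGroup.coe_T_zpow m
    generalize ModularGroup.T ^ m = A at hc
    have h00 : A 0 0 = 1 := by rw [hc]; rfl
    have h01 : A 0 1 = m := by rw [hc]; rfl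
    have h10 : A 1 0 = 0 := by rw [hc]; rfl
    have h11 : A 1 1 = 1 := by rw [hc]; rfl
    ext a b
    fin_cases a <;> fin_cases b <;>
    simp [gm, Matrix.GeneralLinearGroup.mkOfDetNeZero, Matrix.mul_apply, Fin.sum_univ_two,
      h00, h01, h10, h11, mul_comm]
  rw [Gj, hmat, SlashAction.slash_mul, F_slash F hT]
  rfl

theorem Gj_cast (F : ModularForm (CongruenceSubgroup.Gamma1 N) k) (j : ℤ) :
    Gj p F j = Gj p F ((j : ZMod p).val : ℤ) := by
  have h : (p : ℤ) ∣ j - ((j : ZMod p).val : ℤ) := by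
    rw [← ZMod.intCast_zmod_eq_zero_iff_dvd]
    simp
  obtain ⟨m, hm⟩ := h
  have : j = ((j : ZMod p).val : ℤ) + p * m := by linarith
  conv_lhs => rw [this]
  rw [Gj_add]

/-- the function `U_p F` -/
noncomputable def Ufun (p : ℕ) [NeZero p] (F : ModularForm (CongruenceSubgroup.Gamma1 N) k) :
    ℍ → ℂ :=
  ∑ x : ZMod p, Gj p F (x.val : ℤ)

theorem Ufun_slash (hpN : p ∣ N) (F : ModularForm (CongruenceSubgroup.Gamma1 N) k)
    {γ : SL(2, ℤ)} (hγ : γ ∈ CongruenceSubgroup.Gamma1 N) :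
    (Ufun p F) ∣[k] (Matrix.SpecialLinearGroup.mapGL ℝ γ) = Ufun p F := by
  rw [Ufun, SlashAction.sum_slash]
  simp_rw [Gj_slash hpN F _ hγ]
  refine Fintype.sum_equiv (Equiv.addRight ((γ 0 1 : ℤ) : ZMod p)) _ _ fun x => ?_
  rw [Gj_cast]
  congr 2
  simp

theorem isCusp_gm (p : ℕ) [NeZero p] (j : ℤ) {c : OnePoint ℝ}
    (hc : IsCusp c (CongruenceSubgroup.Gamma1 N : Subgroup (GL (Fin 2) ℝ))) :
    IsCusp (gm ℝ p j • c) (CongruenceSubgroup.Gamma1 N : Subgroup (GL (Fin 2) ℝ)) := by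
  rw [Subgroup.IsArithmetic.isCusp_iff_isCusp_SL2Z, isCusp_SL2Z_iff] at hc ⊢
  obtain ⟨x, rfl⟩ := hc
  refine ⟨gm ℚ p j • x, ?_⟩
  have := OnePoint.map_smul (Rat.castHom ℝ) (gm ℚ p j) x
  rw [gm_map] at this
  exact this

/-- the modular form `U_p F` -/
noncomputable def Uop (p : ℕ) [NeZero p] (hpN : p ∣ N)
    (F : ModularForm (CongruenceSubgroup.Gamma1 N) k) :
    ModularForm (CongruenceSubgroup.Gamma1 N) k where
  toFun := Ufun p F
  slash_action_eq' := by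
    rintro _ ⟨γ, hγ, rfl⟩
    exact Ufun_slash hpN F hγ
  holo' := by
    refine MDifferentiable.sum ?_
    intro x _
    exact MDifferentiable.slash F.holo' k _
  bdd_at_cusps' := by
    intro c hc g hg
    rw [Ufun, IsBoundedAtImInfty, Filter.BoundedAtFilter, SlashAction.sum_slash, Finset.sum_fn]
    refine .fun_sum fun x _ => ?_
    have h1 := (OnePoint.IsBoundedAt.smul_iff (g := gm ℝ p (x.val : ℤ)) (c := c) (f := F)
      (k := k)).mp (F.bdd_at_cusps' (isCusp_gm p _ hc))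
    exact h1 g hg

end ModC

end NDS
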