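import Pool.Agent.H7.NDS.Defs

/-!
# Sums of periodic functions over a period
-/

open Complex
open scoped MatrixGroups ComplexConjugate Real

namespace NDS

lemma sum_range_zmod {M : Type*} [AddCommMonoid M] (N : ℕ) [NeZero N] (F : ZMod N → M) :
    ∑ k ∈ Finset.range N, F (k : ZMod N) = ∑ z : ZMod N, F z := by
  refine Finset.sum_bij' (fun k _ => (k : ZMod N)) (fun z _ => z.val) ?_ ?_ ?_ ?_ ?_
  · intro k _; exact Finset.mem_univ _
  · intro z _; exact Finset.mem_range.mpr (ZMod.val_lt z)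
  · intro k hk; exact ZMod.val_cast_of_lt (Finset.mem_range.mp hk)
  · intro z _; exact ZMod.natCast_zmod_val z
  · intro k _; rfl

/-- A function on `ℤ` with period `N`. -/
def Per {M : Type*} (N : ℕ) (F : ℤ → M) : Prop := ∀ k : ℤ, F (k + N) = F k

lemma Per.add_mul {M : Type*} {N : ℕ} {F : ℤ → M} (h : Per N F) (k j : ℤ) :
    F (k + N * j) = F k := by
  have hp : Function.Periodic F (N : ℤ) := h
  have := (hp.int_mul j) k
  rw [mul_comm]; simpa using this

lemma Per.congr {M : Type*} {N : ℕ} {F : ℤ → M} (h : Per N F) {k l : ℤ}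
    (hkl : (N : ℤ) ∣ k - l) : F k = F l := by
  obtain ⟨j, hj⟩ := hkl
  have : k = l + N * j := by linarith
  rw [this, h.add_mul]

lemma Per.eq_val {M : Type*} {N : ℕ} [NeZero N] {F : ℤ → M} (h : Per N F) (k : ℤ) :
    F k = F (((k : ZMod N)).val : ℤ) := by
  apply h.congr
  rw [← ZMod.intCast_eq_intCast_iff_dvd_sub]
  simp

lemma Per.sum_eq {M : Type*} [AddCommMonoid M] {N : ℕ} [NeZero N] {F : ℤ → M} (h : Per N F) :
    ∑ k ∈ Finset.range N, F k = ∑ z : ZMod N, F (z.val : ℤ) := by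
  rw [← sum_range_zmod N (fun z => F (z.val : ℤ))]
  refine Finset.sum_congr rfl fun k _ => ?_
  simpa using h.eq_val (k : ℤ)

lemma Per.sum_shift {M : Type*} [AddCommMonoid M] {N : ℕ} [NeZero N] {F : ℤ → M} (h : Per N F)
    (s : ℤ) : ∑ k ∈ Finset.range N, F (k + s) = ∑ k ∈ Finset.range N, F k := by
  have h' : Per N (fun k => F (k + s)) := fun k => by
    apply h.congr; exact ⟨1, by ring⟩
  rw [h.sum_eq, h'.sum_eq]
  refine Fintype.sum_equiv (Equiv.addRight (s : ZMod N)) _ _ fun z => ?_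
  show F ((z.val : ℤ) + s) = F (((z + (s : ZMod N))).val : ℤ)
  rw [h.eq_val ((z.val : ℤ) + s)]
  congr 3
  push_cast
  simp

lemma Per.sum_neg {M : Type*} [AddCommMonoid M] {N : ℕ} [NeZero N] {F : ℤ → M} (h : Per N F) :
    ∑ k ∈ Finset.range N, F (-k) = ∑ k ∈ Finset.range N, F k := by
  have h' : Per N (fun k => F (-k)) := fun k => by
    apply h.congr; exact ⟨-1, by ring⟩
  rw [h.sum_eq, h'.sum_eq]
  refine Fintype.sum_equiv (Equiv.neg (ZMod N)) _ _ fun z => ?_
  show F (-(z.val : ℤ)) = F (((-z)).val : ℤ)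
  rw [h.eq_val (-(z.val : ℤ))]
  congr 3
  push_cast
  simp

lemma conj_char {q : ℕ} (χ : DirichletCharacter ℂ q) (x : ZMod q) : conj (χ x) = χ⁻¹ x := by
  rw [← MulChar.star_apply']
  rfl

end NDS
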