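import Pool.Agent.H7.NDS.Eis3

/-!
# The transformation law of `f`
-/

open Complex Filter
open scoped MatrixGroups ComplexConjugate Real Topology

namespace NDS

set_option linter.unusedSectionVars false

variable {q₁ q₂ : ℕ} [NeZero q₁] [NeZero q₂] (χ₁ : DirichletCharacter ℂ q₁)
  (χ₂ : DirichletCharacter ℂ q₂)

lemma K0_ne_zero (h₂ : χ₂.IsPrimitive) : K0 χ₂ ≠ 0 := by
  unfold K0
  have hq : (q₂ : ℂ) ≠ 0 := by exact_mod_cast NeZero.ne q₂
  have hpi : (π : ℂ) ≠ 0 := by exact_mod_cast Real.pi_ne_zero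
  refine mul_ne_zero (div_ne_zero ?_ (pow_ne_zero 2 hq)) (G_ne_zero χ₂ h₂)
  exact mul_ne_zero (by norm_num) (pow_ne_zero 2 hpi)

lemma denom_ne {c d : ℤ} (hcd : c ≠ 0 ∨ d ≠ 0) {z : ℂ} (hz : 0 < z.im) : (c : ℂ) * z + d ≠ 0 := by
  intro h
  have h1 := congr_arg Complex.im h
  simp only [Complex.add_im, Complex.mul_im, Complex.intCast_re, Complex.intCast_im, zero_mul,
    add_zero, Complex.zero_im] at h1
  rcases mul_eq_zero.mp h1 with h2 | h2
  · have hc : c = 0 := by exact_mod_cast h2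
    subst hc
    have hd : (d : ℂ) = 0 := by simpa using h
    have : d = 0 := by exact_mod_cast hd
    rcases hcd with h | h <;> contradiction
  · linarith

lemma im_mob {a b c d : ℤ} (hdet : a * d - b * c = 1) {z : ℂ} (hz : 0 < z.im) :
    0 < (((a : ℂ) * z + b) / (c * z + d)).im := by
  have hcd : c ≠ 0 ∨ d ≠ 0 := by
    by_contra h
    push Not at h
    rw [h.1, h.2] at hdet
    simp at hdet
  have hD := denom_ne hcd hz
  have hn : 0 < Complex.normSq ((c : ℂ) * z + d) := Complex.normSq_pos.mpr hD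
  have hdR : (a : ℝ) * d - b * c = 1 := by exact_mod_cast hdet
  have : (((a : ℂ) * z + b) / (c * z + d)).im = z.im / Complex.normSq ((c : ℂ) * z + d) := by
    rw [Complex.div_im]
    simp only [Complex.add_im, Complex.mul_im, Complex.intCast_re, Complex.intCast_im, zero_mul,
      add_zero, Complex.add_re, Complex.mul_re, sub_zero]
    field_simp
    linear_combination hdR
  rw [this]
  positivity

theorem deriv_f_mob (h₂ : χ₂.IsPrimitive) (n₁ : χ₁ ≠ 1)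
    (par : χ₁ (-1) * χ₂ (-1) = 1) {a b c d : ℤ} (hdet : a * d - b * c = 1)
    (ha : ((q₁ * q₂ : ℕ) : ℤ) ∣ a - 1) (hd : ((q₁ * q₂ : ℕ) : ℤ) ∣ d - 1)
    (hc : ((q₁ * q₂ : ℕ) : ℤ) ∣ c) {z : ℂ} (hz : 0 < z.im) :
    deriv (f χ₁ χ₂) (((a : ℂ) * z + b) / (c * z + d)) =
      (c * z + d) ^ 2 * deriv (f χ₁ χ₂) z := by
  obtain ⟨a₁, ha₁⟩ := ha
  obtain ⟨d₁, hd₁⟩ := hd
  obtain ⟨c₀, hc₀⟩ := hc
  have hq₂ : (q₂ : ℂ) ≠ 0 := by exact_mod_cast NeZero.ne q₂
  have hq₂' : (0 : ℝ) < q₂ := by exact_mod_cast Nat.pos_of_ne_zero (NeZero.ne q₂)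
  have hcd : c ≠ 0 ∨ d ≠ 0 := by
    by_contra h
    push Not at h
    rw [h.1, h.2] at hdet
    simp at hdet
  have hD := denom_ne hcd hz
  have hcC : (c : ℂ) = q₁ * q₂ * c₀ := by
    have : c = q₁ * q₂ * c₀ := by rw [hc₀]; push_cast; ring
    rw [this]; push_cast; ring
  set τ : ℂ := q₂ * z with hτ
  have hτim : 0 < τ.im := by
    rw [hτ, Complex.mul_im, Complex.natCast_re, Complex.natCast_im, zero_mul, add_zero]
    positivity
  have hDeq : ((q₁ : ℂ) * c₀ * τ + d) = c * z + d := by rw [hτ, hcC]; ring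
  have hτ'eq : (((a : ℂ) * τ + q₂ * b) / (q₁ * c₀ * τ + d)) =
      q₂ * (((a : ℂ) * z + b) / (c * z + d)) := by
    rw [hDeq, hτ]; ring
  have him' : 0 < (((a : ℂ) * τ + q₂ * b) / (q₁ * c₀ * τ + d)).im := by
    rw [hτ'eq, Complex.mul_im, Complex.natCast_re, Complex.natCast_im, zero_mul, add_zero]
    have := im_mob hdet hz
    positivity
  have key := Eis_transf χ₁ χ₂ (a := a) (b := b) (c := c₀) (d := d) (a₁ := a₁) (d₁ := d₁)
    (by rw [hc₀] at hdet; push_cast at hdet; linarith)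
    (by push_cast at ha₁; linarith) (by push_cast at hd₁; linarith) hτim him'
    (by rw [hDeq]; exact hD)
  rw [Eis_eq χ₁ χ₂ h₂ n₁ par, Eis_eq χ₁ χ₂ h₂ n₁ par] at key
  have e1 : (((a : ℂ) * τ + q₂ * b) / (q₁ * c₀ * τ + d)) / q₂ = ((a : ℂ) * z + b) / (c * z + d) := by
    rw [hτ'eq, mul_div_cancel_left₀ _ hq₂]
  have e2 : τ / q₂ = z := by rw [hτ, mul_div_cancel_left₀ _ hq₂]
  rw [e1, e2, hDeq] at key
  have hK := K0_ne_zero χ₂ h₂
  have hpi : (2 * π * I : ℂ) ≠ 0 := Complex.two_pi_I_ne_zero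
  have hK' : (2 * (K0 χ₂ / (2 * π * I))) ≠ 0 := mul_ne_zero two_ne_zero (div_ne_zero hK hpi)
  apply mul_left_cancel₀ hK'
  linear_combination key

lemma norm_f_le_of_one_le {z : ℂ} (hz : 1 ≤ z.im) :
    ‖f χ₁ χ₂ z‖ ≤ Real.exp (-2 * π * z.im) *
      ((Real.exp (-2 * π))⁻¹ * ∑' p : ℕ+ × ℕ+, Real.exp (-2 * π) ^ ((p.1 : ℕ) * (p.2 : ℕ))) := by
  have hpi := Real.pi_pos
  have h1 : Real.exp (-2 * π) < 1 := by
    apply Real.exp_lt_one_iff.mpr; linarith
  have hs := (summable_geo (Real.exp_pos (-2 * π)).le h1)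
  have hs' := (hs.hasSum.mul_left (Real.exp (-2 * π))⁻¹).mul_left (Real.exp (-2 * π * z.im))
  refine tsum_of_norm_bounded hs' fun p => ?_
  refine (norm_ft_le' χ₁ χ₂ p z).trans ?_
  have hp : 0 < (p.1 : ℕ) * (p.2 : ℕ) := Nat.mul_pos p.1.pos p.2.pos
  obtain ⟨k, hk⟩ : ∃ k, (p.1 : ℕ) * (p.2 : ℕ) = k + 1 := ⟨_, (Nat.succ_pred_eq_of_pos hp).symm⟩
  rw [hk, pow_succ, pow_succ]
  have h2 : Real.exp (-2 * π * z.im) ≤ Real.exp (-2 * π) := by
    apply Real.exp_le_exp.mpr; nlinarith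
  have h3 : Real.exp (-2 * π * z.im) ^ k ≤ Real.exp (-2 * π) ^ k :=
    pow_le_pow_left₀ (Real.exp_pos _).le h2 k
  have h4 : (Real.exp (-2 * π))⁻¹ * (Real.exp (-2 * π) ^ k * Real.exp (-2 * π)) =
      Real.exp (-2 * π) ^ k := by
    field_simp
  rw [h4, mul_comm (Real.exp (-2 * π * z.im) ^ k)]
  gcongr

theorem transform (h₁ : χ₁.IsPrimitive) (h₂ : χ₂.IsPrimitive) (n₁ : χ₁ ≠ 1) (n₂ : χ₂ ≠ 1)
    (par : χ₁ (-1) * χ₂ (-1) = 1) {a b c d : ℤ} (hdet : a * d - b * c = 1)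
    (ha : ((q₁ * q₂ : ℕ) : ℤ) ∣ a - 1) (hd : ((q₁ * q₂ : ℕ) : ℤ) ∣ d - 1)
    (hc : ((q₁ * q₂ : ℕ) : ℤ) ∣ c) (hcpos : 0 < c) {z : ℂ} (hz : 0 < z.im) :
    G χ₁⁻¹ * (f χ₁ χ₂ (((a : ℂ) * z + b) / (c * z + d)) - f χ₁ χ₂ z) =
      π * I * S χ₁ χ₂ a c := by
  have hpi := Real.pi_pos
  set U : Set ℂ := {w : ℂ | 0 < w.im} with hU
  have hUo : IsOpen U := isOpen_lt continuous_const Complex.continuous_im
  have hUc : IsPreconnected U := (convex_halfSpace_im_gt 0).isPreconnected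
  have hD : ∀ w ∈ U, (c : ℂ) * w + d ≠ 0 := fun w hw => denom_ne (Or.inl hcpos.ne') hw
  set φ : ℂ → ℂ := fun w => f χ₁ χ₂ (((a : ℂ) * w + b) / (c * w + d)) - f χ₁ χ₂ w with hφ
  have hderiv : ∀ w ∈ U, HasDerivAt φ 0 w := by
    intro w hw
    have h1 := (hasSum_deriv_f χ₁ χ₂ (im_mob hdet hw)).2.hasDerivAt
    have h2 := (hasSum_deriv_f χ₁ χ₂ (z := w) hw).2.hasDerivAt
    have hnum : HasDerivAt (fun w : ℂ => (a : ℂ) * w + b) a w := by
      simpa using ((hasDerivAt_id w).const_mul (a : ℂ)).add_const (b : ℂ)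
    have hden : HasDerivAt (fun w : ℂ => (c : ℂ) * w + d) c w := by
      simpa using ((hasDerivAt_id w).const_mul (c : ℂ)).add_const (d : ℂ)
    have hm := hnum.div hden (hD w hw)
    have h3 := (h1.comp w hm).sub h2
    refine h3.congr_deriv ?_
    rw [deriv_f_mob χ₁ χ₂ h₂ n₁ par hdet ha hd hc hw]
    have hdetC : (a : ℂ) * d - b * c = 1 := by exact_mod_cast hdet
    have hDw := hD w hw
    field_simp
    linear_combination (deriv (f χ₁ χ₂) w) * hdetC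
  have hconst : ∀ w ∈ U, φ w = φ z := by
    intro w hw
    refine hUo.is_const_of_deriv_eq_zero hUc (fun x hx => (hderiv x hx).differentiableAt.differentiableWithinAt)
      (fun x hx => (hderiv x hx).deriv) hw hz
  -- the limit
  have : NeZero c.toNat := ⟨by omega⟩
  have hcn : ((c.toNat : ℕ) : ℤ) = c := Int.toNat_of_nonneg hcpos.le
  have hcn' : q₁ * q₂ ∣ c.toNat := by
    rw [← Int.natCast_dvd_natCast, hcn]; exact hc
  have hlim := tendsto_f' (c := c.toNat) (a := a) χ₁ χ₂ h₁ n₁ n₂ par hcn' ha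
  rw [hcn] at hlim
  have hcC : ((c.toNat : ℕ) : ℂ) = (c : ℂ) := by
    have : (((c.toNat : ℕ) : ℤ) : ℂ) = (c : ℂ) := by rw [hcn]
    rwa [Int.cast_natCast] at this
  rw [hcC] at hlim
  have hcR : (0 : ℝ) < c := by exact_mod_cast hcpos
  have hcne : (c : ℂ) ≠ 0 := by exact_mod_cast hcpos.ne'
  set zy : ℝ → ℂ := fun y => -(d : ℂ) / c + (1 / (c ^ 2 * y) : ℝ) * I with hzy
  have hzyim : ∀ y, (zy y).im = 1 / (c ^ 2 * y) := by
    intro y
    simp only [hzy, Complex.add_im, Complex.mul_im, Complex.ofReal_re, Complex.I_im, mul_one,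
      Complex.ofReal_im, Complex.I_re, mul_zero, add_zero]
    have : (-(d : ℂ) / c).im = 0 := by
      have : (-(d : ℂ) / c) = ((-(d : ℝ) / c : ℝ) : ℂ) := by push_cast; ring
      rw [this, Complex.ofReal_im]
    rw [this, zero_add]
  have hmob : ∀ y : ℝ, 0 < y → ((a : ℂ) * zy y + b) / (c * zy y + d) = (a : ℂ) / c + y * I := by
    intro y hy
    have hy' : (y : ℂ) ≠ 0 := by exact_mod_cast hy.ne'
    have hdetC : (a : ℂ) * d - b * c = 1 := by exact_mod_cast hdet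
    have e1 : (c : ℂ) * zy y + d = I / (c * y) := by
      simp only [hzy]
      push_cast
      field_simp
      ring
    rw [e1]
    have hI : (I / ((c : ℂ) * y)) ≠ 0 := div_ne_zero Complex.I_ne_zero (mul_ne_zero hcne hy')
    rw [div_eq_iff hI]
    simp only [hzy]
    push_cast
    field_simp
    linear_combination (-y * c : ℂ) * hdetC - (y * c : ℂ) * Complex.I_sq
  have hf0 : Tendsto (fun y : ℝ => G χ₁⁻¹ * f χ₁ χ₂ (zy y)) (𝓝[>] 0) (𝓝 (G χ₁⁻¹ * 0)) := by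
    apply Tendsto.const_mul
    rw [tendsto_zero_iff_norm_tendsto_zero]
    set C := ((Real.exp (-2 * π))⁻¹ * ∑' p : ℕ+ × ℕ+, Real.exp (-2 * π) ^ ((p.1 : ℕ) * (p.2 : ℕ))) with hC
    have hb : Tendsto (fun y : ℝ => Real.exp (-2 * π * (1 / (c ^ 2 * y))) * C) (𝓝[>] 0) (𝓝 (0 * C)) := by
      apply Tendsto.mul_const
      apply Real.tendsto_exp_atBot.comp
      have h1 : Tendsto (fun y : ℝ => (1 / ((c : ℝ) ^ 2 * y))) (𝓝[>] 0) atTop := by
        have h2 : Tendsto (fun y : ℝ => y⁻¹) (𝓝[>] 0) atTop := tendsto_inv_nhdsGT_zero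
        have h3 := h2.const_mul_atTop (r := ((c : ℝ) ^ 2)⁻¹) (by positivity)
        refine h3.congr fun y => ?_
        rw [one_div, mul_inv]
      have h4 := h1.const_mul_atTop_of_neg (r := -2 * π) (by linarith)
      exact h4
    rw [zero_mul] at hb
    refine squeeze_zero' (Eventually.of_forall fun y => norm_nonneg _) ?_ hb
    have hev : ∀ᶠ y : ℝ in 𝓝[>] 0, y < 1 / c ^ 2 := by
      apply Filter.Eventually.filter_mono nhdsWithin_le_nhds
      exact eventually_lt_nhds (by positivity)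
    filter_upwards [self_mem_nhdsWithin, hev] with y hy hy2
    have hy : 0 < y := hy
    have h1 : 1 ≤ (zy y).im := by
      rw [hzyim, le_div_iff₀ (by positivity)]
      rw [lt_div_iff₀ (by positivity)] at hy2
      linarith
    have := norm_f_le_of_one_le χ₁ χ₂ h1
    rwa [hzyim] at this
  have hlim2 := hlim.sub hf0
  rw [mul_zero, sub_zero] at hlim2
  have hconst2 : Tendsto (fun _ : ℝ => G χ₁⁻¹ * φ z) (𝓝[>] 0) (𝓝 (G χ₁⁻¹ * φ z)) :=
    tendsto_const_nhds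
  refine tendsto_nhds_unique hconst2 (hlim2.congr' ?_)
  filter_upwards [self_mem_nhdsWithin] with y hy
  have hy : 0 < y := hy
  have hzU : zy y ∈ U := by
    show 0 < (zy y).im
    rw [hzyim]; positivity
  rw [← hconst _ hzU, hφ]
  simp only
  rw [hmob y hy]
  ring

end NDS
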